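import Pool.Agent.Lib.MP_03175e_co.G01

/-!
Row A01: minimum degree (paper section 3, (A0)).
-/

namespace Pool.Agent.Lib.MP_03175e_co

open Finset Classical

variable {V : Type} [Fintype V] {G : SimpleGraph V} {L : V → Finset ℕ}

theorem A01_mem_nb {u v : V} : u ∈ nb G v ↔ G.Adj v u := by
  unfold nb
  simp

/-- a set without edges to the outside can be coloured separately -/
theorem A01_comp (h : MinCE G L) (X : Finset V) (hX : X.Nonempty)
    (hcl : ∀ x ∈ X, ∀ n ∈ nb G x, n ∈ X) (c : V → ℕ) (h1 : ∀ x ∈ X, c x ∈ L x)
    (h2 : ∀ x ∈ X, ∀ n ∈ nb G x, c x ≠ c n) (h3 : ∀ x ∈ X, (nb G x).Nonempty → CF (nb G x) c) :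
    False := by
  have hout : ∀ v, v ∉ X → nb G v \ X = nb G v := by
    intro v hv
    rw [Finset.sdiff_eq_self_iff_disjoint, Finset.disjoint_left]
    intro w hw hwX
    apply hv
    apply hcl w hwX
    rw [A01_mem_nb] at hw ⊢
    exact hw.symm
  obtain ⟨φ, hφ1, hφ2, hφ3⟩ := h.ih X hX L (by
    intro v hv
    rw [hout v hv, h.card v]
    exact le_refl _)
  apply h.none (fun v => if v ∈ X then c v else φ v)
  refine ⟨?_, ?_, ?_⟩
  · intro v _
    by_cases hv : v ∈ X
    · simp only [hv, if_true]
      exact h1 v hv
    · simp only [hv, if_false]
      exact hφ1 v hv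
  · intro u v _ _ huv
    by_cases hu : u ∈ X
    · have hvn : v ∈ nb G u := A01_mem_nb.2 huv
      have hv : v ∈ X := hcl u hu v hvn
      simp only [hu, hv, if_true]
      exact h2 u hu v hvn
    · have hv : v ∉ X := by
        intro hv
        exact hu (hcl v hv u (A01_mem_nb.2 huv.symm))
      simp only [hu, hv, if_false]
      exact hφ2 u v hu hv huv
  · intro v _ hne
    rw [Finset.sdiff_empty] at hne ⊢
    by_cases hv : v ∈ X
    · obtain ⟨u, hu, huu⟩ := h3 v hv hne
      refine ⟨u, hu, ?_⟩
      intro w hw hww
      apply huu w hw
      simpa only [hcl v hv u hu, hcl v hv w hw, if_true] using hww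
    · have := hφ3 v hv (by rw [hout v hv]; exact hne)
      rw [hout v hv] at this
      obtain ⟨u, hu, huu⟩ := this
      have hnX : ∀ w ∈ nb G v, w ∉ X := by
        intro w hw hwX
        rw [← hout v hv] at hw
        exact (Finset.mem_sdiff.1 hw).2 hwX
      refine ⟨u, hu, ?_⟩
      intro w hw hww
      apply huu w hw
      simpa only [hnX u hu, hnX w hw, if_false] using hww

/-- (A0). `dg G v = 0`: use `h.ih {v}` directly (lists `L`), colour `v` arbitrarily from `L v`; the
result is `Good G L ∅` (CF is required only for nonempty neighbourhoods): contradiction.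
`nb G v = {u}`, `nb G u = {v}`: the same with `X = {u, v}` (two different colours).
`nb G v = {u}`, `2 ≤ dg G u`: `h.delete` with `X = {v}`, `a = fun _ => ∅`; choose
`ψ v ∈ L v \ κ u` (`(L v).card = 3`, `(κ u).card ≤ 2`). -/
theorem MinCE.deg2 (h : MinCE G L) (v : V) : 2 ≤ dg G v := by
  by_contra hlt
  have hcases : dg G v = 0 ∨ dg G v = 1 := by omega
  rcases hcases with h0 | h1
  · have hnb : nb G v = ∅ := Finset.card_eq_zero.1 h0
    have hc : 0 < (L v).card := by
      rw [h.card v]
      omega
    obtain ⟨c, hc⟩ := Finset.card_pos.1 hc
    refine A01_comp h {v} (Finset.singleton_nonempty v) ?_ (fun _ => c) ?_ ?_ ?_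
    · intro x hx n hn
      rw [Finset.mem_singleton] at hx
      rw [hx, hnb] at hn
      simp at hn
    · intro x hx
      rw [Finset.mem_singleton] at hx
      rw [hx]
      exact hc
    · intro x hx n hn
      rw [Finset.mem_singleton] at hx
      rw [hx, hnb] at hn
      simp at hn
    · intro x hx hne
      rw [Finset.mem_singleton] at hx
      rw [hx, hnb] at hne
      simp at hne
  · obtain ⟨u, hu⟩ := Finset.card_eq_one.1 h1
    have huv : G.Adj v u := A01_mem_nb.1 (by rw [hu]; simp)
    have hvu : v ∈ nb G u := A01_mem_nb.2 huv.symm
    have hne : u ≠ v := huv.ne'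
    have hLv : (L v).card = 3 := by rw [h.card v, h1]
    by_cases hb : nb G u = {v}
    · have hLu : (L u).card = 3 := by
        rw [h.card u]
        unfold dg
        rw [hb]
        simp
      obtain ⟨c, hc⟩ := Finset.card_pos.1 (show 0 < (L v).card by omega)
      have hpos : 0 < ((L u).erase c).card := by
        have := Finset.pred_card_le_card_erase (s := L u) (a := c)
        omega
      obtain ⟨d, hd⟩ := Finset.card_pos.1 hpos
      obtain ⟨hdc, hdL⟩ := Finset.mem_erase.1 hd
      refine A01_comp h {u, v} ⟨u, by simp⟩ ?_ (fun w => if w = v then c else d) ?_ ?_ ?_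
      · intro x hx n hn
        rw [Finset.mem_insert, Finset.mem_singleton] at hx
        rcases hx with rfl | rfl
        · rw [hb] at hn
          simp at hn
          simp [hn]
        · rw [hu] at hn
          simp at hn
          simp [hn]
      · intro x hx
        rw [Finset.mem_insert, Finset.mem_singleton] at hx
        rcases hx with rfl | rfl
        · simp only [hne, if_false]
          exact hdL
        · simp only [if_true]
          exact hc
      · intro x hx n hn
        rw [Finset.mem_insert, Finset.mem_singleton] at hx
        rcases hx with rfl | rfl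
        · rw [hb] at hn
          simp only [Finset.mem_singleton] at hn
          subst hn
          simp only [hne, if_false, if_true]
          exact hdc
        · rw [hu] at hn
          simp only [Finset.mem_singleton] at hn
          subst hn
          simp only [hne, if_false, if_true]
          exact hdc.symm
      · intro x hx _
        rw [Finset.mem_insert, Finset.mem_singleton] at hx
        rcases hx with rfl | rfl
        · rw [hb]
          exact ⟨v, by simp, fun w hw _ => by simpa using hw⟩
        · rw [hu]
          exact ⟨u, by simp, fun w hw _ => by simpa using hw⟩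
    · have hex : (nb G u \ {v}).Nonempty := by
        rw [Finset.nonempty_iff_ne_empty]
        intro hemp
        rw [Finset.sdiff_eq_empty_iff_subset] at hemp
        apply hb
        apply Finset.Subset.antisymm hemp
        intro w hw
        rw [Finset.mem_singleton] at hw
        rw [hw]
        exact hvu
      obtain ⟨φ, κ, hE, -⟩ := h.delete (X := {v}) (Finset.singleton_nonempty v) (by
        intro w hw hwn
        obtain ⟨z, hz⟩ := hwn
        rw [Finset.mem_inter, Finset.mem_singleton] at hz
        obtain ⟨hz1, rfl⟩ := hz
        have : w ∈ nb G z := A01_mem_nb.2 (A01_mem_nb.1 hz1).symm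
        rw [hu, Finset.mem_singleton] at this
        rw [this]
        exact hex) (fun _ => ∅) (by
        intro w _
        simp)
      have huX : u ∉ ({v} : Finset V) := by
        rw [Finset.mem_singleton]
        exact hne
      have hpos : 0 < (L v \ κ u).card := by
        have h5 := Finset.le_card_sdiff (κ u) (L v)
        have h6 := hE.κcard u huX
        omega
      obtain ⟨c, hc⟩ := Finset.card_pos.1 hpos
      obtain ⟨hcL, hcκ⟩ := Finset.mem_sdiff.1 hc
      refine hE.fin (Function.update φ v c) ?_ ?_
      · intro w hw
        rw [Finset.mem_singleton] at hw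
        rw [Function.update_of_ne hw]
      · intro b hbv
        rw [Finset.mem_singleton] at hbv
        subst hbv
        refine ⟨?_, ?_, ?_⟩
        · rw [Function.update_self]
          exact hcL
        · intro n hn
          rw [hu, Finset.mem_singleton] at hn
          subst hn
          rw [Function.update_self, Function.update_of_ne hne]
          refine ⟨?_, fun _ => hcκ⟩
          intro hh
          apply hcκ
          rw [hh]
          exact hE.κmem n huX
        · rw [hu]
          exact ⟨u, by simp, fun w hw _ => by simpa using hw⟩

end Pool.Agent.Lib.MP_03175e_co
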