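import Pool.Agent.Lib.MP_03175e_co.G01

/-!
Row A02: four consecutive vertices of degree two (paper section 3, (A1)).
-/

namespace Pool.Agent.Lib.MP_03175e_co

open Finset Classical

variable {V : Type} [Fintype V] {G : SimpleGraph V} {L : V → Finset ℕ}

private theorem A02_mem {v w : V} : w ∈ nb G v ↔ G.Adj v w := by simp [nb]

private theorem A02_other {v w : V} (hv : dg G v = 2) (hw : G.Adj v w) :
    ∃ p, p ≠ w ∧ nb G v = {w, p} := by
  obtain ⟨x, y, hxy, hn⟩ := Finset.card_eq_two.mp hv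
  have hw' : w ∈ nb G v := A02_mem.mpr hw
  rw [hn] at hw'
  simp only [Finset.mem_insert, Finset.mem_singleton] at hw'
  rcases hw' with rfl | rfl
  · exact ⟨y, hxy.symm, hn⟩
  · exact ⟨x, hxy, by rw [hn, Finset.pair_comm]⟩

private theorem A02_two {v w p : V} (hv : dg G v = 2) (hw : G.Adj v w) (hp : G.Adj v p)
    (hne : p ≠ w) : nb G v = {w, p} := by
  obtain ⟨p', hp', hn⟩ := A02_other hv hw
  have h1 : p ∈ nb G v := A02_mem.mpr hp
  rw [hn] at h1
  simp only [Finset.mem_insert, Finset.mem_singleton] at h1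
  rcases h1 with h | h
  · exact absurd h hne
  · rw [hn, h]

omit [Fintype V] in
private theorem A02_cf {x y : V} {e : V → ℕ} (hne : e x ≠ e y) : CF {x, y} e := by
  refine ⟨x, by simp, fun v hv h => ?_⟩
  simp only [Finset.mem_insert, Finset.mem_singleton] at hv
  rcases hv with rfl | rfl
  · rfl
  · exact absurd h.symm hne

private theorem A02_erase {S : Finset ℕ} {c n : ℕ} (h : n + 1 ≤ S.card) : n ≤ (S.erase c).card := by
  have := Finset.pred_card_le_card_erase (s := S) (a := c)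
  omega

private theorem A02_pick {S : Finset ℕ} (c c' : ℕ) (h : 3 ≤ S.card) : ∃ x ∈ S, x ≠ c ∧ x ≠ c' := by
  have h1 : 2 ≤ (S.erase c).card := A02_erase h
  have h2 : 1 ≤ ((S.erase c).erase c').card := A02_erase h1
  obtain ⟨x, hx⟩ := Finset.card_pos.mp h2
  rw [Finset.mem_erase, Finset.mem_erase] at hx
  exact ⟨x, hx.2.2, hx.2.1, hx.1⟩

private theorem A02_pick1 {S : Finset ℕ} (c : ℕ) (h : 2 ≤ S.card) : ∃ x ∈ S, x ≠ c := by
  have h2 : 1 ≤ (S.erase c).card := A02_erase h
  obtain ⟨x, hx⟩ := Finset.card_pos.mp h2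
  rw [Finset.mem_erase] at hx
  exact ⟨x, hx.2, hx.1⟩

/-- list colouring of K4 minus an edge with lists of sizes 2, 3, 3, 2 -/
private theorem A02_k4 {A B C D : Finset ℕ} (hA : 2 ≤ A.card) (hB : 3 ≤ B.card) (hC : 3 ≤ C.card)
    (hD : 2 ≤ D.card) : ∃ x ∈ A, ∃ y ∈ B, ∃ z ∈ C, ∃ w ∈ D, x ≠ y ∧ y ≠ z ∧ z ≠ w ∧ x ≠ z ∧ y ≠ w := by
  by_cases hAD : Disjoint A D
  · obtain ⟨B', hB', hB3⟩ := Finset.exists_subset_card_eq hB
    have h1 : (A ∪ D).card = A.card + D.card := Finset.card_union_of_disjoint hAD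
    have h2 : ∃ g ∈ A ∪ D, g ∉ B' := by
      by_contra hcon
      push Not at hcon
      have := Finset.card_le_card (show A ∪ D ⊆ B' from hcon)
      omega
    obtain ⟨g, hg, hgB⟩ := h2
    obtain ⟨z, hz, hzg⟩ := A02_pick1 (S := C) g (by omega)
    rw [Finset.mem_union] at hg
    rcases hg with hg | hg
    · obtain ⟨w, hw, hwz⟩ := A02_pick1 z hD
      obtain ⟨y, hy, hyz, hyw⟩ := A02_pick z w (by omega : 3 ≤ B'.card)
      exact ⟨g, hg, y, hB' hy, z, hz, w, hw, fun h => hgB (h ▸ hy), hyz, hwz.symm, hzg.symm, hyw⟩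
    · obtain ⟨x, hx, hxz⟩ := A02_pick1 z hA
      obtain ⟨y, hy, hyz, hyx⟩ := A02_pick z x (by omega : 3 ≤ B'.card)
      exact ⟨x, hx, y, hB' hy, z, hz, g, hg, hyx.symm, hyz, hzg, hxz, fun h => hgB (h ▸ hy)⟩
  · rw [Finset.not_disjoint_iff] at hAD
    obtain ⟨g, hgA, hgD⟩ := hAD
    obtain ⟨y, hy, hyg⟩ := A02_pick1 (S := B) g (by omega)
    obtain ⟨z, hz, hzg, hzy⟩ := A02_pick g y hC
    exact ⟨g, hgA, y, hy, z, hz, g, hgD, hyg.symm, hzy.symm, hzg, hzg.symm, hyg⟩

/-- (A1). Let `p` be the other neighbour of `a`, `q` the other neighbour of `d` (`p ≠ q`, otherwise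
a closed walk of length 5; `a, b, c, d, p, q` are different). `X = {a, b, c, d}`; every outside
vertex has at most one neighbour in `X`. Constraints: `ψ a ∉ κ p`, `ψ d ∉ κ q`, `ψ b ≠ φ p` (CF at
`a`), `ψ c ≠ φ q` (CF at `d`), `ψ a ≠ ψ c` (CF at `b`), `ψ b ≠ ψ d` (CF at `c`) and proper. So lists
`La, Lb, Lc, Ld` of sizes at least 2, 3, 3, 2 and conflicts `ab, bc, cd, ac, bd` (`K₄` minus
`ad`). If `La ∩ Ld` contains `γ`: `ψ a = ψ d = γ`, then `ψ b ∈ Lb.erase γ`, `ψ c ∈ Lc \ {γ, ψ b}`.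
Otherwise shrink `Lb` to three elements; `(La ∪ Ld).card ≥ 4`, so there is `γ ∈ La \ Lb` (put
`ψ a = γ`, then `ψ c ∈ Lc.erase γ`, `ψ d ∈ Ld.erase (ψ c)`, `ψ b ∈ Lb \ {ψ c, ψ d}`) or
`γ ∈ Ld \ Lb` (put `ψ d = γ`, then `ψ c ∈ Lc.erase γ`, `ψ a ∈ La.erase (ψ c)`,
`ψ b ∈ Lb \ {ψ a, ψ c}`). -/
theorem MinCE.four (h : MinCE G L) (h2 : ∀ v, 2 ≤ dg G v) (a b c d : V) (hab : G.Adj a b)
    (hbc : G.Adj b c) (hcd : G.Adj c d) (hac : a ≠ c) (hbd : b ≠ d) (ha : dg G a = 2)
    (hb : dg G b = 2) (hc : dg G c = 2) (hd : dg G d = 2) : False := by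
  have nab := hab.ne
  have nbc := hbc.ne
  have ncd := hcd.ne
  have nad : a ≠ d := by
    rintro rfl
    exact h.short.c3 a b c hab hbc hcd
  obtain ⟨p, hpb, hna⟩ := A02_other ha hab
  obtain ⟨q, hqc, hnd⟩ := A02_other hd hcd.symm
  have hnb : nb G b = {a, c} := A02_two hb hab.symm hbc hac.symm
  have hnc : nb G c = {b, d} := A02_two hc hbc.symm hcd hbd.symm
  have hap : G.Adj a p := A02_mem.mp (by rw [hna]; simp)
  have hdq : G.Adj d q := A02_mem.mp (by rw [hnd]; simp)
  have npa : p ≠ a := hap.ne'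
  have nqd : q ≠ d := hdq.ne'
  have npc : p ≠ c := by
    rintro rfl
    exact h.short.c3 a b p hab hbc hap.symm
  have npd : p ≠ d := by
    rintro rfl
    exact h.short.c4 a b c p hab hbc hcd hap.symm hac hbd
  have nqb : q ≠ b := by
    rintro rfl
    exact h.short.c3 q c d hbc hcd hdq
  have nqa : q ≠ a := by
    rintro rfl
    exact h.short.c4 q b c d hab hbc hcd hdq hac hbd
  have npq : p ≠ q := by
    rintro rfl
    exact h.short.c5 a b c d p hab hbc hcd hdq hap.symm
  set X : Finset V := {a, b, c, d} with hX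
  have hXm : ∀ v, v ∈ X ↔ v = a ∨ v = b ∨ v = c ∨ v = d := by
    intro v; rw [hX]; simp
  have hpX : p ∉ X := by rw [hXm]; tauto
  have hqX : q ∉ X := by rw [hXm]; tauto
  have hone : ∀ v, v ∉ X → (nb G v ∩ X).card ≤ 1 := by
    intro v hv
    have key : ∀ x ∈ nb G v ∩ X, (x = a ∧ v = p) ∨ (x = d ∧ v = q) := by
      intro x hx
      rw [Finset.mem_inter, hXm, A02_mem] at hx
      obtain ⟨hx1, hx2⟩ := hx
      rw [hXm] at hv
      rcases hx2 with rfl | rfl | rfl | rfl
      · left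
        have : v ∈ nb G x := A02_mem.mpr hx1.symm
        rw [hna] at this
        simp only [Finset.mem_insert, Finset.mem_singleton] at this
        tauto
      · exfalso
        have : v ∈ nb G x := A02_mem.mpr hx1.symm
        rw [hnb] at this
        simp only [Finset.mem_insert, Finset.mem_singleton] at this
        tauto
      · exfalso
        have : v ∈ nb G x := A02_mem.mpr hx1.symm
        rw [hnc] at this
        simp only [Finset.mem_insert, Finset.mem_singleton] at this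
        tauto
      · right
        have : v ∈ nb G x := A02_mem.mpr hx1.symm
        rw [hnd] at this
        simp only [Finset.mem_insert, Finset.mem_singleton] at this
        tauto
    rw [Finset.card_le_one]
    intro x hx y hy
    rcases key x hx with ⟨h1, h2⟩ | ⟨h1, h2⟩ <;> rcases key y hy with ⟨h3, h4⟩ | ⟨h3, h4⟩
    · rw [h1, h3]
    · exact absurd (h2.symm.trans h4) npq
    · exact absurd (h4.symm.trans h2) npq
    · rw [h1, h3]
  have hiso : ∀ v, v ∉ X → (nb G v ∩ X).Nonempty → (nb G v \ X).Nonempty := by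
    intro v hv _
    rw [← Finset.card_pos]
    have h1 : (nb G v ∩ X).card + (nb G v \ X).card = (nb G v).card :=
      Finset.card_inter_add_card_sdiff _ _
    have h3 := hone v hv
    have h4 : 2 ≤ (nb G v).card := h2 v
    omega
  obtain ⟨φ, κ, hE, -⟩ := h.delete (X := X) ⟨a, by rw [hXm]; tauto⟩ hiso (fun _ => ∅) (by simp)
  have hcard : ∀ v, dg G v = 2 → (L v).card = 4 := fun v hv => by rw [h.card v, hv]
  have cA : 2 ≤ (L a \ κ p).card := by
    have h3 := Finset.le_card_sdiff (κ p) (L a)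
    have h4 := hE.κcard p hpX
    have h5 := hcard a ha
    omega
  have cD : 2 ≤ (L d \ κ q).card := by
    have h3 := Finset.le_card_sdiff (κ q) (L d)
    have h4 := hE.κcard q hqX
    have h5 := hcard d hd
    omega
  have cB : 3 ≤ ((L b).erase (φ p)).card := A02_erase (by rw [hcard b hb])
  have cC : 3 ≤ ((L c).erase (φ q)).card := A02_erase (by rw [hcard c hc])
  obtain ⟨x, hx, y, hy, z, hz, w, hw, hxy, hyz, hzw, hxz, hyw⟩ := A02_k4 cA cB cC cD
  rw [Finset.mem_sdiff] at hx hw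
  rw [Finset.mem_erase] at hy hz
  set ψ : V → ℕ := fun v => if v = a then x else if v = b then y else if v = c then z else
    if v = d then w else φ v with hψ
  have ψa : ψ a = x := by simp [hψ]
  have ψb : ψ b = y := by simp [hψ, nab.symm]
  have ψc : ψ c = z := by simp [hψ, hac.symm, nbc.symm]
  have ψd : ψ d = w := by simp [hψ, nad.symm, hbd.symm, ncd.symm]
  have ψo : ∀ v, v ∉ X → ψ v = φ v := by
    intro v hv
    rw [hXm] at hv
    push Not at hv
    simp [hψ, hv.1, hv.2.1, hv.2.2.1, hv.2.2.2]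
  have hxp : x ≠ φ p := fun h' => hx.2 (h' ▸ hE.κmem p hpX)
  have hwq : w ≠ φ q := fun h' => hw.2 (h' ▸ hE.κmem q hqX)
  refine hE.fin ψ ψo ?_
  intro v hv
  rw [hXm] at hv
  rcases hv with rfl | rfl | rfl | rfl
  · refine ⟨by rw [ψa]; exact hx.1, ?_, ?_⟩
    · intro n hn
      rw [hna] at hn
      simp only [Finset.mem_insert, Finset.mem_singleton] at hn
      rcases hn with rfl | rfl
      · rw [ψa, ψb]
        exact ⟨hxy, fun h' => absurd (by rw [hXm]; tauto) h'⟩
      · rw [ψa, ψo _ hpX]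
        exact ⟨hxp, fun _ => hx.2⟩
    · rw [hna]
      apply A02_cf
      rw [ψb, ψo _ hpX]
      exact hy.1
  · refine ⟨by rw [ψb]; exact hy.2, ?_, ?_⟩
    · intro n hn
      rw [hnb] at hn
      simp only [Finset.mem_insert, Finset.mem_singleton] at hn
      rcases hn with rfl | rfl
      · rw [ψa, ψb]
        exact ⟨hxy.symm, fun h' => absurd (by rw [hXm]; tauto) h'⟩
      · rw [ψb, ψc]
        exact ⟨hyz, fun h' => absurd (by rw [hXm]; tauto) h'⟩
    · rw [hnb]
      apply A02_cf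
      rw [ψa, ψc]
      exact hxz
  · refine ⟨by rw [ψc]; exact hz.2, ?_, ?_⟩
    · intro n hn
      rw [hnc] at hn
      simp only [Finset.mem_insert, Finset.mem_singleton] at hn
      rcases hn with rfl | rfl
      · rw [ψc, ψb]
        exact ⟨hyz.symm, fun h' => absurd (by rw [hXm]; tauto) h'⟩
      · rw [ψc, ψd]
        exact ⟨hzw, fun h' => absurd (by rw [hXm]; tauto) h'⟩
    · rw [hnc]
      apply A02_cf
      rw [ψb, ψd]
      exact hyw
  · refine ⟨by rw [ψd]; exact hw.1, ?_, ?_⟩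
    · intro n hn
      rw [hnd] at hn
      simp only [Finset.mem_insert, Finset.mem_singleton] at hn
      rcases hn with rfl | rfl
      · rw [ψd, ψc]
        exact ⟨hzw.symm, fun h' => absurd (by rw [hXm]; tauto) h'⟩
      · rw [ψd, ψo _ hqX]
        exact ⟨hwq, fun _ => hw.2⟩
    · rw [hnd]
      apply A02_cf
      rw [ψc, ψo _ hqX]
      exact hz.1

end Pool.Agent.Lib.MP_03175e_co
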