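import Pool.Agent.Lib.MP_03175e_co.A02

/-!
Row A03: threads ending in a vertex of degree three (paper section 3, (A2)).
-/

namespace Pool.Agent.Lib.MP_03175e_co

open Finset Classical

variable {V : Type} [Fintype V] {G : SimpleGraph V} {L : V → Finset ℕ}

private theorem A03_mem {v n : V} : n ∈ nb G v ↔ G.Adj v n := by simp [nb]

private theorem A03_other {v a : V} (hd : dg G v = 2) (ha : G.Adj v a) :
    ∃ b, b ≠ a ∧ G.Adj v b ∧ ∀ n, n ∈ nb G v ↔ n = a ∨ n = b := by
  obtain ⟨x, y, hxy, he⟩ := Finset.card_eq_two.1 (show (nb G v).card = 2 from hd)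
  have hmem : ∀ n, n ∈ nb G v ↔ n = x ∨ n = y := by
    intro n
    rw [he]
    simp
  have h1 : a = x ∨ a = y := (hmem a).1 (A03_mem.2 ha)
  rcases h1 with h1 | h1
  · refine ⟨y, ?_, A03_mem.1 ((hmem y).2 (Or.inr rfl)), ?_⟩
    · rw [h1]
      exact hxy.symm
    · intro n
      rw [hmem, h1]
  · refine ⟨x, ?_, A03_mem.1 ((hmem x).2 (Or.inl rfl)), ?_⟩
    · rw [h1]
      exact hxy
    · intro n
      rw [hmem, h1]
      exact or_comm

private theorem A03_choose {A B : Finset ℕ} (h : B.card < A.card) : ∃ x ∈ A, x ∉ B := by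
  by_contra hc
  push Not at hc
  exact absurd (Finset.card_le_card (show A ⊆ B from fun x hx => hc x hx)) (by omega)

private theorem A03_cf {v a b : V} (hn : ∀ n, n ∈ nb G v ↔ n = a ∨ n = b) {ψ : V → ℕ}
    (h : ψ a ≠ ψ b) : CF (nb G v) ψ := by
  refine ⟨a, (hn a).2 (Or.inl rfl), ?_⟩
  intro w hw he
  rcases (hn w).1 hw with h1 | h1
  · exact h1
  · rw [h1] at he
    exact absurd he.symm h

/-- one vertex of degree two -/
private theorem A03_val {X : Finset V} {κ : V → Finset ℕ} {ψ : V → ℕ} {v a b : V}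
    (hn : ∀ n, n ∈ nb G v ↔ n = a ∨ n = b) (hL : ψ v ∈ L v) (ha : ψ v ≠ ψ a)
    (hb : ψ v ≠ ψ b) (ha' : a ∉ X → ψ v ∉ κ a) (hb' : b ∉ X → ψ v ∉ κ b) (hab : ψ a ≠ ψ b) :
    ψ v ∈ L v ∧ (∀ n ∈ nb G v, ψ v ≠ ψ n ∧ (n ∉ X → ψ v ∉ κ n)) ∧ CF (nb G v) ψ := by
  refine ⟨hL, ?_, A03_cf hn hab⟩
  intro n hnn
  rcases (hn n).1 hnn with h1 | h1
  · rw [h1]
    exact ⟨ha, ha'⟩
  · rw [h1]
    exact ⟨hb, hb'⟩

private theorem A03_kap {X : Finset V} {φ : V → ℕ} {κ : V → Finset ℕ} (he : Ext G L X φ κ) {y z : V}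
    (hy : y ∉ X) (hd : dg G y = 3) (hX : nb G y ∩ X = {z}) {c : ℕ} (hc : c ≠ φ y) : c ∉ κ y := by
  have h1 := he.κcard1 y hy hd (by rw [hX, Finset.card_singleton])
  obtain ⟨x, hx⟩ := Finset.card_eq_one.1 h1
  have h2 := he.κmem y hy
  rw [hx, Finset.mem_singleton] at h2
  rw [hx, Finset.mem_singleton, ← h2]
  exact hc

private theorem A03_case1 (h : MinCE G L) (h2 : ∀ v, 2 ≤ dg G v) (z z' y m : V)
    (hd : dg G y = 3) (hyz : y ≠ z) (hyz' : y ≠ z') (hmz : m ≠ z) (hmz' : m ≠ z')
    (hzz : z ≠ z') (hym : y ≠ m) (hz : dg G z = 2) (hz' : dg G z' = 2)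
    (nz : ∀ n, n ∈ nb G z ↔ n = z' ∨ n = m) (nz' : ∀ n, n ∈ nb G z' ↔ n = z ∨ n = y) : False := by
  set X : Finset V := {z, z'} with hX
  have hyX : y ∉ X := by simp [hX, hyz, hyz']
  have hmX : m ∉ X := by simp [hX, hmz, hmz']
  have hzX : z ∈ X := by simp [hX]
  have hz'X : z' ∈ X := by simp [hX]
  have adj : ∀ v x, x ∈ nb G v → v ∈ nb G x := fun v x hx => A03_mem.2 (A03_mem.1 hx).symm
  have hyi : nb G y ∩ X = {z'} := by
    ext n
    simp only [Finset.mem_inter, Finset.mem_singleton]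
    constructor
    · rintro ⟨h3, h4⟩
      simp only [hX, Finset.mem_insert, Finset.mem_singleton] at h4
      rcases h4 with h4 | h4
      · rw [h4] at h3
        rcases (nz y).1 (adj _ _ h3) with h5 | h5
        · exact absurd h5 hyz'
        · exact absurd h5 hym
      · exact h4
    · intro h3
      rw [h3]
      exact ⟨adj _ _ ((nz' y).2 (Or.inr rfl)), hz'X⟩
  have hmi : nb G m ∩ X = {z} := by
    ext n
    simp only [Finset.mem_inter, Finset.mem_singleton]
    constructor
    · rintro ⟨h3, h4⟩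
      simp only [hX, Finset.mem_insert, Finset.mem_singleton] at h4
      rcases h4 with h4 | h4
      · exact h4
      · rw [h4] at h3
        rcases (nz' m).1 (adj _ _ h3) with h5 | h5
        · exact absurd h5 hmz
        · exact absurd h5.symm hym
    · intro h3
      rw [h3]
      exact ⟨adj _ _ ((nz m).2 (Or.inr rfl)), hzX⟩
  have hne : ∀ v x : V, nb G v ∩ X = {x} → (nb G v \ X).Nonempty := by
    intro v x hv
    rw [← Finset.card_pos]
    have h3 := Finset.card_sdiff_add_card_inter (nb G v) X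
    rw [hv, Finset.card_singleton] at h3
    have := h2 v
    unfold dg at this
    omega
  obtain ⟨φ, κ, he, -⟩ := h.delete (X := X) ⟨z, hzX⟩ (by
    intro v hv hvX
    obtain ⟨x, hx⟩ := hvX
    rw [Finset.mem_inter] at hx
    obtain ⟨hx1, hx2⟩ := hx
    simp only [hX, Finset.mem_insert, Finset.mem_singleton] at hx2
    rcases hx2 with hx2 | hx2
    · rw [hx2] at hx1
      rcases (nz v).1 (adj _ _ hx1) with h5 | h5
      · rw [h5] at hv
        exact absurd hz'X hv
      · rw [h5]
        exact hne m z hmi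
    · rw [hx2] at hx1
      rcases (nz' v).1 (adj _ _ hx1) with h5 | h5
      · rw [h5] at hv
        exact absurd hzX hv
      · rw [h5]
        exact hne y z' hyi) (fun _ => ∅) (fun v _ => by simp)
  have hLz : (L z).card = 4 := by rw [h.card, hz]
  have hLz' : (L z').card = 4 := by rw [h.card, hz']
  obtain ⟨c, hc1, hc2⟩ := A03_choose (A := L z) (B := insert (φ y) (κ m)) (by
    have := Finset.card_insert_le (φ y) (κ m)
    have := he.κcard m hmX
    omega)
  obtain ⟨c', hc1', hc2'⟩ := A03_choose (A := L z') (B := {φ y, φ m, c}) (by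
    have := Finset.card_le_three (a := φ y) (b := φ m) (c := c)
    omega)
  simp only [Finset.mem_insert, not_or, Finset.mem_singleton] at hc2 hc2'
  set ψ : V → ℕ := fun v => if v = z then c else if v = z' then c' else φ v with hψ
  have pz : ψ z = c := by simp [hψ]
  have pz' : ψ z' = c' := by simp [hψ, hzz.symm]
  have po : ∀ v, v ≠ z → v ≠ z' → ψ v = φ v := fun v h3 h4 => by simp [hψ, h3, h4]
  refine he.fin ψ ?_ ?_
  · intro v hv
    simp only [hX, Finset.mem_insert, Finset.mem_singleton, not_or] at hv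
    exact po v hv.1 hv.2
  · intro b hb
    simp only [hX, Finset.mem_insert, Finset.mem_singleton] at hb
    rcases hb with hb | hb
    · rw [hb]
      refine A03_val nz ?_ ?_ ?_ ?_ ?_ ?_
      · rw [pz]; exact hc1
      · rw [pz, pz']; exact fun h => hc2'.2.2 h.symm
      · rw [pz, po m hmz hmz']
        exact fun h => hc2.2 (h ▸ he.κmem m hmX)
      · exact fun h => absurd hz'X h
      · rw [pz]
        exact fun _ => hc2.2
      · rw [pz', po m hmz hmz']
        exact hc2'.2.1
    · rw [hb]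
      refine A03_val nz' ?_ ?_ ?_ ?_ ?_ ?_
      · rw [pz']; exact hc1'
      · rw [pz, pz']; exact hc2'.2.2
      · rw [pz', po y hyz hyz']
        exact hc2'.1
      · exact fun h => absurd hzX h
      · rw [pz']
        exact fun _ => A03_kap he hyX hd hyi hc2'.1
      · rw [pz, po y hyz hyz']
        exact hc2.1

private theorem A03_case2 (h : MinCE G L) (h2 : ∀ v, 2 ≤ dg G v) (z z' y m m' : V)
    (hd : dg G y = 3) (hyz : y ≠ z) (hyz' : y ≠ z') (hym : y ≠ m)
    (hmz : m' ≠ z) (hmz' : m' ≠ z') (hmm : m' ≠ m)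
    (hzz : z ≠ z') (hzm : z ≠ m) (hz'm : z' ≠ m) (hym' : y ≠ m') (hz : dg G z = 2)
    (hz' : dg G z' = 2) (hm : dg G m = 2)
    (nz : ∀ n, n ∈ nb G z ↔ n = z' ∨ n = m) (nz' : ∀ n, n ∈ nb G z' ↔ n = z ∨ n = y)
    (nm : ∀ n, n ∈ nb G m ↔ n = z ∨ n = m') : False := by
  set X : Finset V := {z, z', m} with hX
  have hyX : y ∉ X := by simp [hX, hyz, hyz', hym]
  have hmX : m' ∉ X := by simp [hX, hmz, hmz', hmm]
  have hzX : z ∈ X := by simp [hX]
  have hz'X : z' ∈ X := by simp [hX]
  have hm2X : m ∈ X := by simp [hX]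
  have adj : ∀ v x, x ∈ nb G v → v ∈ nb G x := fun v x hx => A03_mem.2 (A03_mem.1 hx).symm
  have hyi : nb G y ∩ X = {z'} := by
    ext n
    simp only [Finset.mem_inter, Finset.mem_singleton]
    constructor
    · rintro ⟨h3, h4⟩
      simp only [hX, Finset.mem_insert, Finset.mem_singleton] at h4
      rcases h4 with h4 | h4 | h4
      · rw [h4] at h3
        rcases (nz y).1 (adj _ _ h3) with h5 | h5
        · exact absurd h5 hyz'
        · exact absurd h5 hym
      · exact h4
      · rw [h4] at h3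
        rcases (nm y).1 (adj _ _ h3) with h5 | h5
        · exact absurd h5 hyz
        · exact absurd h5 hym'
    · intro h3
      rw [h3]
      exact ⟨adj _ _ ((nz' y).2 (Or.inr rfl)), hz'X⟩
  have hmi : nb G m' ∩ X = {m} := by
    ext n
    simp only [Finset.mem_inter, Finset.mem_singleton]
    constructor
    · rintro ⟨h3, h4⟩
      simp only [hX, Finset.mem_insert, Finset.mem_singleton] at h4
      rcases h4 with h4 | h4 | h4
      · rw [h4] at h3
        rcases (nz m').1 (adj _ _ h3) with h5 | h5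
        · exact absurd h5 hmz'
        · exact absurd h5 hmm
      · rw [h4] at h3
        rcases (nz' m').1 (adj _ _ h3) with h5 | h5
        · exact absurd h5 hmz
        · exact absurd h5.symm hym'
      · exact h4
    · intro h3
      rw [h3]
      exact ⟨adj _ _ ((nm m').2 (Or.inr rfl)), hm2X⟩
  have hne : ∀ v x : V, nb G v ∩ X = {x} → (nb G v \ X).Nonempty := by
    intro v x hv
    rw [← Finset.card_pos]
    have h3 := Finset.card_sdiff_add_card_inter (nb G v) X
    rw [hv, Finset.card_singleton] at h3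
    have := h2 v
    unfold dg at this
    omega
  obtain ⟨φ, κ, he, -⟩ := h.delete (X := X) ⟨z, hzX⟩ (by
    intro v hv hvX
    obtain ⟨x, hx⟩ := hvX
    rw [Finset.mem_inter] at hx
    obtain ⟨hx1, hx2⟩ := hx
    simp only [hX, Finset.mem_insert, Finset.mem_singleton] at hx2
    rcases hx2 with hx2 | hx2 | hx2
    · rw [hx2] at hx1
      rcases (nz v).1 (adj _ _ hx1) with h5 | h5
      · rw [h5] at hv
        exact absurd hz'X hv
      · rw [h5] at hv
        exact absurd hm2X hv
    · rw [hx2] at hx1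
      rcases (nz' v).1 (adj _ _ hx1) with h5 | h5
      · rw [h5] at hv
        exact absurd hzX hv
      · rw [h5]
        exact hne y z' hyi
    · rw [hx2] at hx1
      rcases (nm v).1 (adj _ _ hx1) with h5 | h5
      · rw [h5] at hv
        exact absurd hzX hv
      · rw [h5]
        exact hne m' m hmi) (fun _ => ∅) (fun v _ => by simp)
  have hLz : (L z).card = 4 := by rw [h.card, hz]
  have hLz' : (L z').card = 4 := by rw [h.card, hz']
  have hLm : (L m).card = 4 := by rw [h.card, hm]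
  obtain ⟨d, hd1, hd2⟩ := A03_choose (A := L m) (B := κ m') (by
    have := he.κcard m' hmX
    omega)
  obtain ⟨c, hc1, hc2⟩ := A03_choose (A := L z) (B := {φ y, φ m', d}) (by
    have := Finset.card_le_three (a := φ y) (b := φ m') (c := d)
    omega)
  obtain ⟨c', hc1', hc2'⟩ := A03_choose (A := L z') (B := {φ y, c, d}) (by
    have := Finset.card_le_three (a := φ y) (b := c) (c := d)
    omega)
  simp only [Finset.mem_insert, not_or, Finset.mem_singleton] at hc2 hc2'
  set ψ : V → ℕ := fun v => if v = z then c else if v = z' then c' else if v = m then d else φ v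
    with hψ
  have pz : ψ z = c := by simp [hψ]
  have pz' : ψ z' = c' := by simp [hψ, hzz.symm]
  have pm : ψ m = d := by simp [hψ, hzm.symm, hz'm.symm]
  have po : ∀ v, v ≠ z → v ≠ z' → v ≠ m → ψ v = φ v := fun v h3 h4 h5 => by simp [hψ, h3, h4, h5]
  have py := po y hyz hyz' hym
  have pm' := po m' hmz hmz' hmm
  refine he.fin ψ ?_ ?_
  · intro v hv
    simp only [hX, Finset.mem_insert, Finset.mem_singleton, not_or] at hv
    exact po v hv.1 hv.2.1 hv.2.2
  · intro b hb
    simp only [hX, Finset.mem_insert, Finset.mem_singleton] at hb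
    rcases hb with hb | hb | hb
    · rw [hb]
      refine A03_val nz ?_ ?_ ?_ ?_ ?_ ?_
      · rw [pz]; exact hc1
      · rw [pz, pz']; exact fun h => hc2'.2.1 h.symm
      · rw [pz, pm]; exact hc2.2.2
      · exact fun h => absurd hz'X h
      · exact fun h => absurd hm2X h
      · rw [pz', pm]
        exact hc2'.2.2
    · rw [hb]
      refine A03_val nz' ?_ ?_ ?_ ?_ ?_ ?_
      · rw [pz']; exact hc1'
      · rw [pz, pz']; exact hc2'.2.1
      · rw [pz', py]
        exact hc2'.1
      · exact fun h => absurd hzX h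
      · rw [pz']
        exact fun _ => A03_kap he hyX hd hyi hc2'.1
      · rw [pz, py]
        exact hc2.1
    · rw [hb]
      refine A03_val nm ?_ ?_ ?_ ?_ ?_ ?_
      · rw [pm]; exact hd1
      · rw [pm, pz]; exact fun h => hc2.2.2 h.symm
      · rw [pm, pm']
        exact fun h => hd2 (h ▸ he.κmem m' hmX)
      · exact fun h => absurd hzX h
      · rw [pm]
        exact fun _ => hd2
      · rw [pz, pm']
        exact hc2.2.1

/-- (A2). Suppose `dg G y = 3` (`dg G y ≥ 2`, `≠ 2`). Let `m ≠ z'` be the other neighbour of `z`.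
If `dg G m ≥ 3`: thread `y z' z m`; `X = {z, z'}`, `κ y = {φ y}` (one neighbour in `X`). Choose
`ψ z ∈ L z \ (κ m ∪ {φ y})` and `ψ z' ∈ L z' \ {φ y, φ m, ψ z}`.
If `dg G m = 2`: `m'` = other neighbour of `m`; `3 ≤ dg G m'` by `four`. `X = {z', z, m}`; choose
`ψ m ∈ L m \ κ m'`, `ψ z ∈ L z \ {φ y, φ m', ψ m}`, `ψ z' ∈ L z' \ {φ y, ψ z, ψ m}` (all three
different, `ψ z ≠ φ y`, `ψ z ≠ φ m'`). All vertices involved are different by `NoShort`. -/
theorem MinCE.thr (h : MinCE G L) (h2 : ∀ v, 2 ≤ dg G v) (z z' y : V) (hzz : G.Adj z z')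
    (hz : dg G z = 2) (hz' : dg G z' = 2) (hy : G.Adj z' y) (hyz : y ≠ z) (hd : dg G y ≠ 2) :
    4 ≤ dg G y := by
  by_contra hcon
  have hd3 : dg G y = 3 := by
    have := h2 y
    omega
  have hs := h.short
  obtain ⟨m, hmz', hzm, nz⟩ := A03_other hz hzz
  obtain ⟨w, hw, hz'w, nz'0⟩ := A03_other hz' hzz.symm
  have hwy : w = y := by
    rcases (nz'0 y).1 (A03_mem.2 hy) with h1 | h1
    · exact absurd h1 hyz
    · exact h1.symm
  rw [hwy] at nz'0
  have hym : y ≠ m := by
    intro h1
    rw [← h1] at hzm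
    exact hs.c3 z z' y hzz hy hzm.symm
  have hyz' : y ≠ z' := fun h1 => G.loopless.irrefl z' (by rw [h1] at hy; exact hy)
  have hmz : m ≠ z := fun h1 => G.loopless.irrefl z (by rw [h1] at hzm; exact hzm)
  have hzz'ne : z ≠ z' := hzz.ne
  by_cases hm : dg G m = 2
  · obtain ⟨m', hm'z, hmm', nm⟩ := A03_other hm hzm.symm
    have hm'm : m' ≠ m := hmm'.ne'
    have hm'z' : m' ≠ z' := by
      intro h1
      rw [h1] at hmm'
      exact hs.c3 z z' m hzz hmm'.symm hzm.symm
    have hym' : y ≠ m' := by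
      intro h1
      rw [← h1] at hmm'
      exact hs.c4 y z' z m hy.symm hzz.symm hzm hmm' hyz hmz'.symm
    exact A03_case2 h h2 z z' y m m' hd3 hyz hyz' hym hm'z hm'z' hm'm hzz'ne hmz.symm hmz'.symm
      hym' hz hz' hm nz nz'0 nm
  · exact A03_case1 h h2 z z' y m hd3 hyz hyz' hmz hmz' hzz'ne hym hz hz' nz nz'0

end Pool.Agent.Lib.MP_03175e_co
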