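import Pool.Agent.Lib.MP_03175e_co.Defs

/-!
Row G02: gluing branches (paper section 0.2).
-/

namespace Pool.Agent.Lib.MP_03175e_co

open Finset Classical

variable {V : Type} [Fintype V] {G : SimpleGraph V} {L : V → Finset ℕ} {X : Finset V}
  {φ : V → ℕ} {κ : V → Finset ℕ}

omit [Fintype V] in
private theorem G02_cf_congr {A : Finset V} {e e' : V → ℕ} (h : ∀ v ∈ A, e' v = e v) (hc : CF A e) :
    CF A e' := by
  obtain ⟨u, hu, huq⟩ := hc
  refine ⟨u, hu, fun v hv hvu => huq v hv ?_⟩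
  rw [← h v hv, ← h u hu, hvu]

/-- Let `ψ r` (`r ∈ I`) be the colourings given by `hfI`. Put `ψ v = e` for `v = x`, `ψ v = ψ_r v`
for `v ∈ B r`, `ψ v = φ v` for other `v ∉ X` and `ψ v = f v` otherwise. Every neighbour of a vertex
`b ∈ B r` is in `B r`, or equal to `x`, or outside `X`; there `ψ` and `ψ_r` agree, so `Val` on `B r`
carries over. -/
theorem glue (x : V) (hx : x ∈ X) (I : Finset V) (B : V → Finset V)
    (hB : ∀ r ∈ I, Branch G X (B r) x r)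
    (hdis : ∀ r ∈ I, ∀ s ∈ I, r ≠ s → Disjoint (B r) (B s))
    (hQ : ∀ n ∈ nb G x, n ∉ I → ∀ r ∈ I, n ∉ B r) {e : ℕ} (he : e ∈ L x) {f : V → ℕ}
    (hf : ∀ n ∈ nb G x, n ∉ X → f n = φ n)
    (hfe : ∀ n ∈ nb G x, n ∉ I → e ≠ f n ∧ (n ∉ X → e ∉ κ n))
    (hfI : ∀ r ∈ I, f r ∈ Opt G L X φ κ (B r) x r e) (hcf : CF (nb G x) f) :
    ∃ ψ : V → ℕ, (∀ v, v ∉ X → ψ v = φ v) ∧ ψ x = e ∧ (∀ n ∈ nb G x, ψ n = f n) ∧
      Val G L X κ (insert x (I.biUnion B)) ψ := by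
  have hch : ∀ r : V, ∃ ψ : V → ℕ, r ∈ I → (∀ v, v ∉ X → ψ v = φ v) ∧ ψ x = e ∧ ψ r = f r ∧
      Val G L X κ (B r) ψ := by
    intro r
    by_cases hr : r ∈ I
    · obtain ⟨-, ψ, h⟩ := Finset.mem_filter.mp (hfI r hr)
      exact ⟨ψ, fun _ => h⟩
    · exact ⟨φ, fun h => absurd h hr⟩
  choose Ψ hΨ using hch
  have hun : ∀ r ∈ I, ∀ s ∈ I, ∀ v, v ∈ B r → v ∈ B s → r = s := by
    intro r hr s hs v hvr hvs
    by_contra hne
    exact Finset.disjoint_left.mp (hdis r hr s hs hne) hvr hvs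
  obtain ⟨ψ, hψ⟩ : ∃ ψ : V → ℕ, ∀ v, ψ v = if v = x then e else
      if h : ∃ r, r ∈ I ∧ v ∈ B r then Ψ h.choose v else if v ∉ X then φ v else f v :=
    ⟨_, fun _ => rfl⟩
  have h1 : ψ x = e := by rw [hψ, if_pos rfl]
  have h2 : ∀ r ∈ I, ∀ v ∈ B r, ψ v = Ψ r v := by
    intro r hr v hv
    have hvx : v ≠ x := fun h => (hB r hr).qB (h ▸ hv)
    have hex : ∃ r, r ∈ I ∧ v ∈ B r := ⟨r, hr, hv⟩
    rw [hψ, if_neg hvx, dif_pos hex]
    rw [hun _ hex.choose_spec.1 r hr v hex.choose_spec.2 hv]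
  have h3 : ∀ v, v ∉ X → ψ v = φ v := by
    intro v hv
    have hvx : v ≠ x := fun h => hv (h ▸ hx)
    have hex : ¬ ∃ r, r ∈ I ∧ v ∈ B r := by
      rintro ⟨r, hr, hvr⟩
      exact hv ((hB r hr).sub hvr)
    rw [hψ, if_neg hvx, dif_neg hex, if_pos hv]
  have hadj : ∀ {a b : V}, b ∈ nb G a ↔ G.Adj a b := by
    intro a b
    simp [nb]
  have h4 : ∀ n ∈ nb G x, ψ n = f n := by
    intro n hn
    by_cases hnI : n ∈ I
    · rw [h2 n hnI n (hB n hnI).root]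
      exact (hΨ n hnI).2.2.1
    · have hnx : n ≠ x := fun h => by
        rw [h] at hn
        exact G.loopless.irrefl x (hadj.mp hn)
      have hex : ¬ ∃ r, r ∈ I ∧ n ∈ B r := by
        rintro ⟨r, hr, hvr⟩
        exact hQ n hn hnI r hr hvr
      rw [hψ, if_neg hnx, dif_neg hex]
      by_cases hnX : n ∈ X
      · rw [if_neg (fun h => h hnX)]
      · rw [if_pos hnX, hf n hn hnX]
  refine ⟨ψ, h3, h1, h4, ?_⟩
  intro b hb
  rcases Finset.mem_insert.mp hb with hbx | hbB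
  · rw [hbx, h1]
    refine ⟨he, fun n hn => ?_, G02_cf_congr h4 hcf⟩
    rw [h4 n hn]
    by_cases hnI : n ∈ I
    · refine ⟨?_, fun hnX => absurd ((hB n hnI).sub (hB n hnI).root) hnX⟩
      obtain ⟨-, hv2, hv3, hv4⟩ := hΨ n hnI
      have := ((hv4 n (hB n hnI).root).2.1 x (hadj.mpr (hadj.mp hn).symm)).1
      rw [hv2, hv3] at this
      exact fun h => this h.symm
    · exact hfe n hn hnI
  · obtain ⟨r, hr, hbr⟩ := Finset.mem_biUnion.mp hbB
    obtain ⟨hv1, hv2, hv3, hv4⟩ := hΨ r hr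
    have hag : ∀ n ∈ nb G b, ψ n = Ψ r n := by
      intro n hn
      by_cases hnX : n ∈ X
      · rcases (hB r hr).closed b hbr n hn hnX with h | h
        · exact h2 r hr n h
        · rw [h, h1, hv2]
      · rw [h3 n hnX, hv1 n hnX]
    obtain ⟨ha, hb', hc⟩ := hv4 b hbr
    rw [h2 r hr b hbr]
    refine ⟨ha, fun n hn => ?_, G02_cf_congr hag hc⟩
    rw [hag n hn]
    exact hb' n hn

end Pool.Agent.Lib.MP_03175e_co
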