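import Pool.Agent.Lib.MP_03175e_co.Defs

/-!
Row G03: explicit colourings of threads and of `T1`, `T2` objects (paper section 2).
In all five lemmas define `ψ` by `Function.update` starting from `φ`, with `ψ x = c` and the given
colours on the vertices of the branch, and check `Val` vertex by vertex. CF at a vertex of degree
2 with neighbours `a, b` means `ψ a ≠ ψ b`; CF at a vertex of degree 3 means: not all three
neighbours have the same colour.
-/

namespace Pool.Agent.Lib.MP_03175e_co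

open Finset Classical

variable {V : Type} [Fintype V] {G : SimpleGraph V} {L : V → Finset ℕ} {X : Finset V}
  {φ : V → ℕ} {κ : V → Finset ℕ}

omit [Fintype V] in
theorem G03_cf2 {ψ : V → ℕ} {a b : V} (h : ψ a ≠ ψ b) : CF {a, b} ψ := by
  refine ⟨a, by simp, fun v hv hva => ?_⟩
  simp only [mem_insert, mem_singleton] at hv
  rcases hv with hv | hv
  · exact hv
  · exact absurd (by rw [← hva, hv]) h

omit [Fintype V] in
theorem G03_cf3 {ψ : V → ℕ} {a b d : V} (h : ¬ (ψ a = ψ b ∧ ψ b = ψ d)) : CF {a, b, d} ψ := by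
  by_cases hab : ψ a = ψ b
  · have hbd : ψ b ≠ ψ d := fun h' => h ⟨hab, h'⟩
    refine ⟨d, by simp, fun v hv hva => ?_⟩
    simp only [mem_insert, mem_singleton] at hv
    rcases hv with hv | hv | hv
    · exact absurd (by rw [← hva, hv, hab]) hbd
    · exact absurd (by rw [← hva, hv]) hbd
    · exact hv
  · by_cases had : ψ a = ψ d
    · refine ⟨b, by simp, fun v hv hva => ?_⟩
      simp only [mem_insert, mem_singleton] at hv
      rcases hv with hv | hv | hv
      · exact absurd (by rw [← hva, hv]) hab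
      · exact hv
      · exact absurd (by rw [← hva, hv, had]) hab
    · refine ⟨a, by simp, fun v hv hva => ?_⟩
      simp only [mem_insert, mem_singleton] at hv
      rcases hv with hv | hv | hv
      · exact hv
      · exact absurd (by rw [← hva, hv]) hab
      · exact absurd (by rw [← hva, hv]) had

omit [Fintype V] in
theorem G03_ne {a b : V} (ha : a ∈ X) (hb : b ∉ X) : b ≠ a := by
  rintro rfl
  exact hb ha

theorem opt_M1 (he : Ext G L X φ κ) {x z y : V} (hx : x ∈ X) (hz : z ∈ X) (hy : y ∉ X)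
    (hxz : x ≠ z) (hn : nb G z = {x, y}) {c : ℕ} (hc : c ≠ φ y) :
    (L z \ κ y).erase c ⊆ Opt G L X φ κ {z} x z c := by
  intro e hmem
  rw [mem_erase, mem_sdiff] at hmem
  obtain ⟨hec, heL, heκ⟩ := hmem
  have hκy := he.κmem y hy
  set ψ : V → ℕ := Function.update (Function.update φ x c) z e with hψ
  have hout : ∀ v, v ∉ X → ψ v = φ v := by
    intro v hv
    rw [hψ, Function.update_of_ne (G03_ne hz hv), Function.update_of_ne (G03_ne hx hv)]
  have ex : ψ x = c := by
    rw [hψ, Function.update_of_ne hxz, Function.update_self]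
  have ez : ψ z = e := by
    rw [hψ, Function.update_self]
  have ey : ψ y = φ y := hout y hy
  unfold Opt
  rw [mem_filter]
  refine ⟨heL, ψ, hout, ex, ez, ?_⟩
  intro b hb
  rw [mem_singleton] at hb
  subst hb
  refine ⟨by rw [ez]; exact heL, ?_, ?_⟩
  · intro n hnn
    rw [hn, mem_insert, mem_singleton] at hnn
    rcases hnn with rfl | rfl
    · rw [ex, ez]
      exact ⟨hec, fun h => absurd hx h⟩
    · rw [ey, ez]
      exact ⟨fun h => heκ (h ▸ hκy), fun _ => heκ⟩
  · rw [hn]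
    apply G03_cf2
    rw [ex, ey]
    exact hc

theorem opt_M2 (he : Ext G L X φ κ) {x z z' y : V} (hx : x ∈ X) (hz : z ∈ X) (hz' : z' ∈ X)
    (hy : y ∉ X) (hxz : x ≠ z) (hxz' : x ≠ z') (hzz : z ≠ z') (hn : nb G z = {x, z'})
    (hn' : nb G z' = {z, y}) {c e e' : ℕ} (h1 : e ∈ L z) (h2 : e ≠ c) (h3 : e ≠ φ y)
    (h4 : e' ∈ L z' \ κ y) (h5 : e' ≠ c) (h6 : e' ≠ e) :
    e ∈ Opt G L X φ κ {z, z'} x z c := by
  rw [mem_sdiff] at h4
  have hκy := he.κmem y hy
  set ψ : V → ℕ := Function.update (Function.update (Function.update φ x c) z e) z' e' with hψ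
  have hout : ∀ v, v ∉ X → ψ v = φ v := by
    intro v hv
    rw [hψ, Function.update_of_ne (G03_ne hz' hv), Function.update_of_ne (G03_ne hz hv),
      Function.update_of_ne (G03_ne hx hv)]
  have ex : ψ x = c := by
    rw [hψ, Function.update_of_ne hxz', Function.update_of_ne hxz, Function.update_self]
  have ez : ψ z = e := by
    rw [hψ, Function.update_of_ne hzz, Function.update_self]
  have ez' : ψ z' = e' := by
    rw [hψ, Function.update_self]
  have ey : ψ y = φ y := hout y hy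
  have hney : e' ≠ φ y := fun h => h4.2 (h ▸ hκy)
  unfold Opt
  rw [mem_filter]
  refine ⟨h1, ψ, hout, ex, ez, ?_⟩
  intro b hb
  rw [mem_insert, mem_singleton] at hb
  rcases hb with rfl | rfl
  · refine ⟨by rw [ez]; exact h1, ?_, ?_⟩
    · intro n hnn
      rw [hn, mem_insert, mem_singleton] at hnn
      rcases hnn with rfl | rfl
      · rw [ex, ez]
        exact ⟨h2, fun h => absurd hx h⟩
      · rw [ez', ez]
        exact ⟨h6.symm, fun h => absurd hz' h⟩
    · rw [hn]
      apply G03_cf2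
      rw [ex, ez']
      exact h5.symm
  · refine ⟨by rw [ez']; exact h4.1, ?_, ?_⟩
    · intro n hnn
      rw [hn', mem_insert, mem_singleton] at hnn
      rcases hnn with rfl | rfl
      · rw [ez, ez']
        exact ⟨h6, fun h => absurd hz h⟩
      · rw [ey, ez']
        exact ⟨hney, fun _ => h4.2⟩
    · rw [hn']
      apply G03_cf2
      rw [ez, ey]
      exact h3

theorem opt_M3 (he : Ext G L X φ κ) {x v₁ v₂ v₃ y : V} (hx : x ∈ X) (h1 : v₁ ∈ X) (h2 : v₂ ∈ X)
    (h3 : v₃ ∈ X) (hy : y ∉ X) (hx1 : x ≠ v₁) (hx2 : x ≠ v₂) (hx3 : x ≠ v₃) (h12 : v₁ ≠ v₂)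
    (h13 : v₁ ≠ v₃) (h23 : v₂ ≠ v₃) (hn1 : nb G v₁ = {x, v₂}) (hn2 : nb G v₂ = {v₁, v₃})
    (hn3 : nb G v₃ = {v₂, y}) {c e₁ e₂ e₃ : ℕ} (he1 : e₁ ∈ L v₁) (hc1 : e₁ ≠ c)
    (he2 : e₂ ∈ L v₂) (hc2 : e₂ ≠ c) (hy2 : e₂ ≠ φ y) (he3 : e₃ ∈ L v₃ \ κ y) (h_12 : e₁ ≠ e₂)
    (h_13 : e₁ ≠ e₃) (h_23 : e₂ ≠ e₃) : e₁ ∈ Opt G L X φ κ {v₁, v₂, v₃} x v₁ c := by
  rw [mem_sdiff] at he3
  have hκy := he.κmem y hy
  set ψ : V → ℕ := Function.update (Function.update (Function.update (Function.update φ x c)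
    v₁ e₁) v₂ e₂) v₃ e₃ with hψ
  have hout : ∀ v, v ∉ X → ψ v = φ v := by
    intro v hv
    rw [hψ, Function.update_of_ne (G03_ne h3 hv), Function.update_of_ne (G03_ne h2 hv),
      Function.update_of_ne (G03_ne h1 hv), Function.update_of_ne (G03_ne hx hv)]
  have ex : ψ x = c := by
    rw [hψ, Function.update_of_ne hx3, Function.update_of_ne hx2, Function.update_of_ne hx1,
      Function.update_self]
  have ev1 : ψ v₁ = e₁ := by
    rw [hψ, Function.update_of_ne h13, Function.update_of_ne h12, Function.update_self]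
  have ev2 : ψ v₂ = e₂ := by
    rw [hψ, Function.update_of_ne h23, Function.update_self]
  have ev3 : ψ v₃ = e₃ := by
    rw [hψ, Function.update_self]
  have ey : ψ y = φ y := hout y hy
  have hney : e₃ ≠ φ y := fun h => he3.2 (h ▸ hκy)
  unfold Opt
  rw [mem_filter]
  refine ⟨he1, ψ, hout, ex, ev1, ?_⟩
  intro b hb
  rw [mem_insert, mem_insert, mem_singleton] at hb
  rcases hb with rfl | rfl | rfl
  · refine ⟨by rw [ev1]; exact he1, ?_, ?_⟩
    · intro n hnn
      rw [hn1, mem_insert, mem_singleton] at hnn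
      rcases hnn with rfl | rfl
      · rw [ex, ev1]
        exact ⟨hc1, fun h => absurd hx h⟩
      · rw [ev2, ev1]
        exact ⟨h_12, fun h => absurd h2 h⟩
    · rw [hn1]
      apply G03_cf2
      rw [ex, ev2]
      exact hc2.symm
  · refine ⟨by rw [ev2]; exact he2, ?_, ?_⟩
    · intro n hnn
      rw [hn2, mem_insert, mem_singleton] at hnn
      rcases hnn with rfl | rfl
      · rw [ev1, ev2]
        exact ⟨h_12.symm, fun h => absurd h1 h⟩
      · rw [ev3, ev2]
        exact ⟨h_23, fun h => absurd h3 h⟩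
    · rw [hn2]
      apply G03_cf2
      rw [ev1, ev3]
      exact h_13
  · refine ⟨by rw [ev3]; exact he3.1, ?_, ?_⟩
    · intro n hnn
      rw [hn3, mem_insert, mem_singleton] at hnn
      rcases hnn with rfl | rfl
      · rw [ev2, ev3]
        exact ⟨h_23.symm, fun h => absurd h2 h⟩
      · rw [ey, ev3]
        exact ⟨hney, fun _ => he3.2⟩
    · rw [hn3]
      apply G03_cf2
      rw [ev2, ey]
      exact hy2

theorem opt_T2 (he : Ext G L X φ κ) {x t z₁ z₂ y₁ y₂ : V} (hx : x ∈ X) (ht : t ∈ X)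
    (h1 : z₁ ∈ X) (h2 : z₂ ∈ X) (hy1 : y₁ ∉ X) (hy2 : y₂ ∉ X) (hxt : x ≠ t) (hx1 : x ≠ z₁)
    (hx2 : x ≠ z₂) (ht1 : t ≠ z₁) (ht2 : t ≠ z₂) (h12 : z₁ ≠ z₂) (hn : nb G t = {x, z₁, z₂})
    (hn1 : nb G z₁ = {t, y₁}) (hn2 : nb G z₂ = {t, y₂}) {c e g₁ g₂ : ℕ} (h_e : e ∈ L t)
    (hec : e ≠ c) (he1 : e ≠ φ y₁) (he2 : e ≠ φ y₂) (hg1 : g₁ ∈ L z₁ \ κ y₁) (hge1 : g₁ ≠ e)
    (hg2 : g₂ ∈ L z₂ \ κ y₂) (hge2 : g₂ ≠ e) (hcf : ¬ (g₁ = c ∧ g₂ = c)) :
    e ∈ Opt G L X φ κ {t, z₁, z₂} x t c := by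
  rw [mem_sdiff] at hg1 hg2
  have hκ1 := he.κmem y₁ hy1
  have hκ2 := he.κmem y₂ hy2
  set ψ : V → ℕ := Function.update (Function.update (Function.update (Function.update φ x c)
    t e) z₁ g₁) z₂ g₂ with hψ
  have hout : ∀ v, v ∉ X → ψ v = φ v := by
    intro v hv
    rw [hψ, Function.update_of_ne (G03_ne h2 hv), Function.update_of_ne (G03_ne h1 hv),
      Function.update_of_ne (G03_ne ht hv), Function.update_of_ne (G03_ne hx hv)]
  have ex : ψ x = c := by
    rw [hψ, Function.update_of_ne hx2, Function.update_of_ne hx1, Function.update_of_ne hxt,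
      Function.update_self]
  have et : ψ t = e := by
    rw [hψ, Function.update_of_ne ht2, Function.update_of_ne ht1, Function.update_self]
  have ez1 : ψ z₁ = g₁ := by
    rw [hψ, Function.update_of_ne h12, Function.update_self]
  have ez2 : ψ z₂ = g₂ := by
    rw [hψ, Function.update_self]
  have ey1 : ψ y₁ = φ y₁ := hout y₁ hy1
  have ey2 : ψ y₂ = φ y₂ := hout y₂ hy2
  have hney1 : g₁ ≠ φ y₁ := fun h => hg1.2 (h ▸ hκ1)
  have hney2 : g₂ ≠ φ y₂ := fun h => hg2.2 (h ▸ hκ2)
  unfold Opt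
  rw [mem_filter]
  refine ⟨h_e, ψ, hout, ex, et, ?_⟩
  intro b hb
  rw [mem_insert, mem_insert, mem_singleton] at hb
  rcases hb with rfl | rfl | rfl
  · refine ⟨by rw [et]; exact h_e, ?_, ?_⟩
    · intro n hnn
      rw [hn, mem_insert, mem_insert, mem_singleton] at hnn
      rcases hnn with rfl | rfl | rfl
      · rw [ex, et]
        exact ⟨hec, fun h => absurd hx h⟩
      · rw [ez1, et]
        exact ⟨hge1.symm, fun h => absurd h1 h⟩
      · rw [ez2, et]
        exact ⟨hge2.symm, fun h => absurd h2 h⟩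
    · rw [hn]
      apply G03_cf3
      rw [ex, ez1, ez2]
      rintro ⟨h, h'⟩
      exact hcf ⟨h.symm, by rw [← h', ← h]⟩
  · refine ⟨by rw [ez1]; exact hg1.1, ?_, ?_⟩
    · intro n hnn
      rw [hn1, mem_insert, mem_singleton] at hnn
      rcases hnn with rfl | rfl
      · rw [et, ez1]
        exact ⟨hge1, fun h => absurd ht h⟩
      · rw [ey1, ez1]
        exact ⟨hney1, fun _ => hg1.2⟩
    · rw [hn1]
      apply G03_cf2
      rw [et, ey1]
      exact he1
  · refine ⟨by rw [ez2]; exact hg2.1, ?_, ?_⟩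
    · intro n hnn
      rw [hn2, mem_insert, mem_singleton] at hnn
      rcases hnn with rfl | rfl
      · rw [et, ez2]
        exact ⟨hge2, fun h => absurd ht h⟩
      · rw [ey2, ez2]
        exact ⟨hney2, fun _ => hg2.2⟩
    · rw [hn2]
      apply G03_cf2
      rw [et, ey2]
      exact he2

theorem opt_T1 (he : Ext G L X φ κ) {x t w z y : V} (hx : x ∈ X) (ht : t ∈ X) (hz : z ∈ X)
    (hw : w ∉ X) (hy : y ∉ X) (hxt : x ≠ t) (hxz : x ≠ z) (htz : t ≠ z)
    (hn : nb G t = {x, w, z}) (hn1 : nb G z = {t, y}) {c e g : ℕ} (h_e : e ∈ L t \ κ w)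
    (hec : e ≠ c) (hey : e ≠ φ y) (hg : g ∈ L z \ κ y) (hge : g ≠ e)
    (hcf : ¬ (c = φ w ∧ g = c)) : e ∈ Opt G L X φ κ {t, z} x t c := by
  rw [mem_sdiff] at h_e hg
  have hκy := he.κmem y hy
  have hκw := he.κmem w hw
  set ψ : V → ℕ := Function.update (Function.update (Function.update φ x c) t e) z g with hψ
  have hout : ∀ v, v ∉ X → ψ v = φ v := by
    intro v hv
    rw [hψ, Function.update_of_ne (G03_ne hz hv), Function.update_of_ne (G03_ne ht hv),
      Function.update_of_ne (G03_ne hx hv)]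
  have ex : ψ x = c := by
    rw [hψ, Function.update_of_ne hxz, Function.update_of_ne hxt, Function.update_self]
  have et : ψ t = e := by
    rw [hψ, Function.update_of_ne htz, Function.update_self]
  have ez : ψ z = g := by
    rw [hψ, Function.update_self]
  have ey : ψ y = φ y := hout y hy
  have ew : ψ w = φ w := hout w hw
  have hney : g ≠ φ y := fun h => hg.2 (h ▸ hκy)
  have hnew : e ≠ φ w := fun h => h_e.2 (h ▸ hκw)
  unfold Opt
  rw [mem_filter]
  refine ⟨h_e.1, ψ, hout, ex, et, ?_⟩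
  intro b hb
  rw [mem_insert, mem_singleton] at hb
  rcases hb with rfl | rfl
  · refine ⟨by rw [et]; exact h_e.1, ?_, ?_⟩
    · intro n hnn
      rw [hn, mem_insert, mem_insert, mem_singleton] at hnn
      rcases hnn with rfl | rfl | rfl
      · rw [ex, et]
        exact ⟨hec, fun h => absurd hx h⟩
      · rw [ew, et]
        exact ⟨hnew, fun _ => h_e.2⟩
      · rw [ez, et]
        exact ⟨hge.symm, fun h => absurd hz h⟩
    · rw [hn]
      apply G03_cf3
      rw [ex, ew, ez]
      rintro ⟨h, h'⟩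
      exact hcf ⟨h, by rw [← h', ← h]⟩
  · refine ⟨by rw [ez]; exact hg.1, ?_, ?_⟩
    · intro n hnn
      rw [hn1, mem_insert, mem_singleton] at hnn
      rcases hnn with rfl | rfl
      · rw [et, ez]
        exact ⟨hge, fun h => absurd ht h⟩
      · rw [ey, ez]
        exact ⟨hney, fun _ => hg.2⟩
    · rw [hn1]
      apply G03_cf2
      rw [et, ey]
      exact hey

end Pool.Agent.Lib.MP_03175e_co
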