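import Pool.Agent.Lib.MP_03175e_co.G01
import Pool.Agent.Lib.MP_03175e_co.G02
import Pool.Agent.Lib.MP_03175e_co.G03

/-!
Row A04: the small star (paper section 3).
-/

namespace Pool.Agent.Lib.MP_03175e_co

open Finset Classical

variable {V : Type} [Fintype V] {G : SimpleGraph V} {L : V → Finset ℕ}

private lemma A04_mem_nb {u v : V} : v ∈ nb G u ↔ G.Adj u v := by
  simp [nb]

private lemma A04_mem_ZN {u v : V} : v ∈ ZN G u ↔ G.Adj u v ∧ dg G v = 2 := by
  simp [ZN, nb]

/-- An outside vertex has at most one neighbour in the small star. -/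
private lemma A04_unique (hs : NoShort G) {t v : V} (hv : v ∉ insert t (ZN G t)) {a b : V}
    (ha : a ∈ nb G v ∩ insert t (ZN G t)) (hb : b ∈ nb G v ∩ insert t (ZN G t)) : a = b := by
  simp only [mem_inter, mem_insert, A04_mem_nb, A04_mem_ZN, not_or, not_and] at ha hb hv
  obtain ⟨hva, ha⟩ := ha
  obtain ⟨hvb, hb⟩ := hb
  obtain ⟨hvt, -⟩ := hv
  rcases ha with rfl | ⟨hta, -⟩
  · rcases hb with rfl | ⟨htb, -⟩
    · rfl
    · exact (hs.c3 v a b hva htb hvb.symm).elim
  · rcases hb with rfl | ⟨htb, -⟩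
    · exact (hs.c3 v b a hvb hta hva.symm).elim
    · by_contra hab
      exact hs.c4 t a v b hta hva.symm hvb htb.symm (Ne.symm hvt) hab

/-- Row A04. Deleting `t` and its neighbours of degree two; `y z` is the other neighbour of `z`.
`X = insert t (ZN G t)`. Every outside vertex has at most one neighbour in `X` (`NoShort`), so
`hiso` of `delete` holds because all degrees are at least 2, and `κ v` has one element if
`dg G v = 3` and `v` has a neighbour in `X`. The last statement: apply `glue` with `x = t`,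
`I = ZN G t`, `B z = {z}` and `opt_M1`, then `Ext.fin`. -/
theorem MinCE.small_star (h : MinCE G L) (h2 : ∀ v, 2 ≤ dg G v) {t : V} (ht : 3 ≤ dg G t)
    (y : V → V) (hy : ∀ z ∈ ZN G t, nb G z = {t, y z} ∧ y z ≠ t) (a : V → Finset ℕ)
    (ha : ∀ v, (a v).card ≤ 1) :
    ∃ (φ : V → ℕ) (κ : V → Finset ℕ),
      (∀ z ∈ ZN G t, φ (y z) ∈ κ (y z) ∧ (κ (y z)).card ≤ 2 ∧
        (dg G (y z) = 3 → (κ (y z)).card = 1) ∧ φ (y z) ∉ a (y z)) ∧
      (∀ n ∈ nb G t, dg G n ≠ 2 → φ n ∈ κ n ∧ (κ n).card ≤ 2 ∧ (dg G n = 3 → (κ n).card = 1) ∧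
        φ n ∉ a n) ∧
      ∀ α ∈ L t, (∀ n ∈ nb G t, dg G n ≠ 2 → α ∉ κ n) → (∀ z ∈ ZN G t, α ≠ φ (y z)) →
        ∀ e : V → ℕ, (∀ n ∈ nb G t, dg G n ≠ 2 → e n = φ n) →
          (∀ z ∈ ZN G t, e z ∈ (L z \ κ (y z)).erase α) → CF (nb G t) e → False := by
  have hs := h.short
  set X : Finset V := insert t (ZN G t) with hXdef
  have htX : t ∈ X := mem_insert_self _ _
  have hsub : ∀ z ∈ ZN G t, z ∈ X := fun z hz => mem_insert_of_mem hz
  have htZ : t ∉ ZN G t := by
    intro h'
    exact G.loopless.irrefl t (A04_mem_ZN.1 h').1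
  have hyz : ∀ z ∈ ZN G t, G.Adj z (y z) := by
    intro z hz
    rw [← A04_mem_nb, (hy z hz).1]
    simp
  have hyX : ∀ z ∈ ZN G t, y z ∉ X := by
    intro z hz hm
    rcases mem_insert.1 hm with h' | h'
    · exact (hy z hz).2 h'
    · exact hs.c3 t z (y z) (A04_mem_ZN.1 hz).1 (hyz z hz) (A04_mem_ZN.1 h').1.symm
  have hnX : ∀ n ∈ nb G t, dg G n ≠ 2 → n ∉ X := by
    intro n hn hd hm
    rcases mem_insert.1 hm with rfl | h'
    · exact G.loopless.irrefl n (A04_mem_nb.1 hn)
    · exact hd (A04_mem_ZN.1 h').2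
  have hcard : ∀ v, v ∉ X → (nb G v ∩ X).card ≤ 1 := by
    intro v hv
    rw [card_le_one]
    intro a ha b hb
    exact A04_unique hs hv ha hb
  have hcard1 : ∀ v, v ∉ X → (nb G v ∩ X).Nonempty → (nb G v ∩ X).card = 1 := by
    intro v hv hne
    exact le_antisymm (hcard v hv) (card_pos.2 hne)
  have hiso : ∀ v, v ∉ X → (nb G v ∩ X).Nonempty → (nb G v \ X).Nonempty := by
    intro v hv _
    rw [← card_pos]
    have h1 := card_sdiff_add_card_inter (nb G v) X
    have h3 := hcard v hv
    have h4 : 2 ≤ (nb G v).card := h2 v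
    omega
  obtain ⟨φ, κ, hE, hφa⟩ := h.delete (X := X) ⟨t, htX⟩ hiso
    (fun v => if (nb G v ∩ X).Nonempty then a v else ∅) (by
      intro v hv
      by_cases hne : (nb G v ∩ X).Nonempty
      · rw [if_pos hne, hcard1 v hv hne]
        exact ha v
      · rw [if_neg hne]
        simp)
  have hyne : ∀ z ∈ ZN G t, (nb G (y z) ∩ X).Nonempty := fun z hz =>
    ⟨z, mem_inter.2 ⟨A04_mem_nb.2 (hyz z hz).symm, hsub z hz⟩⟩
  have hnne : ∀ n ∈ nb G t, (nb G n ∩ X).Nonempty := fun n hn =>
    ⟨t, mem_inter.2 ⟨A04_mem_nb.2 (A04_mem_nb.1 hn).symm, htX⟩⟩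
  refine ⟨φ, κ, ?_, ?_, ?_⟩
  · intro z hz
    refine ⟨hE.κmem _ (hyX z hz), hE.κcard _ (hyX z hz), fun hd => ?_, ?_⟩
    · exact hE.κcard1 _ (hyX z hz) hd (hcard1 _ (hyX z hz) (hyne z hz))
    · have := hφa _ (hyX z hz)
      simpa only [if_pos (hyne z hz)] using this
  · intro n hn hd2
    have hX' := hnX n hn hd2
    refine ⟨hE.κmem _ hX', hE.κcard _ hX', fun hd => ?_, ?_⟩
    · exact hE.κcard1 _ hX' hd (hcard1 _ hX' (hnne n hn))
    · have := hφa _ hX'
      simpa only [if_pos (hnne n hn)] using this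
  · intro α hα hακ hαφ e he1 he2 hcf
    have hI : ∀ n ∈ nb G t, n ∉ ZN G t → dg G n ≠ 2 := by
      intro n hn hnI hd
      exact hnI (A04_mem_ZN.2 ⟨A04_mem_nb.1 hn, hd⟩)
    obtain ⟨ψ, h1, -, -, h4⟩ := glue (G := G) (L := L) (X := X) (φ := φ) (κ := κ) t htX (ZN G t)
      (fun z => {z}) (by
        intro z hz
        refine ⟨mem_singleton_self _, (A04_mem_ZN.1 hz).1, ?_, htX, ?_, ?_⟩
        · intro b hb
          rw [mem_singleton] at hb
          rw [hb]
          exact hsub z hz
        · intro hb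
          rw [mem_singleton] at hb
          rw [← hb] at hz
          exact htZ hz
        · intro b hb n hn hnX'
          rw [mem_singleton] at hb
          rw [hb, (hy z hz).1, mem_insert, mem_singleton] at hn
          rcases hn with rfl | rfl
          · exact Or.inr rfl
          · exact (hyX z hz hnX').elim)
      (by
        intro r _ s _ hrs
        exact disjoint_singleton.2 hrs)
      (by
        intro n _ hnI r hr hnr
        rw [mem_singleton] at hnr
        rw [hnr] at hnI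
        exact hnI hr)
      hα (f := e)
      (by
        intro n hn hnX'
        exact he1 n hn (hI n hn (fun h' => hnX' (hsub n h'))))
      (by
        intro n hn hnI
        have hd := hI n hn hnI
        have hk := hακ n hn hd
        refine ⟨?_, fun _ => hk⟩
        rw [he1 n hn hd]
        intro h'
        rw [h'] at hk
        exact hk (hE.κmem _ (hnX n hn hd)))
      (by
        intro r hr
        refine opt_M1 hE htX (hsub r hr) (hyX r hr) ?_ (hy r hr).1 (hαφ r hr) (he2 r hr)
        intro h'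
        rw [← h'] at hr
        exact htZ hr)
      hcf
    refine hE.fin ψ h1 ?_
    have hXe : insert t ((ZN G t).biUnion fun z => ({z} : Finset V)) = X := by
      rw [biUnion_singleton_eq_self]
    rw [hXe] at h4
    exact h4

end Pool.Agent.Lib.MP_03175e_co
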