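import Pool.Agent.Lib.MP_03175e_co.A04
import Pool.Agent.Lib.MP_03175e_co.A03

/-!
Row A05: vertices of degree three (paper section 3, (A3)).
-/

namespace Pool.Agent.Lib.MP_03175e_co

open Finset Classical

variable {V : Type} [Fintype V] {G : SimpleGraph V} {L : V → Finset ℕ}

private lemma mem_nb' {v w : V} : w ∈ nb G v ↔ G.Adj v w := by
  simp [nb]

/-- The other neighbour of a vertex of degree two. -/
private lemma exists_other {z t : V} (hz : dg G z = 2) (hadj : G.Adj z t) :
    ∃ y, nb G z = {t, y} ∧ y ≠ t := by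
  obtain ⟨a, b, hab, h⟩ := Finset.card_eq_two.mp hz
  have ht : t ∈ nb G z := mem_nb'.mpr hadj
  rw [h, mem_insert, mem_singleton] at ht
  rcases ht with rfl | rfl
  · exact ⟨b, h, hab.symm⟩
  · exact ⟨a, by rw [h, pair_comm], hab⟩

/-- The other neighbours of the neighbours of degree two. -/
private lemma exists_other_fun (t : V) :
    ∃ y : V → V, ∀ z ∈ ZN G t, nb G z = {t, y z} ∧ y z ≠ t := by
  have h : ∀ z, ∃ y, z ∈ ZN G t → nb G z = {t, y} ∧ y ≠ t := by
    intro z
    by_cases hz : z ∈ ZN G t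
    · have h1 := mem_filter.mp hz
      obtain ⟨y, hy⟩ := exists_other h1.2 (mem_nb'.mp h1.1).symm
      exact ⟨y, fun _ => hy⟩
    · exact ⟨z, fun h => absurd h hz⟩
  choose y hy using h
  exact ⟨y, hy⟩

omit [Fintype V] in
/-- Three elements without a unique colour. -/
private lemma eq_of_not_CF {a b c : V} (hab : a ≠ b) (hac : a ≠ c) (hbc : b ≠ c) {e : V → ℕ}
    (h : ¬ CF ({a, b, c} : Finset V) e) : e a = e b ∧ e a = e c := by
  unfold CF at h
  push Not at h
  obtain ⟨x, hx, h1, h2⟩ := h a (by simp)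
  obtain ⟨y, hy, h3, h4⟩ := h b (by simp)
  obtain ⟨z, hz, h5, h6⟩ := h c (by simp)
  simp only [mem_insert, mem_singleton] at hx hy hz
  rcases hx with rfl | rfl | rfl
  · exact absurd rfl h2
  · refine ⟨h1.symm, ?_⟩
    rcases hz with rfl | rfl | rfl
    · exact h5
    · rw [← h5, h1]
    · exact absurd rfl h6
  · refine ⟨?_, h1.symm⟩
    rcases hy with rfl | rfl | rfl
    · exact h3
    · exact absurd rfl h4
    · rw [← h3, h1]

/-- A set with at least two elements, all elements of which except `α` are equal to `f`. -/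
private lemma mem_of_two {A : Finset ℕ} (hA : 2 ≤ A.card) {α f : ℕ} (h : ∀ c ∈ A.erase α, c = f) :
    α ∈ A := by
  by_contra hα
  rw [erase_eq_of_notMem hα] at h
  have : A ⊆ {f} := fun c hc => mem_singleton.mpr (h c hc)
  have := card_le_card this
  rw [card_singleton] at this
  omega

/-- Row A05 (first half). `t` of degree 3 with exactly one neighbour `z` of degree 2 has two
Y-neighbours. The other neighbours `n₁, n₂` have degree at least 3; suppose `dg G n₁ = 3`, so
`κ n₁ = {φ n₁}`. The other neighbour `y z` of `z` has degree at least 3 by `MinCE.thr`.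
`small_star` with `a = fun _ => ∅`. `P = L t \ (κ n₁ ∪ κ n₂ ∪ {φ (y z)})`, `A = L z \ κ (y z)` (at
least 2). CF at `t` holds unless all three neighbours have the same colour. If `φ n₁ ≠ φ n₂`: any
`α ∈ P` (`P.card ≥ 1`) and any `e z ∈ A.erase α`. If `φ n₁ = φ n₂ = f` then `P.card ≥ 2`
(`κ n₁ ⊆ κ n₂`), and `A.erase α = {f}` cannot hold for two different `α ∈ P`. -/
theorem MinCE.t1 (h : MinCE G L) (h2 : ∀ v, 2 ≤ dg G v) (t : V) (ht : IsT1 G t) :
    (YN G t).card = 2 := by
  obtain ⟨y, hy⟩ := exists_other_fun (G := G) t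
  obtain ⟨φ, κ, hz, hn, hfin⟩ := h.small_star h2 (ge_of_eq ht.1) y hy (fun _ => ∅)
    (fun _ => by simp)
  obtain ⟨z, hZ⟩ := Finset.card_eq_one.mp ht.2
  have hzZ : z ∈ ZN G t := by rw [hZ]; simp
  have hznb : z ∈ nb G t := (mem_filter.mp hzZ).1
  have hdz : dg G z = 2 := (mem_filter.mp hzZ).2
  have hcard : ((nb G t).erase z).card = 2 := by
    rw [card_erase_of_mem hznb]
    have : (nb G t).card = 3 := ht.1
    omega
  obtain ⟨n₁, n₂, h12, hN⟩ := Finset.card_eq_two.mp hcard
  have hn1 : n₁ ∈ (nb G t).erase z := by rw [hN]; simp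
  have hn2 : n₂ ∈ (nb G t).erase z := by rw [hN]; simp
  have hnb : nb G t = {z, n₁, n₂} := by
    rw [← insert_erase hznb, hN]
  have hdeg : ∀ n ∈ (nb G t).erase z, dg G n ≠ 2 := by
    intro n hn h3
    have h4 : n ∈ ZN G t := mem_filter.mpr ⟨(mem_erase.mp hn).2, h3⟩
    rw [hZ, mem_singleton] at h4
    exact (mem_erase.mp hn).1 h4
  -- it suffices that the degrees are at least four
  by_cases hall : ∀ n ∈ (nb G t).erase z, 4 ≤ dg G n
  · have h5 : YN G t = (nb G t).erase z := by
      ext n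
      rw [YN, mem_filter, mem_erase]
      constructor
      · rintro ⟨h6, h7⟩
        refine ⟨?_, h6⟩
        rintro rfl
        omega
      · rintro ⟨h6, h7⟩
        exact ⟨h7, hall n (mem_erase.mpr ⟨h6, h7⟩)⟩
    rw [h5, hcard]
  exfalso
  push Not at hall
  obtain ⟨m, hm, hm4⟩ := hall
  have hm3 : dg G m = 3 := by
    have := h2 m
    have := hdeg m hm
    omega
  -- reduce to a statement which is symmetric in the two neighbours
  have hn' : ∀ n ∈ (nb G t).erase z, φ n ∈ κ n ∧ (κ n).card ≤ 2 ∧ (dg G n = 3 → (κ n).card = 1) := by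
    intro n hn'
    obtain ⟨h6, h7, h8, -⟩ := hn n (mem_erase.mp hn').2 (hdeg n hn')
    exact ⟨h6, h7, h8⟩
  have h1' := hn' n₁ hn1
  have h2' := hn' n₂ hn2
  have hone : (κ n₁).card = 1 ∨ (κ n₂).card = 1 := by
    rw [hN, mem_insert, mem_singleton] at hm
    rcases hm with rfl | rfl
    · exact Or.inl (h1'.2.2 hm3)
    · exact Or.inr (h2'.2.2 hm3)
  set A := L z \ κ (y z) with hA
  have hA2 : 2 ≤ A.card := by
    have h6 := le_card_sdiff (κ (y z)) (L z)
    have h7 := h.card z
    have h8 := (hz z hzZ).2.1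
    rw [hA]
    omega
  set P := L t \ (κ n₁ ∪ κ n₂ ∪ {φ (y z)}) with hP
  have hkey : ∀ α ∈ P, ∀ c ∈ A.erase α, c = φ n₁ ∧ c = φ n₂ := by
    intro α hα c hc
    rw [hP, mem_sdiff, mem_union, mem_union, mem_singleton] at hα
    push Not at hα
    have hz1 : z ≠ n₁ := (mem_erase.mp hn1).1.symm
    have hz2 : z ≠ n₂ := (mem_erase.mp hn2).1.symm
    have h3 : ¬ CF (nb G t) (fun v => if v = z then c else φ v) := by
      intro hCF
      refine hfin α hα.1 ?_ ?_ _ ?_ ?_ hCF
      · intro n hn hnd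
        have : n ∈ (nb G t).erase z := mem_erase.mpr ⟨by rintro rfl; exact hnd hdz, hn⟩
        rw [hN, mem_insert, mem_singleton] at this
        rcases this with rfl | rfl
        · exact hα.2.1.1
        · exact hα.2.1.2
      · intro w hw
        rw [hZ, mem_singleton] at hw
        rw [hw]
        exact hα.2.2
      · intro n hn hnd
        rw [if_neg (by rintro rfl; exact hnd hdz)]
      · intro w hw
        rw [hZ, mem_singleton] at hw
        rw [if_pos hw, hw]
        exact hc
    rw [hnb] at h3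
    have h4 := eq_of_not_CF hz1 hz2 h12 h3
    simp only [if_true, if_neg hz1.symm, if_neg hz2.symm] at h4
    exact h4
  have hPc : 1 ≤ P.card ∧ ((φ n₁ = φ n₂) → 2 ≤ P.card) := by
    have h6 := le_card_sdiff (κ n₁ ∪ κ n₂ ∪ {φ (y z)}) (L t)
    have h7 := h.card t
    have h8 : dg G t = 3 := ht.1
    have h9 := card_union_le (κ n₁ ∪ κ n₂) {φ (y z)}
    have h10 := card_union_le (κ n₁) (κ n₂)
    rw [card_singleton] at h9
    have h11 := h1'.2.1
    have h12' := h2'.2.1
    refine ⟨by rw [hP]; omega, fun hφ => ?_⟩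
    have h13 : (κ n₁ ∪ κ n₂).card ≤ 2 := by
      rcases hone with h14 | h14
      · obtain ⟨x, hx⟩ := card_eq_one.mp h14
        have h15 : φ n₁ = x := by
          have := h1'.1
          rw [hx, mem_singleton] at this
          exact this
        have h16 : κ n₁ ⊆ κ n₂ := by
          rw [hx, singleton_subset_iff, ← h15, hφ]
          exact h2'.1
        rw [union_eq_right.mpr h16]
        exact h12'
      · obtain ⟨x, hx⟩ := card_eq_one.mp h14
        have h15 : φ n₂ = x := by
          have := h2'.1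
          rw [hx, mem_singleton] at this
          exact this
        have h16 : κ n₂ ⊆ κ n₁ := by
          rw [hx, singleton_subset_iff, ← h15, ← hφ]
          exact h1'.1
        rw [union_eq_left.mpr h16]
        exact h11
    rw [hP]
    omega
  have hne : ∀ α, (A.erase α).Nonempty := by
    intro α
    rw [← card_pos]
    have := pred_card_le_card_erase (s := A) (a := α)
    omega
  obtain ⟨α₀, hα₀⟩ := card_pos.mp (by omega : 0 < P.card)
  obtain ⟨c₀, hc₀⟩ := hne α₀
  have h20 := hkey α₀ hα₀ c₀ hc₀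
  have hφ : φ n₁ = φ n₂ := by rw [← h20.1, h20.2]
  obtain ⟨α, hα, β, hβ, hαβ⟩ := one_lt_card.mp (by have := hPc.2 hφ; omega : 1 < P.card)
  have h21 : β ∈ A := mem_of_two hA2 (fun c hc => (hkey β hβ c hc).1)
  have h22 := (hkey α hα β (mem_erase.mpr ⟨hαβ.symm, h21⟩)).1
  rw [hP, mem_sdiff, mem_union, mem_union] at hβ
  push Not at hβ
  exact hβ.2.1.1 (h22 ▸ h1'.1)

/-- Row A05 (second half). `t` of degree 3 with exactly two neighbours `z₁, z₂` of degree 2: the
third neighbour `n` has degree at least 4. Suppose `dg G n = 3`, `κ n = {φ n}`.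
`P = L t \ (κ n ∪ {φ (y z₁), φ (y z₂)})` has at least 2 elements; failure for `α ∈ P` means
`A₁.erase α = A₂.erase α = {φ n}`, in particular `A₁ = {α, φ n}`; not for two different `α`. -/
theorem MinCE.t2 (h : MinCE G L) (h2 : ∀ v, 2 ≤ dg G v) (t : V) (ht : IsT2 G t) :
    (YN G t).card = 1 := by
  obtain ⟨y, hy⟩ := exists_other_fun (G := G) t
  obtain ⟨φ, κ, hz, hn, hfin⟩ := h.small_star h2 (ge_of_eq ht.1) y hy (fun _ => ∅)
    (fun _ => by simp)
  obtain ⟨z₁, z₂, h12, hZ⟩ := Finset.card_eq_two.mp ht.2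
  have hzZ1 : z₁ ∈ ZN G t := by rw [hZ]; simp
  have hzZ2 : z₂ ∈ ZN G t := by rw [hZ]; simp
  have hznb1 : z₁ ∈ nb G t := (mem_filter.mp hzZ1).1
  have hznb2 : z₂ ∈ nb G t := (mem_filter.mp hzZ2).1
  have hdz1 : dg G z₁ = 2 := (mem_filter.mp hzZ1).2
  have hdz2 : dg G z₂ = 2 := (mem_filter.mp hzZ2).2
  have hcard : (((nb G t).erase z₁).erase z₂).card = 1 := by
    rw [card_erase_of_mem (mem_erase.mpr ⟨h12.symm, hznb2⟩), card_erase_of_mem hznb1]
    have : (nb G t).card = 3 := ht.1
    omega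
  obtain ⟨n, hN⟩ := Finset.card_eq_one.mp hcard
  have hn1 : n ∈ ((nb G t).erase z₁).erase z₂ := by rw [hN]; simp
  have hnz2 : n ≠ z₂ := (mem_erase.mp hn1).1
  have hnz1 : n ≠ z₁ := (mem_erase.mp (mem_erase.mp hn1).2).1
  have hnnb : n ∈ nb G t := (mem_erase.mp (mem_erase.mp hn1).2).2
  have hnb : nb G t = {z₁, z₂, n} := by
    rw [← insert_erase hznb1, ← insert_erase (mem_erase.mpr ⟨h12.symm, hznb2⟩), hN]
  have hdeg : dg G n ≠ 2 := by
    intro h3
    have h4 : n ∈ ZN G t := mem_filter.mpr ⟨hnnb, h3⟩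
    rw [hZ, mem_insert, mem_singleton] at h4
    exact h4.elim hnz1 hnz2
  by_cases h4 : 4 ≤ dg G n
  · have h5 : YN G t = {n} := by
      ext m
      rw [YN, mem_filter, hnb, mem_insert, mem_insert, mem_singleton]
      constructor
      · rintro ⟨rfl | rfl | rfl, h7⟩
        · omega
        · omega
        · rfl
      · rintro rfl
        exact ⟨Or.inr (Or.inr rfl), h4⟩
    rw [h5, card_singleton]
  exfalso
  have hn3 : dg G n = 3 := by
    have := h2 n
    omega
  obtain ⟨hn5, -, hn6, -⟩ := hn n hnnb hdeg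
  have hκ := hn6 hn3
  set A := L z₁ \ κ (y z₁) with hA
  have hAc : ∀ z ∈ ZN G t, 2 ≤ (L z \ κ (y z)).card := by
    intro z hz'
    have h6 := le_card_sdiff (κ (y z)) (L z)
    have h7 := h.card z
    have h8 := (hz z hz').2.1
    have h9 : dg G z = 2 := (mem_filter.mp hz').2
    omega
  set P := L t \ (κ n ∪ {φ (y z₁), φ (y z₂)}) with hP
  have hkey : ∀ α ∈ P, ∀ c ∈ A.erase α, c = φ n := by
    intro α hα c hc
    obtain ⟨d, hd⟩ : ((L z₂ \ κ (y z₂)).erase α).Nonempty := by
      rw [← card_pos]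
      have := pred_card_le_card_erase (s := L z₂ \ κ (y z₂)) (a := α)
      have := hAc z₂ hzZ2
      omega
    rw [hP, mem_sdiff, mem_union, mem_insert, mem_singleton] at hα
    push Not at hα
    have h3 : ¬ CF (nb G t) (fun v => if v = z₁ then c else if v = z₂ then d else φ v) := by
      intro hCF
      refine hfin α hα.1 ?_ ?_ _ ?_ ?_ hCF
      · intro m hm hm2
        rw [hnb, mem_insert, mem_insert, mem_singleton] at hm
        rcases hm with rfl | rfl | rfl
        · exact absurd hdz1 hm2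
        · exact absurd hdz2 hm2
        · exact hα.2.1
      · intro w hw
        rw [hZ, mem_insert, mem_singleton] at hw
        rcases hw with rfl | rfl
        · exact hα.2.2.1
        · exact hα.2.2.2
      · intro m hm hm2
        rw [if_neg (by rintro rfl; exact hm2 hdz1), if_neg (by rintro rfl; exact hm2 hdz2)]
      · intro w hw
        rw [hZ, mem_insert, mem_singleton] at hw
        rcases hw with rfl | rfl
        · rw [if_pos rfl]
          exact hc
        · rw [if_neg h12.symm, if_pos rfl]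
          exact hd
    rw [hnb] at h3
    have h4 := (eq_of_not_CF h12 hnz1.symm hnz2.symm h3).2
    simp only [if_true, if_neg hnz1, if_neg hnz2] at h4
    exact h4
  have hPc : 2 ≤ P.card := by
    have h6 := le_card_sdiff (κ n ∪ {φ (y z₁), φ (y z₂)}) (L t)
    have h7 := h.card t
    have h8 : dg G t = 3 := ht.1
    have h9 := card_union_le (κ n) {φ (y z₁), φ (y z₂)}
    have h10 := card_le_two (a := φ (y z₁)) (b := φ (y z₂))
    rw [hP]
    omega
  obtain ⟨α, hα, β, hβ, hαβ⟩ := one_lt_card.mp (by omega : 1 < P.card)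
  have h21 : β ∈ A := mem_of_two (hAc z₁ hzZ1) (fun c hc => hkey β hβ c hc)
  have h22 := hkey α hα β (mem_erase.mpr ⟨hαβ.symm, h21⟩)
  rw [hP, mem_sdiff, mem_union] at hβ
  push Not at hβ
  exact hβ.2.1 (h22 ▸ hn5)

end Pool.Agent.Lib.MP_03175e_co
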