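import Pool.Agent.Lib.MP_03175e_co.Defs

/-!
Row F08b: forbidding lemma for lists (paper (A3), case `(Y, z₁, z₂)`).
-/

namespace Pool.Agent.Lib.MP_03175e_co

open Finset

/-- Facts in a failure. -/
private theorem F08b_facts (Lt : Finset ℕ) (ht : Lt.card = 5) (Lz : Fin 2 → Finset ℕ)
    (hz : ∀ i, (Lz i).card = 4) (y : Fin 2 → ℕ) (κ : Fin 2 → Finset ℕ) (κw : Finset ℕ) (c f : ℕ)
    (hy : ∀ i, y i ∈ κ i) (hκ : ∀ i, (κ i).card ≤ 2) (hw : κw.card ≤ 2) (hf : f ∈ κw) (hcf : c ≠ f)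
    (hd : ∀ i, Lz i \ κ i = {c, f}) (hL : Lt \ (κw ∪ {y 0, y 1}) = {c}) :
    c ∈ Lt ∧ f ∈ Lt ∧ (∀ i, c ∈ Lz i) ∧ (∀ i, f ∈ Lz i) ∧ (∀ i, y i ∈ Lz i) ∧ (∀ i, y i ∈ Lt) ∧
      (∀ i, y i ≠ c) ∧ (∀ i, y i ≠ f) ∧ y 0 ≠ y 1 := by
  have hc : ∀ i, c ∈ Lz i ∧ c ∉ κ i := fun i => by
    have : c ∈ Lz i \ κ i := by rw [hd i]; simp
    exact mem_sdiff.1 this
  have hf' : ∀ i, f ∈ Lz i ∧ f ∉ κ i := fun i => by
    have : f ∈ Lz i \ κ i := by rw [hd i]; simp
    exact mem_sdiff.1 this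
  have hκL : ∀ i, κ i ⊆ Lz i := by
    intro i
    have h1 : (Lz i \ κ i).card = 2 := by rw [hd i]; exact card_pair hcf
    have h2 : (Lz i ∩ κ i).card + (Lz i \ κ i).card = (Lz i).card := card_inter_add_card_sdiff _ _
    have h3 : κ i ∩ Lz i = κ i := by
      apply eq_of_subset_of_card_le inter_subset_left
      have := hκ i
      have := hz i
      rw [inter_comm]; omega
    exact fun x hx => (mem_inter.1 (by rw [h3]; exact hx : x ∈ κ i ∩ Lz i)).2
  set U : Finset ℕ := κw ∪ {y 0, y 1} with hU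
  have hcard : (Lt ∩ U).card + (Lt \ U).card = Lt.card := card_inter_add_card_sdiff _ _
  rw [hL, card_singleton, ht] at hcard
  have hUc : U.card ≤ κw.card + ({y 0, y 1} : Finset ℕ).card := card_union_le _ _
  have hp : ({y 0, y 1} : Finset ℕ).card ≤ 2 := card_le_two
  have hULt : U ⊆ Lt := by
    have h3 : U ∩ Lt = U := by
      apply eq_of_subset_of_card_le inter_subset_left
      rw [inter_comm]; omega
    exact fun x hx => (mem_inter.1 (by rw [h3]; exact hx : x ∈ U ∩ Lt)).2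
  have hUle : (Lt ∩ U).card ≤ U.card := card_le_card inter_subset_right
  have hne : y 0 ≠ y 1 := by
    intro h
    have : ({y 0, y 1} : Finset ℕ).card = 1 := by rw [h]; simp
    omega
  have hcL : c ∈ Lt := by
    have : c ∈ Lt \ U := by rw [hL]; simp
    exact (mem_sdiff.1 this).1
  have hyU : ∀ i, y i ∈ U := by
    intro i
    fin_cases i
    · simp [hU]
    · simp [hU]
  exact ⟨hcL, hULt (by rw [hU]; exact mem_union_left _ hf), fun i => (hc i).1, fun i => (hf' i).1,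
    fun i => hκL i (hy i), fun i => hULt (hyU i),
    fun i h => (hc i).2 (h ▸ hy i), fun i h => (hf' i).2 (h ▸ hy i), hne⟩

/-- (A3), case `(Y, z₁, z₂)`: unless `Lz 0 = Lz 1 ⊆ Lt`, forbidding at `y 0, y 1` avoids the
failure `Lt \ (κw ∪ {y 0, y 1}) = {c}`, `Lz i \ κ i = {c, f}`, `f ∈ κw`.
In a failure: `c ≠ f`, `κw ⊆ Lt` has two elements, `y 0 ≠ y 1`, and `c, y 0, y 1` and the two
elements of `κw` are five different elements of `Lt`. `y i ∈ κ i ⊆ Lz i`.
`D = Lt ∩ Lz 0 ∩ Lz 1` contains `c, f`. `D.card ≤ 1`: nothing to forbid.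
`D.card = 2`: `D = {c, f}`; `E i = (Lt ∩ Lz i) \ D` are disjoint subsets of the three-element set
`Lt \ D`, so one of them has at most one element; forbid it at `y i` (`y i ∈ E i`).
`D.card = 3`: forbid `Lz i \ D` at `y i` for `i = 0, 1`: then `y 0, y 1 ∈ D \ {c, f}`, which has one
element, but `y 0 ≠ y 1`. `D.card = 4`: `Lz 0 = Lz 1 = D ⊆ Lt`, excluded. -/
theorem t2_forbid (Lt : Finset ℕ) (ht : Lt.card = 5) (Lz : Fin 2 → Finset ℕ)
    (hz : ∀ i, (Lz i).card = 4) (hex : ¬ (Lz 0 = Lz 1 ∧ Lz 0 ⊆ Lt)) :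
    ∃ a : Fin 2 → Finset ℕ, (∀ i, (a i).card ≤ 1) ∧
      ∀ (y : Fin 2 → ℕ) (κ : Fin 2 → Finset ℕ) (κw : Finset ℕ) (c f : ℕ), (∀ i, y i ∉ a i) →
        (∀ i, y i ∈ κ i) → (∀ i, (κ i).card ≤ 2) → κw.card ≤ 2 → f ∈ κw → c ≠ f →
        (∀ i, Lz i \ κ i = {c, f}) → Lt \ (κw ∪ {y 0, y 1}) = {c} → False := by
  set D : Finset ℕ := Lt ∩ (Lz 0 ∩ Lz 1) with hD
  have memD : ∀ x, x ∈ D ↔ x ∈ Lt ∧ x ∈ Lz 0 ∧ x ∈ Lz 1 := by
    intro x; simp [hD]
  have hDi : ∀ i, D ⊆ Lz i := by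
    intro i x hx
    have := (memD x).1 hx
    fin_cases i
    · exact this.2.1
    · exact this.2.2
  have hDt : D ⊆ Lt := inter_subset_left
  have hpairD : ∀ c f : ℕ, c ≠ f → c ∈ D → f ∈ D → ({c, f} : Finset ℕ) ⊆ D := by
    intro c f _ hc hf x hx
    simp only [mem_insert, mem_singleton] at hx
    rcases hx with rfl | rfl <;> assumption
  by_cases h1 : D.card ≤ 1
  · refine ⟨fun _ => ∅, by simp, ?_⟩
    intro y κ κw c f _ hy hκ hw hf hcf hd hL
    obtain ⟨a1, a2, a3, a4, -⟩ := F08b_facts Lt ht Lz hz y κ κw c f hy hκ hw hf hcf hd hL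
    have := card_le_card (hpairD c f hcf ((memD c).2 ⟨a1, a3 0, a3 1⟩) ((memD f).2 ⟨a2, a4 0, a4 1⟩))
    rw [card_pair hcf] at this
    omega
  by_cases h2 : D.card = 2
  · have hdisj : Disjoint ((Lt ∩ Lz 0) \ D) ((Lt ∩ Lz 1) \ D) := by
      rw [disjoint_left]
      intro x hx hx'
      simp only [mem_sdiff, mem_inter] at hx hx'
      exact hx.2 ((memD x).2 ⟨hx.1.1, hx.1.2, hx'.1.2⟩)
    have hsub : ((Lt ∩ Lz 0) \ D) ∪ ((Lt ∩ Lz 1) \ D) ⊆ Lt \ D := by
      intro x hx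
      simp only [mem_union, mem_sdiff, mem_inter] at hx ⊢
      tauto
    have hc := card_le_card hsub
    rw [card_union_of_disjoint hdisj, card_sdiff_of_subset hDt, ht, h2] at hc
    have key : ∃ i : Fin 2, ((Lt ∩ Lz i) \ D).card ≤ 1 := by
      by_contra hcon
      push Not at hcon
      have := hcon 0
      have := hcon 1
      omega
    obtain ⟨i, hi⟩ := key
    refine ⟨fun j => if j = i then (Lt ∩ Lz i) \ D else ∅, ?_, ?_⟩
    · intro j
      by_cases hj : j = i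
      · simp only [hj, if_true]; exact hi
      · simp [hj]
    · intro y κ κw c f hya hy hκ hw hf hcf hd hL
      obtain ⟨a1, a2, a3, a4, a5, a6, a7, a8, a9⟩ :=
        F08b_facts Lt ht Lz hz y κ κw c f hy hκ hw hf hcf hd hL
      have hDe : ({c, f} : Finset ℕ) = D := by
        apply eq_of_subset_of_card_le
          (hpairD c f hcf ((memD c).2 ⟨a1, a3 0, a3 1⟩) ((memD f).2 ⟨a2, a4 0, a4 1⟩))
        rw [h2, card_pair hcf]
      have h := hya i
      simp only [if_true] at h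
      apply h
      rw [mem_sdiff, mem_inter, ← hDe]
      refine ⟨⟨a6 i, a5 i⟩, ?_⟩
      simp only [mem_insert, mem_singleton, not_or]
      exact ⟨a7 i, a8 i⟩
  by_cases h3 : D.card = 3
  · refine ⟨fun i => Lz i \ D, ?_, ?_⟩
    · intro i
      simp only
      rw [card_sdiff_of_subset (hDi i), hz i, h3]
    · intro y κ κw c f hya hy hκ hw hf hcf hd hL
      obtain ⟨a1, a2, a3, a4, a5, a6, a7, a8, a9⟩ :=
        F08b_facts Lt ht Lz hz y κ κw c f hy hκ hw hf hcf hd hL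
      have hyD : ∀ i, y i ∈ D := by
        intro i
        by_contra hcon
        exact hya i (mem_sdiff.2 ⟨a5 i, hcon⟩)
      have hsub := hpairD c f hcf ((memD c).2 ⟨a1, a3 0, a3 1⟩) ((memD f).2 ⟨a2, a4 0, a4 1⟩)
      have hcard : (D \ {c, f}).card = 1 := by
        rw [card_sdiff_of_subset hsub, h3, card_pair hcf]
      obtain ⟨z, hz'⟩ := card_eq_one.1 hcard
      have hyz : ∀ i, y i = z := by
        intro i
        have : y i ∈ D \ {c, f} := by
          rw [mem_sdiff]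
          refine ⟨hyD i, ?_⟩
          simp only [mem_insert, mem_singleton, not_or]
          exact ⟨a7 i, a8 i⟩
        rw [hz'] at this
        exact mem_singleton.1 this
      exact a9 ((hyz 0).trans (hyz 1).symm)
  · exfalso
    apply hex
    have hDe : ∀ i, D = Lz i := by
      intro i
      apply eq_of_subset_of_card_le (hDi i)
      rw [hz i]; omega
    refine ⟨(hDe 0).symm.trans (hDe 1), ?_⟩
    rw [← hDe 0]; exact hDt

end Pool.Agent.Lib.MP_03175e_co
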