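import Pool.Agent.Lib.MP_03175e_co.A05
import Pool.Agent.Lib.MP_03175e_co.F08b

/-!
Row A06: type T12 (paper section 3, (A3)).
-/

namespace Pool.Agent.Lib.MP_03175e_co

open Finset Classical

variable {V : Type} [Fintype V] {G : SimpleGraph V} {L : V → Finset ℕ}

private lemma A06_mem {v w : V} : w ∈ nb G v ↔ G.Adj v w := by
  simp [nb]

/-- The other neighbour of a vertex of degree two. -/
private lemma A06_other {z t : V} (hz : dg G z = 2) (hadj : G.Adj z t) :
    ∃ y, nb G z = {t, y} ∧ y ≠ t := by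
  obtain ⟨a, b, hab, h⟩ := Finset.card_eq_two.mp hz
  have ht : t ∈ nb G z := A06_mem.mpr hadj
  rw [h, mem_insert, mem_singleton] at ht
  rcases ht with rfl | rfl
  · exact ⟨b, h, hab.symm⟩
  · exact ⟨a, by rw [h, pair_comm], hab⟩

/-- The other neighbours of the neighbours of degree two. -/
private lemma A06_other_fun (t : V) :
    ∃ y : V → V, ∀ z ∈ ZN G t, nb G z = {t, y z} ∧ y z ≠ t := by
  have h : ∀ z, ∃ y, z ∈ ZN G t → nb G z = {t, y} ∧ y ≠ t := by
    intro z
    by_cases hz : z ∈ ZN G t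
    · have h1 := mem_filter.mp hz
      obtain ⟨y, hy⟩ := A06_other h1.2 (A06_mem.mp h1.1).symm
      exact ⟨y, fun _ => hy⟩
    · exact ⟨z, fun h => absurd h hz⟩
  choose y hy using h
  exact ⟨y, hy⟩

omit [Fintype V] in
/-- Three elements without a unique colour. -/
private lemma A06_not_CF {a b c : V} (hab : a ≠ b) (hac : a ≠ c) (hbc : b ≠ c) {e : V → ℕ}
    (h : ¬ CF ({a, b, c} : Finset V) e) : e a = e c ∧ e b = e c := by
  unfold CF at h
  push Not at h
  obtain ⟨x, hx, h1, h2⟩ := h a (by simp)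
  obtain ⟨y, hy, h3, h4⟩ := h b (by simp)
  obtain ⟨z, hz, h5, h6⟩ := h c (by simp)
  simp only [mem_insert, mem_singleton] at hx hy hz
  rcases hz with rfl | rfl | rfl
  · refine ⟨h5, ?_⟩
    rcases hy with rfl | rfl | rfl
    · rw [← h3, h5]
    · exact absurd rfl h4
    · exact h3.symm
  · refine ⟨?_, h5⟩
    rcases hx with rfl | rfl | rfl
    · exact absurd rfl h2
    · rw [← h1, h5]
    · exact h1.symm
  · exact absurd rfl h6

/-- A set with at least two elements, all elements of which except `α` are equal to `f`. -/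
private lemma A06_two {A : Finset ℕ} (hA : 2 ≤ A.card) {α f : ℕ} (h : ∀ c ∈ A.erase α, c = f) :
    α ∈ A ∧ A = {α, f} ∧ α ≠ f := by
  have hα : α ∈ A := by
    by_contra hα
    rw [erase_eq_of_notMem hα] at h
    have h1 : A ⊆ {f} := fun c hc => mem_singleton.mpr (h c hc)
    have := card_le_card h1
    rw [card_singleton] at this
    omega
  have h1 : A ⊆ {α, f} := by
    intro c hc
    rw [mem_insert, mem_singleton]
    by_cases hc1 : c = α
    · exact Or.inl hc1
    · exact Or.inr (h c (mem_erase.mpr ⟨hc1, hc⟩))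
  have h2 : A = {α, f} := eq_of_subset_of_card_le h1 (le_trans card_le_two hA)
  refine ⟨hα, h2, ?_⟩
  rintro rfl
  rw [h2] at hA
  simp at hA

/-- The failure of the small star at a vertex of type `T2`. -/
private lemma A06_core (h : MinCE G L) (h2 : ∀ v, 2 ≤ dg G v) {t z₁ z₂ : V} (ht : IsT2 G t)
    (h12 : z₁ ≠ z₂) (hZ : ZN G t = {z₁, z₂}) (y : V → V)
    (hy : ∀ z ∈ ZN G t, nb G z = {t, y z} ∧ y z ≠ t) (a : V → Finset ℕ)
    (ha : ∀ v, (a v).card ≤ 1) :
    ∃ (φ : V → ℕ) (κ : V → Finset ℕ) (κw : Finset ℕ) (c f : ℕ),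
      (∀ z ∈ ZN G t, φ (y z) ∈ κ (y z) ∧ (κ (y z)).card ≤ 2 ∧
        (dg G (y z) = 3 → (κ (y z)).card = 1) ∧ φ (y z) ∉ a (y z)) ∧
      κw.card ≤ 2 ∧ f ∈ κw ∧ c ≠ f ∧ (∀ z ∈ ZN G t, L z \ κ (y z) = {c, f}) ∧
      L t \ (κw ∪ {φ (y z₁), φ (y z₂)}) = {c} := by
  obtain ⟨φ, κ, hz, hn, hfin⟩ := h.small_star h2 (ge_of_eq ht.1) y hy a ha
  have hzZ1 : z₁ ∈ ZN G t := by rw [hZ]; simp
  have hzZ2 : z₂ ∈ ZN G t := by rw [hZ]; simp
  have hznb1 : z₁ ∈ nb G t := (mem_filter.mp hzZ1).1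
  have hznb2 : z₂ ∈ nb G t := (mem_filter.mp hzZ2).1
  have hdz1 : dg G z₁ = 2 := (mem_filter.mp hzZ1).2
  have hdz2 : dg G z₂ = 2 := (mem_filter.mp hzZ2).2
  have hcard : (((nb G t).erase z₁).erase z₂).card = 1 := by
    rw [card_erase_of_mem (mem_erase.mpr ⟨h12.symm, hznb2⟩), card_erase_of_mem hznb1]
    have : (nb G t).card = 3 := ht.1
    omega
  obtain ⟨n, hN⟩ := Finset.card_eq_one.mp hcard
  have hn1 : n ∈ ((nb G t).erase z₁).erase z₂ := by rw [hN]; simp
  have hnz2 : n ≠ z₂ := (mem_erase.mp hn1).1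
  have hnz1 : n ≠ z₁ := (mem_erase.mp (mem_erase.mp hn1).2).1
  have hnnb : n ∈ nb G t := (mem_erase.mp (mem_erase.mp hn1).2).2
  have hnb : nb G t = {z₁, z₂, n} := by
    rw [← insert_erase hznb1, ← insert_erase (mem_erase.mpr ⟨h12.symm, hznb2⟩), hN]
  have hdeg : dg G n ≠ 2 := by
    intro h3
    have h4 : n ∈ ZN G t := mem_filter.mpr ⟨hnnb, h3⟩
    rw [hZ, mem_insert, mem_singleton] at h4
    exact h4.elim hnz1 hnz2
  obtain ⟨hn5, hn7, -, -⟩ := hn n hnnb hdeg
  have hAc : ∀ z ∈ ZN G t, 2 ≤ (L z \ κ (y z)).card := by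
    intro z hz'
    have h6 := le_card_sdiff (κ (y z)) (L z)
    have h7 := h.card z
    have h8 := (hz z hz').2.1
    have h9 : dg G z = 2 := (mem_filter.mp hz').2
    omega
  set P := L t \ (κ n ∪ {φ (y z₁), φ (y z₂)}) with hP
  have hall : ∀ α ∈ P, ∀ c ∈ (L z₁ \ κ (y z₁)).erase α, ∀ d ∈ (L z₂ \ κ (y z₂)).erase α,
      c = φ n ∧ d = φ n := by
    intro α hα c hc d hd
    rw [hP, mem_sdiff, mem_union, mem_insert, mem_singleton] at hα
    push Not at hα
    have h3 : ¬ CF (nb G t) (fun v => if v = z₁ then c else if v = z₂ then d else φ v) := by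
      intro hCF
      refine hfin α hα.1 ?_ ?_ _ ?_ ?_ hCF
      · intro m hm hm2
        rw [hnb, mem_insert, mem_insert, mem_singleton] at hm
        rcases hm with rfl | rfl | rfl
        · exact absurd hdz1 hm2
        · exact absurd hdz2 hm2
        · exact hα.2.1
      · intro w hw
        rw [hZ, mem_insert, mem_singleton] at hw
        rcases hw with rfl | rfl
        · exact hα.2.2.1
        · exact hα.2.2.2
      · intro m hm hm2
        rw [if_neg (by rintro rfl; exact hm2 hdz1), if_neg (by rintro rfl; exact hm2 hdz2)]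
      · intro w hw
        rw [hZ, mem_insert, mem_singleton] at hw
        rcases hw with rfl | rfl
        · rw [if_pos rfl]
          exact hc
        · rw [if_neg h12.symm, if_pos rfl]
          exact hd
    rw [hnb] at h3
    have h4 := A06_not_CF h12 hnz1.symm hnz2.symm h3
    simp only [if_true, if_neg hnz1, if_neg hnz2, if_neg h12.symm] at h4
    exact h4
  have hne : ∀ z ∈ ZN G t, ∀ α, ((L z \ κ (y z)).erase α).Nonempty := by
    intro z hz' α
    rw [← card_pos]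
    have := pred_card_le_card_erase (s := L z \ κ (y z)) (a := α)
    have := hAc z hz'
    omega
  have hkey1 : ∀ α ∈ P, ∀ c ∈ (L z₁ \ κ (y z₁)).erase α, c = φ n := by
    intro α hα c hc
    obtain ⟨d, hd⟩ := hne z₂ hzZ2 α
    exact (hall α hα c hc d hd).1
  have hkey2 : ∀ α ∈ P, ∀ d ∈ (L z₂ \ κ (y z₂)).erase α, d = φ n := by
    intro α hα d hd
    obtain ⟨c, hc⟩ := hne z₁ hzZ1 α
    exact (hall α hα c hc d hd).2
  have hPc : 1 ≤ P.card := by
    have h6 := le_card_sdiff (κ n ∪ {φ (y z₁), φ (y z₂)}) (L t)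
    have h7 := h.card t
    have h8 : dg G t = 3 := ht.1
    have h9 := card_union_le (κ n) {φ (y z₁), φ (y z₂)}
    have h10 := card_le_two (a := φ (y z₁)) (b := φ (y z₂))
    rw [hP]
    omega
  obtain ⟨c, hc⟩ := card_pos.mp hPc
  obtain ⟨hc1, hc2, hc3⟩ := A06_two (hAc z₁ hzZ1) (hkey1 c hc)
  obtain ⟨-, hc4, -⟩ := A06_two (hAc z₂ hzZ2) (hkey2 c hc)
  refine ⟨φ, κ, κ n, c, φ n, hz, hn7, hn5, hc3, ?_, ?_⟩
  · intro z hz'
    rw [hZ, mem_insert, mem_singleton] at hz'
    rcases hz' with rfl | rfl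
    · exact hc2
    · exact hc4
  · rw [← hP, eq_singleton_iff_unique_mem]
    refine ⟨hc, ?_⟩
    intro β hβ
    by_contra hβc
    obtain ⟨hβ1, -, -⟩ := A06_two (hAc z₁ hzZ1) (hkey1 β hβ)
    have h5 := hkey1 c hc β (mem_erase.mpr ⟨hβc, hβ1⟩)
    rw [hP, mem_sdiff, mem_union] at hβ
    push Not at hβ
    exact hβ.2.1 (h5 ▸ hn5)

/-- Row A06. `t` with a Y-neighbour `w` and two neighbours `z₁, z₂` of degree 2: the other ends
`y z₁`, `y z₂` have degree at least 4 (degree at least 3 by `MinCE.thr`), and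
`L z₁ = L z₂ ⊆ L t`.
`P = L t \ (κ w ∪ {φ (y z₁), φ (y z₂)})` has at least one element, `A_i = L z_i \ κ (y z_i)` at
least two. All choices fail, i.e. all three neighbours get the colour `φ w`: so
`A_i.erase α = {φ w}` for all `α ∈ P`; hence `P = {c}`, `A₁ = A₂ = {c, φ w}`. If
`dg G (y z₁) = 3` then `(κ (y z₁)).card = 1` and `A₁.card ≥ 3`: contradiction. If not
`L z₁ = L z₂ ⊆ L t`, use `t2_forbid` (with `Lt = L t`, `Lz = ![L z₁, L z₂]`) for the choice of
`a` (`y z₁ ≠ y z₂` by `c4`). -/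
theorem MinCE.t2' (h : MinCE G L) (h2 : ∀ v, 2 ≤ dg G v) (t : V) (ht : IsT2 G t) :
    (∀ z ∈ ZN G t, ∀ m ∈ nb G z, m ≠ t → 4 ≤ dg G m) ∧
      ∃ D : Finset ℕ, D.card = 4 ∧ D ⊆ L t ∧ ∀ z ∈ ZN G t, L z = D := by
  obtain ⟨y, hy⟩ := A06_other_fun (G := G) t
  obtain ⟨z₁, z₂, h12, hZ⟩ := Finset.card_eq_two.mp ht.2
  have hzZ1 : z₁ ∈ ZN G t := by rw [hZ]; simp
  have hzZ2 : z₂ ∈ ZN G t := by rw [hZ]; simp
  have hznb1 : z₁ ∈ nb G t := (mem_filter.mp hzZ1).1
  have hznb2 : z₂ ∈ nb G t := (mem_filter.mp hzZ2).1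
  have hdz : ∀ z ∈ ZN G t, dg G z = 2 := fun z hz => (mem_filter.mp hz).2
  have hLz : ∀ z ∈ ZN G t, (L z).card = 4 := by
    intro z hz
    rw [h.card, hdz z hz]
  constructor
  · intro z hz m hm hmt
    have hzt : G.Adj z t := (A06_mem.mp (mem_filter.mp hz).1).symm
    have hmy : m = y z := by
      rw [(hy z hz).1, mem_insert, mem_singleton] at hm
      exact hm.resolve_left hmt
    by_contra hcon
    have hm2 : dg G m ≠ 2 := by
      intro hm2
      have h3 := h.thr h2 m z t (A06_mem.mp hm).symm hm2 (hdz z hz) hzt hmt.symm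
        (by rw [ht.1]; norm_num)
      have h4 : dg G t = 3 := ht.1
      omega
    have hm3 : dg G m = 3 := by
      have := h2 m
      omega
    obtain ⟨φ, κ, κw, c, f, hκ, -, -, -, hA, -⟩ := A06_core h h2 ht h12 hZ y hy (fun _ => ∅)
      (fun _ => by simp)
    have h3 := (hκ z hz).2.2.1 (hmy ▸ hm3)
    have h4 := le_card_sdiff (κ (y z)) (L z)
    rw [hA z hz, hLz z hz, h3] at h4
    have h5 := card_le_two (a := c) (b := f)
    omega
  · by_contra hcon
    have hex : ¬ ((![L z₁, L z₂] : Fin 2 → Finset ℕ) 0 = (![L z₁, L z₂] : Fin 2 → Finset ℕ) 1 ∧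
        (![L z₁, L z₂] : Fin 2 → Finset ℕ) 0 ⊆ L t) := by
      rintro ⟨h3, h4⟩
      simp only [Matrix.cons_val_zero, Matrix.cons_val_one] at h3 h4
      refine hcon ⟨L z₁, hLz z₁ hzZ1, h4, ?_⟩
      intro z hz
      rw [hZ, mem_insert, mem_singleton] at hz
      rcases hz with rfl | rfl
      · rfl
      · exact h3.symm
    obtain ⟨a, ha, hfail⟩ := t2_forbid (L t) (by rw [h.card, ht.1]) ![L z₁, L z₂] (by
      intro i
      fin_cases i
      · exact hLz z₁ hzZ1
      · exact hLz z₂ hzZ2) hex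
    have hyy : y z₁ ≠ y z₂ := by
      intro he
      have h3 : y z₁ ∈ nb G z₁ := by rw [(hy z₁ hzZ1).1]; simp
      have h4 : y z₂ ∈ nb G z₂ := by rw [(hy z₂ hzZ2).1]; simp
      refine h.short.c4 t z₁ (y z₁) z₂ (A06_mem.mp hznb1) (A06_mem.mp h3) ?_
        (A06_mem.mp hznb2).symm (hy z₁ hzZ1).2.symm h12
      rw [he]
      exact (A06_mem.mp h4).symm
    obtain ⟨φ, κ, κw, c, f, hκ, hw2, hfw, hcf, hA, hP⟩ := A06_core h h2 ht h12 hZ y hy
      (fun v => if v = y z₁ then a 0 else if v = y z₂ then a 1 else ∅) (by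
        intro v
        by_cases h3 : v = y z₁
        · simp only [h3, if_true]
          exact ha 0
        · by_cases h4 : v = y z₂
          · simp only [h4, if_true, if_neg hyy.symm]
            exact ha 1
          · simp [h3, h4])
    have k1 := hκ z₁ hzZ1
    have k2 := hκ z₂ hzZ2
    simp only [if_true] at k1
    simp only [if_true, if_neg hyy.symm] at k2
    refine hfail ![φ (y z₁), φ (y z₂)] ![κ (y z₁), κ (y z₂)] κw c f ?_ ?_ ?_ hw2 hfw hcf ?_ ?_
    · intro i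
      fin_cases i
      · exact k1.2.2.2
      · exact k2.2.2.2
    · intro i
      fin_cases i
      · exact k1.1
      · exact k2.1
    · intro i
      fin_cases i
      · exact k1.2.1
      · exact k2.2.1
    · intro i
      fin_cases i
      · exact hA z₁ hzZ1
      · exact hA z₂ hzZ2
    · simpa using hP

end Pool.Agent.Lib.MP_03175e_co
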