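import Pool.Agent.Lib.MP_03175e_co.Defs

/-!
Row F08a: forbidding lemmas for lists (paper (L1F), (A3)).
-/

namespace Pool.Agent.Lib.MP_03175e_co

open Finset

/-- Common core of `l1_forbid` and `t3_forbid`. -/
theorem F08a_core (L : Finset ℕ) (hL : L.card ≤ 6) (Lz : Fin 3 → Finset ℕ)
    (hz : ∀ i, (Lz i).card = 4) :
    ∃ a : Fin 3 → Finset ℕ, (∀ i, (a i).card ≤ 1) ∧
      ∀ (y : Fin 3 → ℕ) (S : Finset ℕ), (∀ i, y i ∉ a i) → (∀ i, y i ∈ Lz i) →
        (∀ i, y i ∈ L) → (∀ i, y i ∉ S) → Function.Injective y → (∀ i, S ⊆ Lz i) → S ⊆ L →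
        S.card = 2 → False := by
  classical
  obtain ⟨D, hD⟩ : ∃ D, D = Lz 0 ∩ Lz 1 ∩ Lz 2 := ⟨_, rfl⟩
  have hDz : ∀ i, D ⊆ Lz i := by
    intro i x hx
    rw [hD, mem_inter, mem_inter] at hx
    fin_cases i
    · exact hx.1.1
    · exact hx.1.2
    · exact hx.2
  have hSD : ∀ S : Finset ℕ, (∀ i, S ⊆ Lz i) → S ⊆ D := by
    intro S hS x hx
    rw [hD, mem_inter, mem_inter]
    exact ⟨⟨hS 0 hx, hS 1 hx⟩, hS 2 hx⟩
  have hD4 : D.card ≤ 4 := (card_le_card (hDz 0)).trans (hz 0).le
  have hsd : ∀ i, (Lz i \ D).card = 4 - D.card := by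
    intro i
    rw [card_sdiff_of_subset (hDz i), hz i]
  by_cases h1 : D.card < 2
  · refine ⟨fun _ => ∅, fun _ => by simp, ?_⟩
    intro y S _ _ _ _ _ hS _ hc
    have := card_le_card (hSD S hS)
    omega
  by_cases h4 : D.card = 4
  · refine ⟨fun _ => ∅, fun _ => by simp, ?_⟩
    intro y S _ hy _ hyS hinj hS _ hc
    have hDS : (D \ S).card = 2 := by
      rw [card_sdiff_of_subset (hSD S hS)]; omega
    have hsub : (Finset.univ.image y) ⊆ D \ S := by
      intro x hx
      rw [mem_image] at hx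
      obtain ⟨i, _, rfl⟩ := hx
      rw [mem_sdiff]
      refine ⟨?_, hyS i⟩
      have : D = Lz i := eq_of_subset_of_card_le (hDz i) (by rw [hz i, h4])
      rw [this]
      exact hy i
    have := card_le_card hsub
    rw [card_image_of_injective _ hinj, hDS] at this
    simp at this
  by_cases h3 : D.card = 3
  · refine ⟨fun i => Lz i \ D, fun i => by rw [hsd i]; omega, ?_⟩
    intro y S hya hy _ hyS hinj hS _ hc
    have hDS : (D \ S).card = 1 := by
      rw [card_sdiff_of_subset (hSD S hS)]; omega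
    have hm : ∀ i, y i ∈ D \ S := by
      intro i
      rw [mem_sdiff]
      refine ⟨?_, hyS i⟩
      by_contra hn
      exact hya i (mem_sdiff.2 ⟨hy i, hn⟩)
    obtain ⟨e, he⟩ := card_eq_one.1 hDS
    have h0 := hm 0
    have h1 := hm 1
    rw [he, mem_singleton] at h0 h1
    have := hinj (h0.trans h1.symm)
    exact absurd this (by decide)
  have h2 : D.card = 2 := by omega
  by_cases hDL : D ⊆ L
  swap
  · refine ⟨fun _ => ∅, fun _ => by simp, ?_⟩
    intro y S _ _ _ _ _ hS hSL hc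
    have : S = D := eq_of_subset_of_card_le (hSD S hS) (by rw [hc, h2])
    exact hDL (this ▸ hSL)
  obtain ⟨E, hE⟩ : ∃ E : Fin 3 → Finset ℕ, E = fun i => (Lz i \ D) ∩ L := ⟨_, rfl⟩
  have hEm : ∀ (y : Fin 3 → ℕ) (S : Finset ℕ), (∀ i, y i ∈ Lz i) → (∀ i, y i ∈ L) →
      (∀ i, y i ∉ S) → (∀ i, S ⊆ Lz i) → S.card = 2 → ∀ i, y i ∈ E i := by
    intro y S hy hyL hyS hS hc i
    have hSe : S = D := eq_of_subset_of_card_le (hSD S hS) (by rw [hc, h2])
    rw [hE]
    simp only [mem_inter, mem_sdiff]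
    exact ⟨⟨hy i, by rw [← hSe]; exact hyS i⟩, hyL i⟩
  have hE2 : ∀ i, (E i).card ≤ 2 := by
    intro i
    rw [hE]
    refine (card_le_card inter_subset_left).trans ?_
    rw [hsd i]; omega
  by_cases hE1 : ∃ i, (E i).card ≤ 1
  · obtain ⟨i, hi⟩ := hE1
    refine ⟨fun j => if j = i then E i else ∅, fun j => ?_, ?_⟩
    · by_cases hj : j = i
      · simp only [hj, if_true]; exact hi
      · simp [hj]
    intro y S hya hy hyL hyS _ hS _ hc
    have h := hya i
    simp only [if_true] at h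
    exact h (hEm y S hy hyL hyS hS hc i)
  push Not at hE1
  have hE2' : ∀ i, (E i).card = 2 := fun i => by
    have a := hE2 i
    have b := hE1 i
    omega
  have hEsub : ∀ i, E i ⊆ L \ D := by
    intro i x hx
    rw [hE] at hx
    simp only [mem_inter, mem_sdiff] at hx
    exact mem_sdiff.2 ⟨hx.2, hx.1.2⟩
  have hLD : (L \ D).card ≤ 4 := by
    rw [card_sdiff_of_subset hDL]; omega
  obtain ⟨i, j, hij, e, hei, hej⟩ : ∃ i j : Fin 3, i ≠ j ∧ ∃ e, e ∈ E i ∧ e ∈ E j := by
    by_contra hno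
    push Not at hno
    have hd : Set.PairwiseDisjoint (Finset.univ : Finset (Fin 3)) E := by
      intro i _ j _ hij
      rw [Function.onFun, disjoint_left]
      intro e hei hej
      exact hno i j hij e hei hej
    have hc := card_biUnion hd
    have hs : (Finset.univ : Finset (Fin 3)).biUnion E ⊆ L \ D := by
      intro x hx
      rw [mem_biUnion] at hx
      obtain ⟨i, _, hi⟩ := hx
      exact hEsub i hi
    have := card_le_card hs
    rw [hc] at this
    simp only [hE2', sum_const, card_univ, Fintype.card_fin, smul_eq_mul] at this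
    omega
  refine ⟨fun k => if k = i ∨ k = j then (E k).erase e else ∅, fun k => ?_, ?_⟩
  · by_cases hk : k = i ∨ k = j
    · simp only [hk, if_true]
      rcases hk with hk | hk
      · rw [hk, card_erase_of_mem hei, hE2']
      · rw [hk, card_erase_of_mem hej, hE2']
    · simp [hk]
  intro y S hya hy hyL hyS hinj hS _ hc
  have hye := hEm y S hy hyL hyS hS hc
  have hi := hya i
  have hj := hya j
  simp only [true_or, or_true, if_true, mem_erase, not_and] at hi hj
  have hi' : y i = e := by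
    by_contra hn
    exact hi hn (hye i)
  have hj' : y j = e := by
    by_contra hn
    exact hj hn (hye j)
  exact hij (hinj (hi'.trans hj'.symm))

/-- Facts about the exceptional case. -/
theorem F08a_facts (L : Finset ℕ) (Lz : Fin 3 → Finset ℕ) (hz : ∀ i, (Lz i).card = 4)
    (y : Fin 3 → ℕ) (κ : Fin 3 → Finset ℕ) (S : Finset ℕ) (hyκ : ∀ i, y i ∈ κ i)
    (hκ : ∀ i, (κ i).card ≤ 2) (hS : S.card = 2) (hzS : ∀ i, Lz i \ κ i = S)
    (hc : (L \ {y 0, y 1, y 2}).card + 3 = L.card) :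
    (∀ i, y i ∈ Lz i) ∧ (∀ i, y i ∈ L) ∧ (∀ i, y i ∉ S) ∧ Function.Injective y ∧
      (∀ i, S ⊆ Lz i) := by
  classical
  have hyS : ∀ i, y i ∉ S := by
    intro i h
    rw [← hzS i, mem_sdiff] at h
    exact h.2 (hyκ i)
  have hSz : ∀ i, S ⊆ Lz i := by
    intro i
    rw [← hzS i]
    exact sdiff_subset
  have hyz : ∀ i, y i ∈ Lz i := by
    intro i
    have h1 : (Lz i \ κ i).card = 2 := by rw [hzS i, hS]
    have h2 := card_sdiff_add_card_inter (Lz i) (κ i)
    rw [h1, hz i] at h2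
    have h3 : (Lz i ∩ κ i).card = 2 := by omega
    have h4 : Lz i ∩ κ i = κ i :=
      eq_of_subset_of_card_le inter_subset_right (by rw [h3]; exact hκ i)
    have h5 := hyκ i
    rw [← h4, mem_inter] at h5
    exact h5.1
  have h1 := card_sdiff_add_card_inter L {y 0, y 1, y 2}
  have h2 : (L ∩ {y 0, y 1, y 2}).card = 3 := by omega
  have h3 : ({y 0, y 1, y 2} : Finset ℕ) = Finset.univ.image y := by
    ext x
    simp only [mem_insert, mem_singleton, mem_image, mem_univ, true_and]
    constructor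
    · rintro (h | h | h)
      · exact ⟨0, h.symm⟩
      · exact ⟨1, h.symm⟩
      · exact ⟨2, h.symm⟩
    · rintro ⟨i, rfl⟩
      fin_cases i
      · exact Or.inl rfl
      · exact Or.inr (Or.inl rfl)
      · exact Or.inr (Or.inr rfl)
  rw [h3] at h2
  have h4 : (Finset.univ.image y).card ≤ 3 := by
    have := card_image_le (s := (Finset.univ : Finset (Fin 3))) (f := y)
    simpa using this
  have h5 : L ∩ Finset.univ.image y = Finset.univ.image y :=
    eq_of_subset_of_card_le inter_subset_right (by rw [h2]; exact h4)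
  have hyL : ∀ i, y i ∈ L := by
    intro i
    have : y i ∈ Finset.univ.image y := mem_image_of_mem y (mem_univ i)
    rw [← h5, mem_inter] at this
    exact this.1
  have hinj : Function.Injective y := by
    have h6 : (Finset.univ.image y).card = (Finset.univ : Finset (Fin 3)).card := by
      rw [← h5, h2]; simp
    have h7 := card_image_iff.1 h6
    intro i j hij
    exact h7 (by simp) (by simp) hij
  exact ⟨hyz, hyL, hyS, hinj, hSz⟩

/-- (L1F) `Lx` has six colours, the three lists `Lz i` have four. There are colours to forbid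
(at most one at every `y i`) such that the exceptional case does not occur.
Let `D` be the intersection of the three lists. `D.card ≤ 1`: forbid nothing (`S ⊆ D`).
`D.card = 2`: then `S = D`. If `D ⊄ Lx` forbid nothing. Otherwise put `E i = (Lz i \ D) ∩ Lx`;
`y i ∈ E i` (`y i ∈ κ i ⊆ Lz i` because `(Lz i \ κ i).card = 2`, and `y i ∈ Lx` because
`(Lx \ {y 0, y 1, y 2}).card = 3`, which also shows that the `y i` are different; `y i ∉ S`).
If some `E i` has at most one element, forbid it at `y i`. Otherwise the `E i` have two elements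
and are subsets of `Lx \ D` (four elements), so two of them meet: `e ∈ E i ∩ E j`; forbid
`(E i).erase e` at `y i` and `(E j).erase e` at `y j`: then `y i = e = y j`, contradiction.
`D.card = 3`: forbid `Lz 0 \ D` at `y 0` and `Lz 1 \ D` at `y 1`; then `y 0, y 1 ∈ D \ S`, which has
one element. `D.card = 4`: the three different `y i` lie in `D \ S`, which has two elements. -/
theorem l1_forbid (Lx : Finset ℕ) (hx : Lx.card = 6) (Lz : Fin 3 → Finset ℕ)
    (hz : ∀ i, (Lz i).card = 4) :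
    ∃ a : Fin 3 → Finset ℕ, (∀ i, (a i).card ≤ 1) ∧
      ∀ (y : Fin 3 → ℕ) (κ : Fin 3 → Finset ℕ) (S : Finset ℕ), (∀ i, y i ∉ a i) →
        (∀ i, y i ∈ κ i) → (∀ i, (κ i).card ≤ 2) → S.card = 2 → (∀ i, Lz i \ κ i = S) →
        (Lx \ {y 0, y 1, y 2}).card = 3 → S ⊆ Lx \ {y 0, y 1, y 2} → False := by
  obtain ⟨a, ha, h⟩ := F08a_core Lx hx.le Lz hz
  refine ⟨a, ha, ?_⟩
  intro y κ S hya hyκ hκ hS hzS hc hSL
  obtain ⟨h1, h2, h3, h4, h5⟩ := F08a_facts Lx Lz hz y κ S hyκ hκ hS hzS (by rw [hc, hx])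
  exact h y S hya h1 h2 h3 h4 h5 (hSL.trans sdiff_subset) hS

/-- (A3), case `(z₁, z₂, z₃)`. Same proof as `l1_forbid` with `Lt.card = 5`; in the case
`D.card = 2` the `E i` are two-element subsets of the three-element set `Lt \ D`. -/
theorem t3_forbid (Lt : Finset ℕ) (ht : Lt.card = 5) (Lz : Fin 3 → Finset ℕ)
    (hz : ∀ i, (Lz i).card = 4) :
    ∃ a : Fin 3 → Finset ℕ, (∀ i, (a i).card ≤ 1) ∧
      ∀ (y : Fin 3 → ℕ) (κ : Fin 3 → Finset ℕ) (S : Finset ℕ), (∀ i, y i ∉ a i) →
        (∀ i, y i ∈ κ i) → (∀ i, (κ i).card ≤ 2) → S.card = 2 → (∀ i, Lz i \ κ i = S) →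
        Lt \ {y 0, y 1, y 2} = S → False := by
  obtain ⟨a, ha, h⟩ := F08a_core Lt (by omega) Lz hz
  refine ⟨a, ha, ?_⟩
  intro y κ S hya hyκ hκ hS hzS hc
  obtain ⟨h1, h2, h3, h4, h5⟩ := F08a_facts Lt Lz hz y κ S hyκ hκ hS hzS (by rw [hc, hS, ht])
  exact h y S hya h1 h2 h3 h4 h5 (by rw [← hc]; exact sdiff_subset) hS

end Pool.Agent.Lib.MP_03175e_co
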