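import Pool.Agent.Lib.MP_03175e_co.A04
import Pool.Agent.Lib.MP_03175e_co.A03
import Pool.Agent.Lib.MP_03175e_co.F08a

/-!
Row A07: three neighbours of degree two (paper section 3, (A3)).
-/

namespace Pool.Agent.Lib.MP_03175e_co

open Finset Classical

variable {V : Type} [Fintype V] {G : SimpleGraph V} {L : V → Finset ℕ}

/-- three values which are not all equal have a unique one -/
theorem A07_uniq (f : Fin 3 → ℕ) (h : ¬ ∀ i j, f i = f j) : ∃ i, ∀ j, f j = f i → j = i := by
  by_contra hc
  push Not at hc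
  apply h
  have h0 := hc 0
  have h1 := hc 1
  have h2 := hc 2
  have key : f 0 = f 1 ∧ f 1 = f 2 := by
    obtain ⟨a, ha, ha'⟩ := h0
    obtain ⟨b, hb, hb'⟩ := h1
    obtain ⟨c, hc, hc'⟩ := h2
    fin_cases a <;> fin_cases b <;> fin_cases c <;> simp_all
  intro i j
  fin_cases i <;> fin_cases j <;> simp [key.1, key.2]

/-- neighbourhood of a vertex of degree 2 -/
theorem A07_other {t z : V} (hz : z ∈ ZN G t) : ∃ y, nb G z = {t, y} ∧ y ≠ t := by
  rw [ZN, mem_filter, nb, mem_filter] at hz
  have ht : t ∈ nb G z := by rw [nb, mem_filter]; exact ⟨mem_univ _, hz.1.2.symm⟩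
  have hc : (nb G z).card = 2 := hz.2
  obtain ⟨a, b, hab, h⟩ := card_eq_two.1 hc
  rw [h, mem_insert, mem_singleton] at ht
  rcases ht with rfl | rfl
  · exact ⟨b, h, hab.symm⟩
  · exact ⟨a, by rw [h, pair_comm], hab⟩

/-- Row A07. A vertex `t` of degree 3 has at most two neighbours of degree 2. Otherwise
`nb G t = ZN G t = {z₁, z₂, z₃}`; `small_star` with `a` from `t3_forbid` (the three ends are
different). `P = L t \ {φ (y z₁), φ (y z₂), φ (y z₃)}` has at least 2 elements. All choices fail:
for `α ∈ P` all `A_i.erase α` are equal to the same singleton, so `A₁ = A₂ = A₃ = {α, β}` for all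
`α ∈ P`, hence `P = A₁ = A₂ = A₃` has two elements: contradiction to `t3_forbid`. -/
theorem MinCE.t3 (h : MinCE G L) (h2 : ∀ v, 2 ≤ dg G v) (t : V) (ht : dg G t = 3) :
    (ZN G t).card ≤ 2 := by
  by_contra hcon
  push Not at hcon
  have hsub : ZN G t ⊆ nb G t := filter_subset _ _
  have hcard : (nb G t).card = 3 := ht
  have hZ : ZN G t = nb G t := eq_of_subset_of_card_le hsub (by omega)
  have hdeg : ∀ n ∈ nb G t, dg G n = 2 := by
    intro n hn
    rw [← hZ, ZN, mem_filter] at hn
    exact hn.2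
  have hadj : ∀ n ∈ nb G t, G.Adj t n := by
    intro n hn
    rw [nb, mem_filter] at hn
    exact hn.2
  choose! y hy using fun (z : V) (hz : z ∈ ZN G t) => A07_other hz
  set E := Finset.equivFinOfCardEq hcard with hE
  set z : Fin 3 → V := fun i => (E.symm i : V) with hz
  have hzn : ∀ i, z i ∈ nb G t := fun i => (E.symm i).2
  have hzZ : ∀ i, z i ∈ ZN G t := fun i => by rw [hZ]; exact hzn i
  have hzi : Function.Injective z := fun i j hij => E.symm.injective (Subtype.ext hij)
  have hzs : ∀ n (hn : n ∈ nb G t), z (E ⟨n, hn⟩) = n := fun n hn => by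
    simp only [hz, Equiv.symm_apply_apply]
  have hadjy : ∀ i, G.Adj (z i) (y (z i)) := by
    intro i
    have : y (z i) ∈ nb G (z i) := by rw [(hy _ (hzZ i)).1]; simp
    rw [nb, mem_filter] at this
    exact this.2
  -- the ends are different
  have hyi : ∀ i j, y (z i) = y (z j) → i = j := by
    intro i j hij
    by_contra hne
    have hne' : z i ≠ z j := fun hh => hne (hzi hh)
    refine h.short.c4 t (z i) (y (z i)) (z j) (hadj _ (hzn i)) (hadjy i) ?_ (hadj _ (hzn j)).symm
      (hy _ (hzZ i)).2.symm hne'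
    rw [hij]
    exact (hadjy j).symm
  have hLt : (L t).card = 5 := by rw [h.card t, ht]
  have hLz : ∀ i, (L (z i)).card = 4 := fun i => by rw [h.card, hdeg _ (hzn i)]
  obtain ⟨a', ha1, ha2⟩ := t3_forbid (L t) hLt (fun i => L (z i)) hLz
  set a : V → Finset ℕ := fun v => if hv : ∃ i, y (z i) = v then a' hv.choose else ∅ with ha
  have haz : ∀ i, a (y (z i)) = a' i := by
    intro i
    have hv : ∃ j, y (z j) = y (z i) := ⟨i, rfl⟩
    have hc := hyi _ _ hv.choose_spec
    simp only [ha]
    rw [dif_pos hv, hc]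
  have hac : ∀ v, (a v).card ≤ 1 := by
    intro v
    simp only [ha]
    split_ifs with hv
    · exact ha1 _
    · simp
  obtain ⟨φ, κ, k1, -, k3⟩ := h.small_star h2 (t := t) (by omega) y hy a hac
  have k3' : ∀ α ∈ L t, (∀ i, α ≠ φ (y (z i))) → ∀ f : Fin 3 → ℕ,
      (∀ i, f i ∈ (L (z i) \ κ (y (z i))).erase α) → (∀ i j, f i = f j) := by
    intro α hα hα' f hf
    by_contra hne
    obtain ⟨i, hi⟩ := A07_uniq f hne
    refine k3 α hα (fun n hn hn' => absurd (hdeg n hn) hn') ?_
      (fun n => if hn : n ∈ nb G t then f (E ⟨n, hn⟩) else 0)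
      (fun n hn hn' => absurd (hdeg n hn) hn') ?_ ?_
    · intro w hw
      have := hα' (E ⟨w, hZ ▸ hw⟩)
      rwa [hzs] at this
    · intro w hw
      have hw' : w ∈ nb G t := hZ ▸ hw
      have := hf (E ⟨w, hw'⟩)
      rw [hzs] at this
      simpa only [dif_pos hw'] using this
    · refine ⟨z i, hzn i, fun v hv hvi => ?_⟩
      have e1 : E ⟨z i, hzn i⟩ = i := by
        apply hzi
        rw [hzs]
      simp only [dif_pos hv, dif_pos (hzn i), e1] at hvi
      have := hi _ hvi
      rw [← hzs v hv, this]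
  set A : Fin 3 → Finset ℕ := fun i => L (z i) \ κ (y (z i)) with hA
  have hAc : ∀ i, 2 ≤ (A i).card := by
    intro i
    have h1 := le_card_sdiff (κ (y (z i))) (L (z i))
    have h2 := (k1 _ (hzZ i)).2.1
    have h3 := hLz i
    simp only [hA]
    omega
  set P : Finset ℕ := L t \ {φ (y (z 0)), φ (y (z 1)), φ (y (z 2))} with hP
  have hPc : 2 ≤ P.card := by
    have h1 := le_card_sdiff {φ (y (z 0)), φ (y (z 1)), φ (y (z 2))} (L t)
    have h2 : ({φ (y (z 0)), φ (y (z 1)), φ (y (z 2))} : Finset ℕ).card ≤ 3 := card_le_three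
    simp only [hP]
    omega
  have hmain : ∀ α ∈ P, ∃ β, β ≠ α ∧ ∀ i, A i = {α, β} := by
    intro α hα
    rw [hP, mem_sdiff] at hα
    have hα' : ∀ i, α ≠ φ (y (z i)) := by
      intro i hh
      apply hα.2
      rw [hh]
      fin_cases i <;> simp
    have hne : ∀ i, ((A i).erase α).Nonempty := by
      intro i
      have := hAc i
      have h1 := pred_card_le_card_erase (s := A i) (a := α)
      exact card_pos.1 (by omega)
    choose g hg using hne
    have hgg := k3' α hα.1 hα' g hg
    have hall : ∀ i, ∀ β ∈ (A i).erase α, β = g 0 := by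
      intro i β hβ
      have hf : ∀ j, Function.update g i β j ∈ (A j).erase α := by
        intro j
        by_cases hj : j = i
        · subst hj; simpa using hβ
        · rw [Function.update_of_ne hj]; exact hg j
      have := k3' α hα.1 hα' _ hf
      obtain ⟨j, hj⟩ : ∃ j : Fin 3, j ≠ i := exists_ne i
      have h1 := this i j
      rw [Function.update_self, Function.update_of_ne hj] at h1
      rw [h1, hgg j 0]
    refine ⟨g 0, (mem_erase.1 (hg 0)).1, fun i => ?_⟩
    have hs : A i ⊆ {α, g 0} := by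
      intro β hβ
      by_cases hb : β = α
      · simp [hb]
      · have := hall i β (mem_erase.2 ⟨hb, hβ⟩)
        simp [this]
    refine eq_of_subset_of_card_le hs ?_
    have := hAc i
    have h3 : ({α, g 0} : Finset ℕ).card ≤ 2 := card_le_two
    omega
  obtain ⟨α₀, hα₀⟩ := card_pos.1 (show 0 < P.card by omega)
  obtain ⟨β₀, hβ₀, hA₀⟩ := hmain α₀ hα₀
  have hS : ({α₀, β₀} : Finset ℕ).card = 2 := card_pair hβ₀.symm
  have hPS : P = {α₀, β₀} := by
    refine (eq_of_subset_of_card_le ?_ (by omega))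
    intro γ hγ
    obtain ⟨δ, -, hAδ⟩ := hmain γ hγ
    rw [← hA₀ 0, hAδ 0]
    simp
  refine ha2 (fun i => φ (y (z i))) (fun i => κ (y (z i))) {α₀, β₀} ?_ ?_ ?_ hS hA₀ hPS
  · intro i
    have := (k1 _ (hzZ i)).2.2.2
    rwa [haz] at this
  · intro i
    exact (k1 _ (hzZ i)).1
  · intro i
    exact (k1 _ (hzZ i)).2.1

end Pool.Agent.Lib.MP_03175e_co
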