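import Pool.Agent.Lib.MP_03175e_co.Defs

/-!
Row F01: choice lemmas (paper section 1).
-/

namespace Pool.Agent.Lib.MP_03175e_co

open Finset Classical

variable {V : Type}

/-- A choice on `R` with a unique colour extends to `N` if the sets outside `R` have at least two
elements: let `α` be the unique colour (of `u ∈ R`); for `n ∈ N \ R` choose `e n ∈ (O n).erase α`
(nonempty). -/
theorem cf_extend {N R : Finset V} {O : V → Finset ℕ} {e₀ : V → ℕ} (hR : R ⊆ N)
    (he : ∀ n ∈ R, e₀ n ∈ O n) (hcf : CF R e₀) (h2 : ∀ n ∈ N \ R, 2 ≤ (O n).card) :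
    ∃ e : V → ℕ, (∀ n ∈ R, e n = e₀ n) ∧ (∀ n ∈ N, e n ∈ O n) ∧ CF N e := by
  obtain ⟨u, hu, huq⟩ := hcf
  have hch : ∀ n : V, ∃ c : ℕ, n ∈ N \ R → c ∈ (O n).erase (e₀ u) := by
    intro n
    by_cases hn : n ∈ N \ R
    · have h1 : 0 < ((O n).erase (e₀ u)).card := by
        have := Finset.pred_card_le_card_erase (s := O n) (a := e₀ u)
        have := h2 n hn
        omega
      obtain ⟨c, hc⟩ := Finset.card_pos.mp h1
      exact ⟨c, fun _ => hc⟩
    · exact ⟨0, fun h => absurd h hn⟩
  choose c hc using hch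
  refine ⟨fun n => if n ∈ R then e₀ n else c n, fun n hn => by simp [hn], fun n hn => ?_, ?_⟩
  · by_cases hr : n ∈ R
    · simp only [hr, if_true]; exact he n hr
    · simp only [hr, if_false]
      exact Finset.mem_of_mem_erase (hc n (Finset.mem_sdiff.mpr ⟨hn, hr⟩))
  · refine ⟨u, hR hu, fun v hv => ?_⟩
    by_cases hr : v ∈ R
    · simp only [hr, hu, if_true]; exact huq v hr
    · simp only [hr, hu, if_true, if_false]
      intro h
      exact absurd h (Finset.ne_of_mem_erase (hc v (Finset.mem_sdiff.mpr ⟨hv, hr⟩)))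

/-- Three rigid sets are allowed. Enlarge `R` to a set `R'` with exactly 3 elements (`4 ≤ N.card`);
choose any colours on `R'`. If some colour is unique on `R'`: `cf_extend`. Otherwise all three
colours are equal to `α` (three values without a unique one); take `m ∈ N \ R'`, colour it by
an element of `(O m).erase α`; now `m` has a unique colour on `insert m R'`: `cf_extend`. -/
theorem cfc {N R : Finset V} {O : V → Finset ℕ} (h4 : 4 ≤ N.card) (hR : R ⊆ N)
    (h3 : R.card ≤ 3) (hne : ∀ n ∈ N, (O n).Nonempty) (h2 : ∀ n ∈ N \ R, 2 ≤ (O n).card) :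
    ∃ e : V → ℕ, (∀ n ∈ N, e n ∈ O n) ∧ CF N e := by
  obtain ⟨R', hR1, hR2, hR3⟩ := Finset.exists_subsuperset_card_eq hR h3 (by omega : 3 ≤ N.card)
  have hch : ∀ n : V, ∃ c : ℕ, n ∈ N → c ∈ O n := by
    intro n
    by_cases hn : n ∈ N
    · obtain ⟨c, hc⟩ := hne n hn
      exact ⟨c, fun _ => hc⟩
    · exact ⟨0, fun h => absurd h hn⟩
  choose e₀ he₀ using hch
  have h2' : ∀ n ∈ N \ R', 2 ≤ (O n).card := fun n hn => h2 n
    (Finset.mem_sdiff.mpr ⟨(Finset.mem_sdiff.mp hn).1, fun h => (Finset.mem_sdiff.mp hn).2 (hR1 h)⟩)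
  by_cases hcf : CF R' e₀
  · obtain ⟨e, -, h, h'⟩ := cf_extend hR2 (fun n hn => he₀ n (hR2 hn)) hcf h2'
    exact ⟨e, h, h'⟩
  · obtain ⟨x, y, z, hxy, hxz, hyz, hR'⟩ := Finset.card_eq_three.mp hR3
    have hx : x ∈ R' := by rw [hR']; simp
    have hy : y ∈ R' := by rw [hR']; simp
    have hz : z ∈ R' := by rw [hR']; simp
    have key : ∀ u ∈ R', ∃ v ∈ R', e₀ v = e₀ u ∧ v ≠ u := by
      intro u hu
      by_contra hcon
      refine hcf ⟨u, hu, fun v hv hvu => ?_⟩
      by_contra hne'
      exact hcon ⟨v, hv, hvu, hne'⟩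
    have hmem : ∀ v ∈ R', v = x ∨ v = y ∨ v = z := by
      intro v hv; rw [hR'] at hv; simpa using hv
    have hall : ∀ v ∈ R', e₀ v = e₀ x := by
      obtain ⟨a, ha, ha1, ha2⟩ := key x hx
      obtain ⟨b, hb, hb1, hb2⟩ := key y hy
      obtain ⟨d, hd, hd1, hd2⟩ := key z hz
      have h1 : e₀ y = e₀ x ∨ e₀ z = e₀ x := by
        rcases hmem a ha with h | h | h
        · exact absurd h ha2
        · left; rw [← h]; exact ha1
        · right; rw [← h]; exact ha1
      have h2 : e₀ x = e₀ y ∨ e₀ z = e₀ y := by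
        rcases hmem b hb with h | h | h
        · left; rw [← h]; exact hb1
        · exact absurd h hb2
        · right; rw [← h]; exact hb1
      have h3 : e₀ x = e₀ z ∨ e₀ y = e₀ z := by
        rcases hmem d hd with h | h | h
        · left; rw [← h]; exact hd1
        · right; rw [← h]; exact hd1
        · exact absurd h hd2
      intro v hv
      rcases hmem v hv with h | h | h
      · rw [h]
      · rw [h]; omega
      · rw [h]; omega
    obtain ⟨m, hm⟩ : ∃ m, m ∈ N \ R' := by
      have : 0 < (N \ R').card := by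
        rw [Finset.card_sdiff_of_subset hR2]; omega
      exact Finset.card_pos.mp this
    have hmN := (Finset.mem_sdiff.mp hm).1
    have hmR := (Finset.mem_sdiff.mp hm).2
    obtain ⟨c, hc⟩ : ∃ c, c ∈ (O m).erase (e₀ x) := by
      have h1 : 0 < ((O m).erase (e₀ x)).card := by
        have := Finset.pred_card_le_card_erase (s := O m) (a := e₀ x)
        have := h2' m hm
        omega
      exact Finset.card_pos.mp h1
    have hRm : insert m R' ⊆ N := Finset.insert_subset hmN hR2
    obtain ⟨e, -, h, h'⟩ := cf_extend (O := O) (e₀ := fun n => if n = m then c else e₀ n) hRm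
      (fun n hn => by
        by_cases h : n = m
        · simp only [h, if_true]; exact Finset.mem_of_mem_erase hc
        · simp only [h, if_false]; exact he₀ n (hRm hn))
      ⟨m, Finset.mem_insert_self _ _, fun v hv hvm => by
        by_contra hne'
        have hv' : v ∈ R' := by
          rcases Finset.mem_insert.mp hv with h | h
          · exact absurd h hne'
          · exact h
        simp only [hne', if_false, if_true] at hvm
        rw [hall v hv'] at hvm
        exact absurd hvm.symm (Finset.ne_of_mem_erase hc)⟩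
      (fun n hn => h2' n (Finset.mem_sdiff.mpr ⟨(Finset.mem_sdiff.mp hn).1, fun h =>
        (Finset.mem_sdiff.mp hn).2 (Finset.mem_insert_of_mem h)⟩))
    exact ⟨e, h, h'⟩

/-- Five rigid sets are allowed if there is a set with three elements. Choose any colours on `R`.
If some colour is unique on `R`: `cf_extend`. Otherwise every colour occurs at least twice, so at
most two colours occur on `R` (`2 * (R.image e).card ≤ R.card ≤ 5`); choose for `j` a colour of
`O j` that does not occur on `R`; it is unique on `insert j R`: `cf_extend`. -/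
theorem cfc5 {N R : Finset V} {O : V → Finset ℕ} {j : V} (hj : j ∈ N \ R) (hj3 : 3 ≤ (O j).card)
    (hR : R ⊆ N) (h5 : R.card ≤ 5) (hne : ∀ n ∈ N, (O n).Nonempty)
    (h2 : ∀ n ∈ N \ R, 2 ≤ (O n).card) :
    ∃ e : V → ℕ, (∀ n ∈ N, e n ∈ O n) ∧ CF N e := by
  have hch : ∀ n : V, ∃ c : ℕ, n ∈ N → c ∈ O n := by
    intro n
    by_cases hn : n ∈ N
    · obtain ⟨c, hc⟩ := hne n hn
      exact ⟨c, fun _ => hc⟩
    · exact ⟨0, fun h => absurd h hn⟩
  choose e₀ he₀ using hch
  by_cases hcf : CF R e₀
  · obtain ⟨e, -, h, h'⟩ := cf_extend hR (fun n hn => he₀ n (hR hn)) hcf h2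
    exact ⟨e, h, h'⟩
  · have hcard : 2 * (R.image e₀).card ≤ R.card := by
      refine Finset.mul_card_image_le_card _ _ fun a ha => ?_
      obtain ⟨u, hu, hua⟩ := Finset.mem_image.mp ha
      have hex : ∃ v ∈ R, e₀ v = e₀ u ∧ v ≠ u := by
        by_contra hcon
        refine hcf ⟨u, hu, fun v hv hvu => ?_⟩
        by_contra hne'
        exact hcon ⟨v, hv, hvu, hne'⟩
      obtain ⟨v, hv, hvu, hne'⟩ := hex
      have hsub : ({u, v} : Finset V) ⊆ R.filter (fun x => e₀ x = a) := by
        intro x hx
        rcases Finset.mem_insert.mp hx with h | h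
        · rw [h]; exact Finset.mem_filter.mpr ⟨hu, hua⟩
        · rw [Finset.mem_singleton.mp h]; exact Finset.mem_filter.mpr ⟨hv, hvu.trans hua⟩
      have := Finset.card_le_card hsub
      rwa [Finset.card_pair (Ne.symm hne')] at this
    have hjN := (Finset.mem_sdiff.mp hj).1
    have hjR := (Finset.mem_sdiff.mp hj).2
    obtain ⟨c, hc⟩ : ∃ c, c ∈ O j \ R.image e₀ := by
      have h1 : 0 < (O j \ R.image e₀).card := by
        have := Finset.le_card_sdiff (R.image e₀) (O j)
        omega
      exact Finset.card_pos.mp h1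
    have hRm : insert j R ⊆ N := Finset.insert_subset hjN hR
    obtain ⟨e, -, h, h'⟩ := cf_extend (O := O) (e₀ := fun n => if n = j then c else e₀ n) hRm
      (fun n hn => by
        by_cases h : n = j
        · simp only [h, if_true]; exact (Finset.mem_sdiff.mp hc).1
        · simp only [h, if_false]; exact he₀ n (hRm hn))
      ⟨j, Finset.mem_insert_self _ _, fun v hv hvm => by
        by_contra hne'
        have hv' : v ∈ R := by
          rcases Finset.mem_insert.mp hv with h | h
          · exact absurd h hne'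
          · exact h
        simp only [hne', if_false, if_true] at hvm
        exact (Finset.mem_sdiff.mp hc).2 (Finset.mem_image.mpr ⟨v, hv', hvm⟩)⟩
      (fun n hn => h2 n (Finset.mem_sdiff.mpr ⟨(Finset.mem_sdiff.mp hn).1, fun h =>
        (Finset.mem_sdiff.mp hn).2 (Finset.mem_insert_of_mem h)⟩))
    exact ⟨e, h, h'⟩

end Pool.Agent.Lib.MP_03175e_co
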