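import Pool.Agent.Lib.MP_03175e_co.F01

/-!
Row F02a: double counting (paper section 5).
-/

namespace Pool.Agent.Lib.MP_03175e_co

open Finset Classical

variable {V : Type}

/-- Double counting: the number of colours `α ∈ C` that lie in at least `b` of the sets `T n`,
`n ∈ M`, times `b`, is at most the sum of the sizes of the `T n`
(`Finset.sum_comm'` / `sum_card_bipartiteAbove_eq_sum_card_bipartiteBelow`). -/
theorem bad_le (M : Finset V) (C : Finset ℕ) (T : V → Finset ℕ) (b : ℕ) :
    b * (C.filter fun α => b ≤ (M.filter fun n => α ∈ T n).card).card ≤ ∑ n ∈ M, (T n).card := by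
  set B := C.filter fun α => b ≤ (M.filter fun n => α ∈ T n).card with hB
  calc b * B.card = ∑ _α ∈ B, b := by rw [Finset.sum_const, smul_eq_mul, mul_comm]
    _ ≤ ∑ α ∈ B, (M.filter fun n => α ∈ T n).card := by
        refine Finset.sum_le_sum fun α hα => ?_
        rw [hB] at hα
        exact (Finset.mem_filter.1 hα).2
    _ = ∑ n ∈ M, (B.filter fun α => α ∈ T n).card := by
        simp only [Finset.card_filter]
        exact Finset.sum_comm
    _ ≤ ∑ n ∈ M, (T n).card := by
        refine Finset.sum_le_sum fun n _ => Finset.card_le_card fun α hα => ?_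
        exact (Finset.mem_filter.1 hα).2

/-- Colours that are not killed: at least `L.card - ∑ k n` of them. -/
theorem unkilled_card (N : Finset V) (L : Finset ℕ) (K : V → Finset ℕ) (k : V → ℕ)
    (hK : ∀ n ∈ N, (K n).card ≤ k n) :
    L.card ≤ (L.filter fun α => ∀ n ∈ N, α ∉ K n).card + ∑ n ∈ N, k n := by
  have h1 : L ⊆ (L.filter fun α => ∀ n ∈ N, α ∉ K n) ∪ N.biUnion K := by
    intro α hα
    by_cases h : ∀ n ∈ N, α ∉ K n
    · exact Finset.mem_union_left _ (Finset.mem_filter.2 ⟨hα, h⟩)
    · push Not at h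
      obtain ⟨n, hn, hαn⟩ := h
      exact Finset.mem_union_right _ (Finset.mem_biUnion.2 ⟨n, hn, hαn⟩)
  calc L.card ≤ ((L.filter fun α => ∀ n ∈ N, α ∉ K n) ∪ N.biUnion K).card := Finset.card_le_card h1
    _ ≤ (L.filter fun α => ∀ n ∈ N, α ∉ K n).card + (N.biUnion K).card := Finset.card_union_le _ _
    _ ≤ (L.filter fun α => ∀ n ∈ N, α ∉ K n).card + ∑ n ∈ N, k n := by
        have h2 : (N.biUnion K).card ≤ ∑ n ∈ N, k n :=
          Finset.card_biUnion_le.trans (Finset.sum_le_sum hK)
        omega

end Pool.Agent.Lib.MP_03175e_co
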