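import Pool.Agent.Lib.MP_03175e_co.A04
import Pool.Agent.Lib.MP_03175e_co.F01
import Pool.Agent.Lib.MP_03175e_co.F02a

/-!
Row A08: PRE (paper section 3).
-/

namespace Pool.Agent.Lib.MP_03175e_co

open Finset Classical

variable {V : Type} [Fintype V] {G : SimpleGraph V} {L : V → Finset ℕ}

/-- Row A08 (PRE). `s = dg G y - (ZN G y).card` neighbours have degree 3 (`YN G y = ∅`,
`h2`); `s ≤ 3` by `hm`. Choose `ξ ∈ L y` with at most `3 - s` of the `z ∈ ZN G y` having `ξ ∈ L z`:
otherwise `(4 - s) * (dg G y + 2) ≤ ∑_{z ∈ ZN} (L z).card = 4 * (ZN G y).card` (double counting, as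
in `bad_le`). Apply `small_star` with `a = fun _ => {ξ}` and `α = ξ`: the sets
`(L z \ κ (y z)).erase ξ` are nonempty, with at least two elements if `ξ ∉ L z`. Use `cfc` with
`R` = the neighbours of degree 3 (sets `{φ n}`) and the `z` with `ξ ∈ L z`. -/
theorem MinCE.pre (h : MinCE G L) (h2 : ∀ v, 2 ≤ dg G v) (y : V) (hy : 4 ≤ dg G y)
    (hY : YN G y = ∅)
    (hm : 4 * (ZN G y).card + (dg G y - (ZN G y).card) * (dg G y + 2) < 4 * (dg G y + 2)) :
    False := by
  -- the other neighbours
  have hoth : ∀ z : V, ∃ w : V, z ∈ ZN G y → (nb G z = {y, w} ∧ w ≠ y) := by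
    intro z
    by_cases hz : z ∈ ZN G y
    · obtain ⟨hz1, hz2⟩ := Finset.mem_filter.1 hz
      have hyz : y ∈ nb G z :=
        Finset.mem_filter.2 ⟨Finset.mem_univ _, (Finset.mem_filter.1 hz1).2.symm⟩
      have hc : ((nb G z).erase y).card = 1 := by
        rw [Finset.card_erase_of_mem hyz]
        have : (nb G z).card = 2 := hz2
        omega
      obtain ⟨w, hw⟩ := Finset.card_eq_one.1 hc
      refine ⟨w, fun _ => ⟨?_, ?_⟩⟩
      · rw [← Finset.insert_erase hyz, hw]
      · have : w ∈ (nb G z).erase y := by rw [hw]; exact Finset.mem_singleton_self _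
        exact (Finset.mem_erase.1 this).1
    · exact ⟨y, fun h => absurd h hz⟩
  choose o ho using hoth
  -- cardinalities
  have hsplit : ((nb G y).filter fun n => ¬ dg G n = 2).card = dg G y - (ZN G y).card := by
    have := Finset.card_filter_add_card_filter_not (s := nb G y) (fun n => dg G n = 2)
    have e1 : (ZN G y).card = ((nb G y).filter fun n => dg G n = 2).card := rfl
    have e2 : dg G y = (nb G y).card := rfl
    omega
  have hs3 : dg G y - (ZN G y).card ≤ 3 := by
    by_contra hcon
    have : 4 * (dg G y + 2) ≤ (dg G y - (ZN G y).card) * (dg G y + 2) :=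
      Nat.mul_le_mul_right _ (by omega)
    omega
  -- the colour
  obtain ⟨ξ, hξ, hξc⟩ : ∃ ξ ∈ L y, ((ZN G y).filter fun n => ξ ∈ L n).card ≤
      3 - (dg G y - (ZN G y).card) := by
    by_contra hcon
    have hbad := bad_le (ZN G y) (L y) L (4 - (dg G y - (ZN G y).card))
    have hall : ((L y).filter fun α => 4 - (dg G y - (ZN G y).card) ≤
        ((ZN G y).filter fun n => α ∈ L n).card) = L y := by
      refine Finset.filter_true_of_mem fun α hα => ?_
      by_contra hlt
      exact hcon ⟨α, hα, by omega⟩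
    rw [hall, h.card y] at hbad
    have hsum : ∑ n ∈ ZN G y, (L n).card = 4 * (ZN G y).card := by
      rw [Finset.sum_congr rfl (fun n hn => ?_), Finset.sum_const, smul_eq_mul, mul_comm]
      rw [h.card n, (Finset.mem_filter.1 hn).2]
    rw [hsum] at hbad
    generalize hS : dg G y - (ZN G y).card = S at hbad hm hs3
    have h5 : (4 - S) * (dg G y + 2) + S * (dg G y + 2) = 4 * (dg G y + 2) := by
      rw [← add_mul, Nat.sub_add_cancel (by omega)]
    omega
  obtain ⟨φ, κ, h1, h3, h4⟩ := h.small_star h2 (by omega : 3 ≤ dg G y) o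
    (fun z hz => ho z hz) (fun _ => {ξ}) (fun v => by simp)
  have hd3 : ∀ n ∈ nb G y, ¬ dg G n = 2 → dg G n = 3 := by
    intro n hn hn2
    have h6 : ¬ 4 ≤ dg G n := by
      intro h7
      have : n ∈ YN G y := Finset.mem_filter.2 ⟨hn, h7⟩
      rw [hY] at this
      exact absurd this (Finset.notMem_empty _)
    have := h2 n
    omega
  -- the sets
  obtain ⟨e, he, hcf⟩ := cfc (N := nb G y)
    (R := ((nb G y).filter fun n => ¬ dg G n = 2) ∪ (ZN G y).filter fun n => ξ ∈ L n)
    (O := fun n => if dg G n = 2 then (L n \ κ (o n)).erase ξ else {φ n}) hy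
    (by
      intro n hn
      rcases Finset.mem_union.1 hn with hn | hn
      · exact (Finset.mem_filter.1 hn).1
      · exact (Finset.mem_filter.1 (Finset.mem_filter.1 hn).1).1)
    (by
      refine (Finset.card_union_le _ _).trans ?_
      rw [hsplit]
      omega)
    (by
      intro n hn
      by_cases hn2 : dg G n = 2
      · simp only [if_pos hn2]
        have hz : n ∈ ZN G y := Finset.mem_filter.2 ⟨hn, hn2⟩
        have c1 : (L n).card ≤ (L n \ κ (o n)).card + (κ (o n)).card := by
          have := Finset.le_card_sdiff (κ (o n)) (L n)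
          omega
        have c2 := (h1 n hz).2.1
        have c3 := h.card n
        have c4 : (L n \ κ (o n)).card - 1 ≤ ((L n \ κ (o n)).erase ξ).card :=
          Finset.pred_card_le_card_erase
        exact Finset.card_pos.1 (by omega)
      · simp only [if_neg hn2]
        exact Finset.singleton_nonempty _)
    (by
      intro n hn
      obtain ⟨hn1, hn3⟩ := Finset.mem_sdiff.1 hn
      rw [Finset.mem_union, not_or] at hn3
      have hn2 : dg G n = 2 := by
        by_contra hc
        exact hn3.1 (Finset.mem_filter.2 ⟨hn1, hc⟩)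
      have hz : n ∈ ZN G y := Finset.mem_filter.2 ⟨hn1, hn2⟩
      have hξn : ξ ∉ L n := fun hc => hn3.2 (Finset.mem_filter.2 ⟨hz, hc⟩)
      simp only [if_pos hn2]
      rw [Finset.erase_eq_of_notMem (fun hc => hξn (Finset.mem_sdiff.1 hc).1)]
      have c1 : (L n).card ≤ (L n \ κ (o n)).card + (κ (o n)).card := by
        have := Finset.le_card_sdiff (κ (o n)) (L n)
        omega
      have c2 := (h1 n hz).2.1
      have c3 := h.card n
      omega)
  refine h4 ξ hξ ?_ ?_ e ?_ ?_ hcf
  · intro n hn hn2 hc
    obtain ⟨g1, g2, g3, g4⟩ := h3 n hn hn2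
    obtain ⟨a, ha⟩ := Finset.card_eq_one.1 (g3 (hd3 n hn hn2))
    rw [ha, Finset.mem_singleton] at g1 hc
    exact g4 (Finset.mem_singleton.2 (g1.trans hc.symm))
  · intro z hz hc
    exact (h1 z hz).2.2.2 (Finset.mem_singleton.2 hc.symm)
  · intro n hn hn2
    have := he n hn
    simp only [if_neg hn2] at this
    exact Finset.mem_singleton.1 this
  · intro z hz
    have hz2 := (Finset.mem_filter.1 hz).2
    have := he z (Finset.mem_filter.1 hz).1
    simp only [if_pos hz2] at this
    exact this

end Pool.Agent.Lib.MP_03175e_co
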