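import Pool.Agent.Lib.MP_03175e_co.F02a

/-!
Row F02b: COUNT and COUNT3 (paper section 5).
-/

namespace Pool.Agent.Lib.MP_03175e_co

open Finset Classical

variable {V : Type}

private theorem F02b_good {M : Finset V} {C : Finset ℕ} {T : V → Finset ℕ} {t : V → ℕ} {b : ℕ}
    (hT : ∀ n ∈ M, (T n).card ≤ t n) (h : ∑ n ∈ M, t n < b * C.card) :
    ∃ α ∈ C, (M.filter fun n => α ∈ T n).card < b := by
  by_contra hcon
  push Not at hcon
  have h1 := bad_le M C T b
  rw [Finset.filter_true_of_mem hcon] at h1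
  have h2 : ∑ n ∈ M, (T n).card ≤ ∑ n ∈ M, t n := Finset.sum_le_sum hT
  omega

/-- COUNT. `C` = the colours of `L` killed by no `K n`. By `unkilled_card` and `hcount`,
`∑ t < (4 - |R|) * |C|`; by `bad_le` (with `M = N \ R`, `b = 4 - |R|`) not all `α ∈ C` lie in at
least `4 - |R|` of the sets `T n`. For such an `α` apply `cfc` with
`R ∪ {n ∈ N \ R | α ∈ T n}` (at most 3 elements). -/
theorem count_choice {N R : Finset V} {L : Finset ℕ} {K : V → Finset ℕ} {O : V → ℕ → Finset ℕ}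
    {k t : V → ℕ} {T : V → Finset ℕ} (h4 : 4 ≤ N.card) (hR : R ⊆ N) (hR3 : R.card ≤ 3)
    (hL : N.card + 2 ≤ L.card) (hK : ∀ n ∈ N, (K n).card ≤ k n)
    (hne : ∀ n ∈ N, ∀ α, α ∉ K n → (O n α).Nonempty)
    (hT : ∀ n ∈ N \ R, (T n).card ≤ t n ∧ ∀ α, α ∉ K n → α ∉ T n → 2 ≤ (O n α).card)
    (hcount : ∑ n ∈ N \ R, t n + (4 - R.card) * ∑ n ∈ N, k n < (4 - R.card) * (N.card + 2)) :
    ∃ α ∈ L, (∀ n ∈ N, α ∉ K n) ∧ ∃ e : V → ℕ, (∀ n ∈ N, e n ∈ O n α) ∧ CF N e := by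
  have hu := unkilled_card N L K k hK
  set C := L.filter fun α => ∀ n ∈ N, α ∉ K n with hC
  have h1 : (4 - R.card) * (N.card + 2) ≤
      (4 - R.card) * C.card + (4 - R.card) * ∑ n ∈ N, k n := by
    rw [← Nat.mul_add]
    exact Nat.mul_le_mul_left _ (hL.trans hu)
  obtain ⟨α, hα, hb⟩ := F02b_good (M := N \ R) (C := C) (b := 4 - R.card)
    (fun n hn => (hT n hn).1) (by omega)
  rw [hC, Finset.mem_filter] at hα
  refine ⟨α, hα.1, hα.2, ?_⟩
  refine cfc (R := R ∪ (N \ R).filter fun n => α ∈ T n) h4 ?_ ?_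
    (fun n hn => hne n hn α (hα.2 n hn)) ?_
  · exact Finset.union_subset hR ((Finset.filter_subset _ _).trans Finset.sdiff_subset)
  · refine (Finset.card_union_le _ _).trans ?_
    omega
  · intro n hn
    simp only [Finset.mem_sdiff, Finset.mem_union, Finset.mem_filter, not_or, not_and] at hn
    exact (hT n (Finset.mem_sdiff.2 ⟨hn.1, hn.2.1⟩)).2 α (hα.2 n hn.1)
      (hn.2.2 ⟨hn.1, hn.2.1⟩)

/-- COUNT3. There is a 3-thread `j`: for all colours `α ≠ α₀` it has at least three choices.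
`C'` = unkilled colours different from `α₀`, `|C'| ≥ N.card + 1 - ∑ k`. If `α ∈ C'` lies in fewer
than `6 - |R|` of the sets `T n`, `n ∈ (N \ R).erase j`, use `cfc5` with
`R ∪ {n ∈ (N \ R).erase j | α ∈ T n}` (at most 5 elements). Such an `α` exists: in case A by
`bad_le`, in case B trivially (`C'` is nonempty and there are fewer than `6 - |R|` sets). -/
theorem count3_choice {N R : Finset V} {L : Finset ℕ} {K : V → Finset ℕ} {O : V → ℕ → Finset ℕ}
    {k t : V → ℕ} {T : V → Finset ℕ} {j : V} {α₀ : ℕ} (hR : R ⊆ N) (hR5 : R.card ≤ 5)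
    (hj : j ∈ N \ R) (hKj : K j = ∅) (hj3 : ∀ α, α ≠ α₀ → 3 ≤ (O j α).card)
    (hL : N.card + 2 ≤ L.card) (hK : ∀ n ∈ N, (K n).card ≤ k n)
    (hne : ∀ n ∈ N, ∀ α, α ∉ K n → (O n α).Nonempty)
    (hT : ∀ n ∈ (N \ R).erase j, (T n).card ≤ t n ∧
      ∀ α, α ∉ K n → α ∉ T n → 2 ≤ (O n α).card)
    (hcount : (∑ n ∈ (N \ R).erase j, t n + (6 - R.card) * ∑ n ∈ N, k n <
        (6 - R.card) * (N.card + 1)) ∨
      (((N \ R).erase j).card < 6 - R.card ∧ ∑ n ∈ N, k n < N.card + 1)) :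
    ∃ α ∈ L, (∀ n ∈ N, α ∉ K n) ∧ ∃ e : V → ℕ, (∀ n ∈ N, e n ∈ O n α) ∧ CF N e := by
  have hu := unkilled_card N L K k hK
  set C := L.filter fun α => ∀ n ∈ N, α ∉ K n with hC
  have hC' : C.card ≤ (C.erase α₀).card + 1 := by
    have := Finset.pred_card_le_card_erase (s := C) (a := α₀)
    omega
  have h0 : N.card + 1 ≤ (C.erase α₀).card + ∑ n ∈ N, k n := by omega
  have hex : ∃ α ∈ C.erase α₀,
      (((N \ R).erase j).filter fun n => α ∈ T n).card < 6 - R.card := by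
    rcases hcount with hc | ⟨hc1, hc2⟩
    · have h1 : (6 - R.card) * (N.card + 1) ≤
          (6 - R.card) * (C.erase α₀).card + (6 - R.card) * ∑ n ∈ N, k n := by
        rw [← Nat.mul_add]
        exact Nat.mul_le_mul_left _ h0
      exact F02b_good (fun n hn => (hT n hn).1) (by omega)
    · have hpos : 0 < (C.erase α₀).card := by omega
      obtain ⟨α, hα⟩ := Finset.card_pos.1 hpos
      exact ⟨α, hα, lt_of_le_of_lt (Finset.card_filter_le _ _) hc1⟩
  obtain ⟨α, hα, hb⟩ := hex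
  rw [Finset.mem_erase, hC, Finset.mem_filter] at hα
  refine ⟨α, hα.2.1, hα.2.2, ?_⟩
  rw [Finset.mem_sdiff] at hj
  refine cfc5 (R := R ∪ ((N \ R).erase j).filter fun n => α ∈ T n) (j := j) ?_ (hj3 α hα.1) ?_ ?_
    (fun n hn => hne n hn α (hα.2.2 n hn)) ?_
  · simp [hj.1, hj.2]
  · refine Finset.union_subset hR ((Finset.filter_subset _ _).trans ?_)
    exact (Finset.erase_subset _ _).trans Finset.sdiff_subset
  · refine (Finset.card_union_le _ _).trans ?_
    omega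
  · intro n hn
    simp only [Finset.mem_sdiff, Finset.mem_union, Finset.mem_filter, Finset.mem_erase, not_or,
      not_and] at hn
    by_cases hnj : n = j
    · subst hnj
      exact le_trans (by norm_num) (hj3 α hα.1)
    · exact (hT n (Finset.mem_erase.2 ⟨hnj, Finset.mem_sdiff.2 ⟨hn.1, hn.2.1⟩⟩)).2 α
        (hα.2.2 n hn.1) (hn.2.2 ⟨hnj, hn.1, hn.2.1⟩)

end Pool.Agent.Lib.MP_03175e_co
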