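import Pool.Agent.Lib.MP_03175e_co.Defs

/-!
Row G01: deletion of a set `X` (paper section 0.1).
-/

namespace Pool.Agent.Lib.MP_03175e_co

open Finset Classical

variable {V : Type} [Fintype V] {G : SimpleGraph V} {L : V → Finset ℕ}

private theorem G01_mem {v n : V} : n ∈ nb G v ↔ G.Adj v n := by simp [nb]

private theorem G01_kappa {X : Finset V} {φ : V → ℕ} {v : V}
    (hiso : (nb G v ∩ X).Nonempty → (nb G v \ X).Nonempty)
    (hcf : (nb G v \ X).Nonempty → CF (nb G v \ X) φ) :
    ∃ K : Finset ℕ, φ v ∈ K ∧ K.card ≤ 2 ∧ (dg G v = 3 → (nb G v ∩ X).card = 1 → K.card = 1) ∧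
      ∀ ψ : V → ℕ, (∀ w, w ∉ X → ψ w = φ w) → (∀ x ∈ nb G v, x ∈ X → ψ x ∉ K) →
        (nb G v).Nonempty → CF (nb G v) ψ := by
  by_cases h1 : nb G v ∩ X = ∅
  · refine ⟨{φ v}, by simp, by simp, fun _ _ => by simp, ?_⟩
    intro ψ hψ _ hne
    have h2 : nb G v \ X = nb G v := by
      rw [Finset.sdiff_eq_self_iff_disjoint, Finset.disjoint_iff_inter_eq_empty]
      exact h1
    obtain ⟨m, hm, hu⟩ := hcf (by rw [h2]; exact hne)
    have hX : ∀ w ∈ nb G v, w ∉ X := by
      intro w hw
      rw [← h2] at hw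
      exact (Finset.mem_sdiff.1 hw).2
    rw [h2] at hm hu
    refine ⟨m, hm, fun w hw he => hu w hw ?_⟩
    rw [← hψ w (hX w hw), ← hψ m (hX m hm)]
    exact he
  · have hne : (nb G v ∩ X).Nonempty := Finset.nonempty_iff_ne_empty.2 h1
    obtain ⟨m, hm, hu⟩ := hcf (hiso hne)
    rw [Finset.mem_sdiff] at hm
    by_cases h3 : dg G v = 3 ∧ (nb G v ∩ X).card = 1
    · refine ⟨{φ v}, by simp, by simp, fun _ _ => by simp, ?_⟩
      intro ψ hψ _ _
      obtain ⟨x, hx⟩ := Finset.card_eq_one.1 h3.2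
      have h4 : (nb G v \ X).card = 2 := by
        have := Finset.card_sdiff_add_card_inter (nb G v) X
        have h5 := h3.1
        unfold dg at h5
        omega
      obtain ⟨p, q, hpq, hpq'⟩ := Finset.card_eq_two.1 h4
      have hp : p ∈ nb G v \ X := by rw [hpq']; simp
      have hq : q ∈ nb G v \ X := by rw [hpq']; simp
      have hφ : φ p ≠ φ q := by
        intro he
        have hmm : m = p ∨ m = q := by
          have : m ∈ nb G v \ X := Finset.mem_sdiff.2 hm
          rw [hpq'] at this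
          simpa using this
        rcases hmm with h6 | h6
        · exact hpq (by rw [← h6]; exact (hu q hq (by rw [h6]; exact he.symm)).symm)
        · exact hpq (by rw [← h6]; exact hu p hp (by rw [h6]; exact he))
      have hall : ∀ w ∈ nb G v, w = x ∨ w = p ∨ w = q := by
        intro w hw
        by_cases hwX : w ∈ X
        · left
          have : w ∈ nb G v ∩ X := Finset.mem_inter.2 ⟨hw, hwX⟩
          rw [hx] at this
          simpa using this
        · right
          have : w ∈ nb G v \ X := Finset.mem_sdiff.2 ⟨hw, hwX⟩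
          rw [hpq'] at this
          simpa using this
      have hp' := Finset.mem_sdiff.1 hp
      have hq' := Finset.mem_sdiff.1 hq
      by_cases h7 : ψ x = φ p
      · refine ⟨q, hq'.1, fun w hw he => ?_⟩
        rw [hψ q hq'.2] at he
        rcases hall w hw with h8 | h8 | h8
        · rw [h8, h7] at he
          exact absurd he hφ
        · rw [h8, hψ p hp'.2] at he
          exact absurd he hφ
        · exact h8
      · refine ⟨p, hp'.1, fun w hw he => ?_⟩
        rw [hψ p hp'.2] at he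
        rcases hall w hw with h8 | h8 | h8
        · rw [h8] at he
          exact absurd he h7
        · exact h8
        · rw [h8, hψ q hq'.2] at he
          exact absurd he.symm hφ
    · refine ⟨{φ v, φ m}, by simp, Finset.card_le_two, fun h4 h5 => absurd ⟨h4, h5⟩ h3, ?_⟩
      intro ψ hψ hK _
      refine ⟨m, hm.1, fun w hw he => ?_⟩
      rw [hψ m hm.2] at he
      by_cases hwX : w ∈ X
      · have := hK w hw hwX
        rw [he] at this
        exact absurd (by simp) this
      · rw [hψ w hwX] at he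
        exact hu w (Finset.mem_sdiff.2 ⟨hw, hwX⟩) he

/-- Use `h.ih X hX (fun v => L v \ a v)`: `(nb G v \ X).card + 2 ≤ (L v \ a v).card` because
`(L v).card = (nb G v).card + 2`. For `v ∉ X` with `(nb G v ∩ X).Nonempty` let `m v ∈ nb G v \ X` be
the vertex with the unique colour and `u v = φ (m v)`. `κ v = {φ v}` if `dg G v = 3` and
`(nb G v ∩ X).card = 1` or if `nb G v ∩ X = ∅`, otherwise `κ v = {φ v, u v}`.
`fin`: if `ψ = φ` outside `X` and `Val` holds on `X` then `Good G L ∅ ψ`, contradiction to `h.none`.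
CF at `v ∉ X`: if `κ v = {φ v, u v}` then `m v` is still unique. If `dg G v = 3` and `v` has exactly
one neighbour `x ∈ X`, the two other neighbours have different colours (CF at `v` in `G - X`), and
at least one of them differs from `ψ x`. -/
theorem MinCE.delete (h : MinCE G L) {X : Finset V} (hX : X.Nonempty)
    (hiso : ∀ v, v ∉ X → (nb G v ∩ X).Nonempty → (nb G v \ X).Nonempty)
    (a : V → Finset ℕ) (ha : ∀ v, v ∉ X → (a v).card ≤ (nb G v ∩ X).card) :
    ∃ (φ : V → ℕ) (κ : V → Finset ℕ), Ext G L X φ κ ∧ ∀ v, v ∉ X → φ v ∉ a v := by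
  obtain ⟨φ, hφ1, hφ2, hφ3⟩ := h.ih X hX (fun v => L v \ a v) (by
    intro v hv
    have h1 := Finset.le_card_sdiff (a v) (L v)
    have h2 := ha v hv
    have h3 := h.card v
    have h4 := Finset.card_sdiff_add_card_inter (nb G v) X
    unfold dg at h3
    show (nb G v \ X).card + 2 ≤ (L v \ a v).card
    omega)
  have hex : ∀ v, ∃ K : Finset ℕ, v ∉ X → φ v ∈ K ∧ K.card ≤ 2 ∧
      (dg G v = 3 → (nb G v ∩ X).card = 1 → K.card = 1) ∧
      ∀ ψ : V → ℕ, (∀ w, w ∉ X → ψ w = φ w) → (∀ x ∈ nb G v, x ∈ X → ψ x ∉ K) →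
        (nb G v).Nonempty → CF (nb G v) ψ := by
    intro v
    by_cases hv : v ∈ X
    · exact ⟨∅, fun h => absurd hv h⟩
    · obtain ⟨K, hK⟩ := G01_kappa (hiso v hv) (hφ3 v hv)
      exact ⟨K, fun _ => hK⟩
  choose κ hκ using hex
  refine ⟨φ, κ, ⟨fun v hv => (hκ v hv).1, fun v hv => (hκ v hv).2.1,
    fun v hv => (hκ v hv).2.2.1, ?_⟩, fun v hv => (Finset.mem_sdiff.1 (hφ1 v hv)).2⟩
  intro ψ hψ hval
  refine h.none ψ ⟨?_, ?_, ?_⟩
  · intro v _
    by_cases hv : v ∈ X
    · exact (hval v hv).1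
    · rw [hψ v hv]
      exact (Finset.mem_sdiff.1 (hφ1 v hv)).1
  · intro u v _ _ huv
    by_cases hu : u ∈ X
    · exact ((hval u hu).2.1 v (G01_mem.2 huv)).1
    · by_cases hv : v ∈ X
      · exact ((hval v hv).2.1 u (G01_mem.2 huv.symm)).1.symm
      · rw [hψ u hu, hψ v hv]
        exact hφ2 u v hu hv huv
  · intro v _ hne
    rw [Finset.sdiff_empty] at hne ⊢
    by_cases hv : v ∈ X
    · exact (hval v hv).2.2
    · refine (hκ v hv).2.2.2 ψ hψ ?_ hne
      intro x hx hxX
      exact ((hval x hxX).2.1 v (G01_mem.2 (G01_mem.1 hx).symm)).2 hv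

end Pool.Agent.Lib.MP_03175e_co
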