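import Pool.Agent.Lib.MP_03175e_co.G03

/-!
Row G04a: 2-threads and 3-threads as objects (paper section 2).
-/

namespace Pool.Agent.Lib.MP_03175e_co

open Finset Classical

variable {V : Type} [Fintype V] {G : SimpleGraph V} {L : V → Finset ℕ} {X : Finset V}
  {φ : V → ℕ} {κ : V → Finset ℕ}

private lemma g04a_erase (S : Finset ℕ) (e : ℕ) : S.card ≤ (S.erase e).card + 1 := by
  have := Finset.pred_card_le_card_erase (s := S) (a := e)
  omega

private lemma g04a_pick (S2 S3 : Finset ℕ) (h2 : 2 ≤ S2.card) (h3 : 2 ≤ S3.card) (e : ℕ) :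
    (∃ e₂ ∈ S2, ∃ e₃ ∈ S3, e₂ ≠ e ∧ e₃ ≠ e ∧ e₂ ≠ e₃) ∨ (S2 = S3 ∧ S3.card = 2 ∧ e ∈ S3) := by
  by_cases h : ∃ e₂ ∈ S2, ∃ e₃ ∈ S3, e₂ ≠ e ∧ e₃ ≠ e ∧ e₂ ≠ e₃
  · exact Or.inl h
  right
  push Not at h
  obtain ⟨p, hp⟩ : (S2.erase e).Nonempty := by
    rw [← Finset.card_pos]
    have := g04a_erase S2 e
    omega
  obtain ⟨q, hq⟩ : (S3.erase e).Nonempty := by
    rw [← Finset.card_pos]
    have := g04a_erase S3 e
    omega
  rw [Finset.mem_erase] at hp hq
  have hpq : p = q := h p hp.2 q hq.2 hp.1 hq.1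
  have hS2 : S2 ⊆ {e, p} := by
    intro x hx
    by_cases hxe : x = e
    · simp [hxe]
    · have := h x hx q hq.2 hxe hq.1
      simp [this, hpq]
  have hS3 : S3 ⊆ {e, p} := by
    intro x hx
    by_cases hxe : x = e
    · simp [hxe]
    · have := h p hp.2 x hx hp.1 hxe
      simp [this]
  have hc : ({e, p} : Finset ℕ).card ≤ 2 := Finset.card_le_two
  have e2 : S2 = {e, p} := Finset.eq_of_subset_of_card_le hS2 (by omega)
  have e3 : S3 = {e, p} := Finset.eq_of_subset_of_card_le hS3 (by omega)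
  refine ⟨e2.trans e3.symm, ?_, ?_⟩
  · rw [e3] at h3 ⊢
    omega
  · rw [e3]
    simp

/-- 2-threads. `A = L z \ {φ y}` (at least 3), `A' = L z' \ κ y` (at least 2). By `opt_M2`,
`e ∈ A.erase c` is possible if `A' \ {c, e}` is nonempty. Nonempty: choose `e' ∈ A'.erase c`, then
`e ∈ A \ {c, e'}`. If `2 ≤ (A'.erase c).card` then all `e ∈ A.erase c` are possible (at least two).
Otherwise `A' = {c, b}`, and all `e ∈ A \ {c, b}` are possible; so fewer than two are possible only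
for `c ∈ A'` with `A'.card = 2`: take `T = A'` if `A'.card = 2`, `T = ∅` otherwise. -/
theorem obj_M2 (he : Ext G L X φ κ) {x z z' y : V} (hx : x ∈ X) (hz : z ∈ X) (hz' : z' ∈ X)
    (hy : y ∉ X) (hxz : x ≠ z) (hxz' : x ≠ z') (hzz : z ≠ z') (hn : nb G z = {x, z'})
    (hn' : nb G z' = {z, y}) (hLz : (L z).card = 4) (hLz' : (L z').card = 4) :
    LamLike (Opt G L X φ κ {z, z'} x z) := by
  have hk := he.κcard y hy
  have hA' : 2 ≤ (L z' \ κ y).card := by
    have := Finset.le_card_sdiff (κ y) (L z')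
    omega
  have hA : 3 ≤ ((L z).erase (φ y)).card := by
    have := g04a_erase (L z) (φ y)
    omega
  refine ⟨fun c => ?_, ?_⟩
  · obtain ⟨e', he'⟩ : ((L z' \ κ y).erase c).Nonempty := by
      rw [← Finset.card_pos]
      have := g04a_erase (L z' \ κ y) c
      omega
    obtain ⟨e, hee⟩ : ((((L z).erase (φ y)).erase c).erase e').Nonempty := by
      rw [← Finset.card_pos]
      have h1 := g04a_erase ((L z).erase (φ y)) c
      have h2 := g04a_erase (((L z).erase (φ y)).erase c) e'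
      omega
    rw [Finset.mem_erase] at he'
    rw [Finset.mem_erase, Finset.mem_erase, Finset.mem_erase] at hee
    exact ⟨e, opt_M2 he hx hz hz' hy hxz hxz' hzz hn hn' hee.2.2.2 hee.2.1 hee.2.2.1 he'.2 he'.1
      (fun h => hee.1 h.symm)⟩
  · have key : ∀ c, 2 ≤ ((L z' \ κ y).erase c).card →
        2 ≤ (Opt G L X φ κ {z, z'} x z c).card := by
      intro c hc
      have hsub : ((L z).erase (φ y)).erase c ⊆ Opt G L X φ κ {z, z'} x z c := by
        intro e hee
        rw [Finset.mem_erase, Finset.mem_erase] at hee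
        obtain ⟨e', he'⟩ : (((L z' \ κ y).erase c).erase e).Nonempty := by
          rw [← Finset.card_pos]
          have h2 := g04a_erase ((L z' \ κ y).erase c) e
          omega
        rw [Finset.mem_erase, Finset.mem_erase] at he'
        exact opt_M2 he hx hz hz' hy hxz hxz' hzz hn hn' hee.2.2 hee.1 hee.2.1 he'.2.2 he'.2.1
          he'.1
      have h1 := Finset.card_le_card hsub
      have h2 := g04a_erase ((L z).erase (φ y)) c
      omega
    by_cases h2 : (L z' \ κ y).card = 2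
    · refine ⟨L z' \ κ y, h2.le, fun α hα => key α ?_⟩
      rw [Finset.erase_eq_of_notMem hα]
      omega
    · refine ⟨∅, by simp, fun α _ => key α ?_⟩
      have := g04a_erase (L z' \ κ y) α
      omega

/-- 3-threads. `S₂ = L v₂ \ {c, φ y}` (at least 2), `S₃ = L v₃ \ κ y` (at least 2). By `opt_M3`,
`e ∈ (L v₁).erase c` (at least 3 elements) is possible if there are different `e₂ ∈ S₂.erase e`,
`e₃ ∈ S₃.erase e`; this fails only if `S₂ = S₃` has exactly two elements and contains `e`. So at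
least one `e` is always possible, and all of them (at least 3) unless `S₂ = S₃`, `S₃.card = 2`,
`c ∈ L v₂`, `φ y ∈ L v₂`, `c ≠ φ y`; then `c` is the unique element `α₀` of
`L v₂ \ insert (φ y) S₃`. -/
theorem obj_M3 (he : Ext G L X φ κ) {x v₁ v₂ v₃ y : V} (hx : x ∈ X) (h1 : v₁ ∈ X) (h2 : v₂ ∈ X)
    (h3 : v₃ ∈ X) (hy : y ∉ X) (hx1 : x ≠ v₁) (hx2 : x ≠ v₂) (hx3 : x ≠ v₃) (h12 : v₁ ≠ v₂)
    (h13 : v₁ ≠ v₃) (h23 : v₂ ≠ v₃) (hn1 : nb G v₁ = {x, v₂}) (hn2 : nb G v₂ = {v₁, v₃})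
    (hn3 : nb G v₃ = {v₂, y}) (hL1 : (L v₁).card = 4) (hL2 : (L v₂).card = 4)
    (hL3 : (L v₃).card = 4) :
    (∀ c, (Opt G L X φ κ {v₁, v₂, v₃} x v₁ c).Nonempty) ∧
      ∃ α₀, ∀ c, c ≠ α₀ → 3 ≤ (Opt G L X φ κ {v₁, v₂, v₃} x v₁ c).card := by
  have hk := he.κcard y hy
  have hS3 : 2 ≤ (L v₃ \ κ y).card := by
    have := Finset.le_card_sdiff (κ y) (L v₃)
    omega
  have hS2 : ∀ c, 2 ≤ (((L v₂).erase (φ y)).erase c).card := by
    intro c
    have h1 := g04a_erase (L v₂) (φ y)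
    have h2 := g04a_erase ((L v₂).erase (φ y)) c
    omega
  have hU : ∀ c, 3 ≤ ((L v₁).erase c).card := by
    intro c
    have h1 := g04a_erase (L v₁) c
    omega
  have good : ∀ c e, e ∈ (L v₁).erase c →
      ¬ (((L v₂).erase (φ y)).erase c = L v₃ \ κ y ∧ (L v₃ \ κ y).card = 2 ∧ e ∈ L v₃ \ κ y) →
      e ∈ Opt G L X φ κ {v₁, v₂, v₃} x v₁ c := by
    intro c e hee hne
    rw [Finset.mem_erase] at hee
    rcases g04a_pick _ _ (hS2 c) hS3 e with ⟨e₂, he₂, e₃, he₃, a1, a2, a3⟩ | h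
    · rw [Finset.mem_erase, Finset.mem_erase] at he₂
      exact opt_M3 he hx h1 h2 h3 hy hx1 hx2 hx3 h12 h13 h23 hn1 hn2 hn3 hee.2 hee.1 he₂.2.2
        he₂.1 he₂.2.1 he₃ (Ne.symm a1) (Ne.symm a2) a3
    · exact absurd h hne
  refine ⟨fun c => ?_, ?_⟩
  · by_cases h : ((L v₂).erase (φ y)).erase c = L v₃ \ κ y ∧ (L v₃ \ κ y).card = 2
    · obtain ⟨e, hee⟩ : ((L v₁).erase c \ (L v₃ \ κ y)).Nonempty := by
        rw [← Finset.card_pos]
        have := Finset.le_card_sdiff (L v₃ \ κ y) ((L v₁).erase c)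
        have := hU c
        have := h.2
        omega
      rw [Finset.mem_sdiff] at hee
      exact ⟨e, good c e hee.1 (fun h' => hee.2 h'.2.2)⟩
    · obtain ⟨e, hee⟩ : ((L v₁).erase c).Nonempty := by
        rw [← Finset.card_pos]
        have := hU c
        omega
      exact ⟨e, good c e hee (fun h' => h ⟨h'.1, h'.2.1⟩)⟩
  · have big : ∀ c, ¬ (((L v₂).erase (φ y)).erase c = L v₃ \ κ y ∧ (L v₃ \ κ y).card = 2) →
        3 ≤ (Opt G L X φ κ {v₁, v₂, v₃} x v₁ c).card := by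
      intro c hc
      have hsub : (L v₁).erase c ⊆ Opt G L X φ κ {v₁, v₂, v₃} x v₁ c := fun e hee =>
        good c e hee (fun h' => hc ⟨h'.1, h'.2.1⟩)
      exact (hU c).trans (Finset.card_le_card hsub)
    by_cases hex : ∃ c, ((L v₂).erase (φ y)).erase c = L v₃ \ κ y ∧ (L v₃ \ κ y).card = 2
    · obtain ⟨α₀, hα₀, hα₂⟩ := hex
      refine ⟨α₀, fun c hc => big c ?_⟩
      rintro ⟨hc1, -⟩
      -- `c ∈ (L v₂).erase (φ y)`
      have hmem : α₀ ∈ (L v₂).erase (φ y) := by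
        by_contra hn
        rw [Finset.erase_eq_of_notMem hn] at hα₀
        have h4 := g04a_erase (L v₂) (φ y)
        rw [hα₀] at h4
        omega
      have h5 : α₀ ∈ ((L v₂).erase (φ y)).erase c :=
        Finset.mem_erase.2 ⟨Ne.symm hc, hmem⟩
      rw [hc1, ← hα₀] at h5
      exact (Finset.mem_erase.1 h5).1 rfl
    · push Not at hex
      exact ⟨0, fun c _ => big c (fun h => hex c h.1 h.2)⟩

end Pool.Agent.Lib.MP_03175e_co
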