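import Pool.Agent.Lib.MP_03175e_co.Defs

/-!
Row S00: disjointness of branches, general lemma.
-/

namespace Pool.Agent.Lib.MP_03175e_co

open Finset Classical

variable {V : Type} [Fintype V] {G : SimpleGraph V} {X : Finset V}

/-- every element of `B` is connected inside `B` to `r` by a path of length at most 3 -/
def Conn (G : SimpleGraph V) (B : Finset V) (r : V) : Prop :=
  ∀ b ∈ B, b = r ∨ G.Adj b r ∨ (∃ b₁ ∈ B, G.Adj b b₁ ∧ G.Adj b₁ r) ∨
    ∃ b₁ ∈ B, ∃ b₂ ∈ B, G.Adj b b₁ ∧ G.Adj b₁ b₂ ∧ G.Adj b₂ r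

/-- If `b ∈ B ∩ B'`, follow the path in `B'` from `b` to `r'`: its vertices are in `B' ⊆ X` and
different from `q`, so they stay in `B` (`closed`); hence `r' ∈ B`: contradiction. -/
theorem Branch.disjoint' {B B' : Finset V} {q r r' : V} (hB : Branch G X B q r)
    (hB' : Branch G X B' q r') (hc : Conn G B' r') (hr : r' ∉ B) : Disjoint B B' := by
  have step : ∀ b n, b ∈ B → n ∈ B' → G.Adj b n → n ∈ B := by
    intro b n hb hn hadj
    rcases hB.closed b hb n (by simpa [nb] using hadj) (hB'.sub hn) with h | h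
    · exact h
    · exact absurd (h ▸ hn) hB'.qB
  rw [Finset.disjoint_left]
  intro b hb hb'
  rcases hc b hb' with h | h | ⟨b₁, h1, h2, h3⟩ | ⟨b₁, h1, b₂, h2, h3, h4, h5⟩
  · exact hr (h ▸ hb)
  · exact hr (step b r' hb hB'.root h)
  · exact hr (step b₁ r' (step b b₁ hb h1 h2) hB'.root h3)
  · exact hr (step b₂ r' (step b₁ b₂ (step b b₁ hb h1 h3) h2 h4) hB'.root h5)

end Pool.Agent.Lib.MP_03175e_co
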