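import Pool.Agent.Lib.MP_03175e_co.B01
import Pool.Agent.Lib.MP_03175e_co.F02b
import Pool.Agent.Lib.MP_03175e_co.G01
import Pool.Agent.Lib.MP_03175e_co.G02
import Pool.Agent.Lib.MP_03175e_co.G04a
import Pool.Agent.Lib.MP_03175e_co.S00

/-!
Row A09: the lemma (LI) (paper section 3).
-/

namespace Pool.Agent.Lib.MP_03175e_co

open Finset Classical

variable {V : Type} [Fintype V] {G : SimpleGraph V} {L : V → Finset ℕ}

private theorem A09_mem_thr {c n w : V} : w ∈ thr G c n ↔ w = n ∨ (dg G w = 2 ∧ G.Adj n w ∧ w ≠ c) ∨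
    (dg G w = 2 ∧ ∃ m, dg G m = 2 ∧ G.Adj n m ∧ m ≠ c ∧ G.Adj m w ∧ w ≠ n) := by
  simp [thr]

private theorem A09_mem_ZN {v n : V} : n ∈ ZN G v ↔ G.Adj v n ∧ dg G n = 2 := by
  simp [ZN, nb]

/-- the deleted set -/
private noncomputable def A09X (G : SimpleGraph V) (v : V) : Finset V :=
  insert v ((ZN G v).biUnion (thr G v))

private theorem A09_v_mem (v : V) : v ∈ A09X G v := mem_insert_self _ _

private theorem A09_thr_sub {v n : V} (hn : n ∈ ZN G v) : thr G v n ⊆ A09X G v := by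
  intro w hw
  exact mem_insert_of_mem (mem_biUnion.mpr ⟨n, hn, hw⟩)

private theorem A09_root {v n : V} : n ∈ thr G v n := A09_mem_thr.mpr (Or.inl rfl)

private theorem A09_deg {v w : V} (hw : w ∈ A09X G v) (h : w ≠ v) : dg G w = 2 := by
  rcases mem_insert.mp hw with h' | h'
  · exact absurd h' h
  · obtain ⟨n, hn, hw⟩ := mem_biUnion.mp h'
    rcases A09_mem_thr.mp hw with h1 | h1 | h1
    · rw [h1]; exact (A09_mem_ZN.mp hn).2
    · exact h1.1
    · exact h1.1

private theorem A09_out {v w : V} (hw : w ≠ v) (h : 3 ≤ dg G w) : w ∉ A09X G v := by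
  intro h'
  have := A09_deg h' hw
  omega

/-- description of the elements of the deleted set -/
private theorem A09_cases {v w : V} (hw : w ∈ A09X G v) (h : w ≠ v) :
    ∃ n, G.Adj v n ∧ dg G n = 2 ∧ w ∈ thr G v n ∧ (w = n ∨ (G.Adj n w) ∨
      ∃ m, dg G m = 2 ∧ G.Adj n m ∧ m ≠ v ∧ G.Adj m w ∧ w ≠ n) := by
  rcases mem_insert.mp hw with h' | h'
  · exact absurd h' h
  · obtain ⟨n, hn, hw⟩ := mem_biUnion.mp h'
    refine ⟨n, (A09_mem_ZN.mp hn).1, (A09_mem_ZN.mp hn).2, hw, ?_⟩
    rcases A09_mem_thr.mp hw with h1 | h1 | h1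
    · exact Or.inl h1
    · exact Or.inr (Or.inl h1.2.1)
    · exact Or.inr (Or.inr h1.2)

private theorem A09_branch (F : Facts0 G) {v n : V} (hv : 4 ≤ dg G v) (hn : n ∈ ZN G v) :
    Branch G (A09X G v) (thr G v n) v n where
  root := A09_root
  adj := (A09_mem_ZN.mp hn).1
  sub := A09_thr_sub hn
  qX := A09_v_mem v
  qB := by
    intro h
    rcases A09_mem_thr.mp h with h1 | h1 | h1
    · exact (A09_mem_ZN.mp hn).1.ne h1
    · exact h1.2.2 rfl
    · have := h1.1
      omega
  closed := by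
    intro w hw x hx hxX
    rw [mem_nb] at hx
    by_cases hxv : x = v
    · exact Or.inr hxv
    · left
      have hd := A09_deg hxX hxv
      have hn' := A09_mem_ZN.mp hn
      rcases A09_mem_thr.mp hw with h1 | h1 | h1
      · subst h1
        exact A09_mem_thr.mpr (Or.inr (Or.inl ⟨hd, hx, hxv⟩))
      · by_cases hxn : x = n
        · rw [hxn]; exact A09_root
        · exact A09_mem_thr.mpr (Or.inr (Or.inr ⟨hd, w, h1.1, h1.2.1, h1.2.2, hx, hxn⟩))
      · obtain ⟨hw2, m, hm2, hnm, hmv, hmw, hwn⟩ := h1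
        by_cases hxm : x = m
        · rw [hxm]
          exact A09_mem_thr.mpr (Or.inr (Or.inl ⟨hm2, hnm, hmv⟩))
        · exact (F.four n m w x hnm hmw hx (Ne.symm hwn) (Ne.symm hxm) hn'.2 hm2 hw2 hd).elim

private theorem A09_conn {v n : V} : Conn G (thr G v n) n := by
  intro w hw
  rcases A09_mem_thr.mp hw with h1 | h1 | h1
  · exact Or.inl h1
  · exact Or.inr (Or.inl h1.2.1.symm)
  · obtain ⟨hw2, m, hm2, hnm, hmv, hmw, hwn⟩ := h1
    refine Or.inr (Or.inr (Or.inl ⟨m, ?_, hmw.symm, hnm.symm⟩))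
    exact A09_mem_thr.mpr (Or.inr (Or.inl ⟨hm2, hnm, hmv⟩))

private theorem A09_disj (F : Facts0 G) {v n n' : V} (hv : 4 ≤ dg G v) (hn : n ∈ ZN G v)
    (hn' : n' ∈ ZN G v) (hne : n ≠ n') : Disjoint (thr G v n) (thr G v n') := by
  refine Branch.disjoint' (A09_branch F hv hn) (A09_branch F hv hn') A09_conn ?_
  intro h
  have h1 := (A09_mem_ZN.mp hn).1
  have h2 := (A09_mem_ZN.mp hn').1
  rcases A09_mem_thr.mp h with h' | h' | h'
  · exact hne h'.symm
  · exact F.short.c3 v n n' h1 h'.2.1 h2.symm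
  · obtain ⟨_, m, _, hnm, hmv, hmw, hwn⟩ := h'
    exact F.short.c4 v n m n' h1 hnm hmw h2.symm (Ne.symm hmv) hne

/-- every outside vertex with a neighbour in the deleted set has a neighbour outside -/
private theorem A09_iso (F : Facts0 G) (h3 : ∀ t, dg G t = 3 → (ZN G t).card ≤ 2)
    (hpre : ∀ y, 4 ≤ dg G y → YN G y = ∅ →
      4 * (ZN G y).card + (dg G y - (ZN G y).card) * (dg G y + 2) < 4 * (dg G y + 2) → False)
    (v : V) (u : V) (hu : u ∉ A09X G v) : (nb G u \ A09X G v).Nonempty := by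
  by_contra hcon
  rw [not_nonempty_iff_eq_empty, sdiff_eq_empty_iff_subset] at hcon
  have hall : ∀ w, G.Adj u w → w ∈ A09X G v := fun w hw => hcon (mem_nb.mpr hw)
  have huv : u ≠ v := fun h => hu (by rw [h]; exact A09_v_mem v)
  by_cases hadj : G.Adj u v
  · -- `u` has another neighbour
    have hcard : 2 ≤ (nb G u).card := F.deg2 u
    obtain ⟨w, hw, hwv⟩ : ∃ w ∈ nb G u, w ≠ v := by
      by_contra hno
      push Not at hno
      have : nb G u ⊆ {v} := fun w hw => mem_singleton.mpr (hno w hw)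
      have := card_le_card this
      rw [card_singleton] at this
      omega
    rw [mem_nb] at hw
    obtain ⟨n, hvn, hn2, hwt, h⟩ := A09_cases (hall w hw) hwv
    have hnX : n ∈ A09X G v := A09_thr_sub (A09_mem_ZN.mpr ⟨hvn, hn2⟩) A09_root
    have hun : u ≠ n := fun h => hu (by rw [h]; exact hnX)
    rcases h with h | h | h
    · subst h
      exact F.short.c3 v u w hadj.symm hw hvn.symm
    · exact F.short.c4 v u w n hadj.symm hw h.symm hvn.symm (Ne.symm hwv) hun
    · obtain ⟨m, _, hnm, hmv, hmw, hwn⟩ := h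
      exact F.short.c5 v u w m n hadj.symm hw hmw.symm hnm.symm hvn.symm
  · have hall2 : ∀ w, G.Adj u w → dg G w = 2 := fun w hw =>
      A09_deg (hall w hw) (fun h => hadj (by rw [← h]; exact hw))
    have hZ : ZN G u = nb G u := by
      ext w
      rw [A09_mem_ZN, mem_nb]
      exact ⟨fun h => h.1, fun h => ⟨h, hall2 w h⟩⟩
    have hd2 := F.deg2 u
    have hd : (ZN G u).card = dg G u := by rw [hZ]; rfl
    rcases Nat.lt_or_ge (dg G u) 4 with h4 | h4
    · rcases Nat.lt_or_ge (dg G u) 3 with h33 | h33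
      · have hu2 : dg G u = 2 := by omega
        have hne : (nb G u).Nonempty := card_pos.mp (by
          have : (nb G u).card = 2 := hu2
          omega)
        obtain ⟨w, hw⟩ := hne
        rw [mem_nb] at hw
        have hwv : w ≠ v := fun h => hadj (by rw [← h]; exact hw)
        obtain ⟨n, hvn, hn2, hwt, h⟩ := A09_cases (hall w hw) hwv
        have hnZ := A09_mem_ZN.mpr ⟨hvn, hn2⟩
        have hnX : n ∈ A09X G v := A09_thr_sub hnZ A09_root
        have hun : u ≠ n := fun h => hu (by rw [h]; exact hnX)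
        have hw2 := hall2 w hw
        rcases h with h | h | h
        · subst h
          exact hu (A09_thr_sub hnZ (A09_mem_thr.mpr (Or.inr (Or.inl ⟨hu2, hw.symm, huv⟩))))
        · exact hu (A09_thr_sub hnZ (A09_mem_thr.mpr (Or.inr (Or.inr
            ⟨hu2, w, hw2, h, hwv, hw.symm, hun⟩))))
        · obtain ⟨m, hm2, hnm, hmv, hmw, hwn⟩ := h
          have hmu : m ≠ u := fun h => hu (by
            rw [← h]
            exact A09_thr_sub hnZ (A09_mem_thr.mpr (Or.inr (Or.inl ⟨hm2, hnm, hmv⟩))))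
          exact F.four n m w u hnm hmw hw.symm (Ne.symm hwn) hmu hn2 hm2 hw2 hu2
      · have := h3 u (by omega)
        omega
    · refine hpre u h4 ?_ ?_
      · rw [eq_empty_iff_forall_notMem]
        intro w hw
        have hw' := mem_filter.mp hw
        have := hall2 w (mem_nb.mp hw'.1)
        omega
      · rw [hd, Nat.sub_self, zero_mul, add_zero]
        omega

/-- the end of a 1-thread has exactly one neighbour in the deleted set -/
private theorem A09_end (F : Facts0 G) {v n y : V} (hvn : G.Adj v n) (hn2 : dg G n = 2)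
    (hny : G.Adj n y) (hyv : y ≠ v) (hy3 : dg G y = 3) : (nb G y ∩ A09X G v).card = 1 := by
  rw [card_eq_one]
  refine ⟨n, ?_⟩
  ext w
  rw [mem_inter, mem_nb, mem_singleton]
  constructor
  · rintro ⟨hyw, hwX⟩
    by_contra hwn
    by_cases hwv : w = v
    · subst hwv
      exact F.short.c3 w n y hvn hny hyw
    · obtain ⟨n', hvn', hn2', hwt, h⟩ := A09_cases hwX hwv
      rcases h with h | h | h
      · subst h
        exact F.short.c4 v n y w hvn hny hyw hvn'.symm (Ne.symm hyv) (Ne.symm hwn)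
      · exact F.short.c5 v n y w n' hvn hny hyw h.symm hvn'.symm
      · obtain ⟨m, hm2, hnm, hmv, hmw, hwn'⟩ := h
        have hw2 := A09_deg hwX hwv
        have hym : y ≠ m := fun h => by rw [h] at hy3; omega
        have := F.thr m w y hmw hm2 hw2 hyw.symm hym (by omega)
        omega
  · intro h
    subst h
    exact ⟨hny.symm, A09_thr_sub (A09_mem_ZN.mpr ⟨hvn, hn2⟩) A09_root⟩

/-- the data of an object of degree two -/
private theorem A09_obj (h : MinCE G L) (F : Facts0 G) {v : V} (hv : 4 ≤ dg G v)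
    (hM : ∀ n ∈ M1 G v, ∀ m ∈ nb G n, m ≠ v → dg G m = 3) {φ : V → ℕ} {κ : V → Finset ℕ}
    (hE : Ext G L (A09X G v) φ κ) {n : V} (hn : n ∈ ZN G v) :
    ∃ (K T : Finset ℕ) (k t : ℕ), K.card ≤ k ∧ T.card ≤ t ∧ t + 3 * k ≤ 3 ∧
      (∀ α, α ∉ K → (Opt G L (A09X G v) φ κ (thr G v n) v n α).Nonempty) ∧
      ∀ α, α ∉ K → α ∉ T → 2 ≤ (Opt G L (A09X G v) φ κ (thr G v n) v n α).card := by
  have hv3 : 3 ≤ dg G v := by omega
  have hvn := (A09_mem_ZN.mp hn).1
  have hn2 := (A09_mem_ZN.mp hn).2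
  have hsub := A09_thr_sub hn
  rw [(ZN_eq F hv3).1, mem_union, mem_union] at hn
  rcases hn with (h1 | h1) | h1
  · obtain ⟨y, hnb, hvy, hvn', hyn, _, hy3, ht⟩ := desc_M1 F hv3 h1
    have hyd : dg G y = 3 := hM n h1 y (by rw [hnb]; simp) (Ne.symm hvy)
    have hny : G.Adj n y := mem_nb.mp (by rw [hnb]; simp)
    have hyX : y ∉ A09X G v := A09_out (Ne.symm hvy) hy3
    have hnX : n ∈ A09X G v := hsub A09_root
    have hκ : (κ y).card = 1 := hE.κcard1 y hyX hyd (A09_end F hvn hn2 hny (Ne.symm hvy) hyd)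
    have hLn : (L n).card = 4 := by rw [h.card n, hn2]
    have key : ∀ α, α ∉ ({φ y} : Finset ℕ) →
        2 ≤ (Opt G L (A09X G v) φ κ (thr G v n) v n α).card := by
      intro α hα
      rw [mem_singleton] at hα
      rw [ht]
      refine le_trans ?_ (card_le_card (opt_M1 hE (A09_v_mem v) hnX hyX hvn' hnb hα))
      have e1 := pred_card_le_card_erase (s := L n \ κ y) (a := α)
      have e2 := le_card_sdiff (κ y) (L n)
      omega
    refine ⟨{φ y}, ∅, 1, 0, by simp, by simp, by norm_num, ?_, ?_⟩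
    · intro α hα
      have := key α hα
      exact card_pos.mp (by omega)
    · intro α hα _
      exact key α hα
  · obtain ⟨m, y, hnb, hnb', hvn', hvm, hnm, hyn, hym, hyv, _, hm2, hy4, ht⟩ := desc_M2 F hv3 h1
    have hyX : y ∉ A09X G v := A09_out hyv (by omega)
    have hnX : n ∈ A09X G v := hsub A09_root
    have hmX : m ∈ A09X G v := hsub (by rw [ht]; simp)
    have hLn : (L n).card = 4 := by rw [h.card n, hn2]
    have hLm : (L m).card = 4 := by rw [h.card m, hm2]
    obtain ⟨hne, T, hT, hT2⟩ := obj_M2 hE (A09_v_mem v) hnX hmX hyX hvn' hvm hnm hnb hnb' hLn hLm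
    rw [ht]
    exact ⟨∅, T, 0, 2, by simp, hT, by norm_num, fun α _ => hne α, fun α _ hα => hT2 α hα⟩
  · obtain ⟨m, m', y, hnb, hnb', hnb'', hvn', hvm, hvm', hnm, hnm', hmm', hyv, _, hm2, hm2',
      hy4, ht, _⟩ := desc_M3 F hv3 h1
    have hyX : y ∉ A09X G v := A09_out hyv (by omega)
    have hnX : n ∈ A09X G v := hsub A09_root
    have hmX : m ∈ A09X G v := hsub (by rw [ht]; simp)
    have hmX' : m' ∈ A09X G v := hsub (by rw [ht]; simp)
    have hLn : (L n).card = 4 := by rw [h.card n, hn2]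
    have hLm : (L m).card = 4 := by rw [h.card m, hm2]
    have hLm' : (L m').card = 4 := by rw [h.card m', hm2']
    obtain ⟨hne, α₀, hα₀⟩ := obj_M3 hE (A09_v_mem v) hnX hmX hmX' hyX hvn' hvm hvm' hnm hnm' hmm'
      hnb hnb' hnb'' hLn hLm hLm'
    rw [ht]
    refine ⟨∅, {α₀}, 0, 1, by simp, by simp, by norm_num, fun α _ => hne α, fun α _ hα => ?_⟩
    have := hα₀ α (by simpa using hα)
    omega

/-- (LI). `b` = the neighbour of degree at least 3, all other neighbours are in `ZN G v`.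
`X = insert v ((ZN G v).biUnion (thr G v))`; all elements of `X` except `v` have degree 2.
(1) `hiso`: suppose `u ∉ X`, `nb G u ⊆ X`. If `u` is adjacent to `v` then `u = b`; another
neighbour of `b` would be a thread vertex of `v` and give a closed walk of length at most 5
through `v` (3, 4 or 5), so `nb G b = {v}`, contradiction to `F.deg2`. So all neighbours of `u`
have degree 2. `dg G u = 2` is impossible (then `u` belongs to the thread of `v`, or `F.four`);
`dg G u = 3`: `h3`; `4 ≤ dg G u`: `hpre` with `ZN G u = nb G u`, `YN G u = ∅`.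
(2) `h.delete` with `a = fun _ => ∅`; `(κ b).card ≤ 2`. The end `m` of a 1-thread has degree 3 and
exactly one neighbour in `X` (`NoShort`), so `(κ m).card = 1`.
(3) `thr G v n` is a branch at `v` with root `n` for `n ∈ ZN G v` (descriptions in B01; the ends
have degree at least 3 and are different from `v`, hence outside `X`); they are pairwise disjoint
(`Branch.disjoint'`). Choices: `n ∈ M1`: `opt_M1`, `(L n \ κ m).erase c` with at least two elements,
killed colour `φ m`. `M2`: `obj_M2`. `M3`: `obj_M3` (tight for at most one colour).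
(4) `count_choice` with `N = nb G v`, `R = {b}`, `K b = κ b`, `k b = 2`; `K n = {φ m}`, `k n = 1`,
`t n = 0` on `M1`; `k = 0` and `t = 2` on `M2`, `t = 1` on `M3`; `O b α = {φ b}`. Then `glue` and
`Ext.fin`. The count: `2 m₂ + m₃ + 3 (2 + m₁) < 3 (m₁ + m₂ + m₃ + 3)`. -/
theorem MinCE.li (h : MinCE G L) (F : Facts0 G) (h3 : ∀ t, dg G t = 3 → (ZN G t).card ≤ 2)
    (hpre : ∀ y, 4 ≤ dg G y → YN G y = ∅ →
      4 * (ZN G y).card + (dg G y - (ZN G y).card) * (dg G y + 2) < 4 * (dg G y + 2) → False)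
    (v : V) (hv : 4 ≤ dg G v) (h1 : ((nb G v).filter fun n => 3 ≤ dg G n).card = 1)
    (hM : ∀ n ∈ M1 G v, ∀ m ∈ nb G n, m ≠ v → dg G m = 3) : False := by
  have hv3 : 3 ≤ dg G v := by omega
  obtain ⟨b, hb⟩ := card_eq_one.mp h1
  have hb' : b ∈ (nb G v).filter fun n => 3 ≤ dg G n := by rw [hb]; simp
  obtain ⟨hbn, hb3⟩ := mem_filter.mp hb'
  have hvb : G.Adj v b := mem_nb.mp hbn
  have hcls : ∀ n ∈ nb G v, n ≠ b → n ∈ ZN G v := by
    intro n hn hnb
    rw [A09_mem_ZN]
    refine ⟨mem_nb.mp hn, ?_⟩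
    have h2 := F.deg2 n
    by_contra hne
    have : n ∈ (nb G v).filter fun n => 3 ≤ dg G n := mem_filter.mpr ⟨hn, by omega⟩
    rw [hb, mem_singleton] at this
    exact hnb this
  have hbX : b ∉ A09X G v := A09_out hvb.ne' hb3
  have hbZ : b ∉ ZN G v := fun h => by
    have := (A09_mem_ZN.mp h).2
    omega
  obtain ⟨φ, κ, hE, -⟩ := h.delete (X := A09X G v) ⟨v, A09_v_mem v⟩
    (fun u hu _ => A09_iso F h3 hpre v u hu) (fun _ => ∅) (fun _ _ => by simp)
  -- the data
  have hdata : ∀ n, ∃ (K T : Finset ℕ) (k t : ℕ), (n = b → K = κ b ∧ k = 2) ∧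
      (n ∈ ZN G v → K.card ≤ k ∧ T.card ≤ t ∧ t + 3 * k ≤ 3 ∧
      (∀ α, α ∉ K → (Opt G L (A09X G v) φ κ (thr G v n) v n α).Nonempty) ∧
      ∀ α, α ∉ K → α ∉ T → 2 ≤ (Opt G L (A09X G v) φ κ (thr G v n) v n α).card) := by
    intro n
    by_cases hn : n = b
    · exact ⟨κ b, ∅, 2, 0, fun _ => ⟨rfl, rfl⟩, fun h => absurd (hn ▸ h) hbZ⟩
    · by_cases hz : n ∈ ZN G v
      · obtain ⟨K, T, k, t, hh⟩ := A09_obj h F hv hM hE hz
        exact ⟨K, T, k, t, fun h => absurd h hn, fun _ => hh⟩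
      · exact ⟨∅, ∅, 0, 0, fun h => absurd h hn, fun h => absurd h hz⟩
  choose K T k t hKb hZ using hdata
  set O : V → ℕ → Finset ℕ := fun n α =>
    if n = b then {φ b} else Opt G L (A09X G v) φ κ (thr G v n) v n α with hO
  have hOb : ∀ α, O b α = {φ b} := fun α => by simp [hO]
  have hOn : ∀ n, n ≠ b → ∀ α, O n α = Opt G L (A09X G v) φ κ (thr G v n) v n α := by
    intro n hn α
    simp [hO, hn]
  have hsum : ∑ n ∈ nb G v \ {b}, t n + 3 * ∑ n ∈ nb G v, k n < 3 * ((nb G v).card + 2) := by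
    have hkb : k b = 2 := (hKb b rfl).2
    have e1 : ∑ n ∈ nb G v, k n = ∑ n ∈ nb G v \ {b}, k n + k b := by
      rw [← sum_sdiff (singleton_subset_iff.mpr hbn), sum_singleton]
    have e2 : ∑ n ∈ nb G v \ {b}, (t n + 3 * k n) ≤ ∑ n ∈ nb G v \ {b}, 3 := by
      refine sum_le_sum fun n hn => ?_
      rw [mem_sdiff, mem_singleton] at hn
      exact (hZ n (hcls n hn.1 hn.2)).2.2.1
    rw [sum_add_distrib, ← mul_sum, sum_const, smul_eq_mul] at e2
    have e3 : (nb G v \ {b}).card + 1 = (nb G v).card := by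
      have := card_sdiff_add_card_eq_card (singleton_subset_iff.mpr hbn)
      rwa [card_singleton] at this
    rw [e1, hkb]
    omega
  obtain ⟨α, hαL, hαK, e, he, hcf⟩ := count_choice (N := nb G v) (R := {b}) (L := L v) (K := K)
    (O := O) (k := k) (t := t) (T := T) hv (singleton_subset_iff.mpr hbn) (by simp)
    (by rw [h.card v]; rfl) (by
      intro n hn
      by_cases hnb : n = b
      · rw [(hKb n hnb).1, (hKb n hnb).2]
        exact hE.κcard b hbX
      · exact (hZ n (hcls n hn hnb)).1) (by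
      intro n hn α hα
      by_cases hnb : n = b
      · rw [hnb, hOb]
        exact singleton_nonempty _
      · rw [hOn n hnb]
        exact (hZ n (hcls n hn hnb)).2.2.2.1 α hα) (by
      intro n hn
      rw [mem_sdiff, mem_singleton] at hn
      refine ⟨(hZ n (hcls n hn.1 hn.2)).2.1, fun α hα hαT => ?_⟩
      rw [hOn n hn.2]
      exact (hZ n (hcls n hn.1 hn.2)).2.2.2.2 α hα hαT) (by
      rw [card_singleton]
      exact hsum)
  have heb : e b = φ b := by
    have := he b hbn
    rwa [hOb, mem_singleton] at this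
  have hακ : α ∉ κ b := by
    have := hαK b hbn
    rwa [(hKb b rfl).1] at this
  have honly : ∀ n ∈ nb G v, n ∉ ZN G v → n = b := fun n hn hz => by
    by_contra hnb
    exact hz (hcls n hn hnb)
  obtain ⟨ψ, hψ1, -, -, hψ2⟩ := glue (G := G) (L := L) (X := A09X G v) (φ := φ) (κ := κ) v
    (A09_v_mem v) (ZN G v) (thr G v) (fun r hr => A09_branch F hv hr)
    (fun r hr s hs hrs => A09_disj F hv hr hs hrs)
    (fun n hn hnI r hr hmem => hbX (honly n hn hnI ▸ A09_thr_sub hr hmem)) hαL (f := e)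
    (fun n hn hnX => by
      have : n = b := honly n hn (fun hz => hnX (A09_thr_sub hz A09_root))
      rw [this, heb])
    (fun n hn hnI => by
      have hnb := honly n hn hnI
      rw [hnb, heb]
      exact ⟨fun h => hακ (h ▸ hE.κmem b hbX), fun _ => hακ⟩)
    (fun r hr => by
      have hrb : r ≠ b := fun h => hbZ (h ▸ hr)
      have := he r (mem_nb.mpr (A09_mem_ZN.mp hr).1)
      rwa [hOn r hrb] at this) hcf
  exact hE.fin ψ hψ1 hψ2

end Pool.Agent.Lib.MP_03175e_co
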