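import Pool.Agent.Lib.MP_03175e_co.A01
import Pool.Agent.Lib.MP_03175e_co.A06
import Pool.Agent.Lib.MP_03175e_co.A07
import Pool.Agent.Lib.MP_03175e_co.A08
import Pool.Agent.Lib.MP_03175e_co.A09

/-!
A10: assembly of the facts.
-/

namespace Pool.Agent.Lib.MP_03175e_co

open Finset Classical

variable {V : Type} [Fintype V] {G : SimpleGraph V} {L : V → Finset ℕ}

theorem MinCE.facts0 (h : MinCE G L) : Facts0 G where
  short := h.short
  deg2 := h.deg2
  four := h.four h.deg2
  thr := h.thr h.deg2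

theorem MinCE.facts (h : MinCE G L) : Facts G L where
  toFacts0 := h.facts0
  card := h.card
  t1 := h.t1 h.deg2
  t2 := h.t2 h.deg2
  t2end := fun t ht => (h.t2' h.deg2 t ht).1
  t2list := fun t ht => (h.t2' h.deg2 t ht).2
  t3 := h.t3 h.deg2
  pre := h.pre h.deg2
  li := h.li h.facts0 (h.t3 h.deg2) (h.pre h.deg2)

end Pool.Agent.Lib.MP_03175e_co
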