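import Pool.Agent.Lib.MP_03175e_co.Defs

/-!
Row B01: threads. In all statements `x` is a vertex of degree at least 3 and `n` a neighbour of
degree 2.
-/

namespace Pool.Agent.Lib.MP_03175e_co

open Finset Classical

variable {V : Type} [Fintype V] {G : SimpleGraph V}

theorem mem_nb {v w : V} : w ∈ nb G v ↔ G.Adj v w := by
  simp [nb]

/-- A vertex of degree 2 with neighbour `x` has exactly one other neighbour. -/
theorem exists_other {x n : V} (hx : G.Adj x n) (hn : dg G n = 2) :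
    ∃ y, nb G n = {x, y} ∧ x ≠ y := by
  have hn' : (nb G n).card = 2 := hn
  obtain ⟨a, b, hab, h⟩ := Finset.card_eq_two.1 hn'
  have hxm : x ∈ nb G n := mem_nb.2 hx.symm
  rw [h, Finset.mem_insert, Finset.mem_singleton] at hxm
  rcases hxm with rfl | rfl
  · exact ⟨b, h, hab⟩
  · exact ⟨a, by rw [h, Finset.pair_comm], fun e => hab e.symm⟩

private theorem adj_of_nb {n x y w : V} (h : nb G n = {x, y}) : G.Adj n w ↔ w = x ∨ w = y := by
  rw [← mem_nb, h, Finset.mem_insert, Finset.mem_singleton]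

theorem desc_M1 (F : Facts0 G) {x n : V} (hx : 3 ≤ dg G x) (h : n ∈ M1 G x) :
    ∃ y, nb G n = {x, y} ∧ x ≠ y ∧ x ≠ n ∧ y ≠ n ∧ dg G n = 2 ∧ 3 ≤ dg G y ∧
      thr G x n = {n} := by
  rw [M1, Finset.mem_filter, mem_nb] at h
  obtain ⟨hxn, hn, hm⟩ := h
  obtain ⟨y, hy, hxy⟩ := exists_other hxn hn
  have hny : G.Adj n y := (adj_of_nb hy).2 (Or.inr rfl)
  have hdy : 3 ≤ dg G y := hm y (mem_nb.2 hny) (fun e => hxy e.symm)
  refine ⟨y, hy, hxy, hxn.ne, hny.ne.symm, hn, hdy, ?_⟩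
  ext v
  rw [thr, Finset.mem_filter, Finset.mem_singleton]
  constructor
  · rintro ⟨-, hv | ⟨hv, hnv, hvx⟩ | ⟨-, m, hm2, hnm, hmx, -⟩⟩
    · exact hv
    · rcases (adj_of_nb hy).1 hnv with e | e
      · exact absurd e hvx
      · subst e; omega
    · rcases (adj_of_nb hy).1 hnm with e | e
      · exact absurd e hmx
      · subst e; omega
  · rintro rfl
    exact ⟨Finset.mem_univ _, Or.inl rfl⟩

/-- `4 ≤ dg G y` by `F.thr`. -/
theorem desc_M2 (F : Facts0 G) {x n : V} (hx : 3 ≤ dg G x) (h : n ∈ M2 G x) :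
    ∃ m y, nb G n = {x, m} ∧ nb G m = {n, y} ∧ x ≠ n ∧ x ≠ m ∧ n ≠ m ∧ y ≠ n ∧ y ≠ m ∧
      y ≠ x ∧ dg G n = 2 ∧ dg G m = 2 ∧ 4 ≤ dg G y ∧ thr G x n = {n, m} := by
  rw [M2, Finset.mem_filter, mem_nb] at h
  obtain ⟨hxn, hn, m, hnm, hmx, hm, hm'⟩ := h
  rw [mem_nb] at hnm
  obtain ⟨m₁, hm₁, hxm₁⟩ := exists_other hxn hn
  have e1 : m = m₁ := by
    rcases (adj_of_nb hm₁).1 hnm with e | e
    · exact absurd e hmx
    · exact e
  subst e1
  obtain ⟨y, hy, hny⟩ := exists_other hnm hm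
  have hmy : G.Adj m y := (adj_of_nb hy).2 (Or.inr rfl)
  have hdy : 3 ≤ dg G y := hm' y (mem_nb.2 hmy) (fun e => hny e.symm)
  have h4 : 4 ≤ dg G y := F.thr n m y hnm hn hm hmy (fun e => hny e.symm) (by omega)
  have hyx : y ≠ x := by
    rintro rfl
    exact F.short.c3 y n m hxn hnm hmy
  refine ⟨m, y, hm₁, hy, hxn.ne, hxm₁, hnm.ne, fun e => hny e.symm, hmy.ne.symm, hyx, hn, hm, h4, ?_⟩
  ext v
  rw [thr, Finset.mem_filter, Finset.mem_insert, Finset.mem_singleton]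
  constructor
  · rintro ⟨-, hv | ⟨hv, hnv, hvx⟩ | ⟨hv, m₂, hm2, hnm2, hmx2, hmv, hvn⟩⟩
    · exact Or.inl hv
    · rcases (adj_of_nb hm₁).1 hnv with e | e
      · exact absurd e hvx
      · exact Or.inr e
    · rcases (adj_of_nb hm₁).1 hnm2 with e | e
      · exact absurd e hmx2
      · subst e
        rcases (adj_of_nb hy).1 hmv with e | e
        · exact Or.inl e
        · subst e; omega
  · rintro (rfl | rfl)
    · exact ⟨Finset.mem_univ _, Or.inl rfl⟩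
    · exact ⟨Finset.mem_univ _, Or.inr (Or.inl ⟨hm, hnm, fun e => hxm₁ e.symm⟩)⟩

/-- `4 ≤ dg G y` by `F.four` and `F.thr`; `y ≠ x` by `c4`. -/
theorem desc_M3 (F : Facts0 G) {x n : V} (hx : 3 ≤ dg G x) (h : n ∈ M3 G x) :
    ∃ m m' y, nb G n = {x, m} ∧ nb G m = {n, m'} ∧ nb G m' = {m, y} ∧ x ≠ n ∧ x ≠ m ∧
      x ≠ m' ∧ n ≠ m ∧ n ≠ m' ∧ m ≠ m' ∧ y ≠ x ∧ dg G n = 2 ∧ dg G m = 2 ∧ dg G m' = 2 ∧
      4 ≤ dg G y ∧ thr G x n = {n, m, m'} ∧ Thr3 G x n m m' y := by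
  rw [M3, Finset.mem_filter, mem_nb] at h
  obtain ⟨hxn, hn, m, hnm, hmx, hm, m', hmm', hm'n, hm'⟩ := h
  rw [mem_nb] at hnm hmm'
  obtain ⟨m₁, hm₁, hxm₁⟩ := exists_other hxn hn
  have e1 : m = m₁ := by
    rcases (adj_of_nb hm₁).1 hnm with e | e
    · exact absurd e hmx
    · exact e
  subst e1
  obtain ⟨m₂, hm₂, hnm₂⟩ := exists_other hnm hm
  have e2 : m' = m₂ := by
    rcases (adj_of_nb hm₂).1 hmm' with e | e
    · exact absurd e hm'n
    · exact e
  subst e2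
  obtain ⟨y, hy, hmy⟩ := exists_other hmm' hm'
  have hm'y : G.Adj m' y := (adj_of_nb hy).2 (Or.inr rfl)
  have hdy : dg G y ≠ 2 := fun e => F.four n m m' y hnm hmm' hm'y hnm₂ hmy hn hm hm' e
  have h4 : 4 ≤ dg G y := F.thr m m' y hmm' hm hm' hm'y (fun e => hmy e.symm) hdy
  have hyx : y ≠ x := by
    rintro rfl
    exact F.short.c4 y n m m' hxn hnm hmm' hm'y hxm₁ hnm₂
  have hxm' : x ≠ m' := by
    rintro rfl
    omega
  refine ⟨m, m', y, hm₁, hm₂, hy, hxn.ne, hxm₁, hxm', hnm.ne, hnm₂, hmm'.ne, hyx, hn, hm, hm', h4,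
    ?_, hxn, hnm, hmm', hm'y, hn, hm, hm', hmx, hm'n, fun e => hmy e.symm⟩
  ext v
  rw [thr, Finset.mem_filter, Finset.mem_insert, Finset.mem_insert, Finset.mem_singleton]
  constructor
  · rintro ⟨-, hv | ⟨hv, hnv, hvx⟩ | ⟨hv, m₂, hm2, hnm2, hmx2, hmv, hvn⟩⟩
    · exact Or.inl hv
    · rcases (adj_of_nb hm₁).1 hnv with e | e
      · exact absurd e hvx
      · exact Or.inr (Or.inl e)
    · rcases (adj_of_nb hm₁).1 hnm2 with e | e
      · exact absurd e hmx2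
      · subst e
        rcases (adj_of_nb hm₂).1 hmv with e | e
        · exact Or.inl e
        · exact Or.inr (Or.inr e)
  · rintro (rfl | rfl | rfl)
    · exact ⟨Finset.mem_univ _, Or.inl rfl⟩
    · exact ⟨Finset.mem_univ _, Or.inr (Or.inl ⟨hm, hnm, fun e => hxm₁ e.symm⟩)⟩
    · exact ⟨Finset.mem_univ _, Or.inr (Or.inr ⟨hm', m, hm, hnm, fun e => hxm₁ e.symm, hmm', hm'n⟩)⟩

/-- The neighbours of degree 2 are divided into `M1`, `M2`, `M3`. -/
theorem ZN_eq (F : Facts0 G) {x : V} (hx : 3 ≤ dg G x) :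
    ZN G x = M1 G x ∪ M2 G x ∪ M3 G x ∧ Disjoint (M1 G x) (M2 G x) ∧
      Disjoint (M1 G x) (M3 G x) ∧ Disjoint (M2 G x) (M3 G x) := by
  refine ⟨?_, ?_, ?_, ?_⟩
  · ext n
    rw [Finset.mem_union, Finset.mem_union, ZN, M1, M2, M3, Finset.mem_filter, Finset.mem_filter,
      Finset.mem_filter, Finset.mem_filter]
    constructor
    · rintro ⟨hxn, hn⟩
      obtain ⟨m, hm, hxm⟩ := exists_other (mem_nb.1 hxn) hn
      have hnm : G.Adj n m := (adj_of_nb hm).2 (Or.inr rfl)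
      by_cases h3 : 3 ≤ dg G m
      · refine Or.inl (Or.inl ⟨hxn, hn, fun m₁ hm₁ hne => ?_⟩)
        rcases (adj_of_nb hm).1 (mem_nb.1 hm₁) with e | e
        · exact absurd e hne
        · subst e; exact h3
      · have h2 : dg G m = 2 := by
          have := F.deg2 m
          omega
        obtain ⟨m', hm', hnm'⟩ := exists_other hnm h2
        have hmm' : G.Adj m m' := (adj_of_nb hm').2 (Or.inr rfl)
        by_cases h3' : 3 ≤ dg G m'
        · refine Or.inl (Or.inr ⟨hxn, hn, m, mem_nb.2 hnm, fun e => hxm e.symm, h2,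
            fun m₁ hm₁ hne => ?_⟩)
          rcases (adj_of_nb hm').1 (mem_nb.1 hm₁) with e | e
          · exact absurd e hne
          · subst e; exact h3'
        · have h2' : dg G m' = 2 := by
            have := F.deg2 m'
            omega
          exact Or.inr ⟨hxn, hn, m, mem_nb.2 hnm, fun e => hxm e.symm, h2, m', mem_nb.2 hmm',
            fun e => hnm' e.symm, h2'⟩
    · rintro ((⟨hxn, hn, -⟩ | ⟨hxn, hn, -⟩) | ⟨hxn, hn, -⟩) <;> exact ⟨hxn, hn⟩
  · rw [Finset.disjoint_left]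
    intro n h1 h2
    rw [M1, Finset.mem_filter] at h1
    rw [M2, Finset.mem_filter] at h2
    obtain ⟨-, -, m, hm, hmx, hm2, -⟩ := h2
    have := h1.2.2 m hm hmx
    omega
  · rw [Finset.disjoint_left]
    intro n h1 h2
    rw [M1, Finset.mem_filter] at h1
    rw [M3, Finset.mem_filter] at h2
    obtain ⟨-, -, m, hm, hmx, hm2, -⟩ := h2
    have := h1.2.2 m hm hmx
    omega
  · rw [Finset.disjoint_left]
    intro n h1 h2
    rw [M2, Finset.mem_filter] at h1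
    rw [M3, Finset.mem_filter] at h2
    obtain ⟨hxn, hn, m, hm, hmx, hm2, hall⟩ := h1
    obtain ⟨-, -, m₁, hm₁, hmx₁, hm2₁, m', hm', hne, h2'⟩ := h2
    obtain ⟨m₂, hm₂, hxm₂⟩ := exists_other (mem_nb.1 hxn) hn
    have e1 : m = m₂ := by
      rcases (adj_of_nb hm₂).1 (mem_nb.1 hm) with e | e
      · exact absurd e hmx
      · exact e
    have e2 : m₁ = m₂ := by
      rcases (adj_of_nb hm₂).1 (mem_nb.1 hm₁) with e | e
      · exact absurd e hmx₁
      · exact e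
    subst e1
    subst e2
    have := hall m' hm' hne
    omega

end Pool.Agent.Lib.MP_03175e_co
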