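import Pool.Agent.Lib.MP_03175e_co.B01

/-!
Row B02: vertices of type `T1`, `T2`, and the division of a neighbourhood into classes.
-/

namespace Pool.Agent.Lib.MP_03175e_co

open Finset Classical

variable {V : Type} [Fintype V] {G : SimpleGraph V} {L : V → Finset ℕ}

private theorem b02_ne {v w : V} (h : w ∈ nb G v) : v ≠ w := by
  rw [mem_nb] at h
  exact h.ne

private theorem b02_disj (t : V) : Disjoint (YN G t) (ZN G t) := by
  rw [Finset.disjoint_left]
  intro n h1 h2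
  simp only [YN, ZN, mem_filter] at h1 h2
  omega

private theorem b02_union {t : V} (h : (YN G t).card + (ZN G t).card = dg G t) :
    nb G t = YN G t ∪ ZN G t := by
  symm
  apply Finset.eq_of_subset_of_card_le
  · intro n hn
    simp only [YN, ZN, mem_union, mem_filter] at hn
    rcases hn with hn | hn
    · exact hn.1
    · exact hn.1
  · rw [Finset.card_union_of_disjoint (b02_disj t), h]
    exact le_refl _

/-- `t` of type `T1`, `c` a neighbour of `t` of degree at least 3: the other neighbours are `w`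
(degree at least 4 by `F.t1`) and `z` of degree 2, whose other neighbour has degree at least 3 by
`F.thr`. Also `4 ≤ dg G c` by `F.t1`. -/
theorem desc_T1 (F : Facts G L) {c t : V} (hc : 3 ≤ dg G c) (hct : G.Adj c t)
    (ht : IsT1 G t) :
    ∃ w z y, nb G t = {c, w, z} ∧ nb G z = {t, y} ∧ ZN G t = {z} ∧ c ≠ w ∧ c ≠ z ∧ w ≠ z ∧
      c ≠ t ∧ w ≠ t ∧ z ≠ t ∧ y ≠ t ∧ y ≠ z ∧ 4 ≤ dg G c ∧ 4 ≤ dg G w ∧ dg G z = 2 ∧
      3 ≤ dg G y ∧ br G c t = {t, z} := by
  have hY := F.t1 t ht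
  obtain ⟨hd, hZ⟩ := ht
  have hun := b02_union (G := G) (t := t) (by rw [hY, hZ, hd])
  obtain ⟨z, hz⟩ := Finset.card_eq_one.1 hZ
  have hzZ : z ∈ ZN G t := by rw [hz]; simp
  have hzn : z ∈ nb G t ∧ dg G z = 2 := by simpa [ZN] using hzZ
  have hcY : c ∈ YN G t := by
    have h1 : c ∈ nb G t := mem_nb.2 hct.symm
    rw [hun, mem_union] at h1
    rcases h1 with h1 | h1
    · exact h1
    · simp only [ZN, mem_filter] at h1
      omega
  have h4c : 4 ≤ dg G c := by
    simp only [YN, mem_filter] at hcY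
    exact hcY.2
  have hce : ((YN G t).erase c).card = 1 := by
    rw [Finset.card_erase_of_mem hcY, hY]
  obtain ⟨w, hw⟩ := Finset.card_eq_one.1 hce
  have hwY : w ∈ (YN G t).erase c := by rw [hw]; simp
  rw [mem_erase] at hwY
  have hYe : YN G t = {c, w} := by
    rw [← Finset.insert_erase hcY, hw]
  have hw4 : w ∈ nb G t ∧ 4 ≤ dg G w := by simpa [YN] using hwY.2
  have hzt : G.Adj t z := mem_nb.1 hzn.1
  obtain ⟨y, hy, hty⟩ := exists_other hzt hzn.2
  have hzy : G.Adj z y := by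
    rw [← mem_nb, hy]; simp
  have hy3 : 3 ≤ dg G y := by
    have h2 := F.deg2 y
    by_contra hlt
    have h2' : dg G y = 2 := by omega
    have := F.thr y z t hzy.symm h2' hzn.2 hzt.symm hty (by omega)
    omega
  refine ⟨w, z, y, ?_, hy, hz, hwY.1.symm, ?_, ?_, hct.ne, (b02_ne hw4.1).symm,
    (b02_ne hzn.1).symm, hty.symm, hzy.ne.symm, h4c, hw4.2, hzn.2, hy3, ?_⟩
  · rw [hun, hYe, hz]
    ext a
    simp only [mem_union, mem_insert, mem_singleton]
    tauto
  · intro h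
    subst h
    omega
  · intro h
    have := hw4.2
    have := hzn.2
    rw [h] at *
    omega
  · unfold br
    rw [if_neg (by omega), hz]

/-- `t` of type `T2`, `c` a neighbour of `t` of degree at least 3. -/
theorem desc_T2 (F : Facts G L) {c t : V} (hc : 3 ≤ dg G c) (hct : G.Adj c t)
    (ht : IsT2 G t) :
    ∃ z₁ z₂ y₁ y₂, nb G t = {c, z₁, z₂} ∧ nb G z₁ = {t, y₁} ∧ nb G z₂ = {t, y₂} ∧
      ZN G t = {z₁, z₂} ∧ c ≠ z₁ ∧ c ≠ z₂ ∧ z₁ ≠ z₂ ∧ c ≠ t ∧ z₁ ≠ t ∧ z₂ ≠ t ∧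
      y₁ ≠ t ∧ y₂ ≠ t ∧ y₁ ≠ y₂ ∧ 4 ≤ dg G c ∧ dg G z₁ = 2 ∧ dg G z₂ = 2 ∧ 4 ≤ dg G y₁ ∧
      4 ≤ dg G y₂ ∧ br G c t = {t, z₁, z₂} := by
  have hY := F.t2 t ht
  have hend := F.t2end t ht
  obtain ⟨hd, hZ⟩ := ht
  have hun := b02_union (G := G) (t := t) (by rw [hY, hZ, hd])
  obtain ⟨z₁, z₂, hne, hz⟩ := Finset.card_eq_two.1 hZ
  have hz1Z : z₁ ∈ ZN G t := by rw [hz]; simp
  have hz2Z : z₂ ∈ ZN G t := by rw [hz]; simp
  have hz1 : z₁ ∈ nb G t ∧ dg G z₁ = 2 := by simpa [ZN] using hz1Z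
  have hz2 : z₂ ∈ nb G t ∧ dg G z₂ = 2 := by simpa [ZN] using hz2Z
  have hcY : c ∈ YN G t := by
    have h1 : c ∈ nb G t := mem_nb.2 hct.symm
    rw [hun, mem_union] at h1
    rcases h1 with h1 | h1
    · exact h1
    · simp only [ZN, mem_filter] at h1
      omega
  have h4c : 4 ≤ dg G c := by
    simp only [YN, mem_filter] at hcY
    exact hcY.2
  have hYe : YN G t = {c} := by
    obtain ⟨c', hc'⟩ := Finset.card_eq_one.1 hY
    rw [hc', mem_singleton] at hcY
    rw [hc', hcY]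
  have ht1 : G.Adj t z₁ := mem_nb.1 hz1.1
  have ht2 : G.Adj t z₂ := mem_nb.1 hz2.1
  obtain ⟨y₁, hy1, hty1⟩ := exists_other ht1 hz1.2
  obtain ⟨y₂, hy2, hty2⟩ := exists_other ht2 hz2.2
  have hm1 : y₁ ∈ nb G z₁ := by rw [hy1]; simp
  have hm2 : y₂ ∈ nb G z₂ := by rw [hy2]; simp
  have ha1 : G.Adj z₁ y₁ := mem_nb.1 hm1
  have ha2 : G.Adj z₂ y₂ := mem_nb.1 hm2
  refine ⟨z₁, z₂, y₁, y₂, ?_, hy1, hy2, hz, ?_, ?_, hne, hct.ne, ht1.ne.symm, ht2.ne.symm,
    hty1.symm, hty2.symm, ?_, h4c, hz1.2, hz2.2, hend z₁ hz1Z y₁ hm1 hty1.symm,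
    hend z₂ hz2Z y₂ hm2 hty2.symm, ?_⟩
  · rw [hun, hYe, hz]
    ext a
    simp only [mem_union, mem_insert, mem_singleton]
  · intro h
    subst h
    omega
  · intro h
    subst h
    omega
  · intro h
    exact F.short.c4 t z₁ y₁ z₂ ht1 ha1 (by rw [h]; exact ha2.symm) ht2.symm hty1 hne
  · unfold br
    rw [if_neg (by omega), hz]

private theorem b02_one (F : Facts G L) {x : V} (hx : 3 ≤ dg G x) {n : V} (hn : n ∈ nb G x)
    (a : ℕ) : a = (if n ∈ YN G x then a else 0) + (if n ∈ T0N G x then a else 0) +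
      (if n ∈ T1N G x then a else 0) + (if n ∈ T2N G x then a else 0) +
      (if n ∈ M1 G x then a else 0) + (if n ∈ M2 G x then a else 0) +
      (if n ∈ M3 G x then a else 0) := by
  have h2 := F.deg2 n
  have e1 : n ∈ YN G x ↔ 4 ≤ dg G n := by simp [YN, hn]
  have e2 : n ∈ T0N G x ↔ dg G n = 3 ∧ (ZN G n).card = 0 := by
    simp only [T0N, mem_filter, hn, true_and]; exact Iff.rfl
  have e3 : n ∈ T1N G x ↔ dg G n = 3 ∧ (ZN G n).card = 1 := by
    simp only [T1N, mem_filter, hn, true_and]; exact Iff.rfl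
  have e4 : n ∈ T2N G x ↔ dg G n = 3 ∧ (ZN G n).card = 2 := by
    simp only [T2N, mem_filter, hn, true_and]; exact Iff.rfl
  have m1 : n ∈ M1 G x → dg G n = 2 := by
    intro h; simp only [M1, mem_filter] at h; exact h.2.1
  have m2 : n ∈ M2 G x → dg G n = 2 := by
    intro h; simp only [M2, mem_filter] at h; exact h.2.1
  have m3 : n ∈ M3 G x → dg G n = 2 := by
    intro h; simp only [M3, mem_filter] at h; exact h.2.1
  obtain ⟨hZ, d12, d13, d23⟩ := ZN_eq F.toFacts0 hx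
  rcases lt_or_ge (dg G n) 3 with h3 | h3
  · have hd : dg G n = 2 := by omega
    have hnZ : n ∈ ZN G x := by simp [ZN, hn, hd]
    rw [hZ, mem_union, mem_union] at hnZ
    rw [if_neg (show ¬ n ∈ YN G x by rw [e1]; omega),
      if_neg (show ¬ n ∈ T0N G x by rw [e2]; omega),
      if_neg (show ¬ n ∈ T1N G x by rw [e3]; omega),
      if_neg (show ¬ n ∈ T2N G x by rw [e4]; omega)]
    rcases hnZ with (h | h) | h
    · rw [if_pos h, if_neg (Finset.disjoint_left.1 d12 h), if_neg (Finset.disjoint_left.1 d13 h)]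
      omega
    · rw [if_neg (Finset.disjoint_right.1 d12 h), if_pos h, if_neg (Finset.disjoint_left.1 d23 h)]
      omega
    · rw [if_neg (Finset.disjoint_right.1 d13 h), if_neg (Finset.disjoint_right.1 d23 h), if_pos h]
      omega
  · rw [if_neg (show ¬ n ∈ M1 G x from fun h => by have := m1 h; omega),
      if_neg (show ¬ n ∈ M2 G x from fun h => by have := m2 h; omega),
      if_neg (show ¬ n ∈ M3 G x from fun h => by have := m3 h; omega)]
    rcases lt_or_ge (dg G n) 4 with h4 | h4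
    · have hd : dg G n = 3 := by omega
      have hle := F.t3 n hd
      rw [if_neg (show ¬ n ∈ YN G x by rw [e1]; omega)]
      have h012 : (ZN G n).card = 0 ∨ (ZN G n).card = 1 ∨ (ZN G n).card = 2 := by omega
      rcases h012 with h | h | h
      · rw [if_pos (e2.2 ⟨hd, h⟩), if_neg (show ¬ n ∈ T1N G x by rw [e3]; omega),
          if_neg (show ¬ n ∈ T2N G x by rw [e4]; omega)]
        omega
      · rw [if_neg (show ¬ n ∈ T0N G x by rw [e2]; omega), if_pos (e3.2 ⟨hd, h⟩),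
          if_neg (show ¬ n ∈ T2N G x by rw [e4]; omega)]
        omega
      · rw [if_neg (show ¬ n ∈ T0N G x by rw [e2]; omega),
          if_neg (show ¬ n ∈ T1N G x by rw [e3]; omega), if_pos (e4.2 ⟨hd, h⟩)]
        omega
    · rw [if_pos (e1.2 h4), if_neg (show ¬ n ∈ T0N G x by rw [e2]; omega),
        if_neg (show ¬ n ∈ T1N G x by rw [e3]; omega),
        if_neg (show ¬ n ∈ T2N G x by rw [e4]; omega)]
      omega

private theorem b02_sum {x : V} {A : Finset V} (hA : A ⊆ nb G x) (g : V → ℕ) :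
    ∑ n ∈ nb G x, (if n ∈ A then g n else 0) = ∑ n ∈ A, g n := by
  rw [Finset.sum_ite_mem, Finset.inter_eq_right.2 hA]

/-- The classes `YN, T0N, T1N, T2N, M1, M2, M3` form a partition of `nb G x`. -/
theorem sum_part (F : Facts G L) {x : V} (hx : 3 ≤ dg G x) (g : V → ℕ) :
    ∑ n ∈ nb G x, g n = ∑ n ∈ YN G x, g n + ∑ n ∈ T0N G x, g n + ∑ n ∈ T1N G x, g n +
      ∑ n ∈ T2N G x, g n + ∑ n ∈ M1 G x, g n + ∑ n ∈ M2 G x, g n + ∑ n ∈ M3 G x, g n := by
  rw [Finset.sum_congr rfl fun n hn => b02_one F hx hn (g n)]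
  simp only [Finset.sum_add_distrib]
  rw [b02_sum (A := YN G x) (Finset.filter_subset _ _),
    b02_sum (A := T0N G x) (Finset.filter_subset _ _),
    b02_sum (A := T1N G x) (Finset.filter_subset _ _),
    b02_sum (A := T2N G x) (Finset.filter_subset _ _),
    b02_sum (A := M1 G x) (Finset.filter_subset _ _),
    b02_sum (A := M2 G x) (Finset.filter_subset _ _),
    b02_sum (A := M3 G x) (Finset.filter_subset _ _)]

theorem dg_eq (F : Facts G L) {x : V} (hx : 3 ≤ dg G x) :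
    dg G x = (YN G x).card + (T0N G x).card + (T1N G x).card + (T2N G x).card +
      (M1 G x).card + (M2 G x).card + (M3 G x).card := by
  have h := sum_part F hx (fun _ => 1)
  simpa [dg] using h

/-- case distinction for a neighbour -/
theorem nb_cases (F : Facts G L) {x n : V} (hx : 3 ≤ dg G x) (hn : n ∈ nb G x) :
    n ∈ YN G x ∨ n ∈ T0N G x ∨ n ∈ T1N G x ∨ n ∈ T2N G x ∨ n ∈ M1 G x ∨ n ∈ M2 G x ∨
      n ∈ M3 G x := by
  have h := b02_one F hx hn 1
  by_contra hcon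
  push Not at hcon
  obtain ⟨h1, h2, h3, h4, h5, h6, h7⟩ := hcon
  rw [if_neg h1, if_neg h2, if_neg h3, if_neg h4, if_neg h5, if_neg h6, if_neg h7] at h
  omega

end Pool.Agent.Lib.MP_03175e_co
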