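import Pool.Agent.Lib.MP_03175e_co.B02

/-!
Row D00: discharging, definitions and basic facts (paper section 8).
-/

namespace Pool.Agent.Lib.MP_03175e_co

open Finset Classical

variable {V : Type} [Fintype V] (G : SimpleGraph V)

/-- the vertices that are not inner vertices of 3-threads -/
noncomputable def SS : Finset V :=
  Finset.univ.filter fun v => ¬ ∃ x v₁ v₂ v₃ y, Thr3 G x v₁ v₂ v₃ y ∧ (v = v₁ ∨ v = v₂ ∨ v = v₃)

/-- payment from `u` to `v` -/
noncomputable def pay (u v : V) : ℤ :=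
  if dg G u < 3 then 0 else
    if v ∈ M1 G u then 1 else
      if v ∈ M2 G u then 2 else
        if 4 ≤ dg G u ∧ v ∈ T2N G u then 2 else
          if 4 ≤ dg G u ∧ Heavy G u ∧ (v ∈ T1N G u ∨ v ∈ Lam G u) then 1 else 0

/-- final charge -/
noncomputable def fin (v : V) : ℤ :=
  2 * ((nb G v ∩ SS G).card : ℤ) - 6 + ∑ u ∈ nb G v ∩ SS G, pay G u v -
    ∑ u ∈ nb G v ∩ SS G, pay G v u

variable {G}

theorem pay_nonneg (u v : V) : 0 ≤ pay G u v := by
  unfold pay
  split_ifs <;> norm_num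

/-- The payments cancel (`Finset.sum_comm'`, adjacency is symmetric). -/
theorem sum_fin : ∑ v ∈ SS G, fin G v =
    ∑ v ∈ SS G, (2 * ((nb G v ∩ SS G).card : ℤ) - 6) := by
  have h : ∑ v ∈ SS G, ∑ u ∈ nb G v ∩ SS G, pay G u v =
      ∑ v ∈ SS G, ∑ u ∈ nb G v ∩ SS G, pay G v u := by
    apply Finset.sum_comm'
    intro v u
    rw [mem_inter, mem_inter, mem_nb, mem_nb]
    constructor
    · rintro ⟨h1, h2, h3⟩
      exact ⟨⟨h2.symm, h1⟩, h3⟩
    · rintro ⟨⟨h1, h2⟩, h3⟩
      exact ⟨h2, h1.symm, h3⟩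
  unfold fin
  rw [Finset.sum_sub_distrib, Finset.sum_add_distrib, h]
  ring

/-- vertices of degree at least 3 are in `SS` -/
theorem mem_SS_of_three {v : V} (hv : 3 ≤ dg G v) : v ∈ SS G := by
  rw [SS, mem_filter]
  refine ⟨mem_univ _, ?_⟩
  rintro ⟨x, v₁, v₂, v₃, y, ⟨-, -, -, -, d1, d2, d3, -⟩, rfl | rfl | rfl⟩ <;> omega

/-- a vertex of degree two has no third neighbour -/
private theorem d00_two {n a b c : V} (hn : dg G n = 2) (ha : G.Adj n a) (hb : G.Adj n b)
    (hab : a ≠ b) (hc : G.Adj n c) : c = a ∨ c = b := by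
  obtain ⟨y, hy, hay⟩ := exists_other ha.symm hn
  have h1 : b ∈ nb G n := mem_nb.2 hb
  have h2 : c ∈ nb G n := mem_nb.2 hc
  rw [hy, mem_insert, mem_singleton] at h1 h2
  rcases h1 with h1 | h1
  · exact absurd h1.symm hab
  · rw [h1]
    exact h2

/-- first vertices of 1-threads and 2-threads are in `SS`, those of 3-threads are not. For `M1`: `n`
has no neighbour of degree 2. For `M2`: `n` has exactly one neighbour `m` of degree 2, and `m` has
only the neighbour `n` of degree 2; in a `Thr3` the vertex `v₂` has two neighbours of degree 2 and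
`v₁, v₃` are adjacent to it. -/
theorem mem_SS_thr (F : Facts0 G) {x n : V} (hx : 3 ≤ dg G x) (hn : n ∈ nb G x)
    (h2 : dg G n = 2) : n ∈ SS G ↔ n ∉ M3 G x := by
  constructor
  · intro h h3
    obtain ⟨m, m', y, -, -, -, -, -, -, -, -, -, -, -, -, -, -, -, hT⟩ := desc_M3 F hx h3
    rw [SS, mem_filter] at h
    exact h.2 ⟨x, n, m, m', y, hT, Or.inl rfl⟩
  · intro h3
    rw [SS, mem_filter]
    refine ⟨mem_univ _, ?_⟩
    have hnx : G.Adj n x := (mem_nb.1 hn).symm
    rintro ⟨a, v₁, v₂, v₃, b, ⟨a1, a2, a3, a4, d1, d2, d3, n1, n2, n3⟩, rfl | rfl | rfl⟩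
    · rcases d00_two h2 a1.symm a2 n1.symm hnx with h | h
      · apply h3
        rw [M3, mem_filter]
        exact ⟨hn, h2, v₂, mem_nb.2 a2, by rw [h]; exact n1, d2, v₃, mem_nb.2 a3, n2, d3⟩
      · rw [h] at hx
        omega
    · rcases d00_two h2 a2.symm a3 n2.symm hnx with h | h
      · rw [h] at hx
        omega
      · rw [h] at hx
        omega
    · rcases d00_two h2 a3.symm a4 n3.symm hnx with h | h
      · rw [h] at hx
        omega
      · apply h3
        rw [M3, mem_filter]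
        exact ⟨hn, h2, v₂, mem_nb.2 a3.symm, by rw [h]; exact n3.symm, d2, v₁, mem_nb.2 a2.symm,
          n2.symm, d1⟩

/-- A vertex of degree 2 in `SS` is the first vertex of a 1-thread or 2-thread: it has a neighbour
`u` of degree at least 3 (otherwise it would be the middle of a `Thr3`). -/
theorem SS_two (F : Facts0 G) {v : V} (hv : v ∈ SS G) (h2 : dg G v = 2) :
    ∃ u, 3 ≤ dg G u ∧ (v ∈ M1 G u ∨ v ∈ M2 G u) := by
  obtain ⟨a, b, hab, hN⟩ := Finset.card_eq_two.1 (show (nb G v).card = 2 from h2)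
  have ha : G.Adj v a := mem_nb.1 (by rw [hN]; simp)
  have hb : G.Adj v b := mem_nb.1 (by rw [hN]; simp)
  have key : ∀ u, G.Adj v u → 3 ≤ dg G u → ∃ u, 3 ≤ dg G u ∧ (v ∈ M1 G u ∨ v ∈ M2 G u) := by
    intro u hu hu3
    have h3 : v ∈ nb G u := mem_nb.2 hu.symm
    have h4 := (mem_SS_thr F hu3 h3 h2).1 hv
    have h5 : v ∈ ZN G u := by
      rw [ZN, mem_filter]
      exact ⟨h3, h2⟩
    rw [(ZN_eq F hu3).1, mem_union, mem_union] at h5
    rcases h5 with h5 | h5
    · exact ⟨u, hu3, h5⟩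
    · exact absurd h5 h4
  by_cases ha3 : 3 ≤ dg G a
  · exact key a ha ha3
  by_cases hb3 : 3 ≤ dg G b
  · exact key b hb hb3
  exfalso
  have ha2 : dg G a = 2 := by
    have := F.deg2 a
    omega
  have hb2 : dg G b = 2 := by
    have := F.deg2 b
    omega
  obtain ⟨x, hx, hvx⟩ := exists_other ha ha2
  obtain ⟨y, hy, hvy⟩ := exists_other hb hb2
  have hax : G.Adj a x := mem_nb.1 (by rw [hx]; simp)
  have hby : G.Adj b y := mem_nb.1 (by rw [hy]; simp)
  rw [SS, mem_filter] at hv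
  exact hv.2 ⟨x, a, v, b, y, ⟨hax.symm, ha.symm, hb, hby, ha2, h2, hb2, hvx, hab.symm, hvy.symm⟩,
    Or.inr (Or.inl rfl)⟩

end Pool.Agent.Lib.MP_03175e_co
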