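import Pool.Agent.Lib.MP_03175e_co.D00

/-!
Row D01: final charge of vertices of degree 2 and 3 (paper section 8).
-/

namespace Pool.Agent.Lib.MP_03175e_co

open Finset Classical

variable {V : Type} [Fintype V] {G : SimpleGraph V} {L : V → Finset ℕ}

private theorem d01_pay_small {u v : V} (h : dg G u < 3) : pay G u v = 0 := by
  unfold pay
  rw [if_pos h]

private theorem d01_pay_M1 {u v : V} (h : 3 ≤ dg G u) (hv : v ∈ M1 G u) : pay G u v = 1 := by
  unfold pay
  rw [if_neg (by omega), if_pos hv]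

private theorem d01_pay_M2 {u v : V} (h : 3 ≤ dg G u) (hn : v ∉ M1 G u) (hv : v ∈ M2 G u) :
    pay G u v = 2 := by
  unfold pay
  rw [if_neg (by omega), if_neg hn, if_pos hv]

/-- `SS_two`. 1-thread `u v m`: both neighbours in `SS`, each pays 1. 2-thread `u v m`: `u` pays 2,
`m` is in `SS` (it is the first vertex of the 2-thread from the other end) and pays nothing
(degree 2). `v` pays nothing. Final charge `4 - 6 + 2 = 0`. -/
theorem fin_two (F : Facts G L) {v : V} (hv : v ∈ SS G) (h2 : dg G v = 2) : 0 ≤ fin G v := by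
  have F0 : Facts0 G := F.toFacts0
  obtain ⟨u, hu, hM⟩ := SS_two F0 hv h2
  have hpv : ∀ x, pay G v x = 0 := fun x => d01_pay_small (by omega)
  rcases hM with h1 | h1
  · obtain ⟨y, hnb, huy, huv, hyv, -, hy3, -⟩ := desc_M1 F0 hu h1
    have hyM : v ∈ M1 G y := by
      rw [M1, Finset.mem_filter]
      have hvy : G.Adj v y := by rw [← mem_nb, hnb]; simp
      refine ⟨mem_nb.2 hvy.symm, h2, fun m hm hmy => ?_⟩
      rw [hnb, Finset.mem_insert, Finset.mem_singleton] at hm
      rcases hm with rfl | rfl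
      · exact hu
      · exact absurd rfl hmy
    have hinter : nb G v ∩ SS G = {u, y} := by
      rw [hnb]
      refine Finset.inter_eq_left.2 fun x hx => ?_
      rw [Finset.mem_insert, Finset.mem_singleton] at hx
      rcases hx with rfl | rfl
      · exact mem_SS_of_three hu
      · exact mem_SS_of_three hy3
    unfold fin
    rw [hinter, Finset.sum_pair huy, Finset.sum_pair huy, hpv, hpv, d01_pay_M1 hu h1,
      d01_pay_M1 hy3 hyM, Finset.card_pair huy]
    norm_num
  · obtain ⟨m, y, hnb, hnbm, hun, hum, hvm, hyv, hym, hyu, -, hm2, hy4, -⟩ := desc_M2 F0 hu h1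
    have hvm' : G.Adj v m := by rw [← mem_nb, hnb]; simp
    have hmy : G.Adj m y := by rw [← mem_nb, hnbm]; simp
    have hmM : m ∈ M2 G y := by
      rw [M2, Finset.mem_filter]
      refine ⟨mem_nb.2 hmy.symm, hm2, v, mem_nb.2 hvm'.symm, fun e => hyv e.symm, h2,
        fun x hx hxm => ?_⟩
      rw [hnb, Finset.mem_insert, Finset.mem_singleton] at hx
      rcases hx with rfl | rfl
      · exact hu
      · exact absurd rfl hxm
    have hy3 : 3 ≤ dg G y := by omega
    have hmS : m ∈ SS G := by
      rw [mem_SS_thr F0 hy3 (mem_nb.2 hmy.symm) hm2]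
      exact Finset.disjoint_left.1 (ZN_eq F0 hy3).2.2.2 hmM
    have hinter : nb G v ∩ SS G = {u, m} := by
      rw [hnb]
      refine Finset.inter_eq_left.2 fun x hx => ?_
      rw [Finset.mem_insert, Finset.mem_singleton] at hx
      rcases hx with rfl | rfl
      · exact mem_SS_of_three hu
      · exact hmS
    have hnM1 : v ∉ M1 G u := fun h => Finset.disjoint_left.1 (ZN_eq F0 hu).2.1 h h1
    unfold fin
    rw [hinter, Finset.sum_pair hum, Finset.sum_pair hum, hpv, hpv, d01_pay_M2 hu hnM1 h1,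
      d01_pay_small (u := m) (by omega), Finset.card_pair hum]
    norm_num

/-- Degree 3. All neighbours are in `SS` (a neighbour of degree 2 is in `M1 G v` by `F.thr`:
otherwise `4 ≤ dg G v`). `T0`: pays nothing. `T1`: pays 1 to its degree-two neighbour; one of its
two Y-neighbours is heavy and pays 1 (`hT1`). `T2`: pays 2, receives 2 from its Y-neighbour. -/
theorem fin_three (F : Facts G L) (hT1 : ∀ t, IsT1 G t → ∃ w ∈ YN G t, Heavy G w) {v : V}
    (h3 : dg G v = 3) : 0 ≤ fin G v := by
  have F0 : Facts0 G := F.toFacts0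
  have hv3 : 3 ≤ dg G v := by omega
  have hM2 : M2 G v = ∅ := by
    rw [Finset.eq_empty_iff_forall_notMem]
    intro n hn
    obtain ⟨m, y, hnb, -, -, hum, -, -, -, -, hn2, hm2, -, -⟩ := desc_M2 F0 hv3 hn
    have hnm : G.Adj n m := by rw [← mem_nb, hnb]; simp
    have hnv : G.Adj n v := by rw [← mem_nb, hnb]; simp
    have := F0.thr m n v hnm.symm hm2 hn2 hnv hum (by omega)
    omega
  have hM3 : M3 G v = ∅ := by
    rw [Finset.eq_empty_iff_forall_notMem]
    intro n hn
    obtain ⟨m, m', y, hnb, -, -, -, hum, -, -, -, -, -, hn2, hm2, -⟩ := desc_M3 F0 hv3 hn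
    have hnm : G.Adj n m := by rw [← mem_nb, hnb]; simp
    have hnv : G.Adj n v := by rw [← mem_nb, hnb]; simp
    have := F0.thr m n v hnm.symm hm2 hn2 hnv hum (by omega)
    omega
  have hZ : ZN G v = M1 G v := by
    rw [(ZN_eq F0 hv3).1, hM2, hM3]
    simp
  have hinter : nb G v ∩ SS G = nb G v := by
    refine Finset.inter_eq_left.2 fun n hn => ?_
    by_cases h : 3 ≤ dg G n
    · exact mem_SS_of_three h
    · have hn2 : dg G n = 2 := by
        have := F0.deg2 n
        omega
      rw [mem_SS_thr F0 hv3 hn hn2, hM3]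
      simp
  have hout : ∑ u ∈ nb G v, pay G v u = ((ZN G v).card : ℤ) := by
    have hsub : ZN G v ⊆ nb G v := Finset.filter_subset _ _
    rw [← Finset.sum_subset hsub (f := fun u => pay G v u)]
    · rw [Finset.sum_congr rfl (g := fun _ => (1 : ℤ))]
      · simp
      · intro u hu
        rw [hZ] at hu
        exact d01_pay_M1 hv3 hu
    · intro u _ hu
      rw [hZ] at hu
      unfold pay
      rw [if_neg (by omega), if_neg hu, if_neg (by rw [hM2]; simp), if_neg (by omega),
        if_neg (by omega)]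
  have hcard : ((nb G v).card : ℤ) = 3 := by
    have : (nb G v).card = 3 := h3
    exact_mod_cast this
  have hin0 : ∀ w ∈ nb G v, pay G w v ≤ ∑ u ∈ nb G v, pay G u v := fun w hw =>
    Finset.single_le_sum (f := fun u => pay G u v) (fun u _ => pay_nonneg u v) hw
  have hinnn : 0 ≤ ∑ u ∈ nb G v, pay G u v := Finset.sum_nonneg fun u _ => pay_nonneg u v
  have hnotM1 : ∀ w, v ∉ M1 G w := fun w hw => by
    have := (Finset.mem_filter.1 hw).2.1
    omega
  have hnotM2 : ∀ w, v ∉ M2 G w := fun w hw => by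
    have := (Finset.mem_filter.1 hw).2.1
    omega
  unfold fin
  rw [hinter, hout, hcard]
  have hle := F.t3 v h3
  have hcases : (ZN G v).card = 0 ∨ (ZN G v).card = 1 ∨ (ZN G v).card = 2 := by omega
  rcases hcases with hc | hc | hc
  · rw [hc]
    push_cast
    linarith
  · have ht : IsT1 G v := ⟨h3, hc⟩
    obtain ⟨w, hw, hheavy⟩ := hT1 v ht
    obtain ⟨hwn, hw4⟩ := Finset.mem_filter.1 hw
    have hvw : v ∈ nb G w := mem_nb.2 (mem_nb.1 hwn).symm
    have hT2 : v ∉ T2N G w := fun h => by
      have h1 : IsT2 G v := (Finset.mem_filter.1 h).2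
      have h2 : (ZN G v).card = 2 := h1.2
      omega
    have hT1' : v ∈ T1N G w := Finset.mem_filter.2 ⟨hvw, ht⟩
    have hp : pay G w v = 1 := by
      unfold pay
      rw [if_neg (by omega), if_neg (hnotM1 w), if_neg (hnotM2 w), if_neg (fun h => hT2 h.2),
        if_pos ⟨hw4, hheavy, Or.inl hT1'⟩]
    have := hin0 w hwn
    rw [hc]
    push_cast
    linarith
  · have ht : IsT2 G v := ⟨h3, hc⟩
    have hY := F.t2 v ht
    obtain ⟨w, hw⟩ := Finset.card_pos.1 (show 0 < (YN G v).card by omega)
    obtain ⟨hwn, hw4⟩ := Finset.mem_filter.1 hw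
    have hvw : v ∈ nb G w := mem_nb.2 (mem_nb.1 hwn).symm
    have hT2 : v ∈ T2N G w := Finset.mem_filter.2 ⟨hvw, ht⟩
    have hp : pay G w v = 2 := by
      unfold pay
      rw [if_neg (by omega), if_neg (hnotM1 w), if_neg (hnotM2 w), if_pos ⟨hw4, hT2⟩]
    have := hin0 w hwn
    rw [hc]
    push_cast
    linarith

end Pool.Agent.Lib.MP_03175e_co
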