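import Pool.Agent.Lib.MP_03175e_co.D00

/-!
Row D02: final charge of vertices of degree at least 4 (paper section 8).
-/

namespace Pool.Agent.Lib.MP_03175e_co

open Finset Classical

variable {V : Type} [Fintype V] {G : SimpleGraph V} {L : V → Finset ℕ}

/-- The neighbours in `SS` are all except those in `M3 G v` (`mem_SS_thr`, `mem_SS_of_three`). -/
theorem card_SS (F : Facts G L) {v : V} (hv : 3 ≤ dg G v) :
    (nb G v ∩ SS G).card + (M3 G v).card = dg G v := by
  have hM3 : M3 G v ⊆ nb G v := by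
    rw [M3]
    exact Finset.filter_subset _ _
  have h1 : nb G v ∩ SS G = nb G v \ M3 G v := by
    ext n
    rw [Finset.mem_inter, Finset.mem_sdiff]
    refine and_congr_right fun hn => ?_
    by_cases h2 : dg G n = 2
    · exact mem_SS_thr F.toFacts0 hv hn h2
    · have h3 : 3 ≤ dg G n := by
        have := F.deg2 n
        omega
      refine ⟨fun _ hm => ?_, fun _ => mem_SS_of_three h3⟩
      rw [M3, Finset.mem_filter] at hm
      exact h2 hm.2.1
  rw [h1, Finset.card_sdiff_add_card_eq_card hM3]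
  rfl

private theorem ind_sum {A B : Finset V} (h : B ⊆ A) (c : ℤ) :
    ∑ u ∈ A, (if u ∈ B then c else 0) = c * B.card := by
  rw [← Finset.sum_filter, Finset.sum_const, nsmul_eq_mul, mul_comm]
  congr 2
  congr 1
  ext u
  rw [Finset.mem_filter]
  exact ⟨fun hu => hu.2, fun hu => ⟨h hu, hu⟩⟩

private theorem subs (G : SimpleGraph V) (v : V) : M1 G v ⊆ nb G v ∧ M2 G v ⊆ nb G v ∧
    T2N G v ⊆ nb G v ∧ T1N G v ⊆ nb G v ∧ Lam G v ⊆ nb G v ∧ YN G v ⊆ nb G v ∧
    Lam G v ⊆ YN G v := by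
  have hL : Lam G v ⊆ YN G v := by
    rw [Lam]
    exact Finset.filter_subset _ _
  have hY : YN G v ⊆ nb G v := by
    rw [YN]
    exact Finset.filter_subset _ _
  refine ⟨?_, ?_, ?_, ?_, hL.trans hY, hY, hL⟩
  · rw [M1]; exact Finset.filter_subset _ _
  · rw [M2]; exact Finset.filter_subset _ _
  · rw [T2N]; exact Finset.filter_subset _ _
  · rw [T1N]; exact Finset.filter_subset _ _

/-- Payments of a heavy vertex: 1 to `M1`, `T1N`, `Lam`; 2 to `M2`, `T2N`. -/
theorem out_heavy (F : Facts G L) {v : V} (hv : 4 ≤ dg G v) :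
    ∑ u ∈ nb G v ∩ SS G, pay G v u ≤ (M1 G v).card + 2 * (M2 G v).card + 2 * (T2N G v).card +
      (T1N G v).card + (Lam G v).card := by
  obtain ⟨s1, s2, s3, s4, s5, -, -⟩ := subs G v
  have h1 : ∑ u ∈ nb G v ∩ SS G, pay G v u ≤ ∑ u ∈ nb G v ∩ SS G,
      ((if u ∈ M1 G v then (1 : ℤ) else 0) + (if u ∈ M2 G v then (2 : ℤ) else 0) +
        (if u ∈ T2N G v then (2 : ℤ) else 0) + (if u ∈ T1N G v then (1 : ℤ) else 0) +
        (if u ∈ Lam G v then (1 : ℤ) else 0)) := by
    refine Finset.sum_le_sum fun u _ => ?_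
    unfold pay
    split_ifs <;> first | omega | (exfalso; tauto)
  have h2 : ∑ u ∈ nb G v ∩ SS G,
      ((if u ∈ M1 G v then (1 : ℤ) else 0) + (if u ∈ M2 G v then (2 : ℤ) else 0) +
        (if u ∈ T2N G v then (2 : ℤ) else 0) + (if u ∈ T1N G v then (1 : ℤ) else 0) +
        (if u ∈ Lam G v then (1 : ℤ) else 0)) ≤ ∑ u ∈ nb G v,
      ((if u ∈ M1 G v then (1 : ℤ) else 0) + (if u ∈ M2 G v then (2 : ℤ) else 0) +
        (if u ∈ T2N G v then (2 : ℤ) else 0) + (if u ∈ T1N G v then (1 : ℤ) else 0) +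
        (if u ∈ Lam G v then (1 : ℤ) else 0)) := by
    refine Finset.sum_le_sum_of_subset_of_nonneg Finset.inter_subset_left fun u _ _ => ?_
    split_ifs <;> norm_num
  refine h1.trans (h2.trans (le_of_eq ?_))
  rw [Finset.sum_add_distrib, Finset.sum_add_distrib, Finset.sum_add_distrib,
    Finset.sum_add_distrib, ind_sum s1, ind_sum s2, ind_sum s3, ind_sum s4, ind_sum s5]
  ring

/-- Payments of a vertex that is not heavy. -/
theorem out_light (F : Facts G L) {v : V} (hv : 4 ≤ dg G v) (hH : ¬ Heavy G v) :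
    ∑ u ∈ nb G v ∩ SS G, pay G v u ≤ (M1 G v).card + 2 * (M2 G v).card + 2 * (T2N G v).card := by
  obtain ⟨s1, s2, s3, -, -, -, -⟩ := subs G v
  have h1 : ∑ u ∈ nb G v ∩ SS G, pay G v u ≤ ∑ u ∈ nb G v ∩ SS G,
      ((if u ∈ M1 G v then (1 : ℤ) else 0) + (if u ∈ M2 G v then (2 : ℤ) else 0) +
        (if u ∈ T2N G v then (2 : ℤ) else 0)) := by
    refine Finset.sum_le_sum fun u _ => ?_
    unfold pay
    split_ifs <;> first | omega | (exfalso; tauto)
  have h2 : ∑ u ∈ nb G v ∩ SS G,
      ((if u ∈ M1 G v then (1 : ℤ) else 0) + (if u ∈ M2 G v then (2 : ℤ) else 0) +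
        (if u ∈ T2N G v then (2 : ℤ) else 0)) ≤ ∑ u ∈ nb G v,
      ((if u ∈ M1 G v then (1 : ℤ) else 0) + (if u ∈ M2 G v then (2 : ℤ) else 0) +
        (if u ∈ T2N G v then (2 : ℤ) else 0)) := by
    refine Finset.sum_le_sum_of_subset_of_nonneg Finset.inter_subset_left fun u _ _ => ?_
    split_ifs <;> norm_num
  refine h1.trans (h2.trans (le_of_eq ?_))
  rw [Finset.sum_add_distrib, Finset.sum_add_distrib, ind_sum s1, ind_sum s2, ind_sum s3]
  ring

private theorem in_nonneg (v : V) : 0 ≤ ∑ u ∈ nb G v ∩ SS G, pay G u v :=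
  Finset.sum_nonneg fun u _ => pay_nonneg u v

/-- Heavy vertices: `dg_eq`, `card_SS`, `out_heavy`, `pay_nonneg`, `Lam G v ⊆ YN G v`. -/
theorem fin_heavy (F : Facts G L) {v : V} (hv : 4 ≤ dg G v) (hH : Heavy G v) :
    0 ≤ fin G v := by
  have h1 := card_SS F (show 3 ≤ dg G v by omega)
  have h2 := dg_eq F (show 3 ≤ dg G v by omega)
  have h3 := out_heavy F hv
  have h4 := in_nonneg (G := G) v
  have h5 : (YN G v \ Lam G v).card + (Lam G v).card = (YN G v).card :=
    Finset.card_sdiff_add_card_eq_card (subs G v).2.2.2.2.2.2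
  unfold Heavy at hH
  unfold fin
  omega

/-- Problem vertices: `(T1N).card`, `(YN).card`: one of them contains `s`. -/
theorem fin_prob (F : Facts G L) {v s : V} (hv : 4 ≤ dg G v) (hH : ¬ Heavy G v)
    (hP : Prob G v s) (hs : s ∈ YN G v ∨ s ∈ T1N G v) : 0 ≤ fin G v := by
  have h1 := card_SS F (show 3 ≤ dg G v by omega)
  have h2 := dg_eq F (show 3 ≤ dg G v by omega)
  have h3 := out_light F hv hH
  have h4 := in_nonneg (G := G) v
  obtain ⟨-, -, p0, p1, p3, p⟩ := hP
  have key : (YN G v).card + (T1N G v).card = ((YN G v).erase s).card + 1 := by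
    rcases hs with hs | hs
    · have hn : s ∉ T1N G v := by
        intro h
        rw [T1N, Finset.mem_filter] at h
        rw [YN, Finset.mem_filter] at hs
        have := h.2.1
        omega
      rw [Finset.erase_eq_of_notMem hn] at p1
      rw [p1, Finset.card_erase_add_one hs, add_zero]
    · have hn : s ∉ YN G v := by
        intro h
        rw [T1N, Finset.mem_filter] at hs
        rw [YN, Finset.mem_filter] at h
        have := hs.2.1
        omega
      rw [Finset.erase_eq_of_notMem hn]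
      have := Finset.card_erase_add_one hs
      omega
  unfold fin
  omega

private theorem pay_Lam {v w : V} (hH : Heavy G w) (hw : 4 ≤ dg G w) (hv : v ∈ Lam G w) :
    pay G w v = 1 := by
  have h4 : 4 ≤ dg G v := by
    have := (subs G w).2.2.2.2.2.2 hv
    rw [YN, Finset.mem_filter] at this
    exact this.2
  have n1 : v ∉ M1 G w := by
    intro h
    rw [M1, Finset.mem_filter] at h
    omega
  have n2 : v ∉ M2 G w := by
    intro h
    rw [M2, Finset.mem_filter] at h
    omega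
  have n3 : v ∉ T2N G w := by
    intro h
    rw [T2N, Finset.mem_filter] at h
    have := h.2.1
    omega
  unfold pay
  rw [if_neg (by omega), if_neg n1, if_neg n2, if_neg (fun h => n3 h.2),
    if_pos ⟨hw, hH, Or.inr hv⟩]

/-- Light vertices with one missing unit: receive 1 from some heavy `w` with `v ∈ Lam G w`. -/
theorem fin_light1 (F : Facts G L) {v : V} (hH : ¬ Heavy G v) (hl : Light G v)
    (h5 : ¬ ((YN G v).card = 2 ∧ (M1 G v).card = 0))
    (hw : ∃ w, Heavy G w ∧ 4 ≤ dg G w ∧ v ∈ Lam G w) : 0 ≤ fin G v := by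
  have hv : 4 ≤ dg G v := by
    rcases hl with h | h <;> exact h.1
  have h1 := card_SS F (show 3 ≤ dg G v by omega)
  have h2 := dg_eq F (show 3 ≤ dg G v by omega)
  have h3 := out_light F hv hH
  obtain ⟨w, hwH, hw4, hvw⟩ := hw
  have hadj : G.Adj w v := mem_nb.1 ((subs G w).2.2.2.2.1 hvw)
  have hmem : w ∈ nb G v ∩ SS G :=
    Finset.mem_inter.2 ⟨mem_nb.2 hadj.symm, mem_SS_of_three (by omega)⟩
  have h4 : (1 : ℤ) ≤ ∑ u ∈ nb G v ∩ SS G, pay G u v := by
    rw [← pay_Lam hwH hw4 hvw]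
    exact Finset.single_le_sum (f := fun u => pay G u v) (fun u _ => pay_nonneg u v) hmem
  unfold fin
  rcases hl with ⟨-, t1, h | h | h | h⟩ | ⟨-, t1, h⟩ <;> omega

/-- Type L5: receives 1 from both Y-neighbours. -/
theorem fin_light2 (F : Facts G L) {v : V} (hH : ¬ Heavy G v) (hl : Light G v)
    (hw : ∀ w ∈ YN G v, Heavy G w ∧ v ∈ Lam G w) : 0 ≤ fin G v := by
  have hv : 4 ≤ dg G v := by
    rcases hl with h | h <;> exact h.1
  have h1 := card_SS F (show 3 ≤ dg G v by omega)
  have h2 := dg_eq F (show 3 ≤ dg G v by omega)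
  have h3 := out_light F hv hH
  have hsub : YN G v ⊆ nb G v ∩ SS G := by
    intro w hw'
    have h4 : 4 ≤ dg G w := by
      rw [YN, Finset.mem_filter] at hw'
      exact hw'.2
    exact Finset.mem_inter.2 ⟨(subs G v).2.2.2.2.2.1 hw', mem_SS_of_three (by omega)⟩
  have h4 : ((YN G v).card : ℤ) ≤ ∑ u ∈ nb G v ∩ SS G, pay G u v := by
    calc ((YN G v).card : ℤ) = ∑ u ∈ YN G v, pay G u v := by
          rw [Finset.card_eq_sum_ones]
          push_cast
          refine Finset.sum_congr rfl fun u hu => ?_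
          have h4 : 4 ≤ dg G u := by
            rw [YN, Finset.mem_filter] at hu
            exact hu.2
          exact (pay_Lam (hw u hu).1 h4 (hw u hu).2).symm
      _ ≤ ∑ u ∈ nb G v ∩ SS G, pay G u v :=
          Finset.sum_le_sum_of_subset_of_nonneg hsub fun u _ _ => pay_nonneg u v
  unfold fin
  rcases hl with ⟨-, t1, h | h | h | h⟩ | ⟨-, t1, h⟩ <;> omega

end Pool.Agent.Lib.MP_03175e_co
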