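import Pool.Agent.Lib.MP_03175e_co.R10
import Pool.Agent.Lib.MP_03175e_co.F01

/-!
Row R11: a vertex of type L4 between two problem vertices is reducible (paper section 7, (P3)).
-/

namespace Pool.Agent.Lib.MP_03175e_co

open Finset Classical

variable {V : Type} [Fintype V] {G : SimpleGraph V} {L : V → Finset ℕ}

theorem r11_erase_card (A : Finset ℕ) (α : ℕ) : A.card ≤ (A.erase α).card + 1 := by
  have := Finset.pred_card_le_card_erase (s := A) (a := α)
  omega

/-- Centre `x`, `Λ = {w₁, w₂} = YN G x`, `StarOK` by `starOK_prob`, `a = fun _ => ∅`. `M1 G x = {z}`,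
`Mu = M2 G x ∪ T2N G x`, `dg G x = Mu.card + 3`. `P' = L x \ KK z` (`KK z` has one element) has at least
`Mu.card + 4` colours; at most `Mu.card + 1` of them are tight for two or more elements of
`insert z Mu` (`bad_le`: `2 * bad ≤ 2 + 2 * Mu.card`; `z` is tight only for `L z \ κ y` if it has two
elements). So there are three colours `al ∈ P'` that are tight for at most one. By `rev_comp` at most
one of them is bad for `w₁` and at most one for `w₂`. Take a good one and `c_i ∈ Comp (nb G w_i) x … al`,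
which is in `OO … x x w_i al` (`star_in`). `cfc` with `R = {w₁, w₂} ∪ {tight one}`, sets `{c_i}` at
`w_i`, gives a choice and `star_top` a contradiction. -/
theorem light4_prob (h : MinCE G L) {x w₁ w₂ : V} (hx : Light4 G x) (hw : w₁ ≠ w₂)
    (h1 : Prob G w₁ x) (h2 : Prob G w₂ x) : False := by
  have F : Facts G L := h.facts
  obtain ⟨hx4, hT1, hY, hT0, hM1, hM3⟩ := hx
  have hx3 : 3 ≤ dg G x := by omega
  have hd1 : 4 ≤ dg G w₁ := h1.1
  have ha1 : G.Adj w₁ x := h1.2.1
  have hd2 : 4 ≤ dg G w₂ := h2.1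
  have ha2 : G.Adj w₂ x := h2.2.1
  have hmΛ : ∀ n, n ∈ ({w₁, w₂} : Finset V) ↔ n = w₁ ∨ n = w₂ := by
    intro n
    rw [Finset.mem_insert, Finset.mem_singleton]
  have hΛc : ({w₁, w₂} : Finset V).card = 2 := Finset.card_pair hw
  generalize hΛ : ({w₁, w₂} : Finset V) = Λ at hmΛ hΛc
  have hw1 : w₁ ∈ Λ := (hmΛ _).mpr (Or.inl rfl)
  have hw2 : w₂ ∈ Λ := (hmΛ _).mpr (Or.inr rfl)
  have hYN : Λ = YN G x := by
    apply Finset.eq_of_subset_of_card_le
    · intro n hn
      unfold YN
      rw [Finset.mem_filter, mem_nb]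
      rcases (hmΛ n).mp hn with rfl | rfl
      · exact ⟨ha1.symm, hd1⟩
      · exact ⟨ha2.symm, hd2⟩
    · rw [hY, hΛc]
  have hS : StarOK G x Λ := starOK_prob hx3 (by
    intro w hw'
    rcases (hmΛ w).mp hw' with rfl | rfl
    · exact h1
    · exact h2)
  obtain ⟨φ, κ, hE, -⟩ := h.delete (X := star G x Λ) ⟨x, p_mem_star⟩
    (fun v hv hne => star_iso F hS v hv hne) (fun _ => ∅) (by simp)
  have hxi : x ∈ insert x Λ := Finset.mem_insert_self _ _
  obtain ⟨z, hz⟩ := Finset.card_eq_one.mp hM1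
  have hzM : z ∈ M1 G x := by rw [hz]; exact Finset.mem_singleton_self z
  obtain ⟨y, -, -, -, hKz, -, -, hA, hOz⟩ := KO_M1 F hS hE hxi hzM
  -- the colours
  set P' : Finset ℕ := (L x).erase (φ y) with hP'
  have hP'c : dg G x + 1 ≤ P'.card := by
    have e1 := F.card x
    have e2 : (L x).card ≤ P'.card + 1 := r11_erase_card (L x) (φ y)
    omega
  have hKz' : ∀ α ∈ P', α ∉ KK G (star G x Λ) φ κ z := by
    intro α hα
    rw [hKz, Finset.mem_singleton]
    exact (Finset.mem_erase.mp hα).1
  set M : Finset V := nb G x \ Λ with hM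
  -- description of the elements of `M`
  have hMd : ∀ n ∈ M, n = z ∨ (n ∈ M2 G x ∨ n ∈ T2N G x) := by
    intro n hn
    obtain ⟨hn1, hn2⟩ := Finset.mem_sdiff.mp hn
    rcases nb_cases F hx3 hn1 with h3 | h3 | h3 | h3 | h3 | h3 | h3
    · rw [← hYN] at h3
      exact absurd h3 hn2
    · rw [Finset.card_eq_zero.mp hT0] at h3
      exact absurd h3 (Finset.notMem_empty _)
    · rw [Finset.card_eq_zero.mp hT1] at h3
      exact absurd h3 (Finset.notMem_empty _)
    · exact Or.inr (Or.inr h3)
    · rw [hz, Finset.mem_singleton] at h3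
      exact Or.inl h3
    · exact Or.inr (Or.inl h3)
    · rw [Finset.card_eq_zero.mp hM3] at h3
      exact absurd h3 (Finset.notMem_empty _)
  have hMx : ∀ n ∈ M, n ≠ x := by
    intro n hn
    obtain ⟨hn1, -⟩ := Finset.mem_sdiff.mp hn
    exact (mem_nb.mp hn1).ne'
  have hne : ∀ n ∈ M, ∀ α ∈ P', (OO G L (star G x Λ) φ κ x x n α).Nonempty := by
    intro n hn α hα
    rcases hMd n hn with rfl | h3
    · have h4 := hOz α (hKz' α hα)
      have h5 := r11_erase_card (L n \ κ y) α
      have h6 := Finset.card_le_card h4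
      rw [← Finset.card_pos]
      omega
    · exact (KO_mu F hS hE hxi h3 (hMx n hn)).2.1 α
  have hTex : ∀ n, ∃ T : Finset ℕ, n ∈ M → (T.card ≤ 2 ∧
      ∀ α ∈ P', α ∉ T → 2 ≤ (OO G L (star G x Λ) φ κ x x n α).card) := by
    intro n
    by_cases hn : n ∈ M
    · rcases hMd n hn with rfl | h3
      · by_cases hA2 : (L n \ κ y).card = 2
        · refine ⟨L n \ κ y, fun _ => ⟨hA2.le, fun α hα hαT => ?_⟩⟩
          have h4 := hOz α (hKz' α hα)
          rw [Finset.erase_eq_of_notMem hαT] at h4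
          have h6 := Finset.card_le_card h4
          omega
        · refine ⟨∅, fun _ => ⟨by simp, fun α hα _ => ?_⟩⟩
          have h4 := hOz α (hKz' α hα)
          have h5 := r11_erase_card (L n \ κ y) α
          have h6 := Finset.card_le_card h4
          omega
      · obtain ⟨-, -, T, hT, hT2⟩ := KO_mu F hS hE hxi h3 (hMx n hn)
        exact ⟨T, fun _ => ⟨hT, fun α _ hαT => hT2 α hαT⟩⟩
    · exact ⟨∅, fun h3 => absurd h3 hn⟩
  choose T hT using hTex
  have hMc : M.card + 2 = dg G x := by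
    have h3 : Λ ⊆ nb G x := by
      rw [hYN]
      unfold YN
      exact Finset.filter_subset _ _
    have h4 := Finset.card_sdiff_add_card_eq_card h3
    rw [hΛc] at h4
    unfold dg
    exact h4
  have hsum : ∑ n ∈ M, (T n).card ≤ 2 * M.card := by
    calc ∑ n ∈ M, (T n).card ≤ ∑ _n ∈ M, 2 := Finset.sum_le_sum fun n hn => (hT n hn).1
      _ = 2 * M.card := by rw [Finset.sum_const, smul_eq_mul, mul_comm]
  have hbad := bad_le M P' T 2
  set B := P'.filter fun α => 2 ≤ (M.filter fun n => α ∈ T n).card with hB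
  have hBP : B ⊆ P' := Finset.filter_subset _ _
  have hgood : 3 ≤ (P' \ B).card := by
    have h3 := Finset.card_sdiff_add_card_eq_card hBP
    omega
  have hx2 : ¬ IsT2 G x := by
    intro h3
    have := h3.1
    omega
  have hr1 := (rev_comp F hS hE hw1 h1 hx2).1
  have hr2 := (rev_comp F hS hE hw2 h2 hx2).1
  -- a good colour
  have hex : ∃ al ∈ P' \ B,
      (Comp (nb G w₁) x (PP G L (star G x Λ) φ κ x w₁)
        (OO G L (star G x Λ) φ κ x w₁) al).Nonempty ∧
      (Comp (nb G w₂) x (PP G L (star G x Λ) φ κ x w₂)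
        (OO G L (star G x Λ) φ κ x w₂) al).Nonempty := by
    by_contra hcon
    have hsub : P' \ B ⊆
        ((P' \ B).filter fun al => Comp (nb G w₁) x (PP G L (star G x Λ) φ κ x w₁)
          (OO G L (star G x Λ) φ κ x w₁) al = ∅) ∪
        ((P' \ B).filter fun al => Comp (nb G w₂) x (PP G L (star G x Λ) φ κ x w₂)
          (OO G L (star G x Λ) φ κ x w₂) al = ∅) := by
      intro al hal
      rw [Finset.mem_union, Finset.mem_filter, Finset.mem_filter]
      by_cases h3 : Comp (nb G w₁) x (PP G L (star G x Λ) φ κ x w₁)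
          (OO G L (star G x Λ) φ κ x w₁) al = ∅
      · exact Or.inl ⟨hal, h3⟩
      · by_cases h4 : Comp (nb G w₂) x (PP G L (star G x Λ) φ κ x w₂)
            (OO G L (star G x Λ) φ κ x w₂) al = ∅
        · exact Or.inr ⟨hal, h4⟩
        · exact absurd ⟨al, hal, Finset.nonempty_iff_ne_empty.mpr h3,
            Finset.nonempty_iff_ne_empty.mpr h4⟩ hcon
    have h5 := Finset.card_le_card hsub
    have h6 := Finset.card_union_le
      ((P' \ B).filter fun al => Comp (nb G w₁) x (PP G L (star G x Λ) φ κ x w₁)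
          (OO G L (star G x Λ) φ κ x w₁) al = ∅)
      ((P' \ B).filter fun al => Comp (nb G w₂) x (PP G L (star G x Λ) φ κ x w₂)
          (OO G L (star G x Λ) φ κ x w₂) al = ∅)
    have h7 : ((P' \ B).filter fun al => Comp (nb G w₁) x (PP G L (star G x Λ) φ κ x w₁)
          (OO G L (star G x Λ) φ κ x w₁) al = ∅).card ≤ 1 := by
      rw [Finset.card_le_one]
      intro a ha b hb
      exact hr1 a b (Finset.mem_filter.mp ha).2 (Finset.mem_filter.mp hb).2
    have h8 : ((P' \ B).filter fun al => Comp (nb G w₂) x (PP G L (star G x Λ) φ κ x w₂)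
          (OO G L (star G x Λ) φ κ x w₂) al = ∅).card ≤ 1 := by
      rw [Finset.card_le_one]
      intro a ha b hb
      exact hr2 a b (Finset.mem_filter.mp ha).2 (Finset.mem_filter.mp hb).2
    omega
  obtain ⟨al, hal, hc1, hc2⟩ := hex
  obtain ⟨halP, halB⟩ := Finset.mem_sdiff.mp hal
  have hO1 : (OO G L (star G x Λ) φ κ x x w₁ al).Nonempty := hc1.mono (star_in F hS hE hw1 al)
  have hO2 : (OO G L (star G x Λ) φ κ x x w₂ al).Nonempty := hc2.mono (star_in F hS hE hw2 al)
  have htight : (M.filter fun n => al ∈ T n).card ≤ 1 := by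
    by_contra h3
    apply halB
    rw [hB, Finset.mem_filter]
    exact ⟨halP, by omega⟩
  have hnbΛ : ∀ n ∈ nb G x, n ∉ Λ → n ∈ M := fun n hn hn2 => Finset.mem_sdiff.mpr ⟨hn, hn2⟩
  obtain ⟨e, he, hcf⟩ := cfc (N := nb G x) (R := Λ ∪ M.filter fun n => al ∈ T n)
    (O := fun n => OO G L (star G x Λ) φ κ x x n al) hx4
    (by
      apply Finset.union_subset
      · rw [hYN]
        unfold YN
        exact Finset.filter_subset _ _
      · exact (Finset.filter_subset _ _).trans Finset.sdiff_subset)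
    (by
      have h3 := Finset.card_union_le Λ (M.filter fun n => al ∈ T n)
      omega)
    (by
      intro n hn
      by_cases h3 : n ∈ Λ
      · rcases (hmΛ n).mp h3 with rfl | rfl
        · exact hO1
        · exact hO2
      · exact hne n (hnbΛ n hn h3) al halP)
    (by
      intro n hn
      obtain ⟨hn1, hn2⟩ := Finset.mem_sdiff.mp hn
      rw [Finset.mem_union, not_or, Finset.mem_filter] at hn2
      have h3 := hnbΛ n hn1 hn2.1
      exact (hT n h3).2 al halP (fun h4 => hn2.2 ⟨h3, h4⟩))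
  refine star_top F hS hE (Finset.mem_erase.mp halP).2 ?_ he hcf
  intro n hn
  by_cases h3 : n ∈ Λ
  · rw [KO_L hS h3]
    exact Finset.notMem_empty _
  · have h4 := hnbΛ n hn h3
    rcases hMd n h4 with rfl | h5
    · exact hKz' al halP
    · rw [(KO_mu F hS hE hxi h5 (hMx n h4)).1]
      exact Finset.notMem_empty _

end Pool.Agent.Lib.MP_03175e_co
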