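import Pool.Agent.Lib.MP_03175e_co.Defs

/-!
Row F09a: final finite step for (P4) (paper section 7).
-/

namespace Pool.Agent.Lib.MP_03175e_co

open Finset

/-- (P4). `P` = colours of `t` except the colour of `y`; `O₁`, `O₂` = possible colours of the two
Y-neighbours, `A` = possible colours of the degree-two neighbour. If all choices fail (all three
neighbours get the same colour), we are in the exceptional configuration.
At most one `α` has `O₁ α = ∅`, at most one has `O₂ α = ∅`; so at least two `α ∈ P` are good (both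
sets nonempty). For a good `α` all elements of `A.erase α` are equal to a `c₁ ∈ O₁ α`, so
`A = {α, c₁}`, `O₁ α = O₂ α = {c₁}`. Good colours are in `A`, so there are exactly two, `al` and
`al'`, `A = {al, al'}`, and the other two elements of `P` (`P.card = 4`) are `ε₁` with `O₁ ε₁ = ∅`
and `ε₂` with `O₂ ε₂ = ∅`. -/
theorem p4_choice {P A : Finset ℕ} {O₁ O₂ : ℕ → Finset ℕ} (hP : 4 ≤ P.card) (hA : 2 ≤ A.card)
    (h1 : ∀ β γ, O₁ β = ∅ → O₁ γ = ∅ → β = γ) (h2 : ∀ β γ, O₂ β = ∅ → O₂ γ = ∅ → β = γ)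
    (hfail : ∀ α ∈ P, ∀ c₁ ∈ O₁ α, ∀ c₂ ∈ O₂ α, ∀ g ∈ A.erase α, c₁ = g ∧ c₂ = g) :
    ∃ al al' ε₁ ε₂ : ℕ, al ≠ al' ∧ P = {al, al', ε₁, ε₂} ∧ A = {al, al'} ∧
      (O₁ al).Nonempty ∧ (O₁ al').Nonempty ∧ O₁ al ⊆ {al'} ∧ O₁ al' ⊆ {al} ∧ O₁ ε₁ = ∅ ∧
      (O₂ al).Nonempty ∧ (O₂ al').Nonempty ∧ O₂ al ⊆ {al'} ∧ O₂ al' ⊆ {al} ∧ O₂ ε₂ = ∅ := by
  classical
  set Gd := P.filter (fun α => (O₁ α).Nonempty ∧ (O₂ α).Nonempty) with hGd
  set B1 := P.filter (fun α => O₁ α = ∅) with hB1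
  set B2 := P.filter (fun α => O₂ α = ∅) with hB2
  have c1 : B1.card ≤ 1 := by
    rw [Finset.card_le_one]
    intro a ha b hb
    exact h1 a b (Finset.mem_filter.1 ha).2 (Finset.mem_filter.1 hb).2
  have c2 : B2.card ≤ 1 := by
    rw [Finset.card_le_one]
    intro a ha b hb
    exact h2 a b (Finset.mem_filter.1 ha).2 (Finset.mem_filter.1 hb).2
  have hPU : P = Gd ∪ (B1 ∪ B2) := by
    ext α
    simp only [hGd, hB1, hB2, Finset.mem_union, Finset.mem_filter]
    constructor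
    · intro h
      rcases Finset.eq_empty_or_nonempty (O₁ α) with h3 | h3
      · exact Or.inr (Or.inl ⟨h, h3⟩)
      · rcases Finset.eq_empty_or_nonempty (O₂ α) with h4 | h4
        · exact Or.inr (Or.inr ⟨h, h4⟩)
        · exact Or.inl ⟨h, h3, h4⟩
    · rintro (h | h | h) <;> exact h.1
  have hcard : P.card ≤ Gd.card + (B1.card + B2.card) := by
    calc P.card = (Gd ∪ (B1 ∪ B2)).card := by rw [← hPU]
      _ ≤ Gd.card + (B1 ∪ B2).card := Finset.card_union_le _ _
      _ ≤ Gd.card + (B1.card + B2.card) := by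
          have := Finset.card_union_le B1 B2
          omega
  have good : ∀ α ∈ Gd, α ∈ A ∧ A.card = 2 ∧ O₁ α ⊆ A.erase α ∧ O₂ α ⊆ A.erase α := by
    intro α hα
    obtain ⟨hαP, ⟨x, hx⟩, ⟨y, hy⟩⟩ := Finset.mem_filter.1 hα
    have hne : (A.erase α).card ≤ 1 := by
      rw [Finset.card_le_one]
      intro a ha b hb
      rw [← (hfail α hαP x hx y hy a ha).1, ← (hfail α hαP x hx y hy b hb).1]
    have hαA : α ∈ A := by
      by_contra h
      rw [Finset.erase_eq_of_notMem h] at hne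
      omega
    have h3 := Finset.card_erase_of_mem hαA
    have h4 : 0 < (A.erase α).card := by omega
    obtain ⟨g, hg⟩ := Finset.card_pos.1 h4
    refine ⟨hαA, by omega, ?_, ?_⟩
    · intro z hz
      rw [(hfail α hαP z hz y hy g hg).1]
      exact hg
    · intro z hz
      rw [(hfail α hαP x hx z hz g hg).2]
      exact hg
  have hGne : 0 < Gd.card := by omega
  obtain ⟨α₀, hα₀⟩ := Finset.card_pos.1 hGne
  have hA2 : A.card = 2 := (good α₀ hα₀).2.1
  have hsub : Gd ⊆ A := fun α hα => (good α hα).1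
  have hGle := Finset.card_le_card hsub
  have hGA : Gd = A := Finset.eq_of_subset_of_card_le hsub (by omega)
  have e1 : B1.card = 1 := by omega
  have e2 : B2.card = 1 := by omega
  obtain ⟨ε₁, hε₁⟩ := Finset.card_eq_one.1 e1
  obtain ⟨ε₂, hε₂⟩ := Finset.card_eq_one.1 e2
  obtain ⟨al, al', hne, hAeq⟩ := Finset.card_eq_two.1 hA2
  have hal : al ∈ Gd := by rw [hGA, hAeq]; simp
  have hal' : al' ∈ Gd := by rw [hGA, hAeq]; simp
  have k1 : A.erase al ⊆ {al'} := by
    intro z hz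
    rw [hAeq] at hz
    have h5 := Finset.mem_erase.1 hz
    rcases Finset.mem_insert.1 h5.2 with h6 | h6
    · exact absurd h6 h5.1
    · exact h6
  have k2 : A.erase al' ⊆ {al} := by
    intro z hz
    rw [hAeq] at hz
    have h5 := Finset.mem_erase.1 hz
    rcases Finset.mem_insert.1 h5.2 with h6 | h6
    · exact Finset.mem_singleton.2 h6
    · exact absurd (Finset.mem_singleton.1 h6) h5.1
  have g1 := good al hal
  have g2 := good al' hal'
  have f1 := (Finset.mem_filter.1 hal).2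
  have f2 := (Finset.mem_filter.1 hal').2
  have m1 : ε₁ ∈ B1 := by rw [hε₁]; simp
  have m2 : ε₂ ∈ B2 := by rw [hε₂]; simp
  refine ⟨al, al', ε₁, ε₂, hne, ?_, hAeq, f1.1, f2.1, g1.2.2.1.trans k1, g2.2.2.1.trans k2,
    (Finset.mem_filter.1 m1).2, f1.2, f2.2, g1.2.2.2.trans k1, g2.2.2.2.trans k2,
    (Finset.mem_filter.1 m2).2⟩
  rw [hPU, hGA, hAeq, hε₁, hε₂]
  ext z
  simp only [Finset.mem_union, Finset.mem_insert, Finset.mem_singleton]
  tauto

end Pool.Agent.Lib.MP_03175e_co
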