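import Pool.Agent.Lib.MP_03175e_co.R10
import Pool.Agent.Lib.MP_03175e_co.F09a

/-!
Row R12: a vertex of type `T1` between two problem vertices is reducible (paper section 7, (P4)).
-/

namespace Pool.Agent.Lib.MP_03175e_co

open Finset Classical

variable {V : Type} [Fintype V] {G : SimpleGraph V} {L : V → Finset ℕ}

/-- Centre `t`, `Λ = {w₁, w₂}`, `nb G t = {w₁, w₂, z}`, `nb G z = {t, y}`, `StarOK` by `starOK_prob`.
`(L t).card = 5`, `(L z).card = 4`: choose `ε ∈ L t \ L z`; `a v = {ε}` if `v` is adjacent to `w₁` or to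
`w₂` and `∅` otherwise (`w_i` is in the star, so `ha` holds). `P = L t \ {φ y}` (at least 4), `A = L z \ κ y`
(at least 2), `O_i al = Comp (nb G w_i) t (PP …) (OO …) al ⊆ OO … t t w_i al` (`star_in`). If
`al ∈ P`, `c_i ∈ O_i al`, `g ∈ A.erase al` are not all equal then CF holds at `t` (three neighbours)
and `star_top` gives a contradiction. So `p4_choice` applies (`rev_comp`, first part, for its
hypotheses; `t` is not of type `T2`). The second part of `rev_comp` gives `b_i ∈ YN G w_i` outside the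
star with `φ b_i = ε_i`, so `ε_i ≠ ε`. As `A.card = 2`, `(κ y).card ≤ 2`, `(L z).card = 4`: `κ y ⊆ L z`,
`φ y ∈ L z`; `al, al' ∈ A ⊆ L z`; `L t ⊆ {al, al', ε₁, ε₂, φ y}`: contradiction to the choice of `ε`. -/
theorem t1_prob (h : MinCE G L) {t w₁ w₂ : V} (ht : IsT1 G t) (hw : w₁ ≠ w₂)
    (h1 : Prob G w₁ t) (h2 : Prob G w₂ t) : False := by
  have F : Facts G L := h.facts
  have hd : dg G t = 3 := ht.1
  have hS : StarOK G t {w₁, w₂} := starOK_prob (by omega) (by
    intro w hw'
    simp only [mem_insert, mem_singleton] at hw'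
    rcases hw' with rfl | rfl
    · exact h1
    · exact h2)
  have d1 : 4 ≤ dg G w₁ := h1.1
  have d2 : 4 ≤ dg G w₂ := h2.1
  have a1 : G.Adj w₁ t := h1.2.1
  have a2 : G.Adj w₂ t := h2.2.1
  obtain ⟨w, z, y, hnt, hnz, hZ, hcw, hcz, hwz, hct, hwt, hzt, hyt, hyz, -, d4w, dz, dy, -⟩ :=
    desc_T1 F (by omega) a1 ht
  have hww : w₂ = w := by
    have hm : w₂ ∈ nb G t := mem_nb.2 a2.symm
    rw [hnt] at hm
    simp only [mem_insert, mem_singleton] at hm
    rcases hm with e | e | e
    · exact absurd e.symm hw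
    · exact e
    · rw [e] at d2
      omega
  subst hww
  have hzt' : G.Adj t z := mem_nb.1 (by rw [hnt]; simp)
  have hzM : z ∈ M1 G t := by
    rw [M1, mem_filter]
    refine ⟨mem_nb.2 hzt', dz, ?_⟩
    intro m hm hmt
    rw [hnz] at hm
    simp only [mem_insert, mem_singleton] at hm
    rcases hm with e | e
    · exact absurd e hmt
    · rw [e]
      exact dy
  have cL : (L t).card = 5 := by rw [F.card, hd]
  have cz : (L z).card = 4 := by rw [F.card, dz]
  obtain ⟨ε, hεt, hεz⟩ : ∃ ε ∈ L t, ε ∉ L z := by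
    by_contra hcon
    push Not at hcon
    have := card_le_card (show L t ⊆ L z from hcon)
    omega
  have hm1 : w₁ ∈ ({w₁, w₂} : Finset V) := by simp
  have hm2 : w₂ ∈ ({w₁, w₂} : Finset V) := by simp
  obtain ⟨φ, κ, he, hφ⟩ := h.delete (X := star G t {w₁, w₂}) ⟨t, p_mem_star⟩ (star_iso F hS)
    (fun v => if G.Adj v w₁ ∨ G.Adj v w₂ then {ε} else ∅) (by
      intro v hv
      show (if G.Adj v w₁ ∨ G.Adj v w₂ then ({ε} : Finset ℕ) else ∅).card ≤ _
      split_ifs with hc
      · rw [card_singleton, Nat.succ_le_iff, card_pos]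
        rcases hc with hc | hc
        · exact ⟨w₁, mem_inter.2 ⟨mem_nb.2 hc, Λ_sub_star hm1⟩⟩
        · exact ⟨w₂, mem_inter.2 ⟨mem_nb.2 hc, Λ_sub_star hm2⟩⟩
      · simp)
  obtain ⟨y', hnz', hy't, hy'X, hK, hφκ, cκ, cA, hOz⟩ :=
    KO_M1 F hS he (x := t) (mem_insert_self _ _) hzM
  have hnT2 : ¬ IsT2 G t := by
    intro h'
    have e1 := ht.2
    have e2 := h'.2
    omega
  have r1 := rev_comp F hS he hm1 h1 hnT2
  have r2 := rev_comp F hS he hm2 h2 hnT2
  obtain ⟨al, al', ε₁, ε₂, hne, hP, hA, n1, n1', s1, s1', e1, n2, n2', s2, s2', e2⟩ :=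
    p4_choice (P := (L t).erase (φ y')) (A := L z \ κ y')
      (O₁ := Comp (nb G w₁) t (PP G L (star G t {w₁, w₂}) φ κ t w₁)
        (OO G L (star G t {w₁, w₂}) φ κ t w₁))
      (O₂ := Comp (nb G w₂) t (PP G L (star G t {w₁, w₂}) φ κ t w₂)
        (OO G L (star G t {w₁, w₂}) φ κ t w₂))
      (by
        have := pred_card_le_card_erase (s := L t) (a := φ y')
        omega) cA r1.1 r2.1 (by
        intro α hα c₁ hc₁ c₂ hc₂ g hg
        by_contra hcon
        have hα' := mem_erase.1 hα
        obtain ⟨e, ew1, ew2, ez⟩ : ∃ e : V → ℕ, e w₁ = c₁ ∧ e w₂ = c₂ ∧ e z = g :=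
          ⟨fun v => if v = w₁ then c₁ else if v = w₂ then c₂ else g, by simp,
            by simp [hw.symm], by simp [hcz.symm, hwz.symm]⟩
        have hKα : α ∉ KK G (star G t {w₁, w₂}) φ κ z := by
          rw [hK, mem_singleton]
          exact hα'.1
        apply star_top F hS he (α := α) (e := e) hα'.2
        · intro n hn
          rw [hnt] at hn
          simp only [mem_insert, mem_singleton] at hn
          rcases hn with hn | hn | hn
          · rw [hn, KO_L hS hm1]
            exact notMem_empty _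
          · rw [hn, KO_L hS hm2]
            exact notMem_empty _
          · rw [hn]
            exact hKα
        · intro n hn
          rw [hnt] at hn
          simp only [mem_insert, mem_singleton] at hn
          rcases hn with hn | hn | hn
          · rw [hn, ew1]
            exact star_in F hS he hm1 α hc₁
          · rw [hn, ew2]
            exact star_in F hS he hm2 α hc₂
          · rw [hn, ez]
            exact hOz α hKα hg
        · rw [hnt]
          apply G03_cf3
          rw [ew1, ew2, ez]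
          rintro ⟨q1, q2⟩
          exact hcon ⟨q1.trans q2, q2⟩)
  have k1 : ε₁ ≠ ε := by
    obtain ⟨b, hb, hbt, hbX, hφb⟩ := r1.2 al al' ε₁ hne n1 n1' s1 s1' e1
    intro heq
    simp only [YN, mem_filter, mem_nb] at hb
    apply hφ b hbX
    simp [hb.1.symm, hφb, heq]
  have k2 : ε₂ ≠ ε := by
    obtain ⟨b, hb, hbt, hbX, hφb⟩ := r2.2 al al' ε₂ hne n2 n2' s2 s2' e2
    intro heq
    simp only [YN, mem_filter, mem_nb] at hb
    apply hφ b hbX
    simp [hb.1.symm, hφb, heq]
  have cA2 : (L z \ κ y').card = 2 := by rw [hA]; exact card_pair hne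
  have hsub : κ y' ⊆ L z := by
    have q1 := card_sdiff_add_card_inter (L z) (κ y')
    have q2 : L z ∩ κ y' = κ y' := eq_of_subset_of_card_le inter_subset_right (by omega)
    rw [← q2]
    exact inter_subset_left
  have hal : al ∈ L z := (mem_sdiff.1 (show al ∈ L z \ κ y' by rw [hA]; simp)).1
  have hal' : al' ∈ L z := (mem_sdiff.1 (show al' ∈ L z \ κ y' by rw [hA]; simp)).1
  have hεP : ε ∈ (L t).erase (φ y') := mem_erase.2 ⟨fun q => hεz (q ▸ hsub hφκ), hεt⟩
  rw [hP] at hεP
  simp only [mem_insert, mem_singleton] at hεP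
  rcases hεP with q | q | q | q
  · exact hεz (q ▸ hal)
  · exact hεz (q ▸ hal')
  · exact k1 q.symm
  · exact k2 q.symm

end Pool.Agent.Lib.MP_03175e_co
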