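import Pool.Agent.Lib.MP_03175e_co.R13
import Pool.Agent.Lib.MP_03175e_co.R12
import Pool.Agent.Lib.MP_03175e_co.R11

/-!
Row D03: who pays whom (paper section 8).
-/

namespace Pool.Agent.Lib.MP_03175e_co

open Finset Classical

variable {V : Type} [Fintype V] {G : SimpleGraph V} {L : V → Finset ℕ}

private theorem D03_YN {x w : V} : w ∈ YN G x ↔ G.Adj x w ∧ 4 ≤ dg G w := by
  rw [YN, Finset.mem_filter, mem_nb]

private theorem D03_light_dg {x : V} (hx : Light G x) : 4 ≤ dg G x := by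
  rcases hx with hx | hx
  · exact hx.1
  · exact hx.1

private theorem D03_light_T1 {x : V} (hx : Light G x) : (T1N G x).card = 0 := by
  rcases hx with hx | hx
  · exact hx.2.1
  · exact hx.2.1

private theorem D03_two {A : Finset V} (hA : A.card = 2) :
    ∃ a ∈ A, ∃ b ∈ A, a ≠ b := by
  obtain ⟨a, b, hab, rfl⟩ := Finset.card_eq_two.1 hA
  exact ⟨a, by simp, b, by simp, hab⟩

/-- the first vertex of a `Thr3` is in `M3` -/
private theorem D03_mem_M3 {x v₁ v₂ v₃ y : V} (h : Thr3 G x v₁ v₂ v₃ y) : v₁ ∈ M3 G x := by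
  obtain ⟨h1, h2, h3, h4, d1, d2, d3, n2, n3, n4⟩ := h
  rw [M3, Finset.mem_filter, mem_nb]
  exact ⟨h1, d1, v₂, mem_nb.2 h2, n2, d2, v₃, mem_nb.2 h3, n3, d3⟩

/-- a vertex of degree 2 has at most one neighbour different from a given one -/
private theorem D03_uniq {v a b c : V} (hv : dg G v = 2) (ha : G.Adj v a) (hb : G.Adj v b)
    (hc : G.Adj v c) (hba : b ≠ a) (hca : c ≠ a) : b = c := by
  obtain ⟨y, hy, hay⟩ := exists_other ha.symm hv
  have hb' : b = a ∨ b = y := by
    have := mem_nb.2 hb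
    rwa [hy, Finset.mem_insert, Finset.mem_singleton] at this
  have hc' : c = a ∨ c = y := by
    have := mem_nb.2 hc
    rwa [hy, Finset.mem_insert, Finset.mem_singleton] at this
  rcases hb' with e | e
  · exact absurd e hba
  · rcases hc' with e' | e'
    · exact absurd e' hca
    · rw [e, e']

/-- `YN G t = {w₁, w₂}` (`F.t1`). If both are not heavy: `classify`. `Light G w_i` is impossible
(`T1N` empty, `t ∈ T1N G w_i`); so `Prob G w_i s` with `T1N G w_i = {s}`, `s = t`: `t1_prob`. -/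
theorem heavy_of_T1 (h : MinCE G L) (t : V) (ht : IsT1 G t) : ∃ w ∈ YN G t, Heavy G w := by
  by_contra hcon
  push Not at hcon
  have key : ∀ w ∈ YN G t, Prob G w t := by
    intro w hw
    obtain ⟨hadj, hdw⟩ := D03_YN.1 hw
    have htw : t ∈ T1N G w := by
      rw [T1N, Finset.mem_filter, mem_nb]
      exact ⟨hadj.symm, ht⟩
    rcases classify h hdw (hcon w hw) with hl | ⟨s, hP, ⟨-, h0⟩ | ⟨-, h1⟩⟩
    · have := D03_light_T1 hl
      rw [Finset.card_eq_zero] at this
      rw [this] at htw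
      simp at htw
    · rw [h0] at htw
      simp at htw
    · rw [h1, Finset.mem_singleton] at htw
      rw [htw]
      exact hP
  obtain ⟨w₁, hw₁, w₂, hw₂, hne⟩ := D03_two (h.facts.t1 t ht)
  exact t1_prob h ht hne (key w₁ hw₁) (key w₂ hw₂)

/-- Otherwise `classify` gives `Light G w` (`light_not_adj`) or `Prob G w x` (`Lam G w = {x}`,
`lightA_prob`). -/
theorem heavy_of_lightA (h : MinCE G L) {x w : V} (hx : LightA G x) (hw : x ∈ Lam G w)
    (h4 : 4 ≤ dg G w) : Heavy G w := by
  by_contra hcon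
  have hadj : G.Adj w x := by
    rw [Lam, Finset.mem_filter] at hw
    exact (D03_YN.1 hw.1).1
  rcases classify h h4 hcon with hl | ⟨s, hP, ⟨h1, -⟩ | ⟨h0, -⟩⟩
  · exact light_not_adj h (Or.inl hx) hl hadj.symm
  · rw [h1, Finset.mem_singleton] at hw
    rw [← hw] at hP
    exact lightA_prob h hx hP
  · rw [h0] at hw
    simp at hw

/-- A light vertex without 3-threads is in `Lam G w` for all its Y-neighbours. -/
theorem mem_Lam_of_M3 {x w : V} (hx : Light G x) (h3 : (M3 G x).card = 0)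
    (hw : w ∈ YN G x) : x ∈ Lam G w := by
  rw [Lam, Finset.mem_filter]
  refine ⟨D03_YN.2 ⟨(D03_YN.1 hw).1.symm, D03_light_dg hx⟩, hx, ?_⟩
  intro v₁ v₂ v₃ y ht
  have := D03_mem_M3 ht
  rw [Finset.card_eq_zero] at h3
  rw [h3] at this
  simp at this

/-- A light vertex has a Y-neighbour `w` with `x ∈ Lam G w`: clear if there is no 3-thread; type L6:
`YN G x = {w, w'}`, there is only one 3-thread from `x` (`M3 G x` has one element and the thread is
determined), with end `y`; if `y` were adjacent to `w` and `w'`: c4 `x w y w'` (`y ≠ x` by c4). -/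
theorem exists_payer (F : Facts G L) {x : V} (hx : Light G x) :
    ∃ w ∈ YN G x, x ∈ Lam G w := by
  by_cases h3 : (M3 G x).card = 0
  · have hY : 0 < (YN G x).card := by
      rcases hx with ⟨-, -, hx | hx | hx | hx⟩ | hx
      · omega
      · omega
      · omega
      · omega
      · have := hx.2.2.1
        omega
    obtain ⟨w, hw⟩ := Finset.card_pos.1 hY
    exact ⟨w, hw, mem_Lam_of_M3 hx h3 hw⟩
  · have h6 : (YN G x).card = 2 ∧ (M3 G x).card = 1 := by
      rcases hx with ⟨-, -, hx | hx | hx | hx⟩ | hx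
      · omega
      · omega
      · omega
      · omega
      · have := hx.2.2.2.2.2
        omega
    obtain ⟨w, hw, w', hw', hne⟩ := D03_two h6.1
    by_contra hcon
    push Not at hcon
    have key : ∀ w ∈ YN G x, ∃ v₁ v₂ v₃ y, Thr3 G x v₁ v₂ v₃ y ∧ G.Adj w y := by
      intro w hw
      by_contra hno
      push Not at hno
      apply hcon w hw
      rw [Lam, Finset.mem_filter]
      exact ⟨D03_YN.2 ⟨(D03_YN.1 hw).1.symm, D03_light_dg hx⟩, hx, hno⟩
    obtain ⟨v₁, v₂, v₃, y, ht, hwy⟩ := key w hw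
    obtain ⟨u₁, u₂, u₃, y', ht', hwy'⟩ := key w' hw'
    have e1 : v₁ = u₁ := by
      have a := D03_mem_M3 ht
      have b := D03_mem_M3 ht'
      obtain ⟨m, hm⟩ := Finset.card_eq_one.1 h6.2
      rw [hm, Finset.mem_singleton] at a b
      rw [a, b]
    subst e1
    obtain ⟨h1, h2, h3', h4, d1, d2, d3, n2, n3, n4⟩ := ht
    obtain ⟨-, k2, k3, k4, -, -, -, m2, m3, m4⟩ := ht'
    have e2 : v₂ = u₂ := D03_uniq d1 h1.symm h2 k2 n2 m2
    subst e2
    have e3 : v₃ = u₃ := D03_uniq d2 h2.symm h3' k3 n3 m3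
    subst e3
    have e4 : y = y' := D03_uniq d3 h3'.symm h4 k4 n4 m4
    subst e4
    have hxy : x ≠ y := by
      rintro rfl
      exact F.short.c4 x v₁ v₂ v₃ h1 h2 h3' h4 n2.symm n3.symm
    exact F.short.c4 x w y w' (D03_YN.1 hw).1 hwy hwy'.symm (D03_YN.1 hw').1.symm hxy hne

/-- Type L4: `YN G x = {w₁, w₂}`; if both are not heavy: `classify`, `light_not_adj`,
`Lam G w_i = {x}`, so `Prob G w_i x`: `light4_prob`. -/
theorem heavy_of_light4 (h : MinCE G L) {x : V} (hx : Light4 G x) :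
    ∃ w ∈ YN G x, Heavy G w ∧ x ∈ Lam G w := by
  have hM : (M3 G x).card = 0 := hx.2.2.2.2.2
  by_contra hcon
  push Not at hcon
  have key : ∀ w ∈ YN G x, Prob G w x := by
    intro w hw
    obtain ⟨hadj, hdw⟩ := D03_YN.1 hw
    have hL : x ∈ Lam G w := mem_Lam_of_M3 (Or.inr hx) hM hw
    have hH : ¬ Heavy G w := fun hH => hcon w hw hH hL
    rcases classify h hdw hH with hl | ⟨s, hP, ⟨h1, -⟩ | ⟨h0, -⟩⟩
    · exact (light_not_adj h (Or.inr hx) hl hadj).elim
    · rw [h1, Finset.mem_singleton] at hL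
      rw [hL]
      exact hP
    · rw [h0] at hL
      simp at hL
  obtain ⟨w₁, hw₁, w₂, hw₂, hne⟩ := D03_two hx.2.2.1
  exact light4_prob h hx hne (key w₁ hw₁) (key w₂ hw₂)

end Pool.Agent.Lib.MP_03175e_co
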