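import Pool.Agent.Lib.MP_03175e_co.D01
import Pool.Agent.Lib.MP_03175e_co.D02
import Pool.Agent.Lib.MP_03175e_co.D03

/-!
Row D04: conclusion for sparse graphs (paper sections 0, 8).
-/

namespace Pool.Agent.Lib.MP_03175e_co

open Finset Classical

/-- `2 e(S) < 3 |S|` for all nonempty `S` -/
def Sparse {V : Type} [Fintype V] (G : SimpleGraph V) : Prop :=
  ∀ S : Finset V, S.Nonempty → ∑ v ∈ S, (nb G v ∩ S).card < 3 * S.card

private theorem D04_fin_nonneg {V : Type} [Fintype V] {G : SimpleGraph V} {L : V → Finset ℕ}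
    (h : MinCE G L) {v : V} (hv : v ∈ SS G) : 0 ≤ fin G v := by
  have F := h.facts
  have hd := F.deg2 v
  rcases Nat.lt_or_ge (dg G v) 3 with h3 | h3
  · exact fin_two F hv (by omega)
  rcases Nat.lt_or_ge (dg G v) 4 with h4 | h4
  · exact fin_three F (heavy_of_T1 h) (by omega)
  by_cases hH : Heavy G v
  · exact fin_heavy F h4 hH
  rcases classify h h4 hH with hl | ⟨s, hP, hs⟩
  · by_cases h5 : (YN G v).card = 2 ∧ (M1 G v).card = 0
    · refine fin_light2 F hH hl fun w hw => ?_
      have hM3 : (M3 G v).card = 0 := by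
        rcases hl with hl | hl
        · rcases hl.2.2 with h1 | h1 | h1 | h1
          · omega
          · omega
          · exact h1.2.2.2
          · omega
        · have := hl.2.2.2.2
          omega
      have hLam : v ∈ Lam G w := mem_Lam_of_M3 hl hM3 hw
      refine ⟨?_, hLam⟩
      have hA : LightA G v := by
        rcases hl with hl | hl
        · exact hl
        · have := hl.2.2.2.2.1
          omega
      refine heavy_of_lightA h hA hLam ?_
      simp only [YN, mem_filter] at hw
      exact hw.2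
    · refine fin_light1 F hH hl h5 ?_
      rcases hl with hl | hl
      · obtain ⟨w, hw, hLam⟩ := exists_payer F (x := v) (Or.inl hl)
        have h4w : 4 ≤ dg G w := by
          simp only [YN, mem_filter] at hw
          exact hw.2
        exact ⟨w, heavy_of_lightA h hl hLam h4w, h4w, hLam⟩
      · obtain ⟨w, hw, hHw, hLam⟩ := heavy_of_light4 h hl
        have h4w : 4 ≤ dg G w := by
          simp only [YN, mem_filter] at hw
          exact hw.2
        exact ⟨w, hHw, h4w, hLam⟩
  · refine fin_prob F h4 hH hP ?_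
    rcases hs with hs | hs
    · left
      have : s ∈ Lam G v := by rw [hs.1]; exact mem_singleton_self s
      simp only [Lam, mem_filter] at this
      exact this.1
    · right
      rw [hs.2]
      exact mem_singleton_self s

/-- All final charges are nonnegative, so `6 * (SS G).card ≤ 2 * ∑ (nb G v ∩ SS G).card` by
`sum_fin`. `SS G` is nonempty: otherwise every vertex is an inner vertex of a 3-thread, but the
vertex `x` of a `Thr3` has degree at least 3 or one obtains four consecutive vertices of degree 2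
(`F.four`); if `V` is empty then `h.none` fails. Contradiction to `hsp (SS G)`. -/
theorem no_minCE {V : Type} [Fintype V] {G : SimpleGraph V} {L : V → Finset ℕ}
    (h : MinCE G L) (hsp : Sparse G) : False := by
  have F := h.facts
  have hne : (SS G).Nonempty := by
    by_contra hcon
    rw [not_nonempty_iff_eq_empty] at hcon
    have hV : ∃ v : V, True := by
      by_contra hV
      push Not at hV
      refine h.none (fun _ => 0) ⟨?_, ?_, ?_⟩
      · intro v; exact (hV v).elim
      · intro v; exact (hV v).elim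
      · intro v; exact (hV v).elim
    obtain ⟨v, -⟩ := hV
    have hv : v ∉ SS G := by rw [hcon]; exact notMem_empty v
    simp only [SS, mem_filter, mem_univ, true_and, not_not] at hv
    obtain ⟨x, v₁, v₂, v₃, y, hT, -⟩ := hv
    obtain ⟨a1, a2, a3, a4, d1, d2, d3, n1, n2, n3⟩ := hT
    have hx2 := F.deg2 x
    rcases Nat.lt_or_ge (dg G x) 3 with h3 | h3
    · exact F.four x v₁ v₂ v₃ a1 a2 a3 (Ne.symm n1) (Ne.symm n2) (by omega) d1 d2 d3
    · have := mem_SS_of_three (G := G) h3
      rw [hcon] at this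
      exact notMem_empty _ this
  have h1 : 0 ≤ ∑ v ∈ SS G, fin G v := Finset.sum_nonneg fun v hv => D04_fin_nonneg h hv
  rw [sum_fin] at h1
  have h2 := hsp (SS G) hne
  have h3 : ∑ v ∈ SS G, (2 * ((nb G v ∩ SS G).card : ℤ) - 6) =
      2 * ((∑ v ∈ SS G, (nb G v ∩ SS G).card : ℕ) : ℤ) - 6 * ((SS G).card : ℤ) := by
    rw [Finset.sum_sub_distrib, Finset.sum_const, nsmul_eq_mul, ← Finset.mul_sum]
    push_cast
    ring
  rw [h3] at h1
  have h4 : ((∑ v ∈ SS G, (nb G v ∩ SS G).card : ℕ) : ℤ) < 3 * ((SS G).card : ℤ) := by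
    exact_mod_cast h2
  linarith

/-- Induced subgraphs: transfer of the sets of neighbours. -/
private theorem D04_nb {V W : Type} [Fintype V] [Fintype W] {G : SimpleGraph V}
    {H : SimpleGraph W} {f : W → V}
    (hadj : ∀ a b, H.Adj a b ↔ G.Adj (f a) (f b)) {X : Finset V}
    (hX : ∀ v, v ∉ X ↔ ∃ w, f w = v) (w : W) : (nb H w).image f = nb G (f w) \ X := by
  ext v
  simp only [nb, mem_image, mem_filter, mem_univ, true_and, mem_sdiff]
  constructor
  · rintro ⟨u, hu, rfl⟩
    exact ⟨(hadj _ _).1 hu, (hX _).2 ⟨u, rfl⟩⟩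
  · rintro ⟨h1, h2⟩
    obtain ⟨u, rfl⟩ := (hX _).1 h2
    exact ⟨u, (hadj _ _).2 h1, rfl⟩

private theorem D04_sparse {V W : Type} [Fintype V] [Fintype W] {G : SimpleGraph V}
    {H : SimpleGraph W} {f : W → V} (hf : Function.Injective f)
    (hadj : ∀ a b, H.Adj a b ↔ G.Adj (f a) (f b)) (hsp : Sparse G) : Sparse H := by
  intro S hS
  have h1 := hsp (S.image f) (hS.image f)
  rw [card_image_of_injective _ hf, sum_image (fun a _ b _ h => hf h)] at h1
  refine lt_of_le_of_lt (Finset.sum_le_sum fun v _ => ?_) h1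
  rw [← card_image_of_injective (nb H v ∩ S) hf]
  apply card_le_card
  intro x hx
  rw [mem_image] at hx
  obtain ⟨u, hu, rfl⟩ := hx
  rw [mem_inter] at hu ⊢
  refine ⟨?_, mem_image_of_mem f hu.2⟩
  have := hu.1
  simp only [nb, mem_filter, mem_univ, true_and] at this ⊢
  exact (hadj _ _).1 this

private theorem D04_noShort {V W : Type} [Fintype V] [Fintype W] {G : SimpleGraph V}
    {H : SimpleGraph W} {f : W → V} (hf : Function.Injective f)
    (hadj : ∀ a b, H.Adj a b ↔ G.Adj (f a) (f b)) (hs : NoShort G) : NoShort H where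
  c3 := fun a b c h1 h2 h3 => hs.c3 _ _ _ ((hadj _ _).1 h1) ((hadj _ _).1 h2) ((hadj _ _).1 h3)
  c4 := fun a b c d h1 h2 h3 h4 n1 n2 => hs.c4 _ _ _ _ ((hadj _ _).1 h1) ((hadj _ _).1 h2)
    ((hadj _ _).1 h3) ((hadj _ _).1 h4) (fun h => n1 (hf h)) (fun h => n2 (hf h))
  c5 := fun a b c d e h1 h2 h3 h4 h5 => hs.c5 _ _ _ _ _ ((hadj _ _).1 h1) ((hadj _ _).1 h2)
    ((hadj _ _).1 h3) ((hadj _ _).1 h4) ((hadj _ _).1 h5)

private theorem D04_good {V W : Type} [Fintype V] [Fintype W] {G : SimpleGraph V}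
    {H : SimpleGraph W} {f : W → V} (hf : Function.Injective f)
    (hadj : ∀ a b, H.Adj a b ↔ G.Adj (f a) (f b)) {X : Finset V}
    (hX : ∀ v, v ∉ X ↔ ∃ w, f w = v) {L : V → Finset ℕ} {ψ : W → ℕ}
    (hψ : Good H (fun w => L (f w)) ∅ ψ) : ∃ φ, Good G L X φ := by
  obtain ⟨g1, g2, g3⟩ := hψ
  obtain ⟨φ, hφ⟩ : ∃ φ : V → ℕ, ∀ w, φ (f w) = ψ w :=
    ⟨Function.extend f ψ 0, fun w => hf.extend_apply ψ 0 w⟩
  refine ⟨φ, ?_, ?_, ?_⟩
  · intro v hv
    obtain ⟨w, rfl⟩ := (hX v).1 hv
    rw [hφ]
    exact g1 w (notMem_empty w)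
  · intro u v hu hv huv
    obtain ⟨a, rfl⟩ := (hX u).1 hu
    obtain ⟨b, rfl⟩ := (hX v).1 hv
    rw [hφ, hφ]
    exact g2 a b (notMem_empty a) (notMem_empty b) ((hadj _ _).2 huv)
  · intro v hv hne
    obtain ⟨w, rfl⟩ := (hX v).1 hv
    rw [← D04_nb hadj hX w] at hne ⊢
    have h1 : (nb H w \ ∅).Nonempty := by
      rw [sdiff_empty]
      exact image_nonempty.1 hne
    obtain ⟨u, hu, huu⟩ := g3 w (notMem_empty w) h1
    rw [sdiff_empty] at hu huu
    refine ⟨f u, mem_image_of_mem f hu, ?_⟩
    intro x hx hxu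
    rw [mem_image] at hx
    obtain ⟨y, hy, rfl⟩ := hx
    rw [hφ, hφ] at hxu
    rw [huu y hy hxu]

private theorem D04_aux : ∀ (n : ℕ) (V : Type) [Fintype V] (G : SimpleGraph V),
    Fintype.card V = n → NoShort G → Sparse G → ∀ L : V → Finset ℕ,
      (∀ v, dg G v + 2 ≤ (L v).card) → ∃ φ, Good G L ∅ φ := by
  intro n
  induction n using Nat.strong_induction_on with
  | _ n ih =>
    intro V _ G hn hs hsp L hL
    choose L' hL'1 hL'2 using fun v => Finset.exists_subset_card_eq (hL v)
    by_contra hcon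
    push Not at hcon
    have hnone : ∀ φ, ¬ Good G L' ∅ φ := by
      intro φ hφ
      exact hcon φ ⟨fun v hv => hL'1 v (hφ.1 v hv), hφ.2.1, hφ.2.2⟩
    refine no_minCE (G := G) (L := L') ⟨hs, hL'2, hnone, ?_⟩ hsp
    intro X hXne L'' hL''
    let W := {v : V // v ∉ X}
    let f : W → V := Subtype.val
    have hf : Function.Injective f := Subtype.val_injective
    let H : SimpleGraph W := G.comap f
    have hadj : ∀ a b, H.Adj a b ↔ G.Adj (f a) (f b) := fun a b => SimpleGraph.comap_adj
    have hX : ∀ v, v ∉ X ↔ ∃ w, f w = v := by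
      intro v
      constructor
      · intro hv; exact ⟨⟨v, hv⟩, rfl⟩
      · rintro ⟨w, rfl⟩; exact w.2
    have hcard : Fintype.card W < n := by
      rw [← hn]
      obtain ⟨x, hx⟩ := hXne
      exact Fintype.card_lt_of_injective_of_notMem f hf (b := x) (by
        rintro ⟨w, hw⟩
        exact ((hX x).2 ⟨w, hw⟩) hx)
    obtain ⟨ψ, hψ⟩ := ih (Fintype.card W) hcard W H rfl (D04_noShort hf hadj hs)
      (D04_sparse hf hadj hsp) (fun w => L'' (f w)) (by
        intro w
        have h1 := hL'' (f w) ((hX _).2 ⟨w, rfl⟩)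
        rw [← D04_nb hadj hX w, card_image_of_injective _ hf] at h1
        exact h1)
    exact D04_good hf hadj hX hψ

/-- Strong induction on `Fintype.card V`. First shrink the lists to `dg G v + 2` colours. If there
is no good colouring then `MinCE G L` holds: `ih` for a nonempty `X` is the induction hypothesis for
the graph induced on `{v // v ∉ X}` (`G.comap Subtype.val` or `G.induce`), which satisfies `NoShort`
and `Sparse` (sums over a finset of the subtype are sums over its image). Contradiction to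
`no_minCE`. -/
theorem main_sparse {V : Type} [Fintype V] {G : SimpleGraph V} (hs : NoShort G)
    (hsp : Sparse G) (L : V → Finset ℕ) (hL : ∀ v, dg G v + 2 ≤ (L v).card) :
    ∃ φ, Good G L ∅ φ :=
  D04_aux _ V G rfl hs hsp L hL

end Pool.Agent.Lib.MP_03175e_co
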