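import Mathlib

/-!
# Definitions for MP_03175e_co (PCF (degree+2)-choosability of planar graphs of girth six)
-/

namespace Pool.Agent.Lib.MP_03175e_co

open Finset Classical

variable {V : Type}

/-- Some colour occurs on exactly one element of `A`. -/
def CF (A : Finset V) (e : V → ℕ) : Prop := ∃ u ∈ A, ∀ v ∈ A, e v = e u → v = u

/-- Completions: colours `α ∈ P`, `α ≠ cw` of a vertex with neighbourhood `N`, such that the
neighbours can be coloured from the sets `O n α`, the neighbour `q` by `cw`, with a unique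
colour. -/
noncomputable def Comp (N : Finset V) (q : V) (P : Finset ℕ) (O : V → ℕ → Finset ℕ) (cw : ℕ) :
    Finset ℕ :=
  (P.erase cw).filter fun α => ∃ e : V → ℕ, e q = cw ∧ (∀ n ∈ N.erase q, e n ∈ O n α) ∧ CF N e

/-- An object of cost `0` which is tight for at most two colours. -/
def LamLike (O : ℕ → Finset ℕ) : Prop :=
  (∀ α, (O α).Nonempty) ∧ ∃ T : Finset ℕ, T.card ≤ 2 ∧ ∀ α, α ∉ T → 2 ≤ (O α).card

section graph

variable [Fintype V] (G : SimpleGraph V) (L : V → Finset ℕ)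

/-- the set of neighbours -/
noncomputable def nb (v : V) : Finset V := Finset.univ.filter (G.Adj v)

/-- the degree -/
noncomputable def dg (v : V) : ℕ := (nb G v).card

/-- No cycles of length 3, 4, 5 (`c5`: no closed walks of length 5). -/
structure NoShort : Prop where
  c3 : ∀ a b c, G.Adj a b → G.Adj b c → G.Adj c a → False
  c4 : ∀ a b c d, G.Adj a b → G.Adj b c → G.Adj c d → G.Adj d a → a ≠ c → b ≠ d → False
  c5 : ∀ a b c d e, G.Adj a b → G.Adj b c → G.Adj c d → G.Adj d e → G.Adj e a → False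

/-- `φ` is a PCF colouring of `G - X` from the lists `L`. -/
def Good (X : Finset V) (φ : V → ℕ) : Prop :=
  (∀ v, v ∉ X → φ v ∈ L v) ∧ (∀ u v, u ∉ X → v ∉ X → G.Adj u v → φ u ≠ φ v) ∧
  ∀ v, v ∉ X → (nb G v \ X).Nonempty → CF (nb G v \ X) φ

/-- A minimal counterexample. -/
structure MinCE : Prop where
  short : NoShort G
  card : ∀ v, (L v).card = dg G v + 2
  none : ∀ φ, ¬ Good G L ∅ φ
  ih : ∀ X : Finset V, X.Nonempty → ∀ L' : V → Finset ℕ,
    (∀ v, v ∉ X → (nb G v \ X).card + 2 ≤ (L' v).card) → ∃ φ, Good G L' X φ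

/-- All constraints of the vertices of `B` hold for `ψ`. -/
def Val (X : Finset V) (κ : V → Finset ℕ) (B : Finset V) (ψ : V → ℕ) : Prop :=
  ∀ b ∈ B, ψ b ∈ L b ∧ (∀ n ∈ nb G b, ψ b ≠ ψ n ∧ (n ∉ X → ψ b ∉ κ n)) ∧ CF (nb G b) ψ

/-- The data after deleting `X`: a colouring `φ` of `G - X` and sets `κ v` of colours which the
neighbours in `X` of `v` have to avoid. -/
structure Ext (X : Finset V) (φ : V → ℕ) (κ : V → Finset ℕ) : Prop where
  κmem : ∀ v, v ∉ X → φ v ∈ κ v
  κcard : ∀ v, v ∉ X → (κ v).card ≤ 2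
  κcard1 : ∀ v, v ∉ X → dg G v = 3 → (nb G v ∩ X).card = 1 → (κ v).card = 1
  fin : ∀ ψ : V → ℕ, (∀ v, v ∉ X → ψ v = φ v) → Val G L X κ X ψ → False

/-- `B` is a branch with root `r` at the vertex `q`. -/
structure Branch (X B : Finset V) (q r : V) : Prop where
  root : r ∈ B
  adj : G.Adj q r
  sub : B ⊆ X
  qX : q ∈ X
  qB : q ∉ B
  closed : ∀ b ∈ B, ∀ n ∈ nb G b, n ∈ X → n ∈ B ∨ n = q

/-- possible colours of the root `r` of the branch `B` when `q` has colour `c` -/
noncomputable def Opt (X : Finset V) (φ : V → ℕ) (κ : V → Finset ℕ) (B : Finset V) (q r : V)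
    (c : ℕ) : Finset ℕ :=
  (L r).filter fun e => ∃ ψ : V → ℕ, (∀ v, v ∉ X → ψ v = φ v) ∧ ψ q = c ∧ ψ r = e ∧
    Val G L X κ B ψ

/-- neighbours of degree two -/
noncomputable def ZN (v : V) : Finset V := (nb G v).filter fun z => dg G z = 2

/-- vertex of degree 3 without neighbour of degree 2 -/
def IsT0 (v : V) : Prop := dg G v = 3 ∧ (ZN G v).card = 0
/-- vertex of degree 3 with exactly one neighbour of degree 2 -/
def IsT1 (v : V) : Prop := dg G v = 3 ∧ (ZN G v).card = 1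
/-- vertex of degree 3 with exactly two neighbours of degree 2 -/
def IsT2 (v : V) : Prop := dg G v = 3 ∧ (ZN G v).card = 2

/-- neighbours of degree at least 4 -/
noncomputable def YN (v : V) : Finset V := (nb G v).filter fun n => 4 ≤ dg G n
/-- neighbours of type `T0` -/
noncomputable def T0N (v : V) : Finset V := (nb G v).filter fun n => IsT0 G n
/-- neighbours of type `T1` -/
noncomputable def T1N (v : V) : Finset V := (nb G v).filter fun n => IsT1 G n
/-- neighbours of type `T2` -/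
noncomputable def T2N (v : V) : Finset V := (nb G v).filter fun n => IsT2 G n
/-- first vertices of the 1-threads at `v` -/
noncomputable def M1 (v : V) : Finset V :=
  (nb G v).filter fun n => dg G n = 2 ∧ ∀ m ∈ nb G n, m ≠ v → 3 ≤ dg G m
/-- first vertices of the 2-threads at `v` -/
noncomputable def M2 (v : V) : Finset V :=
  (nb G v).filter fun n => dg G n = 2 ∧ ∃ m ∈ nb G n, m ≠ v ∧ dg G m = 2 ∧
    ∀ m' ∈ nb G m, m' ≠ n → 3 ≤ dg G m'
/-- first vertices of the 3-threads at `v` -/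
noncomputable def M3 (v : V) : Finset V :=
  (nb G v).filter fun n => dg G n = 2 ∧ ∃ m ∈ nb G n, m ≠ v ∧ dg G m = 2 ∧
    ∃ m' ∈ nb G m, m' ≠ n ∧ dg G m' = 2

/-- the vertices of degree two of the thread at `c` that starts with `n` -/
noncomputable def thr (c n : V) : Finset V :=
  Finset.univ.filter fun v => v = n ∨ (dg G v = 2 ∧ G.Adj n v ∧ v ≠ c) ∨
    (dg G v = 2 ∧ ∃ m, dg G m = 2 ∧ G.Adj n m ∧ m ≠ c ∧ G.Adj m v ∧ v ≠ n)

/-- the branch of the object `n` at the centre `c` -/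
noncomputable def br (c n : V) : Finset V :=
  if dg G n = 2 then thr G c n else insert n (ZN G n)

/-- the objects at the centre `c` (except `p`): threads and neighbours of type `T1`, `T2` -/
noncomputable def ob (p c : V) : Finset V :=
  ((nb G c).erase p).filter fun n => dg G n = 2 ∨ IsT1 G n ∨ IsT2 G n

/-- the branch of a second centre `x` of the star with centre `p` -/
noncomputable def brL (p x : V) : Finset V := insert x ((ob G p x).biUnion (br G x))

/-- the star with centre `p` and second centres `Λ` -/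
noncomputable def star (p : V) (Λ : Finset V) : Finset V :=
  insert p ((ob G p p).biUnion (br G p) ∪ Λ.biUnion (brL G p))

/-- `x v₁ v₂ v₃ y` is a path whose inner vertices have degree two -/
def Thr3 (x v₁ v₂ v₃ y : V) : Prop :=
  G.Adj x v₁ ∧ G.Adj v₁ v₂ ∧ G.Adj v₂ v₃ ∧ G.Adj v₃ y ∧ dg G v₁ = 2 ∧ dg G v₂ = 2 ∧
    dg G v₃ = 2 ∧ v₂ ≠ x ∧ v₃ ≠ v₁ ∧ y ≠ v₂

/-- the conditions under which the star `star G p Λ` is used -/
structure StarOK (p : V) (Λ : Finset V) : Prop where
  dgp : 3 ≤ dg G p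
  sub : ∀ x ∈ Λ, G.Adj p x ∧ 4 ≤ dg G x
  noT1 : ∀ x ∈ Λ, ∀ n ∈ nb G x, IsT1 G n → n = p
  thr3 : ∀ x ∈ Λ, ∀ v₁ v₂ v₃ y, Thr3 G x v₁ v₂ v₃ y → y ∉ Λ

/-- colours killed by the neighbour `n` of a centre -/
noncomputable def KK (X : Finset V) (φ : V → ℕ) (κ : V → Finset ℕ) (n : V) : Finset ℕ :=
  if n ∉ X then κ n else if dg G n = 2 then (nb G n \ X).image φ else ∅

/-- possible colours of the neighbour `n` of the centre `x` of the star with centre `p`, when `x`
has colour `α` -/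
noncomputable def OO (X : Finset V) (φ : V → ℕ) (κ : V → Finset ℕ) (p x n : V) (α : ℕ) :
    Finset ℕ :=
  if n ∉ X then {φ n} else
    if 4 ≤ dg G n then Opt G L X φ κ (brL G p n) x n α else Opt G L X φ κ (br G x n) x n α

/-- colours for the centre `x` which are not killed by its neighbours other than `p` -/
noncomputable def PP (X : Finset V) (φ : V → ℕ) (κ : V → Finset ℕ) (p x : V) : Finset ℕ :=
  (L x).filter fun α => ∀ n ∈ (nb G x).erase p, α ∉ KK G X φ κ n

/-- light vertices (numbers: Y-neighbours, T0, T1, T2, 1-, 2-, 3-threads) -/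
def LightA (x : V) : Prop :=
  4 ≤ dg G x ∧ (T1N G x).card = 0 ∧ (
    -- L1, L2
    ((YN G x).card = 1 ∧ (T0N G x).card = 0 ∧ (M1 G x).card = 3 ∧ (M3 G x).card = 0 ∧
      (M2 G x).card + (T2N G x).card ≤ 3) ∨
    -- L3
    ((YN G x).card = 1 ∧ (T0N G x).card = 1 ∧ (M1 G x).card = 1 ∧ (M3 G x).card = 0) ∨
    -- L5
    ((YN G x).card = 2 ∧ (T0N G x).card = 0 ∧ (M1 G x).card = 0 ∧ (M3 G x).card = 0) ∨
    -- L6
    ((YN G x).card = 2 ∧ (T0N G x).card = 0 ∧ (M1 G x).card = 1 ∧ (M3 G x).card = 1 ∧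
      (M2 G x).card + (T2N G x).card = 0))

/-- light vertices of type L4 -/
def Light4 (x : V) : Prop :=
  4 ≤ dg G x ∧ (T1N G x).card = 0 ∧ (YN G x).card = 2 ∧ (T0N G x).card = 0 ∧
    (M1 G x).card = 1 ∧ (M3 G x).card = 0

/-- light vertices -/
def Light (x : V) : Prop := LightA G x ∨ Light4 G x

/-- problem vertices `w` with special neighbour `s` -/
def Prob (w s : V) : Prop :=
  4 ≤ dg G w ∧ G.Adj w s ∧ (T0N G w).card = 0 ∧ ((T1N G w).erase s).card = 0 ∧
    (M3 G w).card = 0 ∧ (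
    -- Q', QT, QQ
    (((YN G w).erase s).card = 1 ∧ (M1 G w).card = 2 ∧ (M2 G w).card + (T2N G w).card ≤ 1) ∨
    -- L5', L5t
    (((YN G w).erase s).card = 2 ∧ (M1 G w).card = 0))

/-- the light neighbours of `w` that `w` has to pay -/
noncomputable def Lam (w : V) : Finset V :=
  (YN G w).filter fun x => Light G x ∧ ∀ v₁ v₂ v₃ y, Thr3 G x v₁ v₂ v₃ y → ¬ G.Adj w y

/-- heavy vertices -/
def Heavy (w : V) : Prop :=
  6 ≤ 2 * (YN G w \ Lam G w).card + 2 * (T0N G w).card + (Lam G w).card + (T1N G w).card +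
    (M1 G w).card

/-- The basic structural facts about a minimal counterexample (paper section 3). -/
structure Facts0 : Prop where
  short : NoShort G
  deg2 : ∀ v, 2 ≤ dg G v
  four : ∀ a b c d, G.Adj a b → G.Adj b c → G.Adj c d → a ≠ c → b ≠ d → dg G a = 2 →
    dg G b = 2 → dg G c = 2 → dg G d = 2 → False
  thr : ∀ z z' y, G.Adj z z' → dg G z = 2 → dg G z' = 2 → G.Adj z' y → y ≠ z → dg G y ≠ 2 →
    4 ≤ dg G y

/-- The structural facts about a minimal counterexample (paper section 3). -/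
structure Facts : Prop extends Facts0 G where
  card : ∀ v, (L v).card = dg G v + 2
  t1 : ∀ t, IsT1 G t → (YN G t).card = 2
  t2 : ∀ t, IsT2 G t → (YN G t).card = 1
  t2end : ∀ t, IsT2 G t → ∀ z ∈ ZN G t, ∀ m ∈ nb G z, m ≠ t → 4 ≤ dg G m
  t2list : ∀ t, IsT2 G t → ∃ D : Finset ℕ, D.card = 4 ∧ D ⊆ L t ∧ ∀ z ∈ ZN G t, L z = D
  t3 : ∀ t, dg G t = 3 → (ZN G t).card ≤ 2
  pre : ∀ y, 4 ≤ dg G y → YN G y = ∅ →
    4 * (ZN G y).card + (dg G y - (ZN G y).card) * (dg G y + 2) < 4 * (dg G y + 2) → False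
  li : ∀ v, 4 ≤ dg G v → ((nb G v).filter fun n => 3 ≤ dg G n).card = 1 →
    (∀ n ∈ M1 G v, ∀ m ∈ nb G n, m ≠ v → dg G m = 3) → False

end graph

end Pool.Agent.Lib.MP_03175e_co
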