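import Pool.Agent.Lib.MP_03175e_co.Defs

/-!
E01: short cycles and the girth.
-/

namespace Pool.Agent.Lib.MP_03175e_co

open Finset Classical

variable {V : Type}

theorem NoShort.of_egirth [Fintype V] {G : SimpleGraph V} (h : 6 ≤ G.egirth) : NoShort G := by
  have key : ∀ {v : V} (w : G.Walk v v), w.IsCycle → 6 ≤ w.length := by
    intro v w hw
    have h1 := (SimpleGraph.le_egirth.1 h) v w hw
    exact_mod_cast h1
  have c3 : ∀ a b c, G.Adj a b → G.Adj b c → G.Adj c a → False := by
    intro a b c hab hbc hca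
    have hw : (SimpleGraph.Walk.cons hab (SimpleGraph.Walk.cons hbc
        (SimpleGraph.Walk.cons hca SimpleGraph.Walk.nil))).IsCycle := by
      simp [SimpleGraph.Walk.isCycle_def, SimpleGraph.Walk.isTrail_def, hab.ne, hab.ne.symm,
        hbc.ne, hbc.ne.symm, hca.ne, hca.ne.symm]
    have := key _ hw
    simp at this
  have c4 : ∀ a b c d, G.Adj a b → G.Adj b c → G.Adj c d → G.Adj d a → a ≠ c → b ≠ d →
      False := by
    intro a b c d hab hbc hcd hda hac hbd
    have hw : (SimpleGraph.Walk.cons hab (SimpleGraph.Walk.cons hbc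
        (SimpleGraph.Walk.cons hcd (SimpleGraph.Walk.cons hda SimpleGraph.Walk.nil)))).IsCycle := by
      simp [SimpleGraph.Walk.isCycle_def, SimpleGraph.Walk.isTrail_def, hab.ne, hab.ne.symm,
        hbc.ne, hbc.ne.symm, hcd.ne, hcd.ne.symm, hda.ne, hda.ne.symm, hac, hac.symm, hbd,
        hbd.symm]
    have := key _ hw
    simp at this
  refine ⟨c3, c4, ?_⟩
  intro a b c d e hab hbc hcd hde hea
  by_cases h1 : a = c
  · subst h1
    exact c3 _ _ _ hcd hde hea
  by_cases h2 : b = d
  · subst h2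
    exact c3 _ _ _ hab hde hea
  by_cases h3 : c = e
  · subst h3
    exact c3 _ _ _ hab hbc hea
  by_cases h4 : d = a
  · subst h4
    exact c3 _ _ _ hab hbc hcd
  by_cases h5 : e = b
  · subst h5
    exact c3 _ _ _ hbc hcd hde
  have hw : (SimpleGraph.Walk.cons hab (SimpleGraph.Walk.cons hbc
      (SimpleGraph.Walk.cons hcd (SimpleGraph.Walk.cons hde (SimpleGraph.Walk.cons hea
        SimpleGraph.Walk.nil))))).IsCycle := by
    simp [SimpleGraph.Walk.isCycle_def, SimpleGraph.Walk.isTrail_def, hab.ne, hab.ne.symm,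
      hbc.ne, hbc.ne.symm, hcd.ne, hcd.ne.symm, hde.ne, hde.ne.symm, hea.ne, hea.ne.symm, h1,
      h2, h3, h4, h5, Ne.symm h1, Ne.symm h2, Ne.symm h3, Ne.symm h4, Ne.symm h5]
  have := key _ hw
  simp at this

end Pool.Agent.Lib.MP_03175e_co
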