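import Pool.Agent.Lib.MP_03175e_co.Defs

/-!
Proper conflict-free (degree+k)-choosability, and the passage from arbitrary colours to natural
numbers.
-/

namespace Pool.Agent.Lib.MP_03175e_co

/-- `φ` is a proper conflict-free colouring of `G`: adjacent vertices get different colours, and
every vertex `v` that has a neighbour has a colour that occurs on exactly one neighbour of `v`. -/
def IsPCF {V C : Type} (G : SimpleGraph V) (φ : V → C) : Prop :=
  (∀ u v, G.Adj u v → φ u ≠ φ v) ∧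
    ∀ v, (∃ u, G.Adj v u) → ∃ c : C, ∃! u, G.Adj v u ∧ φ u = c

/-- `G` is PCF (degree+k)-choosable: for all sets `L v` of colours (of any kind) with exactly
`d(v) + k` elements there is a proper conflict-free colouring with `φ v ∈ L v` for all `v`. -/
def PCFDegreeChoosable {V : Type} (G : SimpleGraph V) (k : ℕ) : Prop :=
  ∀ (C : Type) (L : V → Finset C), (∀ v, (L v).card = (G.neighborSet v).ncard + k) →
    ∃ φ : V → C, (∀ v, φ v ∈ L v) ∧ IsPCF G φ

theorem dg_eq_ncard {V : Type} [Fintype V] (G : SimpleGraph V) (v : V) :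
    dg G v = (G.neighborSet v).ncard := by
  classical
  rw [dg, ← Set.ncard_coe_finset]
  congr 1
  ext w
  simp [nb]

theorem IsPCF.of_good {V : Type} [Fintype V] {G : SimpleGraph V} {L : V → Finset ℕ}
    {φ : V → ℕ} (h : Good G L ∅ φ) : (∀ v, φ v ∈ L v) ∧ IsPCF G φ := by
  obtain ⟨h1, h2, h3⟩ := h
  refine ⟨fun v => h1 v (by simp), fun u v huv => h2 u v (by simp) (by simp) huv, ?_⟩
  rintro v ⟨u, hu⟩
  obtain ⟨w, hw, hw'⟩ := h3 v (by simp) ⟨u, by simp [nb, hu]⟩
  simp only [nb, Finset.sdiff_empty, Finset.mem_filter, Finset.mem_univ, true_and] at hw hw'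
  exact ⟨φ w, w, ⟨hw, rfl⟩, fun x hx => hw' x hx.1 hx.2⟩

/-- It is enough to colour from lists of natural numbers. -/
theorem PCFDegreeChoosable.of_nat {V : Type} [Finite V] {G : SimpleGraph V} {k : ℕ}
    (h : ∀ L : V → Finset ℕ, (∀ v, (L v).card = (G.neighborSet v).ncard + k) →
      ∃ φ : V → ℕ, (∀ v, φ v ∈ L v) ∧ IsPCF G φ) : PCFDegreeChoosable G k := by
  classical
  intro C L hL
  have hc : (⋃ v, (L v : Set C)).Countable :=
    Set.countable_iUnion fun v => (L v).countable_toSet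
  obtain ⟨f, hf⟩ := Set.countable_iff_exists_injOn.1 hc
  have hsub : ∀ v, ∀ c ∈ L v, c ∈ ⋃ v, (L v : Set C) := fun v c hc =>
    Set.mem_iUnion.2 ⟨v, hc⟩
  obtain ⟨ψ, hψ, hψ1, hψ2⟩ := h (fun v => (L v).image f) (by
    intro v
    rw [Finset.card_image_of_injOn, hL]
    intro a ha b hb hab
    exact hf (hsub v a ha) (hsub v b hb) hab)
  have h1 : ∀ v, ∃ c, c ∈ L v ∧ f c = ψ v := fun v => Finset.mem_image.1 (hψ v)
  choose φ hφ hφ' using h1
  have h2 : ∀ u v, φ u = φ v ↔ ψ u = ψ v := by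
    intro u v
    rw [← hφ' u, ← hφ' v]
    exact ⟨fun h => by rw [h], fun h => hf (hsub u _ (hφ u)) (hsub v _ (hφ v)) h⟩
  refine ⟨φ, hφ, fun u v huv h => hψ1 u v huv ((h2 u v).1 h), ?_⟩
  intro v hv
  obtain ⟨c, u, ⟨hu, huc⟩, hu'⟩ := hψ2 v hv
  refine ⟨φ u, u, ⟨hu, rfl⟩, ?_⟩
  rintro w ⟨hw, hwu⟩
  exact hu' w ⟨hw, ((h2 w u).1 hwu).trans huc⟩

end Pool.Agent.Lib.MP_03175e_co
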