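import Pool.Agent.Lib.MP_03175e_co.F02a

/-!
Row F03: completions of a light vertex, swap type (paper section 6).
-/

namespace Pool.Agent.Lib.MP_03175e_co

open Finset Classical

variable {V : Type}

/-- A set `S` of two colours that are always available (except for the colour of `q`) makes the
object `LamLike`: `T = S` if `S.card = 2` and `T = ∅` otherwise. -/
theorem lamLike_of_swap {O : ℕ → Finset ℕ} {S : Finset ℕ} (hS : 2 ≤ S.card)
    (h : ∀ cw, S.erase cw ⊆ O cw) : LamLike O := by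
  have key : ∀ α, S.card - 1 ≤ (O α).card := fun α =>
    le_trans Finset.pred_card_le_card_erase (Finset.card_le_card (h α))
  refine ⟨fun α => ?_, ?_⟩
  · rw [← Finset.card_pos]
    have := key α
    omega
  · by_cases h2 : S.card = 2
    · refine ⟨S, h2.le, fun α hα => ?_⟩
      have h3 := Finset.card_le_card (h α)
      rw [Finset.erase_eq_of_notMem hα] at h3
      omega
    · refine ⟨∅, by simp, fun α _ => ?_⟩
      have := key α
      omega

/-- If `α ∈ P`, `α ≠ cw`, and `R` contains all `n ∈ N.erase q` with fewer than two choices,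
`R.card ≤ 2`, then `α` is a completion: `cfc` for `N`, with `insert q R`, and `O q = {cw}`
(use `Function.update (fun n => O n α) q {cw}`). -/
theorem mem_Comp {N R : Finset V} {q : V} {P : Finset ℕ} {O : V → ℕ → Finset ℕ} {cw α : ℕ}
    (h4 : 4 ≤ N.card) (hq : q ∈ N) (hR : R ⊆ N.erase q) (hR2 : R.card ≤ 2) (hα : α ∈ P)
    (hcw : α ≠ cw) (hne : ∀ n ∈ N.erase q, (O n α).Nonempty)
    (h2 : ∀ n ∈ (N.erase q) \ R, 2 ≤ (O n α).card) : α ∈ Comp N q P O cw := by
  have hqR : q ∉ R := fun hh => by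
    have := hR hh
    simp at this
  have hRN : insert q R ⊆ N := by
    intro n hn
    rw [Finset.mem_insert] at hn
    rcases hn with rfl | hn
    · exact hq
    · exact Finset.mem_of_mem_erase (hR hn)
  have hc3 : (insert q R).card ≤ 3 := by
    rw [Finset.card_insert_of_notMem hqR]
    omega
  obtain ⟨e, he, hcf⟩ := cfc (N := N) (R := insert q R)
    (O := Function.update (fun n => O n α) q {cw}) h4 hRN hc3 (by
      intro n hn
      by_cases hnq : n = q
      · subst hnq
        simp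
      · rw [Function.update_of_ne hnq]
        exact hne n (Finset.mem_erase.2 ⟨hnq, hn⟩)) (by
      intro n hn
      rw [Finset.mem_sdiff, Finset.mem_insert, not_or] at hn
      obtain ⟨hnN, hnq, hnR⟩ := hn
      rw [Function.update_of_ne hnq]
      exact h2 n (Finset.mem_sdiff.2 ⟨Finset.mem_erase.2 ⟨hnq, hnN⟩, hnR⟩))
  unfold Comp
  rw [Finset.mem_filter]
  refine ⟨Finset.mem_erase.2 ⟨hcw, hα⟩, e, ?_, ?_, hcf⟩
  · have := he q hq
    rw [Function.update_self, Finset.mem_singleton] at this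
    exact this
  · intro n hn
    obtain ⟨hnq, hnN⟩ := Finset.mem_erase.1 hn
    have := he n hnN
    rw [Function.update_of_ne hnq] at this
    exact this

/-- Swap types. `B` = colours `α ∈ P` that lie in at least `3 - |R|` of the sets `T n`,
`n ∈ (N.erase q) \ R`. By `bad_le`, `(3 - |R|) * |B| ≤ ∑ t < (3 - |R|) * (|P| - 1)`, so
`|B| ≤ |P| - 2`. Take `S = P \ B` and use `mem_Comp` with
`R ∪ {n ∈ (N.erase q) \ R | α ∈ T n}` (at most two elements). -/
theorem comp_swap {N R : Finset V} {q : V} {P : Finset ℕ} {O : V → ℕ → Finset ℕ}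
    {t : V → ℕ} {T : V → Finset ℕ} (h4 : 4 ≤ N.card) (hq : q ∈ N) (hR : R ⊆ N.erase q)
    (hR2 : R.card ≤ 2) (hne : ∀ α ∈ P, ∀ n ∈ N.erase q, (O n α).Nonempty)
    (hT : ∀ n ∈ (N.erase q) \ R, (T n).card ≤ t n ∧
      ∀ α ∈ P, α ∉ T n → 2 ≤ (O n α).card)
    (hcount : ∑ n ∈ (N.erase q) \ R, t n + (3 - R.card) < (3 - R.card) * P.card) :
    ∃ S ⊆ P, 2 ≤ S.card ∧ ∀ cw, S.erase cw ⊆ Comp N q P O cw := by
  have hb := bad_le ((N.erase q) \ R) P T (3 - R.card)
  have hsum : ∑ n ∈ (N.erase q) \ R, (T n).card ≤ ∑ n ∈ (N.erase q) \ R, t n :=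
    Finset.sum_le_sum fun n hn => (hT n hn).1
  obtain ⟨B, hB⟩ : ∃ B, B = P.filter fun α =>
    3 - R.card ≤ (((N.erase q) \ R).filter fun n => α ∈ T n).card := ⟨_, rfl⟩
  rw [← hB] at hb
  obtain ⟨b, hbd⟩ : ∃ b, b = 3 - R.card := ⟨_, rfl⟩
  rw [← hbd] at hb hcount
  have hBP : B ⊆ P := by
    rw [hB]
    exact Finset.filter_subset _ _
  have hlt : b * (B.card + 1) < b * P.card := by
    rw [mul_add, mul_one]
    omega
  have hlt2 : B.card + 1 < P.card := lt_of_mul_lt_mul_left hlt (Nat.zero_le _)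
  refine ⟨P \ B, Finset.sdiff_subset, ?_, ?_⟩
  · rw [Finset.card_sdiff_of_subset hBP]
    omega
  · intro cw α hα
    obtain ⟨hcw, hα2⟩ := Finset.mem_erase.1 hα
    obtain ⟨hαP, hαB⟩ := Finset.mem_sdiff.1 hα2
    have hlt3 : (((N.erase q) \ R).filter fun n => α ∈ T n).card < b := by
      by_contra hge
      apply hαB
      rw [hB, Finset.mem_filter]
      exact ⟨hαP, by omega⟩
    refine mem_Comp (R := R ∪ ((N.erase q) \ R).filter fun n => α ∈ T n) h4 hq ?_ ?_ hαP hcw
      (hne α hαP) ?_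
    · refine Finset.union_subset hR ?_
      exact (Finset.filter_subset _ _).trans Finset.sdiff_subset
    · refine (Finset.card_union_le _ _).trans ?_
      omega
    · intro n hn
      rw [Finset.mem_sdiff, Finset.mem_union, not_or] at hn
      obtain ⟨hnN, hnR, hnT⟩ := hn
      have hnNR : n ∈ (N.erase q) \ R := Finset.mem_sdiff.2 ⟨hnN, hnR⟩
      refine (hT n hnNR).2 α hαP ?_
      intro hh
      exact hnT (Finset.mem_filter.2 ⟨hnNR, hh⟩)

end Pool.Agent.Lib.MP_03175e_co
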