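import Pool.Agent.Lib.MP_03175e_co.F03

/-!
Row F04: completions of a vertex of type L1 (paper section 6).
`N` = neighbourhood of `x`, `q` = the Y-neighbour with colour `cw`, `Z₃` = the three 1-threads.
-/

namespace Pool.Agent.Lib.MP_03175e_co

open Finset Classical

variable {V : Type}

/-- Type L1, non exceptional. `B` = colours `α ∈ P` with `(A z).card = 2` and `α ∈ A z` for all
`z ∈ Z₃`. For `α ∈ P \ B` some `z` has `2 ≤ ((A z).erase α).card`, so `mem_Comp` applies with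
`R = Z₃.erase z` (two elements). If `(P \ B).card ≤ 1` then `B.card ≥ 2`, `B ⊆ A z` and
`(A z).card = 2` give `B = A z` for all `z`, and `P.card = 3`: the exceptional case. -/
theorem comp_L1_swap {N Z₃ : Finset V} {q : V} {P : Finset ℕ} {O : V → ℕ → Finset ℕ}
    {A : V → Finset ℕ} (hN : ∀ n, n ∈ N ↔ n = q ∨ n ∈ Z₃) (hq : q ∉ Z₃) (h3 : Z₃.card = 3)
    (hP : 3 ≤ P.card) (hA : ∀ z ∈ Z₃, 2 ≤ (A z).card)
    (hO : ∀ z ∈ Z₃, ∀ α ∈ P, (A z).erase α ⊆ O z α)
    (hex : ¬ (P.card = 3 ∧ ∃ S ⊆ P, S.card = 2 ∧ ∀ z ∈ Z₃, A z = S)) :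
    ∃ S ⊆ P, 2 ≤ S.card ∧ ∀ cw, S.erase cw ⊆ Comp N q P O cw := by
  have hN' : N = insert q Z₃ := by ext n; rw [hN n, Finset.mem_insert]
  have hNc : N.card = 4 := by rw [hN', Finset.card_insert_of_notMem hq, h3]
  have hqN : q ∈ N := (hN q).2 (Or.inl rfl)
  have hNe : N.erase q = Z₃ := by rw [hN', Finset.erase_insert hq]
  have hZ : Z₃.Nonempty := Finset.card_pos.mp (by omega)
  have hcases : ∀ z ∈ Z₃, ∀ α, ¬ ((A z).card = 2 ∧ α ∈ A z) → 2 ≤ ((A z).erase α).card := by
    intro z hz α h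
    by_cases hα : α ∈ A z
    · have h1 := hA z hz
      have h2 : (A z).card ≠ 2 := fun h' => h ⟨h', hα⟩
      rw [Finset.card_erase_of_mem hα]
      omega
    · rw [Finset.erase_eq_of_notMem hα]
      exact hA z hz
  have hpos : ∀ z ∈ Z₃, ∀ α, ((A z).erase α).Nonempty := by
    intro z hz α
    refine Finset.card_pos.mp ?_
    have h1 := Finset.pred_card_le_card_erase (s := A z) (a := α)
    have h2 := hA z hz
    omega
  by_cases hS : 2 ≤ (P.filter fun α => ¬ ∀ z ∈ Z₃, (A z).card = 2 ∧ α ∈ A z).card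
  · refine ⟨_, Finset.filter_subset _ _, hS, fun cw α hα => ?_⟩
    have hαcw := Finset.ne_of_mem_erase hα
    obtain ⟨hαP, hαn⟩ := Finset.mem_filter.mp (Finset.mem_of_mem_erase hα)
    obtain ⟨z, hz, hzα⟩ : ∃ z ∈ Z₃, ¬ ((A z).card = 2 ∧ α ∈ A z) := by
      by_contra hcon
      refine hαn fun z hz => ?_
      by_contra h
      exact hcon ⟨z, hz, h⟩
    refine mem_Comp (R := Z₃.erase z) (by omega) hqN ?_ ?_ hαP hαcw ?_ ?_
    · rw [hNe]; exact Finset.erase_subset _ _
    · rw [Finset.card_erase_of_mem hz, h3]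
    · rw [hNe]
      intro n hn
      exact (hpos n hn α).mono (hO n hn α hαP)
    · rw [hNe]
      intro n hn
      obtain ⟨hn1, hn2⟩ := Finset.mem_sdiff.mp hn
      have hnz : n = z := by
        by_contra h
        exact hn2 (Finset.mem_erase.mpr ⟨h, hn1⟩)
      rw [hnz]
      exact (hcases z hz α hzα).trans (Finset.card_le_card (hO z hz α hαP))
  · exfalso
    obtain ⟨B, hB⟩ : ∃ B, B = P.filter fun α => ∀ z ∈ Z₃, (A z).card = 2 ∧ α ∈ A z := ⟨_, rfl⟩
    have hsum := Finset.card_filter_add_card_filter_not (s := P)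
      (fun α => ∀ z ∈ Z₃, (A z).card = 2 ∧ α ∈ A z)
    rw [← hB] at hsum
    have hBpos : 2 ≤ B.card := by omega
    have hBA : ∀ z ∈ Z₃, B ⊆ A z := by
      intro z hz α hα
      rw [hB] at hα
      exact ((Finset.mem_filter.mp hα).2 z hz).2
    obtain ⟨β, hβ⟩ := Finset.card_pos.mp (by omega : 0 < B.card)
    have hA2 : ∀ z ∈ Z₃, (A z).card = 2 := by
      intro z hz
      rw [hB] at hβ
      exact ((Finset.mem_filter.mp hβ).2 z hz).1
    have hBeq : ∀ z ∈ Z₃, A z = B := by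
      intro z hz
      exact (Finset.eq_of_subset_of_card_le (hBA z hz) (by rw [hA2 z hz]; exact hBpos)).symm
    obtain ⟨z, hz⟩ := hZ
    have hBc : B.card = 2 := by rw [← hBeq z hz]; exact hA2 z hz
    exact hex ⟨by omega, B, by rw [hB]; exact Finset.filter_subset _ _, hBc, hBeq⟩

/-- Type L1 is `LamLike`. If not exceptional: `comp_L1_swap` and `lamLike_of_swap`. Exceptional
case: `P = {p₁, p₂, p₃}` and `A z = {p₁, p₂}` for all `z`. Colours of `N` for `α = p₃`: choose
`z`'s from `A z` (two choices each: `mem_Comp` with `R = ∅`), so `p₃ ∈ Comp cw` for `cw ≠ p₃`.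
For `α = p₁`: all `z` get `p₂`; with `cw ≠ p₂` the colour `cw` of `q` is unique. For `α = p₂`
symmetric. So `Comp cw` contains `p₃` if `cw ≠ p₃`; it contains `p₁, p₂` if `cw = p₃` and also if
`cw ∉ P`. Take `T = {p₁, p₂}`. -/
theorem comp_L1 {N Z₃ : Finset V} {q : V} {P : Finset ℕ} {O : V → ℕ → Finset ℕ}
    {A : V → Finset ℕ} (hN : ∀ n, n ∈ N ↔ n = q ∨ n ∈ Z₃) (hq : q ∉ Z₃) (h3 : Z₃.card = 3)
    (hP : 3 ≤ P.card) (hA : ∀ z ∈ Z₃, 2 ≤ (A z).card)
    (hO : ∀ z ∈ Z₃, ∀ α ∈ P, (A z).erase α ⊆ O z α) :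
    LamLike (Comp N q P O) := by
  by_cases hex : P.card = 3 ∧ ∃ S ⊆ P, S.card = 2 ∧ ∀ z ∈ Z₃, A z = S
  · obtain ⟨hP3, S, hSP, hS2, hAS⟩ := hex
    have hN' : N = insert q Z₃ := by ext n; rw [hN n, Finset.mem_insert]
    have hNc : N.card = 4 := by rw [hN', Finset.card_insert_of_notMem hq, h3]
    have hqN : q ∈ N := (hN q).2 (Or.inl rfl)
    have hNe : N.erase q = Z₃ := by rw [hN', Finset.erase_insert hq]
    obtain ⟨p, hp⟩ : ∃ p, p ∈ P \ S := by
      refine Finset.card_pos.mp ?_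
      rw [Finset.card_sdiff_of_subset hSP]
      omega
    obtain ⟨hpP, hpS⟩ := Finset.mem_sdiff.mp hp
    have h1 : ∀ cw, p ≠ cw → p ∈ Comp N q P O cw := by
      intro cw hcw
      have hz2 : ∀ z ∈ Z₃, 2 ≤ (O z p).card := by
        intro z hz
        have := Finset.card_le_card (hO z hz p hpP)
        rw [hAS z hz, Finset.erase_eq_of_notMem hpS, hS2] at this
        exact this
      refine mem_Comp (R := ∅) (by omega) hqN (Finset.empty_subset _) (by simp) hpP hcw ?_ ?_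
      · rw [hNe]
        intro n hn
        exact Finset.card_pos.mp (lt_of_lt_of_le (by norm_num) (hz2 n hn))
      · rw [hNe, Finset.sdiff_empty]
        exact hz2
    have h2 : ∀ cw, cw ∉ S → S ⊆ Comp N q P O cw := by
      intro cw hcw α hα
      obtain ⟨β, hβ⟩ : (S.erase α).Nonempty := by
        refine Finset.card_pos.mp ?_
        rw [Finset.card_erase_of_mem hα]
        omega
      have hβS := Finset.mem_of_mem_erase hβ
      rw [Comp, Finset.mem_filter]
      refine ⟨Finset.mem_erase.mpr ⟨fun h => hcw (h ▸ hα), hSP hα⟩,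
        fun n => if n = q then cw else β, by simp, ?_, q, hqN, ?_⟩
      · rw [hNe]
        intro n hn
        have hnq : n ≠ q := fun h => hq (h ▸ hn)
        simp only [hnq, if_false]
        refine hO n hn α (hSP hα) ?_
        rw [hAS n hn]
        exact hβ
      · intro v _ hv
        by_contra hvq
        simp only [hvq, if_false, if_true] at hv
        exact hcw (hv ▸ hβS)
    refine ⟨fun cw => ?_, S, hS2.le, fun cw hcw => ?_⟩
    · by_cases hcw : cw ∈ S
      · exact ⟨p, h1 cw fun h => hpS (h ▸ hcw)⟩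
      · obtain ⟨α, hα⟩ := Finset.card_pos.mp (by omega : 0 < S.card)
        exact ⟨α, h2 cw hcw hα⟩
    · rw [← hS2]
      exact Finset.card_le_card (h2 cw hcw)
  · obtain ⟨S, -, hS2, hS⟩ := comp_L1_swap hN hq h3 hP hA hO hex
    exact lamLike_of_swap hS2 hS

end Pool.Agent.Lib.MP_03175e_co
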