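import Pool.Agent.Lib.MP_03175e_co.F03

/-!
Row F05: completions of a vertex of type L4 (paper section 6).
`N` = neighbourhood of `x`, `q` = the Y-neighbour with colour `cw`, `b` the other Y-neighbour
(colour `f`), `z` a 1-thread (set `A`), `Mu` = mu-objects (tight for at most two colours).
-/

namespace Pool.Agent.Lib.MP_03175e_co

open Finset Classical

variable {V : Type}

/-- four colours of which the first and the third are different and which are not two pairs -/
theorem F05_cf {q b z m : V} (hqb : q ≠ b) (hqz : q ≠ z) (hbz : b ≠ z) (hqm : q ≠ m) (hbm : b ≠ m) (hzm : z ≠ m)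
    {f cw β v : ℕ} (hfβ : f ≠ β) (h1 : ¬ (cw = f ∧ v = β)) (h2 : ¬ (cw = β ∧ v = f)) :
    CF ({q, b, z, m} : Finset V) (fun n => if n = q then cw else if n = b then f else if n = z then β else v) := by
  have eq : (fun n => if n = q then cw else if n = b then f else if n = z then β else v) q = cw := by simp
  have eb : (fun n => if n = q then cw else if n = b then f else if n = z then β else v) b = f := by
    simp [hqb.symm]
  have ez : (fun n => if n = q then cw else if n = b then f else if n = z then β else v) z = β := by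
    simp [hqz.symm, hbz.symm]
  have em : (fun n => if n = q then cw else if n = b then f else if n = z then β else v) m = v := by
    simp [hqm.symm, hbm.symm, hzm.symm]
  by_cases hb : cw ≠ f ∧ v ≠ f
  · refine ⟨b, by simp, fun n hn he => ?_⟩
    rw [eb] at he
    simp only [Finset.mem_insert, Finset.mem_singleton] at hn
    rcases hn with rfl | rfl | rfl | rfl
    · rw [eq] at he; exact absurd he hb.1
    · rfl
    · rw [ez] at he; exact absurd he.symm hfβ
    · rw [em] at he; exact absurd he hb.2
  · refine ⟨z, by simp, fun n hn he => ?_⟩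
    rw [ez] at he
    simp only [Finset.mem_insert, Finset.mem_singleton] at hn
    rcases hn with rfl | rfl | rfl | rfl
    · rw [eq] at he
      exfalso
      apply hb
      refine ⟨fun h => hfβ (h.symm.trans he), fun h => h2 ⟨he, h⟩⟩
    · rw [eb] at he; exact absurd he hfβ
    · rfl
    · rw [em] at he
      exfalso
      apply hb
      refine ⟨fun h => h1 ⟨h, he⟩, fun h => hfβ (h.symm.trans he)⟩

/-- equality in the double counting -/
theorem F05_count (W : Finset V) (B : Finset ℕ) (T : V → Finset ℕ) (hT : ∀ n ∈ W, (T n).card ≤ 2)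
    (hB : ∀ α ∈ B, 2 ≤ (W.filter fun n => α ∈ T n).card) (hc : W.card ≤ B.card) :
    (∀ n ∈ W, (T n).card = 2) ∧ (∀ α ∈ B, (W.filter fun n => α ∈ T n).card = 2) ∧ ∀ n ∈ W, T n ⊆ B := by
  set S : Finset ℕ := (W.biUnion T) ∪ B with hS
  have hsum : ∑ α ∈ S, (W.filter fun n => α ∈ T n).card = ∑ n ∈ W, (T n).card := by
    simp only [Finset.card_filter]
    rw [Finset.sum_comm]
    refine Finset.sum_congr rfl fun n hn => ?_
    rw [← Finset.card_filter]
    congr 1
    ext α
    simp only [Finset.mem_filter, hS, Finset.mem_union, Finset.mem_biUnion]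
    exact ⟨fun h => h.2, fun h => ⟨Or.inl ⟨n, hn, h⟩, h⟩⟩
  have h1 : ∑ n ∈ W, (T n).card ≤ ∑ n ∈ W, 2 := Finset.sum_le_sum hT
  have h2 : ∑ α ∈ B, 2 ≤ ∑ α ∈ B, (W.filter fun n => α ∈ T n).card := Finset.sum_le_sum hB
  have h3 : ∑ α ∈ S \ B, (W.filter fun n => α ∈ T n).card + ∑ α ∈ B, (W.filter fun n => α ∈ T n).card =
      ∑ α ∈ S, (W.filter fun n => α ∈ T n).card := Finset.sum_sdiff Finset.subset_union_right
  have h4 : ∑ n ∈ W, 2 = 2 * W.card := by simp [mul_comm]
  have h5 : ∑ α ∈ B, 2 = 2 * B.card := by simp [mul_comm]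
  refine ⟨?_, ?_, ?_⟩
  · exact (Finset.sum_eq_sum_iff_of_le hT).1 (by omega)
  · intro α hα
    exact ((Finset.sum_eq_sum_iff_of_le hB).1 (by omega) α hα).symm
  · intro n hn α hα
    by_contra hαB
    have h6 : ∑ α ∈ S \ B, (W.filter fun n => α ∈ T n).card = 0 := by omega
    have h7 := (Finset.sum_eq_zero_iff.1 h6) α (by
      simp only [Finset.mem_sdiff, hS, Finset.mem_union, Finset.mem_biUnion]
      exact ⟨Or.inl ⟨n, hn, hα⟩, hαB⟩)
    rw [Finset.card_eq_zero, Finset.eq_empty_iff_forall_notMem] at h7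
    exact h7 n (Finset.mem_filter.2 ⟨hn, hα⟩)

/-- Type L4 is `LamLike`. Let `W = insert z Mu`, `T z = A` (tight only if `A.card = 2`), and
`B` = colours `α ∈ P` at which at least two `n ∈ W` have `(O n α).card = 1`.
`bad_le`: `2 * B.card ≤ 2 + 2 * Mu.card`. For `α ∈ P \ B`, `α ≠ cw`: `α ∈ Comp cw`
(`mem_Comp`, `R = {b} ∪ tight one`).  If `(P \ B).card ≥ 2`: `lamLike_of_swap`.
Otherwise `P.card = Mu.card + 2`, `B.card = Mu.card + 1`, `P \ B = {p₀}`; equality in the double
counting: every `α ∈ B` has exactly two tight objects, and all tight colours lie in `B`, every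
object has exactly two tight colours; in particular `A = {a, b'}` with `a, b' ∈ B`, `O z a = {b'}`
and `O z b' = {a}` are at least subsets of the choices. `f ∉ P`.
(*) If `α ∈ B`, `α ≠ cw` and the four colours `f, cw, v₁, v₂` (of `b`, `q` and the two tight
objects) have a unique one, then `α ∈ Comp cw` (`cf_extend`).
Case `cw = p₀`: `α = a`: colours `f, p₀, b', v₂` with `f, p₀, b'` different: unique one exists; same
for `α = b'`; so `2 ≤ (Comp p₀).card`.
Case `cw ≠ p₀`: `p₀ ∈ Comp cw`. If `cw ∉ {a, b', f}`: `α = a` gives `f, cw, b', v₂`, `f, cw, b'`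
different: `a ∈ Comp cw`, so `2 ≤`. If `cw = b'` and `(Comp b').card < 2` then `a ∉ Comp b'`, so
`f, b', b', v₂(a)` has no unique colour: `v₂(a) = f`. If `cw = f` and `(Comp f).card < 2` then
`f, f, b', v₂(a)` has no unique colour: `v₂(a) = b'`. Not both (`f ≠ b'`). Symmetric with `a`.
So the exceptional colours are contained in `{a, b'}` or in `{f}`. -/
theorem comp_L4 {N Mu : Finset V} {q b z : V} {P : Finset ℕ} {O : V → ℕ → Finset ℕ}
    {A : Finset ℕ} {T : V → Finset ℕ} {f : ℕ}
    (hN : ∀ n, n ∈ N ↔ n = q ∨ n = b ∨ n = z ∨ n ∈ Mu) (hqb : q ≠ b) (hqz : q ≠ z)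
    (hbz : b ≠ z) (hqM : q ∉ Mu) (hbM : b ∉ Mu) (hzM : z ∉ Mu) (hM : 1 ≤ Mu.card)
    (hP : Mu.card + 2 ≤ P.card) (hf : f ∉ P) (hb : ∀ α ∈ P, f ∈ O b α)
    (hA : 2 ≤ A.card) (hz : ∀ α ∈ P, A.erase α ⊆ O z α)
    (hne : ∀ m ∈ Mu, ∀ α ∈ P, (O m α).Nonempty)
    (hT : ∀ m ∈ Mu, (T m).card ≤ 2 ∧ ∀ α ∈ P, α ∉ T m → 2 ≤ (O m α).card) :
    LamLike (Comp N q P O) := by
  have hcardN : 4 ≤ N.card := by
    have e : N = insert q (insert b (insert z Mu)) := by
      ext n
      rw [hN]
      simp only [Finset.mem_insert]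
    rw [e, Finset.card_insert_of_notMem, Finset.card_insert_of_notMem, Finset.card_insert_of_notMem hzM]
    · omega
    · simp only [Finset.mem_insert, not_or]
      exact ⟨hbz, hbM⟩
    · simp only [Finset.mem_insert, not_or]
      exact ⟨hqb, hqz, hqM⟩
  have hqN : q ∈ N := (hN q).2 (Or.inl rfl)
  have hbN : b ∈ N := (hN b).2 (Or.inr (Or.inl rfl))
  have hzN : z ∈ N := (hN z).2 (Or.inr (Or.inr (Or.inl rfl)))
  have hMN : ∀ m ∈ Mu, m ∈ N := fun m hm => (hN m).2 (Or.inr (Or.inr (Or.inr hm)))
  obtain ⟨W, hW⟩ : ∃ W : Finset V, W = insert z Mu := ⟨_, rfl⟩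
  obtain ⟨T', hT'⟩ : ∃ T' : V → Finset ℕ, T' = fun n => if n = z then (if A.card = 2 then A else ∅) else T n := ⟨_, rfl⟩
  have hT'z : T' z = if A.card = 2 then A else ∅ := by rw [hT']; simp
  have hT'm : ∀ m ∈ Mu, T' m = T m := by
    intro m hm
    have : m ≠ z := fun h => hzM (h ▸ hm)
    rw [hT']; simp [this]
  have hWcard : W.card = Mu.card + 1 := by rw [hW, Finset.card_insert_of_notMem hzM]
  have hcardT : ∀ n ∈ W, (T' n).card ≤ 2 := by
    intro n hn
    rw [hW, Finset.mem_insert] at hn
    rcases hn with rfl | hn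
    · rw [hT'z]
      split_ifs with h
      · exact h.le
      · simp
    · rw [hT'm n hn]
      exact (hT n hn).1
  have hzne : ∀ α ∈ P, (O z α).Nonempty := by
    intro α hα
    have h1 : 0 < (A.erase α).card := by
      have := Finset.pred_card_le_card_erase (s := A) (a := α)
      omega
    exact (Finset.card_pos.1 h1).mono (hz α hα)
  have hW2 : ∀ n ∈ W, ∀ α ∈ P, α ∉ T' n → 2 ≤ (O n α).card := by
    intro n hn α hα hαT
    rw [hW, Finset.mem_insert] at hn
    rcases hn with rfl | hn
    · rw [hT'z] at hαT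
      refine le_trans ?_ (Finset.card_le_card (hz α hα))
      by_cases h2 : A.card = 2
      · rw [if_pos h2] at hαT
        rw [Finset.erase_eq_of_notMem hαT]
        exact hA
      · have := Finset.pred_card_le_card_erase (s := A) (a := α)
        omega
    · rw [hT'm n hn] at hαT
      exact (hT n hn).2 α hα hαT
  have hWne : ∀ n ∈ N.erase q, ∀ α ∈ P, (O n α).Nonempty := by
    intro n hn α hα
    rw [Finset.mem_erase, hN] at hn
    obtain ⟨h0, h1 | h1 | h1 | h1⟩ := hn
    · exact absurd h1 h0
    · exact h1 ▸ ⟨f, hb α hα⟩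
    · exact h1 ▸ hzne α hα
    · exact hne n h1 α hα
  obtain ⟨B, hB⟩ : ∃ B : Finset ℕ, B = P.filter fun α => 2 ≤ (W.filter fun n => α ∈ T' n).card := ⟨_, rfl⟩
  have hBP : B ⊆ P := by rw [hB]; exact Finset.filter_subset _ _
  have hBle : 2 * B.card ≤ 2 * W.card := by
    rw [hB]
    refine (bad_le W P T' 2).trans ?_
    refine (Finset.sum_le_sum hcardT).trans ?_
    simp [mul_comm]
  have hgood : ∀ α ∈ P \ B, ∀ cw, α ≠ cw → α ∈ Comp N q P O cw := by
    intro α hα cw hcw
    obtain ⟨hαP, hαB⟩ := Finset.mem_sdiff.1 hα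
    have h1 : (W.filter fun n => α ∈ T' n).card ≤ 1 := by
      by_contra h
      apply hαB
      rw [hB, Finset.mem_filter]
      exact ⟨hαP, by omega⟩
    refine mem_Comp (R := insert b (W.filter fun n => α ∈ T' n)) hcardN hqN ?_ ?_ hαP hcw (fun n hn => hWne n hn α hαP) ?_
    · intro n hn
      rw [Finset.mem_insert, Finset.mem_filter, hW, Finset.mem_insert] at hn
      rw [Finset.mem_erase]
      rcases hn with rfl | ⟨rfl | hn, _⟩
      · exact ⟨hqb.symm, hbN⟩
      · exact ⟨hqz.symm, hzN⟩
      · exact ⟨fun h => hqM (h ▸ hn), hMN n hn⟩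
    · exact (Finset.card_insert_le _ _).trans (by omega)
    · intro n hn
      obtain ⟨h2, h3⟩ := Finset.mem_sdiff.1 hn
      rw [Finset.mem_erase, hN] at h2
      rw [Finset.mem_insert, not_or] at h3
      have hnW : n ∈ W := by
        rw [hW, Finset.mem_insert]
        obtain ⟨h0, h4 | h4 | h4 | h4⟩ := h2
        · exact absurd h4 h0
        · exact absurd h4 h3.1
        · exact Or.inl h4
        · exact Or.inr h4
      refine hW2 n hnW α hαP fun h => h3.2 (Finset.mem_filter.2 ⟨hnW, h⟩)
  by_cases h2 : 2 ≤ (P \ B).card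
  · refine lamLike_of_swap h2 fun cw α hα => ?_
    rw [Finset.mem_erase] at hα
    exact hgood α hα.2 cw hα.1
  · have hPB : (P \ B).card + B.card = P.card := Finset.card_sdiff_add_card_eq_card hBP
    have hBc : B.card = W.card := by omega
    obtain ⟨hc1, hc2, hc3⟩ := F05_count W B T' hcardT
      (fun α hα => by rw [hB, Finset.mem_filter] at hα; exact hα.2) hBc.symm.le
    have h1 : (P \ B).card = 1 := by omega
    obtain ⟨p₀, hp₀⟩ := Finset.card_eq_one.1 h1
    have hp₀m : p₀ ∈ P \ B := by rw [hp₀]; exact Finset.mem_singleton_self _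
    obtain ⟨hp₀P, hp₀B⟩ := Finset.mem_sdiff.1 hp₀m
    have hzW : z ∈ W := by rw [hW]; exact Finset.mem_insert_self _ _
    have hA2 : A.card = 2 := by
      have h3 := hc1 z hzW
      rw [hT'z] at h3
      by_contra h
      rw [if_neg h] at h3
      simp at h3
    have hTz : T' z = A := by rw [hT'z, if_pos hA2]
    have hAB : A ⊆ B := by
      have := hc3 z hzW
      rwa [hTz] at this
    have key : ∀ α ∈ A, ∀ β ∈ A, α ≠ β → ∃ v : ℕ, ∀ cw, α ≠ cw → ¬ (cw = f ∧ v = β) → ¬ (cw = β ∧ v = f) →
        α ∈ Comp N q P O cw := by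
      intro α hα β hβ hαβ
      have hαP := hBP (hAB hα)
      have hβP := hBP (hAB hβ)
      have hfβ : f ≠ β := fun h => hf (h ▸ hβP)
      have h3 := hc2 α (hAB hα)
      have hzF : z ∈ W.filter fun n => α ∈ T' n := Finset.mem_filter.2 ⟨hzW, by rw [hTz]; exact hα⟩
      have h4 : ((W.filter fun n => α ∈ T' n).erase z).card = 1 := by
        rw [Finset.card_erase_of_mem hzF, h3]
      obtain ⟨m, hm⟩ := Finset.card_eq_one.1 h4
      have hmm : m ∈ (W.filter fun n => α ∈ T' n).erase z := by rw [hm]; exact Finset.mem_singleton_self _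
      rw [Finset.mem_erase, Finset.mem_filter, hW, Finset.mem_insert] at hmm
      obtain ⟨hmz, h5 | hmM, hmT⟩ := hmm
      · exact absurd h5 hmz
      have hother : ∀ n ∈ Mu, n ≠ m → α ∉ T' n := by
        intro n hn hnm h
        have h6 : n ∈ (W.filter fun n => α ∈ T' n).erase z := by
          rw [Finset.mem_erase, Finset.mem_filter, hW, Finset.mem_insert]
          exact ⟨fun h7 => hzM (h7 ▸ hn), Or.inr hn, h⟩
        rw [hm, Finset.mem_singleton] at h6
        exact hnm h6
      obtain ⟨v, hv⟩ := hne m hmM α hαP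
      have hqm : q ≠ m := fun h => hqM (h ▸ hmM)
      have hbm : b ≠ m := fun h => hbM (h ▸ hmM)
      refine ⟨v, fun cw hcw n1 n2 => ?_⟩
      obtain ⟨e, he1, he2, he3⟩ := cf_extend (N := N) (R := {q, b, z, m})
        (O := Function.update (fun n => O n α) q {cw})
        (e₀ := fun n => if n = q then cw else if n = b then f else if n = z then β else v)
        (by
          intro n hn
          simp only [Finset.mem_insert, Finset.mem_singleton] at hn
          rcases hn with rfl | rfl | rfl | rfl
          · exact hqN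
          · exact hbN
          · exact hzN
          · exact hMN _ hmM)
        (by
          intro n hn
          simp only [Finset.mem_insert, Finset.mem_singleton] at hn
          rcases hn with h | h | h | h
          · subst h
            simp
          · subst h
            rw [Function.update_of_ne hqb.symm]
            simp only [if_neg hqb.symm, if_true]
            exact hb α hαP
          · subst h
            rw [Function.update_of_ne hqz.symm]
            simp only [if_neg hqz.symm, if_neg hbz.symm, if_true]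
            exact hz α hαP (Finset.mem_erase.2 ⟨hαβ.symm, hβ⟩)
          · subst h
            rw [Function.update_of_ne hqm.symm]
            simp only [if_neg hqm.symm, if_neg hbm.symm, if_neg hmz]
            exact hv)
        (F05_cf hqb hqz hbz hqm hbm (Ne.symm hmz) hfβ n1 n2)
        (by
          intro n hn
          obtain ⟨h6, h7⟩ := Finset.mem_sdiff.1 hn
          simp only [Finset.mem_insert, Finset.mem_singleton, not_or] at h7
          rw [Function.update_of_ne h7.1]
          have hnM : n ∈ Mu := by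
            rcases (hN n).1 h6 with h8 | h8 | h8 | h8
            · exact absurd h8 h7.1
            · exact absurd h8 h7.2.1
            · exact absurd h8 h7.2.2.1
            · exact h8
          exact hW2 n (by rw [hW]; exact Finset.mem_insert_of_mem hnM) α hαP (hother n hnM h7.2.2.2))
      unfold Comp
      rw [Finset.mem_filter, Finset.mem_erase]
      refine ⟨⟨hcw, hαP⟩, e, ?_, ?_, he3⟩
      · rw [he1 q (by simp)]
        simp
      · intro n hn
        obtain ⟨h6, h7⟩ := Finset.mem_erase.1 hn
        have h8 := he2 n h7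
        rwa [Function.update_of_ne h6] at h8
    obtain ⟨a, b', hab, hAab⟩ := Finset.card_eq_two.1 hA2
    have haA : a ∈ A := by rw [hAab]; simp
    have hb'A : b' ∈ A := by rw [hAab]; simp
    obtain ⟨va, hva⟩ := key a haA b' hb'A hab
    obtain ⟨vb, hvb⟩ := key b' hb'A a haA hab.symm
    have hap : a ≠ p₀ := fun h => hp₀B (h ▸ hAB haA)
    have hbp : b' ≠ p₀ := fun h => hp₀B (h ▸ hAB hb'A)
    have hfa : f ≠ a := fun h => hf (h ▸ hBP (hAB haA))
    have hfb : f ≠ b' := fun h => hf (h ▸ hBP (hAB hb'A))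
    have hfp : f ≠ p₀ := fun h => hf (h ▸ hp₀P)
    have htwo : ∀ (x y : ℕ) (C : Finset ℕ), x ≠ y → x ∈ C → y ∈ C → 2 ≤ C.card := by
      intro x y C hxy hx hy
      have : ({x, y} : Finset ℕ) ⊆ C := by
        intro w hw
        simp only [Finset.mem_insert, Finset.mem_singleton] at hw
        rcases hw with rfl | rfl
        · exact hx
        · exact hy
      have h3 := Finset.card_le_card this
      rwa [Finset.card_pair hxy] at h3
    have hp0case : 2 ≤ (Comp N q P O p₀).card := by
      refine htwo a b' _ hab (hva p₀ hap (fun h => hfp h.1.symm) (fun h => hbp h.1.symm)) ?_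
      exact hvb p₀ hbp (fun h => hfp h.1.symm) (fun h => hap h.1.symm)
    refine ⟨fun cw => ?_, ?_⟩
    · by_cases h3 : cw = p₀
      · rw [h3]
        exact Finset.card_pos.1 (by omega)
      · exact ⟨p₀, hgood p₀ hp₀m cw (Ne.symm h3)⟩
    · by_cases h4 : va = b' ∧ vb = a
      · refine ⟨{f}, by simp, fun cw hcw => ?_⟩
        rw [Finset.mem_singleton] at hcw
        by_cases h3 : cw = p₀
        · rw [h3]; exact hp0case
        · have h5 := hgood p₀ hp₀m cw (Ne.symm h3)
          by_cases h6 : cw = a
          · refine htwo b' p₀ _ hbp (hvb cw (fun h => hab (h6.symm.trans h.symm)) (fun h => hcw h.1) ?_) h5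
            rintro ⟨_, h7⟩
            exact hfa (h7.symm.trans h4.2)
          · refine htwo a p₀ _ hap (hva cw (fun h => h6 h.symm) (fun h => hcw h.1) ?_) h5
            rintro ⟨_, h7⟩
            exact hfb (h7.symm.trans h4.1)
      · refine ⟨{a, b'}, Finset.card_le_two, fun cw hcw => ?_⟩
        simp only [Finset.mem_insert, Finset.mem_singleton, not_or] at hcw
        by_cases h3 : cw = p₀
        · rw [h3]; exact hp0case
        · have h5 := hgood p₀ hp₀m cw (Ne.symm h3)
          by_cases h6 : va = b'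
          · have h7 : vb ≠ a := fun h => h4 ⟨h6, h⟩
            refine htwo b' p₀ _ hbp (hvb cw (Ne.symm hcw.2) (fun h => h7 h.2) (fun h => hcw.1 h.1)) h5
          · refine htwo a p₀ _ hap (hva cw (Ne.symm hcw.1) (fun h => h6 h.2) (fun h => hcw.2 h.1)) h5

end Pool.Agent.Lib.MP_03175e_co
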