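import Pool.Agent.Lib.MP_03175e_co.F03

/-!
Row F06a: the reverse lemma, types Q', QT (mu = 0) (paper section 7, RA).
`N` = neighbourhood of `w`, `q` = the special neighbour with colour `al`, `b` the fixed
Y-neighbour (colour `f`), `z₁, z₂` two 1-threads.
-/

namespace Pool.Agent.Lib.MP_03175e_co

open Finset Classical

variable {V : Type}

/-- If `c ∈ P`, `c ≠ al` is not a completion, then the colours `f, al, v₁, v₂` have no unique
one. -/
theorem f06a_core {N : Finset V} {q b z₁ z₂ : V} {P : Finset ℕ} {O : V → ℕ → Finset ℕ}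
    {A₁ A₂ : Finset ℕ} {f : ℕ} (hN : ∀ n, n ∈ N ↔ n = q ∨ n = b ∨ n = z₁ ∨ n = z₂)
    (hqb : q ≠ b) (hq1 : q ≠ z₁) (hq2 : q ≠ z₂) (hb1 : b ≠ z₁) (hb2 : b ≠ z₂) (h12 : z₁ ≠ z₂)
    (hb : ∀ α ∈ P, f ∈ O b α) (hz1 : ∀ α ∈ P, A₁.erase α ⊆ O z₁ α)
    (hz2 : ∀ α ∈ P, A₂.erase α ⊆ O z₂ α) {al c : ℕ} (hc : c ∈ P) (hca : c ≠ al)
    (hn : c ∉ Comp N q P O al) {v₁ v₂ : ℕ} (h1 : v₁ ∈ A₁.erase c) (h2 : v₂ ∈ A₂.erase c) :
    (al = f → v₁ = v₂) ∧ (al ≠ f → (v₁ = f ∧ v₂ = al) ∨ (v₁ = al ∧ v₂ = f)) := by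
  set e : V → ℕ := fun n => if n = q then al else if n = b then f else if n = z₁ then v₁ else v₂
    with he
  have eq : e q = al := by simp [he]
  have eb : e b = f := by simp [he, hqb.symm]
  have e1 : e z₁ = v₁ := by simp [he, hq1.symm, hb1.symm]
  have e2 : e z₂ = v₂ := by simp [he, hq2.symm, hb2.symm, h12.symm]
  have hcf : ¬ CF N e := by
    intro hcf
    apply hn
    unfold Comp
    rw [Finset.mem_filter]
    refine ⟨Finset.mem_erase.mpr ⟨hca, hc⟩, e, eq, ?_, hcf⟩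
    intro n hn'
    obtain ⟨hnq, hnN⟩ := Finset.mem_erase.mp hn'
    rcases (hN n).mp hnN with h | h | h | h
    · exact absurd h hnq
    · rw [h, eb]; exact hb c hc
    · rw [h, e1]; exact hz1 c hc h1
    · rw [h, e2]; exact hz2 c hc h2
  have hno : ∀ u ∈ N, ∃ v ∈ N, e v = e u ∧ v ≠ u := by
    intro u hu
    by_contra hcon
    push Not at hcon
    exact hcf ⟨u, hu, fun v hv hev => hcon v hv hev⟩
  have kq : f = al ∨ v₁ = al ∨ v₂ = al := by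
    obtain ⟨v, hv, hev, hvu⟩ := hno q ((hN q).mpr (Or.inl rfl))
    rcases (hN v).mp hv with h | h | h | h
    · exact absurd h hvu
    · rw [h, eb, eq] at hev; exact Or.inl hev
    · rw [h, e1, eq] at hev; exact Or.inr (Or.inl hev)
    · rw [h, e2, eq] at hev; exact Or.inr (Or.inr hev)
  have kb : al = f ∨ v₁ = f ∨ v₂ = f := by
    obtain ⟨v, hv, hev, hvu⟩ := hno b ((hN b).mpr (Or.inr (Or.inl rfl)))
    rcases (hN v).mp hv with h | h | h | h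
    · rw [h, eq, eb] at hev; exact Or.inl hev
    · exact absurd h hvu
    · rw [h, e1, eb] at hev; exact Or.inr (Or.inl hev)
    · rw [h, e2, eb] at hev; exact Or.inr (Or.inr hev)
  have k1 : al = v₁ ∨ f = v₁ ∨ v₂ = v₁ := by
    obtain ⟨v, hv, hev, hvu⟩ := hno z₁ ((hN z₁).mpr (Or.inr (Or.inr (Or.inl rfl))))
    rcases (hN v).mp hv with h | h | h | h
    · rw [h, eq, e1] at hev; exact Or.inl hev
    · rw [h, eb, e1] at hev; exact Or.inr (Or.inl hev)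
    · exact absurd h hvu
    · rw [h, e2, e1] at hev; exact Or.inr (Or.inr hev)
  have k2 : al = v₂ ∨ f = v₂ ∨ v₁ = v₂ := by
    obtain ⟨v, hv, hev, hvu⟩ := hno z₂ ((hN z₂).mpr (Or.inr (Or.inr (Or.inr rfl))))
    rcases (hN v).mp hv with h | h | h | h
    · rw [h, eq, e2] at hev; exact Or.inl hev
    · rw [h, eb, e2] at hev; exact Or.inr (Or.inl hev)
    · rw [h, e1, e2] at hev; exact Or.inr (Or.inr hev)
    · exact absurd h hvu
  constructor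
  · intro h; omega
  · intro h; omega

theorem f06a_erase_nonempty {A : Finset ℕ} (hA : 2 ≤ A.card) (c : ℕ) : (A.erase c).Nonempty := by
  rw [← Finset.card_pos]
  have := Finset.pred_card_le_card_erase (s := A) (a := c)
  omega

/-- The case `al ≠ f`: `{A₁, A₂} = {{c, f}, {c, al}}`, in particular `A₁ ∩ A₂ = {c}`. -/
theorem f06a_ne {N : Finset V} {q b z₁ z₂ : V} {P : Finset ℕ} {O : V → ℕ → Finset ℕ}
    {A₁ A₂ : Finset ℕ} {f : ℕ} (hN : ∀ n, n ∈ N ↔ n = q ∨ n = b ∨ n = z₁ ∨ n = z₂)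
    (hqb : q ≠ b) (hq1 : q ≠ z₁) (hq2 : q ≠ z₂) (hb1 : b ≠ z₁) (hb2 : b ≠ z₂) (h12 : z₁ ≠ z₂)
    (hb : ∀ α ∈ P, f ∈ O b α) (hA1 : 2 ≤ A₁.card) (hA2 : 2 ≤ A₂.card)
    (hz1 : ∀ α ∈ P, A₁.erase α ⊆ O z₁ α)
    (hz2 : ∀ α ∈ P, A₂.erase α ⊆ O z₂ α) {al c : ℕ} (hc : c ∈ P) (hca : c ≠ al)
    (hn : c ∉ Comp N q P O al) (hal : al ≠ f) (x : ℕ) : (x ∈ A₁ ∧ x ∈ A₂) ↔ x = c := by
  have key : ∀ v₁ ∈ A₁.erase c, ∀ v₂ ∈ A₂.erase c,
      (v₁ = f ∧ v₂ = al) ∨ (v₁ = al ∧ v₂ = f) := fun v₁ h1 v₂ h2 =>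
    (f06a_core hN hqb hq1 hq2 hb1 hb2 h12 hb hz1 hz2 hc hca hn h1 h2).2 hal
  obtain ⟨w₁, hw₁⟩ := f06a_erase_nonempty hA1 c
  obtain ⟨w₂, hw₂⟩ := f06a_erase_nonempty hA2 c
  have u1 : ∀ v ∈ A₁.erase c, v = w₁ := by
    intro v hv
    have h1 := key v hv w₂ hw₂
    have h2 := key w₁ hw₁ w₂ hw₂
    omega
  have u2 : ∀ v ∈ A₂.erase c, v = w₂ := by
    intro v hv
    have h1 := key w₁ hw₁ v hv
    have h2 := key w₁ hw₁ w₂ hw₂
    omega
  have hw12 : w₁ ≠ w₂ := by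
    have h2 := key w₁ hw₁ w₂ hw₂
    omega
  have c1 : c ∈ A₁ := by
    by_contra hc1
    have h3 : A₁ ⊆ {w₁} := by
      intro v hv
      rw [Finset.mem_singleton]
      exact u1 v (Finset.mem_erase.mpr ⟨fun h => hc1 (h ▸ hv), hv⟩)
    have := Finset.card_le_card h3
    rw [Finset.card_singleton] at this
    omega
  have c2 : c ∈ A₂ := by
    by_contra hc1
    have h3 : A₂ ⊆ {w₂} := by
      intro v hv
      rw [Finset.mem_singleton]
      exact u2 v (Finset.mem_erase.mpr ⟨fun h => hc1 (h ▸ hv), hv⟩)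
    have := Finset.card_le_card h3
    rw [Finset.card_singleton] at this
    omega
  constructor
  · rintro ⟨hx1, hx2⟩
    by_contra hxc
    have h1 := u1 x (Finset.mem_erase.mpr ⟨hxc, hx1⟩)
    have h2 := u2 x (Finset.mem_erase.mpr ⟨hxc, hx2⟩)
    exact hw12 (h1.symm.trans h2)
  · rintro rfl
    exact ⟨c1, c2⟩

/-- The case `al = f`: `A₁.erase c = A₂.erase c`. -/
theorem f06a_eq {N : Finset V} {q b z₁ z₂ : V} {P : Finset ℕ} {O : V → ℕ → Finset ℕ}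
    {A₁ A₂ : Finset ℕ} {f : ℕ} (hN : ∀ n, n ∈ N ↔ n = q ∨ n = b ∨ n = z₁ ∨ n = z₂)
    (hqb : q ≠ b) (hq1 : q ≠ z₁) (hq2 : q ≠ z₂) (hb1 : b ≠ z₁) (hb2 : b ≠ z₂) (h12 : z₁ ≠ z₂)
    (hb : ∀ α ∈ P, f ∈ O b α) (hA1 : 2 ≤ A₁.card) (hA2 : 2 ≤ A₂.card)
    (hz1 : ∀ α ∈ P, A₁.erase α ⊆ O z₁ α)
    (hz2 : ∀ α ∈ P, A₂.erase α ⊆ O z₂ α) {c : ℕ} (hc : c ∈ P) (hf : f ∉ P)
    (hn : c ∉ Comp N q P O f) : ∃ d, d ≠ c ∧ d ∈ A₁ ∧ d ∈ A₂ := by
  have hcf : c ≠ f := fun h => hf (h ▸ hc)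
  obtain ⟨w₁, hw₁⟩ := f06a_erase_nonempty hA1 c
  obtain ⟨w₂, hw₂⟩ := f06a_erase_nonempty hA2 c
  have h := (f06a_core hN hqb hq1 hq2 hb1 hb2 h12 hb hz1 hz2 hc hcf hn hw₁ hw₂).1 rfl
  subst h
  exact ⟨w₁, (Finset.mem_erase.mp hw₁).1, (Finset.mem_erase.mp hw₁).2, (Finset.mem_erase.mp hw₂).2⟩

/-- RA, mu = 0. Write `al` for the colour of `q`; `al` is bad if `Comp al = ∅`.
For `al ≠ f` and `c ∈ P.erase al`: if `c ∉ Comp al` then for all choices the colours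
`f, al, z₁, z₂` have no unique one, which forces `{(A₁).erase c, (A₂).erase c} = {{f}, {al}}`;
so (up to exchanging) `A₁ = {c, f}`, `A₂ = {c, al}`. This is impossible for two different `c`.
For `al = f`: `c ∉ Comp f` forces `(A₁).erase c = (A₂).erase c` to be a singleton `{d}`, so
`A₁ = A₂ = {c, d}`; if this holds for all `c ∈ P` then `P = A₁ = A₂` has two elements.
First claim: if `f` is bad then `A₁ = A₂ = P` does not contain `f`, so no `al ≠ f` is bad. If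
`al ≠ al'` are both bad and different from `f` then `P = {al, al'}` and
`{A₁, A₂} = {{al', f}, {al', al}} = {{al, f}, {al, al'}}`: impossible.
Second claim: suppose `ε ≠ f`. Then `P = {ε, c}`. Since `Comp al` is nonempty and contained in
`{al'}`, `al' ∈ P`, also `al ∈ P`; so `P = {al, al'}` and `ε = al` or `ε = al'`: contradiction,
because `Comp ε = ∅`. -/
theorem rev_RA0 {N : Finset V} {q b z₁ z₂ : V} {P : Finset ℕ} {O : V → ℕ → Finset ℕ}
    {A₁ A₂ : Finset ℕ} {f : ℕ} (hN : ∀ n, n ∈ N ↔ n = q ∨ n = b ∨ n = z₁ ∨ n = z₂)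
    (hqb : q ≠ b) (hq1 : q ≠ z₁) (hq2 : q ≠ z₂) (hb1 : b ≠ z₁) (hb2 : b ≠ z₂) (h12 : z₁ ≠ z₂)
    (hP : 2 ≤ P.card) (hf : f ∉ P) (hb : ∀ α ∈ P, f ∈ O b α)
    (hA1 : 2 ≤ A₁.card) (hA2 : 2 ≤ A₂.card) (hz1 : ∀ α ∈ P, A₁.erase α ⊆ O z₁ α)
    (hz2 : ∀ α ∈ P, A₂.erase α ⊆ O z₂ α) :
    (∀ al al', Comp N q P O al = ∅ → Comp N q P O al' = ∅ → al = al') ∧
    (∀ al al' ε, al ≠ al' → (Comp N q P O al).Nonempty → (Comp N q P O al').Nonempty →
      Comp N q P O al ⊆ {al'} → Comp N q P O al' ⊆ {al} → Comp N q P O ε = ∅ → ε = f) := by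
  have hne : ∀ al, Comp N q P O al = ∅ → al ≠ f → ∀ c ∈ P, c ≠ al → ∀ x,
      (x ∈ A₁ ∧ x ∈ A₂) ↔ x = c := by
    intro al hal haf c hc hca x
    exact f06a_ne hN hqb hq1 hq2 hb1 hb2 h12 hb hA1 hA2 hz1 hz2 hc hca (by rw [hal]; simp) haf x
  have heq : Comp N q P O f = ∅ → ∀ c ∈ P, ∃ d, d ≠ c ∧ d ∈ A₁ ∧ d ∈ A₂ := by
    intro h c hc
    exact f06a_eq hN hqb hq1 hq2 hb1 hb2 h12 hb hA1 hA2 hz1 hz2 hc hf (by rw [h]; simp)
  have hex : ∀ al, ∃ c ∈ P, c ≠ al := by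
    intro al
    obtain ⟨c, hc⟩ := f06a_erase_nonempty hP al
    exact ⟨c, (Finset.mem_erase.mp hc).2, (Finset.mem_erase.mp hc).1⟩
  have hmix : ∀ al, Comp N q P O al = ∅ → al ≠ f → Comp N q P O f = ∅ → False := by
    intro al hal haf hf0
    obtain ⟨c, hc, hca⟩ := hex al
    obtain ⟨d, hdc, hd⟩ := heq hf0 c hc
    exact hdc ((hne al hal haf c hc hca d).mp hd)
  constructor
  · intro al al' h h'
    by_contra hcon
    by_cases h1 : al = f
    · subst h1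
      exact hmix al' h' (fun h => hcon h.symm) h
    by_cases h2 : al' = f
    · subst h2
      exact hmix al h h1 h'
    -- both different from `f`
    have hall : ∀ c ∈ P, ∀ x, (x ∈ A₁ ∧ x ∈ A₂) ↔ x = c := by
      intro c hc x
      by_cases h3 : c = al
      · exact hne al' h' h2 c hc (fun h4 => hcon (h3.symm.trans h4)) x
      · exact hne al h h1 c hc h3 x
    obtain ⟨a, ha, c, hc, hac⟩ := Finset.one_lt_card.mp (show 1 < P.card by omega)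
    exact hac ((hall c hc a).mp ((hall a ha a).mpr rfl))
  · intro al al' ε hne' h1 h2 h3 h4 hε
    by_contra hεf
    have ha' : al' ∈ P := by
      obtain ⟨y, hy⟩ := h1
      have := Finset.mem_singleton.mp (h3 hy)
      rw [this] at hy
      unfold Comp at hy
      exact (Finset.mem_erase.mp (Finset.mem_filter.mp hy).1).2
    have ha : al ∈ P := by
      obtain ⟨y, hy⟩ := h2
      have := Finset.mem_singleton.mp (h4 hy)
      rw [this] at hy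
      unfold Comp at hy
      exact (Finset.mem_erase.mp (Finset.mem_filter.mp hy).1).2
    have e1 : al ≠ ε := by
      rintro rfl
      rw [hε] at h1
      exact Finset.not_nonempty_empty h1
    have e2 : al' ≠ ε := by
      rintro rfl
      rw [hε] at h2
      exact Finset.not_nonempty_empty h2
    exact hne' ((hne ε hε hεf al' ha' e2 al).mp ((hne ε hε hεf al ha e1 al).mpr rfl))

end Pool.Agent.Lib.MP_03175e_co
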