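import Pool.Agent.Lib.MP_03175e_co.F03

/-!
Row F06b: the reverse lemma, type QQ (mu = 1) (paper section 7, RA).
`N` = neighbourhood of `w`, `q` = the special neighbour with colour `al`, `b` the fixed
Y-neighbour (colour `f`), `z₁, z₂` two 1-threads, `o` a mu-object.
-/

namespace Pool.Agent.Lib.MP_03175e_co

open Finset Classical

variable {V : Type}

/-- no colour of the 5-tuple is unique -/
def F06b_NU (a b c d e : ℕ) : Prop :=
  (a = b ∨ a = c ∨ a = d ∨ a = e) ∧ (b = a ∨ b = c ∨ b = d ∨ b = e) ∧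
  (c = a ∨ c = b ∨ c = d ∨ c = e) ∧ (d = a ∨ d = b ∨ d = c ∨ d = e) ∧
  (e = a ∨ e = b ∨ e = c ∨ e = d)

/-- no colour of the 4-tuple is unique -/
def F06b_N4 (a b c d : ℕ) : Prop :=
  (a = b ∧ c = d) ∨ (a = c ∧ b = d) ∨ (a = d ∧ b = c)

theorem F06b_four {a b c d y y' : ℕ} (hy : y ≠ y') (h : F06b_NU a b c d y)
    (h' : F06b_NU a b c d y') : F06b_N4 a b c d := by
  unfold F06b_NU at h h'
  unfold F06b_N4
  grind

theorem F06b_three {a b c x x' : ℕ} (hx : x ≠ x') (h : F06b_N4 a b c x)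
    (h' : F06b_N4 a b c x') : False := by
  unfold F06b_N4 at h h'
  omega

theorem F06b_a {f al be e e' : ℕ} (hne : al ≠ be) (h : F06b_N4 al f e e')
    (h' : F06b_N4 be f e e') : False := by
  unfold F06b_N4 at h h'
  omega

theorem F06b_perm1 {a b c d e : ℕ} (h : F06b_NU a b c d e) : F06b_NU a b c e d := by
  unfold F06b_NU at *
  grind

theorem F06b_perm2 {a b c d e : ℕ} (h : F06b_NU a b c d e) : F06b_NU a b d e c := by
  unfold F06b_NU at *
  grind

theorem F06b_ex2 {S : Finset ℕ} (hne : S.Nonempty) (h : S.card ≠ 1) :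
    ∃ x ∈ S, ∃ y ∈ S, x ≠ y := by
  have h1 : 1 < S.card := by
    have := Finset.card_pos.2 hne
    omega
  obtain ⟨x, hx, y, hy, hxy⟩ := Finset.one_lt_card.1 h1
  exact ⟨x, hx, y, hy, hxy⟩

theorem F06b_pair {S1 S2 S3 : Finset ℕ} (hne1 : S1.Nonempty) (hne2 : S2.Nonempty)
    (hne3 : S3.Nonempty) {cw f : ℕ}
    (h : ∀ x ∈ S1, ∀ y ∈ S2, ∀ z ∈ S3, F06b_NU cw f x y z) (h2 : S2.card ≠ 1)
    (h3 : S3.card ≠ 1) : False := by
  obtain ⟨x, hx⟩ := hne1
  obtain ⟨y, hy, y', hy', hyy⟩ := F06b_ex2 hne2 h2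
  obtain ⟨z, hz, z', hz', hzz⟩ := F06b_ex2 hne3 h3
  exact F06b_three hyy (F06b_four hzz (h x hx y hy z hz) (h x hx y hy z' hz'))
    (F06b_four hzz (h x hx y' hy' z hz) (h x hx y' hy' z' hz'))

/-- the indicator of a rigid set -/
noncomputable def F06b_i (S : Finset ℕ) : ℕ := if S.card = 1 then 1 else 0

theorem F06b_one {S1 S2 S3 : Finset ℕ} (hne1 : S1.Nonempty) (hne2 : S2.Nonempty)
    (hne3 : S3.Nonempty) {cw f : ℕ}
    (h : ∀ x ∈ S1, ∀ y ∈ S2, ∀ z ∈ S3, F06b_NU cw f x y z) :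
    2 ≤ F06b_i S1 + F06b_i S2 + F06b_i S3 := by
  unfold F06b_i
  by_cases h1 : S1.card = 1 <;> by_cases h2 : S2.card = 1 <;> by_cases h3 : S3.card = 1 <;>
    simp only [h1, h2, h3, if_true, if_false, le_refl] <;> first
    | omega
    | exact (F06b_pair hne1 hne2 hne3 h h2 h3).elim
    | exact (F06b_pair hne2 hne3 hne1
        (fun y hy z hz x hx => F06b_perm2 (h x hx y hy z hz)) h3 h1).elim
    | exact (F06b_pair hne3 hne1 hne2
        (fun z hz x hx y hy => F06b_perm2 (F06b_perm2 (h x hx y hy z hz))) h1 h2).elim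

theorem F06b_last {S1 S2 S3 : Finset ℕ} (hne1 : S1.Nonempty) (hne2 : S2.Nonempty)
    (hne3 : S3.Nonempty) {al be f : ℕ} (hab : al ≠ be)
    (h : ∀ x ∈ S1, ∀ y ∈ S2, ∀ z ∈ S3, F06b_NU al f x y z)
    (h' : ∀ x ∈ S1, ∀ y ∈ S2, ∀ z ∈ S3, F06b_NU be f x y z) : S3.card = 1 := by
  by_contra h3
  obtain ⟨x, hx⟩ := hne1
  obtain ⟨y, hy⟩ := hne2
  obtain ⟨z, hz, z', hz', hzz⟩ := F06b_ex2 hne3 h3
  exact F06b_a hab (F06b_four hzz (h x hx y hy z hz) (h x hx y hy z' hz'))
    (F06b_four hzz (h' x hx y hy z hz) (h' x hx y hy z' hz'))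

theorem F06b_two {S1 S2 S3 : Finset ℕ} (hne1 : S1.Nonempty) (hne2 : S2.Nonempty)
    (hne3 : S3.Nonempty) {al be f : ℕ} (hab : al ≠ be)
    (h : ∀ x ∈ S1, ∀ y ∈ S2, ∀ z ∈ S3, F06b_NU al f x y z)
    (h' : ∀ x ∈ S1, ∀ y ∈ S2, ∀ z ∈ S3, F06b_NU be f x y z) :
    3 ≤ F06b_i S1 + F06b_i S2 + F06b_i S3 := by
  have e3 := F06b_last hne1 hne2 hne3 hab h h'
  have e1 := F06b_last hne2 hne3 hne1 hab (fun y hy z hz x hx => F06b_perm2 (h x hx y hy z hz))
    (fun y hy z hz x hx => F06b_perm2 (h' x hx y hy z hz))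
  have e2 := F06b_last hne3 hne1 hne2 hab
    (fun z hz x hx y hy => F06b_perm2 (F06b_perm2 (h x hx y hy z hz)))
    (fun z hz x hx y hy => F06b_perm2 (F06b_perm2 (h' x hx y hy z hz)))
  simp [F06b_i, e1, e2, e3]

theorem F06b_sum_erase {P A : Finset ℕ} (hA : 2 ≤ A.card) :
    ∑ c ∈ P, F06b_i (A.erase c) ≤ 2 := by
  unfold F06b_i
  rw [← Finset.card_filter]
  by_cases h2 : A.card = 2
  · refine (Finset.card_le_card (t := A) ?_).trans h2.le
    intro c hc
    by_contra hcA
    have := (Finset.mem_filter.1 hc).2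
    rw [Finset.erase_eq_of_notMem hcA] at this
    omega
  · have : (P.filter fun c => (A.erase c).card = 1) = ∅ := by
      refine Finset.filter_eq_empty_iff.2 fun c _ h => ?_
      have := Finset.pred_card_le_card_erase (s := A) (a := c)
      omega
    rw [this]
    simp

theorem F06b_count {P A₁ A₂ T : Finset ℕ} {Oo : ℕ → Finset ℕ} {al be : ℕ}
    (hP : 3 ≤ P.card) (hA1 : 2 ≤ A₁.card) (hA2 : 2 ≤ A₂.card)
    (hT : T.card ≤ 2) (hT2 : ∀ α ∈ P, α ∉ T → 2 ≤ (Oo α).card)
    (h : ∀ c ∈ P, 3 ≤ F06b_i (A₁.erase c) + F06b_i (A₂.erase c) + F06b_i (Oo c) +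
      (if c = al then 1 else 0) + (if c = be then 1 else 0)) : False := by
  have h1 := F06b_sum_erase (P := P) hA1
  have h2 := F06b_sum_erase (P := P) hA2
  have h3 : ∑ c ∈ P, F06b_i (Oo c) ≤ 2 := by
    unfold F06b_i
    rw [← Finset.card_filter]
    refine (Finset.card_le_card (t := T) ?_).trans hT
    intro c hc
    by_contra hcT
    have h4 := Finset.mem_filter.1 hc
    have := hT2 c h4.1 hcT
    omega
  have h4 : ∀ x : ℕ, ∑ c ∈ P, (if c = x then 1 else 0) ≤ 1 := by
    intro x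
    rw [Finset.sum_ite_eq']
    split_ifs <;> simp
  have h5 := Finset.sum_le_sum h
  simp only [Finset.sum_add_distrib, Finset.sum_const, smul_eq_mul] at h5
  have h6 := h4 al
  have h7 := h4 be
  omega

/-- RA, mu = 1 (`o` = the mu-object, tight only for the colours of `T`, `T.card ≤ 2`).
`n(c)` = number of `m ∈ {z₁, z₂, o}` with `(O m c).card = 1` (`z_i` tight at `c` only if
`(A_i).card = 2`, `c ∈ A_i`); `∑_{c ∈ P} n(c) ≤ 6`. If `c ≠ al` and `n(c) ≤ 1` then `c ∈ Comp al`
(`mem_Comp`). If `n(c) = 2` with forced colours `e, e'` and `f, al, e, e'` have a unique one, then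
`c ∈ Comp al` (`cf_extend`).
(a) For `al ≠ be` it is impossible that both `f, al, e, e'` and `f, be, e, e'` have no unique
colour.
First claim: `al ≠ be` both bad. `c ∈ P \ {al, be}` has `n(c) = 3` (by (a)); `c ∈ P ∩ {al, be}`
has `n(c) ≥ 2` (it is bad for the other one). As `3 ≤ P.card` the sum is at least 7.
Second claim (the hypotheses are contradictory): `al, al' ∈ P` as in `rev_RA0`. All
`c ∈ P \ {al, al'}` are bad for `al` and `al'`, `al` and `al'` are bad for `ε` (`ε ≠ al, al'`), so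
`n ≥ 2` on `P`; hence `P.card = 3`, `n = 2` on `P`, and for the third element `c` (a) gives a
contradiction. -/
theorem rev_RA1 {N : Finset V} {q b z₁ z₂ o : V} {P : Finset ℕ} {O : V → ℕ → Finset ℕ}
    {A₁ A₂ T : Finset ℕ} {f : ℕ}
    (hN : ∀ n, n ∈ N ↔ n = q ∨ n = b ∨ n = z₁ ∨ n = z₂ ∨ n = o)
    (hqb : q ≠ b) (hq1 : q ≠ z₁) (hq2 : q ≠ z₂) (hqo : q ≠ o) (hb1 : b ≠ z₁) (hb2 : b ≠ z₂)
    (hbo : b ≠ o) (h12 : z₁ ≠ z₂) (h1o : z₁ ≠ o) (h2o : z₂ ≠ o)
    (hP : 3 ≤ P.card) (hf : f ∉ P) (hb : ∀ α ∈ P, f ∈ O b α)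
    (hA1 : 2 ≤ A₁.card) (hA2 : 2 ≤ A₂.card) (hz1 : ∀ α ∈ P, A₁.erase α ⊆ O z₁ α)
    (hz2 : ∀ α ∈ P, A₂.erase α ⊆ O z₂ α) (hne : ∀ α ∈ P, (O o α).Nonempty)
    (hT : T.card ≤ 2) (hT2 : ∀ α ∈ P, α ∉ T → 2 ≤ (O o α).card) :
    (∀ al al', Comp N q P O al = ∅ → Comp N q P O al' = ∅ → al = al') ∧
    (∀ al al' ε, al ≠ al' → (Comp N q P O al).Nonempty → (Comp N q P O al').Nonempty →
      Comp N q P O al ⊆ {al'} → Comp N q P O al' ⊆ {al} → Comp N q P O ε = ∅ → ε = f) := by
  have hcard : ∀ c, (A₁.erase c).Nonempty ∧ (A₂.erase c).Nonempty := by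
    intro c
    constructor
    · refine Finset.card_pos.1 ?_
      have := Finset.pred_card_le_card_erase (s := A₁) (a := c)
      omega
    · refine Finset.card_pos.1 ?_
      have := Finset.pred_card_le_card_erase (s := A₂) (a := c)
      omega
  have key : ∀ c ∈ P, ∀ cw, c ≠ cw → c ∉ Comp N q P O cw →
      ∀ x ∈ A₁.erase c, ∀ y ∈ A₂.erase c, ∀ z ∈ O o c, F06b_NU cw f x y z := by
    intro c hc cw hcw hbad x hx y hy z hz
    have hx' := hz1 c hc hx
    have hy' := hz2 c hc hy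
    have hf' := hb c hc
    set e : V → ℕ := fun n => if n = q then cw else if n = b then f else
      if n = z₁ then x else if n = z₂ then y else z with he
    have eq : e q = cw := by simp [he]
    have eb : e b = f := by simp [he, hqb.symm]
    have e1 : e z₁ = x := by simp [he, hq1.symm, hb1.symm]
    have e2 : e z₂ = y := by simp [he, hq2.symm, hb2.symm, h12.symm]
    have eo : e o = z := by simp [he, hqo.symm, hbo.symm, h1o.symm, h2o.symm]
    have hncf : ¬ CF N e := by
      intro hcf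
      refine hbad (Finset.mem_filter.2 ⟨Finset.mem_erase.2 ⟨hcw, hc⟩, e, eq, ?_, hcf⟩)
      intro n hn
      have hn' := (hN n).1 (Finset.mem_of_mem_erase hn)
      rcases hn' with h | h | h | h | h
      · exact absurd h (Finset.ne_of_mem_erase hn)
      · rw [h, eb]; exact hf'
      · rw [h, e1]; exact hx'
      · rw [h, e2]; exact hy'
      · rw [h, eo]; exact hz
    have hall : ∀ u ∈ N, ∃ v, (v = q ∨ v = b ∨ v = z₁ ∨ v = z₂ ∨ v = o) ∧ e v = e u ∧ v ≠ u := by
      intro u hu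
      by_contra hcon
      refine hncf ⟨u, hu, fun v hv hev => ?_⟩
      by_contra hvu
      exact hcon ⟨v, (hN v).1 hv, hev, hvu⟩
    refine ⟨?_, ?_, ?_, ?_, ?_⟩
    · obtain ⟨v, hv, hev, hvu⟩ := hall q ((hN q).2 (Or.inl rfl))
      rw [eq] at hev
      rcases hv with h | h | h | h | h
      · exact absurd h hvu
      · rw [h, eb] at hev; omega
      · rw [h, e1] at hev; omega
      · rw [h, e2] at hev; omega
      · rw [h, eo] at hev; omega
    · obtain ⟨v, hv, hev, hvu⟩ := hall b ((hN b).2 (by simp))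
      rw [eb] at hev
      rcases hv with h | h | h | h | h
      · rw [h, eq] at hev; omega
      · exact absurd h hvu
      · rw [h, e1] at hev; omega
      · rw [h, e2] at hev; omega
      · rw [h, eo] at hev; omega
    · obtain ⟨v, hv, hev, hvu⟩ := hall z₁ ((hN z₁).2 (by simp))
      rw [e1] at hev
      rcases hv with h | h | h | h | h
      · rw [h, eq] at hev; omega
      · rw [h, eb] at hev; omega
      · exact absurd h hvu
      · rw [h, e2] at hev; omega
      · rw [h, eo] at hev; omega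
    · obtain ⟨v, hv, hev, hvu⟩ := hall z₂ ((hN z₂).2 (by simp))
      rw [e2] at hev
      rcases hv with h | h | h | h | h
      · rw [h, eq] at hev; omega
      · rw [h, eb] at hev; omega
      · rw [h, e1] at hev; omega
      · exact absurd h hvu
      · rw [h, eo] at hev; omega
    · obtain ⟨v, hv, hev, hvu⟩ := hall o ((hN o).2 (by simp))
      rw [eo] at hev
      rcases hv with h | h | h | h | h
      · rw [h, eq] at hev; omega
      · rw [h, eb] at hev; omega
      · rw [h, e1] at hev; omega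
      · rw [h, e2] at hev; omega
      · exact absurd h hvu
  constructor
  · intro al al' h h'
    by_contra hne'
    refine F06b_count (al := al) (be := al') (Oo := O o) hP hA1 hA2 hT hT2 fun c hc => ?_
    by_cases hca : c = al
    · have hcb : c ≠ al' := by rintro rfl; exact hne' hca.symm
      have h1 := F06b_one (hcard c).1 (hcard c).2 (hne c hc)
        (key c hc al' hcb (by rw [h']; simp))
      rw [if_pos hca]
      omega
    · by_cases hcb : c = al'
      · have h1 := F06b_one (hcard c).1 (hcard c).2 (hne c hc)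
          (key c hc al hca (by rw [h]; simp))
        rw [if_pos hcb]
        omega
      · have h1 := F06b_two (hcard c).1 (hcard c).2 (hne c hc) hne'
          (key c hc al hca (by rw [h]; simp)) (key c hc al' hcb (by rw [h']; simp))
        omega
  · intro al al' ε hne' hn hn' hs hs' hε
    exfalso
    have hal : al' ∈ P := by
      obtain ⟨c, hc⟩ := hn
      have hc' := hs hc
      rw [Finset.mem_singleton] at hc'
      rw [hc'] at hc
      exact Finset.mem_of_mem_erase (Finset.mem_filter.1 hc).1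
    have hal' : al ∈ P := by
      obtain ⟨c, hc⟩ := hn'
      have hc' := hs' hc
      rw [Finset.mem_singleton] at hc'
      rw [hc'] at hc
      exact Finset.mem_of_mem_erase (Finset.mem_filter.1 hc).1
    have hεa : al ≠ ε := by
      rintro rfl
      rw [hε] at hn
      exact Finset.not_nonempty_empty hn
    have hεb : al' ≠ ε := by
      rintro rfl
      rw [hε] at hn'
      exact Finset.not_nonempty_empty hn'
    refine F06b_count (al := al) (be := al') (Oo := O o) hP hA1 hA2 hT hT2 fun c hc => ?_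
    by_cases hca : c = al
    · have h1 := F06b_one (hcard c).1 (hcard c).2 (hne c hc)
        (key c hc ε (by rw [hca]; exact hεa) (by rw [hε]; simp))
      rw [if_pos hca]
      omega
    · by_cases hcb : c = al'
      · have h1 := F06b_one (hcard c).1 (hcard c).2 (hne c hc)
          (key c hc ε (by rw [hcb]; exact hεb) (by rw [hε]; simp))
        rw [if_pos hcb]
        omega
      · have h1 := F06b_two (hcard c).1 (hcard c).2 (hne c hc) hne'
          (key c hc al hca (fun h => hcb (Finset.mem_singleton.1 (hs h))))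
          (key c hc al' hcb (fun h => hca (Finset.mem_singleton.1 (hs' h))))
        omega

end Pool.Agent.Lib.MP_03175e_co
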