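import Pool.Agent.Lib.MP_03175e_co.F03

/-!
Row F07a: the reverse lemma, types L5', L5t (paper section 7, RB), `f₁ ≠ f₂`.
`N` = neighbourhood of `w`, `q` = the special neighbour with colour `al`, `b₁, b₂` the fixed
Y-neighbours (colours `f₁, f₂`), `Mu` = mu-objects (tight only for the colours in `T m`).
-/

namespace Pool.Agent.Lib.MP_03175e_co

open Finset Classical

variable {V : Type}

/-- Colours on `q, b₁, b₂` and on the rigid objects with a unique colour give a completion. -/
private theorem F07a_key {N Mu : Finset V} {q b₁ b₂ : V} {P : Finset ℕ} {O : V → ℕ → Finset ℕ}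
    {T : V → Finset ℕ} {f₁ f₂ : ℕ}
    (hN : ∀ n, n ∈ N ↔ n = q ∨ n = b₁ ∨ n = b₂ ∨ n ∈ Mu) (hq1 : q ≠ b₁) (hq2 : q ≠ b₂)
    (h12 : b₁ ≠ b₂) (hqM : q ∉ Mu) (h1M : b₁ ∉ Mu) (h2M : b₂ ∉ Mu)
    (hb1 : ∀ α ∈ P, f₁ ∈ O b₁ α) (hb2 : ∀ α ∈ P, f₂ ∈ O b₂ α)
    (hT : ∀ m ∈ Mu, (T m).card ≤ 2 ∧ ∀ α ∈ P, α ∉ T m → 2 ≤ (O m α).card)
    {al c : ℕ} (hc : c ∈ P) (hcal : c ≠ al) (g : V → ℕ)
    (hg : ∀ m ∈ Mu, g m ∈ O m c)
    (h : CF (insert q (insert b₁ (insert b₂ (Mu.filter fun m => c ∈ T m))))
      (fun n => if n = q then al else if n = b₁ then f₁ else if n = b₂ then f₂ else g n)) :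
    c ∈ Comp N q P O al := by
  obtain ⟨e, he0, heN, hcf⟩ := cf_extend (N := N)
    (R := insert q (insert b₁ (insert b₂ (Mu.filter fun m => c ∈ T m))))
    (O := fun n => if n = q then {al} else if n = b₁ then {f₁} else if n = b₂ then {f₂}
      else O n c)
    (e₀ := fun n => if n = q then al else if n = b₁ then f₁ else if n = b₂ then f₂ else g n)
    (by
      intro n hn
      rw [hN]
      simp only [mem_insert, mem_filter] at hn
      tauto)
    (by
      intro n hn
      simp only [mem_insert, mem_filter] at hn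
      by_cases h1 : n = q
      · simp [h1]
      · by_cases h2 : n = b₁
        · subst h2
          simp [Ne.symm hq1]
        · by_cases h3 : n = b₂
          · subst h3
            simp [Ne.symm hq2, Ne.symm h12]
          · have h4 : n ∈ Mu := by tauto
            simp only [h1, h2, h3, if_false]
            exact hg n h4)
    h
    (by
      intro n hn
      rw [mem_sdiff, hN] at hn
      simp only [mem_insert, mem_filter, not_or] at hn
      obtain ⟨h1, h2, h3, h4, h5⟩ := hn
      have h6 : n ∈ Mu := by tauto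
      simp only [h2, h3, h4, if_false]
      exact (hT n h6).2 c hc (fun h7 => h5 ⟨h6, h7⟩))
  simp only [Comp, mem_filter, mem_erase]
  refine ⟨⟨hcal, hc⟩, e, ?_, ?_, hcf⟩
  · have := heN q ((hN q).2 (Or.inl rfl))
    simpa using this
  · intro n hn
    have h1 : n ≠ q := hn.1
    have h2 : n ∈ N := hn.2
    have h3 := heN n h2
    simp only [h1, if_false] at h3
    by_cases h4 : n = b₁
    · subst h4
      simp only [if_true, mem_singleton] at h3
      rw [h3]; exact hb1 c hc
    · by_cases h5 : n = b₂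
      · subst h5
        simp only [h4, if_false, if_true, mem_singleton] at h3
        rw [h3]; exact hb2 c hc
      · simp only [h4, h5, if_false] at h3
        exact h3

/-- RB with `f₁ ≠ f₂`. `n(c)` = number of `m ∈ Mu` with `(O m c).card = 1` (so `c ∈ T m`);
`∑_{c ∈ P} n(c) ≤ 2 * Mu.card` (see `bad_le`). `al` is bad if `Comp al = ∅`.
(1) If `al ∉ {f₁, f₂}` then `al` is not bad: if some `c ∈ P.erase al` has `n(c) ≤ 1`: colours
`f₁, f₂, al` (and at most one forced `e`): the first three are different, so some colour is unique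
(`cf_extend`, or `mem_Comp` if `n(c) = 0`). Otherwise `n ≥ 2` on `P.erase al`, which has at least
`Mu.card ≥ 1` elements; so some `c ∈ P.erase al` has `n(c) = 2` and the five colours
`f₁, f₂, al, e, e'` have a unique one (three different, two others): `c ∈ Comp al`.
(2) Some `c ∈ P` has `n(c) ≤ 1` (`Mu.card + 1 ≤ P.card`). If `f₁` is bad: `n(c) = 0` is
impossible (`mem_Comp`), so `n(c) = 1` and the forced colour is `e = f₂` (otherwise
`f₁, f₂, f₁, e` has a unique colour). If `f₂` is bad: `e = f₁`. Not both. -/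
theorem rev_RB1 {N Mu : Finset V} {q b₁ b₂ : V} {P : Finset ℕ} {O : V → ℕ → Finset ℕ}
    {T : V → Finset ℕ} {f₁ f₂ : ℕ}
    (hN : ∀ n, n ∈ N ↔ n = q ∨ n = b₁ ∨ n = b₂ ∨ n ∈ Mu) (hq1 : q ≠ b₁) (hq2 : q ≠ b₂)
    (h12 : b₁ ≠ b₂) (hqM : q ∉ Mu) (h1M : b₁ ∉ Mu) (h2M : b₂ ∉ Mu) (hM : 1 ≤ Mu.card)
    (hP : Mu.card + 1 ≤ P.card) (hf1 : f₁ ∉ P) (hf2 : f₂ ∉ P) (hf : f₁ ≠ f₂)
    (hb1 : ∀ α ∈ P, f₁ ∈ O b₁ α) (hb2 : ∀ α ∈ P, f₂ ∈ O b₂ α)
    (hne : ∀ m ∈ Mu, ∀ α ∈ P, (O m α).Nonempty)
    (hT : ∀ m ∈ Mu, (T m).card ≤ 2 ∧ ∀ α ∈ P, α ∉ T m → 2 ≤ (O m α).card) :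
    (∀ al al', Comp N q P O al = ∅ → Comp N q P O al' = ∅ → al = al') ∧
    (∀ ε, Comp N q P O ε = ∅ → ε = f₁ ∨ ε = f₂) := by
  have hsum : ∑ n ∈ Mu, (T n).card ≤ 2 * Mu.card := by
    calc ∑ n ∈ Mu, (T n).card ≤ ∑ n ∈ Mu, 2 := Finset.sum_le_sum fun m hm => (hT m hm).1
      _ = 2 * Mu.card := by rw [sum_const, smul_eq_mul, mul_comm]
  -- (1)
  have h1 : ∀ al, al ≠ f₁ → al ≠ f₂ → Comp N q P O al ≠ ∅ := by
    intro al ha1 ha2
    obtain ⟨c, hcP, hc3⟩ : ∃ c ∈ P.erase al, (Mu.filter fun n => c ∈ T n).card < 3 := by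
      by_contra hcon
      push Not at hcon
      have h := bad_le Mu (P.erase al) T 3
      have h' : ((P.erase al).filter fun α => 3 ≤ (Mu.filter fun n => α ∈ T n).card) =
          P.erase al := filter_true_of_mem hcon
      rw [h'] at h
      have h'' : Mu.card ≤ (P.erase al).card := by
        have := pred_card_le_card_erase (s := P) (a := al)
        omega
      omega
    have hcal : c ≠ al := (mem_erase.1 hcP).1
    have hc : c ∈ P := (mem_erase.1 hcP).2
    choose! g hg using fun m hm => hne m hm c hc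
    refine ne_empty_of_mem (F07a_key hN hq1 hq2 h12 hqM h1M h2M hb1 hb2 hT hc hcal g hg ?_)
    set S := Mu.filter fun n => c ∈ T n with hS
    have hSM : ∀ m ∈ S, m ∈ Mu := fun m hm => (mem_filter.1 hm).1
    -- one of the three colours is not in `S.image g`
    obtain ⟨x, hx3, hxS⟩ : ∃ x ∈ ({al, f₁, f₂} : Finset ℕ), x ∉ S.image g := by
      by_contra hcon
      push Not at hcon
      have h := card_le_card (fun x hx => hcon x hx : ({al, f₁, f₂} : Finset ℕ) ⊆ S.image g)
      rw [card_eq_three.2 ⟨al, f₁, f₂, ha1, ha2, hf, rfl⟩] at h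
      have h' : (S.image g).card ≤ S.card := card_image_le
      omega
    have hne' : ∀ m ∈ S, g m ≠ x := fun m hm h => hxS (mem_image.2 ⟨m, hm, h⟩)
    simp only [mem_insert, mem_singleton] at hx3
    rcases hx3 with rfl | rfl | rfl
    · refine ⟨q, by simp, ?_⟩
      intro v hv hv2
      simp only [mem_insert] at hv
      by_contra hvq
      simp only [hvq, if_false, if_true] at hv2
      by_cases hv1 : v = b₁
      · simp only [hv1, if_true] at hv2; exact ha1 hv2.symm
      · by_cases hv3 : v = b₂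
        · simp only [hv3, Ne.symm h12, if_false, if_true] at hv2; exact ha2 hv2.symm
        · simp only [hv1, hv3, if_false] at hv2
          exact hne' v (by tauto) hv2
    · refine ⟨b₁, by simp, ?_⟩
      intro v hv hv2
      simp only [mem_insert] at hv
      by_contra hv1
      simp only [Ne.symm hq1, if_false, if_true] at hv2
      by_cases hvq : v = q
      · simp only [hvq, if_true] at hv2; exact ha1 hv2
      · by_cases hv3 : v = b₂
        · simp only [hv3, Ne.symm h12, Ne.symm hq2, if_false, if_true] at hv2; exact hf hv2.symm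
        · simp only [hv1, hv3, hvq, if_false] at hv2
          exact hne' v (by tauto) hv2
    · refine ⟨b₂, by simp, ?_⟩
      intro v hv hv2
      simp only [mem_insert] at hv
      by_contra hv3
      simp only [Ne.symm hq2, Ne.symm h12, if_false, if_true] at hv2
      by_cases hvq : v = q
      · simp only [hvq, if_true] at hv2; exact ha2 hv2
      · by_cases hv1 : v = b₁
        · simp only [hv1, Ne.symm hq1, if_false, if_true] at hv2; exact hf hv2
        · simp only [hv1, hv3, hvq, if_false] at hv2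
          exact hne' v (by tauto) hv2
  -- (2)
  have h2 : Comp N q P O f₁ = ∅ → Comp N q P O f₂ = ∅ → False := by
    intro hB1 hB2
    obtain ⟨c, hc, hc2⟩ : ∃ c ∈ P, (Mu.filter fun n => c ∈ T n).card < 2 := by
      by_contra hcon
      push Not at hcon
      have h := bad_le Mu P T 2
      rw [filter_true_of_mem hcon] at h
      omega
    have hcf1 : c ≠ f₁ := fun h => hf1 (h ▸ hc)
    have hcf2 : c ≠ f₂ := fun h => hf2 (h ▸ hc)
    choose! g hg using fun m hm => hne m hm c hc
    have key1 := fun h => ne_empty_of_mem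
      (F07a_key hN hq1 hq2 h12 hqM h1M h2M hb1 hb2 hT hc hcf1 g hg h) hB1
    have key2 := fun h => ne_empty_of_mem
      (F07a_key hN hq1 hq2 h12 hqM h1M h2M hb1 hb2 hT hc hcf2 g hg h) hB2
    set S := Mu.filter fun n => c ∈ T n with hS
    have hSM : ∀ m ∈ S, m ∈ Mu := fun m hm => (mem_filter.1 hm).1
    -- some element of `S` has colour `f₂`
    have e1 : ∃ m ∈ S, g m = f₂ := by
      by_contra hcon
      push Not at hcon
      refine key1 ⟨b₂, by simp, ?_⟩
      intro v hv hv2
      simp only [mem_insert] at hv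
      by_contra hv3
      simp only [Ne.symm hq2, Ne.symm h12, if_false, if_true] at hv2
      by_cases hvq : v = q
      · simp only [hvq, if_true] at hv2; exact hf hv2
      · by_cases hv1 : v = b₁
        · simp only [hv1, Ne.symm hq1, if_false, if_true] at hv2; exact hf hv2
        · simp only [hv1, hv3, hvq, if_false] at hv2
          exact hcon v (by tauto) hv2
    have e2 : ∃ m ∈ S, g m = f₁ := by
      by_contra hcon
      push Not at hcon
      refine key2 ⟨b₁, by simp, ?_⟩
      intro v hv hv2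
      simp only [mem_insert] at hv
      by_contra hv1
      simp only [Ne.symm hq1, if_false, if_true] at hv2
      by_cases hvq : v = q
      · simp only [hvq, if_true] at hv2; exact hf hv2.symm
      · by_cases hv3 : v = b₂
        · simp only [hv3, Ne.symm h12, Ne.symm hq2, if_false, if_true] at hv2; exact hf hv2.symm
        · simp only [hv1, hv3, hvq, if_false] at hv2
          exact hcon v (by tauto) hv2
    obtain ⟨m, hm, hm2⟩ := e1
    obtain ⟨m', hm', hm2'⟩ := e2
    have : m = m' := card_le_one.1 (by omega) m hm m' hm'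
    subst this
    exact hf (hm2'.symm.trans hm2)
  have h3 : ∀ ε, Comp N q P O ε = ∅ → ε = f₁ ∨ ε = f₂ := by
    intro ε hε
    by_contra hcon
    push Not at hcon
    exact h1 ε hcon.1 hcon.2 hε
  refine ⟨?_, h3⟩
  intro al al' ha ha'
  rcases h3 al ha with rfl | rfl
  · rcases h3 al' ha' with rfl | rfl
    · rfl
    · exact absurd (h2 ha ha') id
  · rcases h3 al' ha' with rfl | rfl
    · exact absurd (h2 ha' ha) id
    · rfl

end Pool.Agent.Lib.MP_03175e_co
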