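import Pool.Agent.Lib.MP_03175e_co.F03

/-!
Row F07b: the reverse lemma, types L5', L5t (paper section 7, RB), `f₁ = f₂`.
`N` = neighbourhood of `w`, `q` = the special neighbour with colour `al`, `b₁, b₂` the fixed
Y-neighbours (colour `f`), `Mu` = mu-objects (tight only for the colours in `T m`).
-/

namespace Pool.Agent.Lib.MP_03175e_co

open Finset Classical

variable {V : Type}

/-- the number of tight mu-objects -/
private noncomputable def nt (Mu : Finset V) (O : V → ℕ → Finset ℕ) (c : ℕ) : ℕ :=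
  (Mu.filter fun m => (O m c).card = 1).card

private theorem nt_sum {Mu : Finset V} {P : Finset ℕ} {O : V → ℕ → Finset ℕ} {T : V → Finset ℕ}
    (hT : ∀ m ∈ Mu, (T m).card ≤ 2 ∧ ∀ α ∈ P, α ∉ T m → 2 ≤ (O m α).card) :
    ∑ c ∈ P, nt Mu O c ≤ 2 * Mu.card := by
  have h1 : ∑ c ∈ P, nt Mu O c ≤ ∑ c ∈ P, ∑ m ∈ Mu, (if c ∈ T m then 1 else 0) := by
    refine Finset.sum_le_sum fun c hc => ?_
    unfold nt
    rw [Finset.card_filter]
    refine Finset.sum_le_sum fun m hm => ?_
    by_cases hcT : c ∈ T m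
    · simp only [hcT, if_true]
      split_ifs <;> omega
    · have := (hT m hm).2 c hc hcT
      simp only [hcT, if_false]
      rw [if_neg (by omega)]
  refine h1.trans ?_
  rw [Finset.sum_comm]
  calc ∑ m ∈ Mu, ∑ c ∈ P, (if c ∈ T m then 1 else 0) ≤ ∑ m ∈ Mu, 2 := by
        refine Finset.sum_le_sum fun m hm => ?_
        rw [← Finset.card_filter]
        refine le_trans (Finset.card_le_card ?_) (hT m hm).1
        intro c hc
        exact (Finset.mem_filter.1 hc).2
    _ = 2 * Mu.card := by rw [Finset.sum_const, smul_eq_mul, mul_comm]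

section keys

variable {N Mu : Finset V} {q b₁ b₂ : V} {P : Finset ℕ} {O : V → ℕ → Finset ℕ} {f : ℕ}

private theorem key_card (hN : ∀ n, n ∈ N ↔ n = q ∨ n = b₁ ∨ n = b₂ ∨ n ∈ Mu) (hq1 : q ≠ b₁)
    (hq2 : q ≠ b₂) (h12 : b₁ ≠ b₂) (hqM : q ∉ Mu) (h1M : b₁ ∉ Mu) (h2M : b₂ ∉ Mu)
    (hM : 1 ≤ Mu.card) : 4 ≤ N.card := by
  have hNe : N = insert q (insert b₁ (insert b₂ Mu)) := by
    ext n
    rw [hN n]
    simp only [Finset.mem_insert]
  rw [hNe, Finset.card_insert_of_notMem, Finset.card_insert_of_notMem, Finset.card_insert_of_notMem h2M]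
  · omega
  · simp only [Finset.mem_insert, not_or]
    exact ⟨h12, h1M⟩
  · simp only [Finset.mem_insert, not_or]
    exact ⟨hq1, hq2, hqM⟩

/-- no tight object -/
private theorem key0 (hN : ∀ n, n ∈ N ↔ n = q ∨ n = b₁ ∨ n = b₂ ∨ n ∈ Mu) (hq1 : q ≠ b₁)
    (hq2 : q ≠ b₂) (h12 : b₁ ≠ b₂) (hqM : q ∉ Mu) (h1M : b₁ ∉ Mu) (h2M : b₂ ∉ Mu)
    (hM : 1 ≤ Mu.card) (hb1 : ∀ α ∈ P, f ∈ O b₁ α) (hb2 : ∀ α ∈ P, f ∈ O b₂ α)
    (hne : ∀ m ∈ Mu, ∀ α ∈ P, (O m α).Nonempty) {al c : ℕ} (hc : c ∈ P) (hcal : c ≠ al)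
    (hn : nt Mu O c = 0) : c ∈ Comp N q P O al := by
  have hn' : ∀ m ∈ Mu, (O m c).card ≠ 1 := by
    intro m hm h
    have : m ∈ Mu.filter fun m => (O m c).card = 1 := Finset.mem_filter.2 ⟨hm, h⟩
    exact Finset.ne_empty_of_mem this (Finset.card_eq_zero.1 hn)
  refine mem_Comp (R := {b₁, b₂}) (key_card hN hq1 hq2 h12 hqM h1M h2M hM) ((hN q).2 (Or.inl rfl))
    ?_ Finset.card_le_two hc hcal ?_ ?_
  · intro n hn
    simp only [Finset.mem_insert, Finset.mem_singleton] at hn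
    rcases hn with rfl | rfl
    · exact Finset.mem_erase.2 ⟨hq1.symm, (hN _).2 (Or.inr (Or.inl rfl))⟩
    · exact Finset.mem_erase.2 ⟨hq2.symm, (hN _).2 (Or.inr (Or.inr (Or.inl rfl)))⟩
  · intro n hn
    obtain ⟨hnq, hnN⟩ := Finset.mem_erase.1 hn
    rcases (hN n).1 hnN with h | h | h | h
    · exact absurd h hnq
    · subst h
      exact ⟨f, hb1 c hc⟩
    · subst h
      exact ⟨f, hb2 c hc⟩
    · exact hne n h c hc
  · intro n hn
    obtain ⟨hn1, hn2⟩ := Finset.mem_sdiff.1 hn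
    obtain ⟨hnq, hnN⟩ := Finset.mem_erase.1 hn1
    simp only [Finset.mem_insert, Finset.mem_singleton, not_or] at hn2
    rcases (hN n).1 hnN with h | h | h | h
    · exact absurd h hnq
    · exact absurd h hn2.1
    · exact absurd h hn2.2
    · have h1 := hn' n h
      have h2 := Finset.card_pos.2 (hne n h c hc)
      omega

/-- one tight object: its colour is `al`, or `c` is a completion -/
private theorem key1 (hN : ∀ n, n ∈ N ↔ n = q ∨ n = b₁ ∨ n = b₂ ∨ n ∈ Mu) (hq1 : q ≠ b₁)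
    (hq2 : q ≠ b₂) (hqM : q ∉ Mu) (h1M : b₁ ∉ Mu) (h2M : b₂ ∉ Mu)
    (hb1 : ∀ α ∈ P, f ∈ O b₁ α) (hb2 : ∀ α ∈ P, f ∈ O b₂ α)
    (hne : ∀ m ∈ Mu, ∀ α ∈ P, (O m α).Nonempty) {c : ℕ} (hc : c ∈ P)
    (hn : nt Mu O c = 1) : ∃ e : ℕ, ∀ al, c ≠ al → e ≠ al → c ∈ Comp N q P O al := by
  obtain ⟨m₀, hm₀⟩ := Finset.card_eq_one.1 hn
  have hm₀' : m₀ ∈ Mu.filter fun m => (O m c).card = 1 := by
    rw [hm₀]; exact Finset.mem_singleton_self _
  obtain ⟨hm₀M, hm₀1⟩ := Finset.mem_filter.1 hm₀'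
  obtain ⟨e, he⟩ := Finset.card_eq_one.1 hm₀1
  have hoth : ∀ m ∈ Mu, m ≠ m₀ → 2 ≤ (O m c).card := by
    intro m hm hmm
    have h2 := Finset.card_pos.2 (hne m hm c hc)
    by_contra hlt
    have h1 : (O m c).card = 1 := by omega
    have : m ∈ Mu.filter fun m => (O m c).card = 1 := Finset.mem_filter.2 ⟨hm, h1⟩
    rw [hm₀, Finset.mem_singleton] at this
    exact hmm this
  refine ⟨e, fun al hcal heal => ?_⟩
  have hqm : q ≠ m₀ := fun h => hqM (h ▸ hm₀M)
  have h1m : b₁ ≠ m₀ := fun h => h1M (h ▸ hm₀M)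
  have h2m : b₂ ≠ m₀ := fun h => h2M (h ▸ hm₀M)
  set e₀ : V → ℕ := fun n => if n = q then al else if n = m₀ then e else f with he₀
  have eq : e₀ q = al := by simp [he₀]
  have em : e₀ m₀ = e := by simp [he₀, hqm.symm]
  have e1 : e₀ b₁ = f := by simp [he₀, hq1.symm, h1m]
  have e2 : e₀ b₂ = f := by simp [he₀, hq2.symm, h2m]
  set O' : V → Finset ℕ := Function.update (fun n => O n c) q {al} with hO'
  have hO'q : O' q = {al} := by simp [hO']
  have hO'n : ∀ n, n ≠ q → O' n = O n c := by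
    intro n hn
    simp [hO', hn]
  obtain ⟨e', h1', h2', h3'⟩ := cf_extend (N := N) (R := {q, b₁, b₂, m₀}) (O := O') (e₀ := e₀) (by
      intro n hn
      simp only [Finset.mem_insert, Finset.mem_singleton] at hn
      rcases hn with rfl | rfl | rfl | rfl
      · exact (hN _).2 (Or.inl rfl)
      · exact (hN _).2 (Or.inr (Or.inl rfl))
      · exact (hN _).2 (Or.inr (Or.inr (Or.inl rfl)))
      · exact (hN _).2 (Or.inr (Or.inr (Or.inr hm₀M)))) (by
      intro n hn
      simp only [Finset.mem_insert, Finset.mem_singleton] at hn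
      rcases hn with h | h | h | h
      · rw [h, eq, hO'q]; exact Finset.mem_singleton_self _
      · rw [h, e1, hO'n _ hq1.symm]; exact hb1 c hc
      · rw [h, e2, hO'n _ hq2.symm]; exact hb2 c hc
      · rw [h, em, hO'n _ hqm.symm, he]; exact Finset.mem_singleton_self _) (by
      by_cases haf : al = f
      · refine ⟨m₀, by simp, ?_⟩
        intro v hv hev
        simp only [Finset.mem_insert, Finset.mem_singleton] at hv
        rw [em] at hev
        rcases hv with h | h | h | h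
        · rw [h, eq] at hev; exact absurd hev.symm heal
        · rw [h, e1] at hev; exact absurd (hev.symm.trans haf.symm) heal
        · rw [h, e2] at hev; exact absurd (hev.symm.trans haf.symm) heal
        · exact h
      · refine ⟨q, by simp, ?_⟩
        intro v hv hev
        simp only [Finset.mem_insert, Finset.mem_singleton] at hv
        rw [eq] at hev
        rcases hv with h | h | h | h
        · exact h
        · rw [h, e1] at hev; exact absurd hev.symm haf
        · rw [h, e2] at hev; exact absurd hev.symm haf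
        · rw [h, em] at hev; exact absurd hev heal) (by
      intro n hn
      obtain ⟨hn1, hn2⟩ := Finset.mem_sdiff.1 hn
      simp only [Finset.mem_insert, Finset.mem_singleton, not_or] at hn2
      rw [hO'n _ hn2.1]
      rcases (hN n).1 hn1 with h | h | h | h
      · exact absurd h hn2.1
      · exact absurd h hn2.2.1
      · exact absurd h hn2.2.2.1
      · exact hoth n h hn2.2.2.2)
  unfold Comp
  refine Finset.mem_filter.2 ⟨Finset.mem_erase.2 ⟨hcal, hc⟩, e', ?_, ?_, h3'⟩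
  · rw [h1' q (by simp), eq]
  · intro n hn
    obtain ⟨hnq, hnN⟩ := Finset.mem_erase.1 hn
    have := h2' n hnN
    rwa [hO'n _ hnq] at this

end keys

/-- RB with `f₁ = f₂ = f`; now `Mu.card + 2 ≤ P.card`. `n(c)` as in `rev_RB1`.
(1) `al ≠ f` bad: every `c ∈ P.erase al` has `n(c) ≥ 1`, and `n(c) = 1` implies that the forced
colour is `al` (colours `f, f, al, e`). As `∑ n ≤ 2 * Mu.card` and
`(P.erase al).card ≥ Mu.card + 1`, at least two `c ∈ P.erase al` have `n(c) = 1`.
(2) `f` bad: every `c ∈ P` has `n(c) ≥ 1` and `n(c) = 1` implies that the forced colour is `f`.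
First claim: `f` and `al ≠ f` bad: contradiction by a `c` from (1). `al ≠ be` both bad and `≠ f`:
no `c ∈ P \ {al, be}` has `n(c) = 1`, so `n ≥ 2` there, and `n ≥ 1` on `P ∩ {al, be}`; the sum is
at least `2 * P.card - 2 > 2 * Mu.card`.
Second claim: suppose `ε ≠ f`. `al, al' ∈ P` (nonempty subsets of `P`), `ε ≠ al, al'`. If
`c ∈ P.erase ε`, `n(c) = 1`, then `e = ε`; if also `c ≠ al` then the colours `f, f, al, ε` have a
unique one, so `c ∈ Comp al`, `c = al'`. So `c ∈ {al, al'}`; by (1) exactly `al` and `al'` have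
`n = 1` and all other elements of `P.erase ε` have `n ≥ 2`; so
`2 + 2 * ((P.erase ε).card - 2) ≤ 2 * Mu.card`, hence `ε ∈ P`, `(P.erase ε).card = Mu.card + 1`,
the sum over `P.erase ε` is already `2 * Mu.card` and `n(ε) = 0`; then `ε ∈ Comp al ⊆ {al'}`
(`mem_Comp`): contradiction. -/
theorem rev_RB2 {N Mu : Finset V} {q b₁ b₂ : V} {P : Finset ℕ} {O : V → ℕ → Finset ℕ}
    {T : V → Finset ℕ} {f : ℕ}
    (hN : ∀ n, n ∈ N ↔ n = q ∨ n = b₁ ∨ n = b₂ ∨ n ∈ Mu) (hq1 : q ≠ b₁) (hq2 : q ≠ b₂)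
    (h12 : b₁ ≠ b₂) (hqM : q ∉ Mu) (h1M : b₁ ∉ Mu) (h2M : b₂ ∉ Mu) (hM : 1 ≤ Mu.card)
    (hP : Mu.card + 2 ≤ P.card) (hf : f ∉ P)
    (hb1 : ∀ α ∈ P, f ∈ O b₁ α) (hb2 : ∀ α ∈ P, f ∈ O b₂ α)
    (hne : ∀ m ∈ Mu, ∀ α ∈ P, (O m α).Nonempty)
    (hT : ∀ m ∈ Mu, (T m).card ≤ 2 ∧ ∀ α ∈ P, α ∉ T m → 2 ≤ (O m α).card) :
    (∀ al al', Comp N q P O al = ∅ → Comp N q P O al' = ∅ → al = al') ∧
    (∀ al al' ε, al ≠ al' → (Comp N q P O al).Nonempty → (Comp N q P O al').Nonempty →
      Comp N q P O al ⊆ {al'} → Comp N q P O al' ⊆ {al} → Comp N q P O ε = ∅ → ε = f) := by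
  have hsum := nt_sum hT
  have k0 : ∀ al c, c ∈ P → c ≠ al → nt Mu O c = 0 → c ∈ Comp N q P O al := fun al c hc hcal hn =>
    key0 hN hq1 hq2 h12 hqM h1M h2M hM hb1 hb2 hne hc hcal hn
  have k1 : ∀ c ∈ P, nt Mu O c = 1 → ∃ e : ℕ, ∀ al, c ≠ al → e ≠ al → c ∈ Comp N q P O al :=
    fun c hc hn => key1 hN hq1 hq2 hqM h1M h2M hb1 hb2 hne hc hn
  have hpos : ∀ al, Comp N q P O al = ∅ → ∀ c ∈ P, c ≠ al → 1 ≤ nt Mu O c := by
    intro al hal c hc hcal
    by_contra hlt
    have := k0 al c hc hcal (by omega)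
    rw [hal] at this
    exact Finset.notMem_empty _ this
  have hforce : ∀ al, Comp N q P O al = ∅ → ∀ c, c ≠ al → ∀ e : ℕ,
      (∀ al', c ≠ al' → e ≠ al' → c ∈ Comp N q P O al') → e = al := by
    intro al hal c hcal e he
    by_contra hne'
    have := he al hcal hne'
    rw [hal] at this
    exact Finset.notMem_empty _ this
  -- lower bound for a sum with two exceptional elements
  have hlow : ∀ (Q : Finset ℕ) (x y : ℕ), (∀ c ∈ Q, 1 ≤ nt Mu O c) →
      (∀ c ∈ Q, c ≠ x → c ≠ y → 2 ≤ nt Mu O c) → 2 * Q.card ≤ ∑ c ∈ Q, nt Mu O c + 2 := by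
    intro Q x y h1 h2
    have h3 : ∑ c ∈ Q, (2 - (if c = x then 1 else 0) - (if c = y then 1 else 0)) ≤
        ∑ c ∈ Q, nt Mu O c := by
      refine Finset.sum_le_sum fun c hc => ?_
      have := h1 c hc
      by_cases hx : c = x
      · simp only [hx, if_true]
        rw [hx] at this
        omega
      · by_cases hy : c = y
        · simp only [hy, if_true]
          rw [hy] at this
          omega
        · simp only [hx, hy, if_false]
          have := h2 c hc hx hy
          omega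
    have h4 : ∑ c ∈ Q, 2 ≤ ∑ c ∈ Q, (2 - (if c = x then 1 else 0) - (if c = y then 1 else 0)) +
        (∑ c ∈ Q, (if c = x then 1 else 0) + ∑ c ∈ Q, (if c = y then 1 else 0)) := by
      rw [← Finset.sum_add_distrib, ← Finset.sum_add_distrib]
      refine Finset.sum_le_sum fun c _ => ?_
      split_ifs <;> omega
    have h5 : ∀ z : ℕ, ∑ c ∈ Q, (if c = z then 1 else 0) ≤ 1 := by
      intro z
      rw [Finset.sum_ite_eq']
      split_ifs <;> omega
    have h6 := h5 x
    have h7 := h5 y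
    rw [Finset.sum_const, smul_eq_mul] at h4
    omega
  refine ⟨fun al al' hal hal' => ?_, fun al al' ε hne' hA hA' hsub hsub' hε => ?_⟩
  · by_contra hcon
    have h1 : ∀ c ∈ P, 1 ≤ nt Mu O c := by
      intro c hc
      by_cases hcal : c = al
      · exact hpos al' hal' c hc (by rw [hcal]; exact hcon)
      · exact hpos al hal c hc hcal
    have h2 : ∀ c ∈ P, c ≠ al → c ≠ al' → 2 ≤ nt Mu O c := by
      intro c hc hc1 hc2
      by_contra hlt
      have h3 := h1 c hc
      obtain ⟨e, he⟩ := k1 c hc (by omega)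
      have e1 := hforce al hal c hc1 e he
      have e2 := hforce al' hal' c hc2 e he
      exact hcon (e1.symm.trans e2)
    have h3 := hlow P al al' h1 h2
    omega
  · exfalso
    have hε1 : ε ≠ al := by
      rintro rfl
      rw [hε] at hA
      exact Finset.not_nonempty_empty hA
    have hε2 : ε ≠ al' := by
      rintro rfl
      rw [hε] at hA'
      exact Finset.not_nonempty_empty hA'
    have h1 : ∀ c ∈ P.erase ε, 1 ≤ nt Mu O c := by
      intro c hc
      obtain ⟨h, h'⟩ := Finset.mem_erase.1 hc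
      exact hpos ε hε c h' h
    have h2 : ∀ c ∈ P.erase ε, c ≠ al → c ≠ al' → 2 ≤ nt Mu O c := by
      intro c hc hc1 hc2
      obtain ⟨h, h'⟩ := Finset.mem_erase.1 hc
      by_contra hlt
      have h3 := h1 c hc
      obtain ⟨e, he⟩ := k1 c h' (by omega)
      have e1 := hforce ε hε c h e he
      have h4 : c ∈ Comp N q P O al := he al hc1 (by rw [e1]; exact hε1)
      have h5 := hsub h4
      exact hc2 (Finset.mem_singleton.1 h5)
    have h3 := hlow (P.erase ε) al al' h1 h2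
    by_cases hεP : ε ∈ P
    · have h4 : (P.erase ε).card = P.card - 1 := Finset.card_erase_of_mem hεP
      have h5 : nt Mu O ε + ∑ c ∈ P.erase ε, nt Mu O c = ∑ c ∈ P, nt Mu O c :=
        Finset.add_sum_erase P _ hεP
      have h6 : ε ∈ Comp N q P O al := k0 al ε hεP hε1 (by omega)
      exact hε2 (Finset.mem_singleton.1 (hsub h6))
    · have h4 : P.erase ε = P := Finset.erase_eq_of_notMem hεP
      rw [h4] at h3
      omega

end Pool.Agent.Lib.MP_03175e_co
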