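import Pool.Agent.Lib.MP_03175e_co.Defs

/-!
Row F09b: type Q with a 2-thread (paper section 5, (Q)).
-/

namespace Pool.Agent.Lib.MP_03175e_co

open Finset

/-- no unique one among four colours -/
def NU4 (a b c d : ℕ) : Prop :=
  (a = b ∨ a = c ∨ a = d) ∧ (b = a ∨ b = c ∨ b = d) ∧ (c = a ∨ c = b ∨ c = d) ∧
    (d = a ∨ d = b ∨ d = c)

private theorem F09b_nu1 {f a b g e : ℕ} (hab : a ≠ b) (h1 : NU4 f a g e) (h2 : NU4 f b g e) :
    False := by
  obtain ⟨h11, h12, h13, h14⟩ := h1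
  obtain ⟨h21, h22, h23, h24⟩ := h2
  rcases h12 with rfl | rfl | rfl
  · omega
  · omega
  · omega

private theorem F09b_sw1 {a b c d : ℕ} (h : NU4 a b c d) : NU4 a c b d := by
  obtain ⟨h11, h12, h13, h14⟩ := h
  refine ⟨?_, ?_, ?_, ?_⟩ <;> tauto

private theorem F09b_sw2 {a b c d : ℕ} (h : NU4 a b c d) : NU4 a d c b := by
  obtain ⟨h11, h12, h13, h14⟩ := h
  refine ⟨?_, ?_, ?_, ?_⟩ <;> tauto

private theorem F09b_nu2 {f a b g e : ℕ} (hab : a ≠ b) (h1 : NU4 f g a e) (h2 : NU4 f g b e) :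
    False := F09b_nu1 hab (F09b_sw1 h1) (F09b_sw1 h2)

private theorem F09b_nu3 {f a b g e : ℕ} (hab : a ≠ b) (h1 : NU4 f g e a) (h2 : NU4 f g e b) :
    False := F09b_nu1 hab (F09b_sw2 h1) (F09b_sw2 h2)

/-- if erasing leaves at most one element of a set with at least two elements -/
private theorem F09b_er {S : Finset ℕ} {c : ℕ} (h2 : 2 ≤ S.card) (h1 : ¬ 2 ≤ (S.erase c).card) :
    c ∈ S ∧ S.card = 2 := by
  by_cases hc : c ∈ S
  · rw [Finset.card_erase_of_mem hc] at h1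
    exact ⟨hc, by omega⟩
  · rw [Finset.erase_eq_of_notMem hc] at h1
    exact absurd h2 h1

private theorem F09b_ne {S : Finset ℕ} {c : ℕ} (h2 : 2 ≤ S.card) : (S.erase c).Nonempty := by
  rw [← Finset.card_pos]
  have := Finset.pred_card_le_card_erase (s := S) (a := c)
  omega

/-- the set of usable colours of the first vertex of the 2-thread -/
private theorem F09b_two {S : Finset ℕ} (h : 2 ≤ S.card) : ∃ a ∈ S, ∃ b ∈ S, a ≠ b :=
  Finset.one_lt_card.mp h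

private theorem F09b_core (Lx La Lb : Finset ℕ) (Lz : Fin 2 → Finset ℕ) (hx : Lx.card = 6)
    (ha : La.card = 4) (hb : Lb.card = 4) (hz : ∀ i, (Lz i).card = 4)
    (f : ℕ) (κw : Finset ℕ) (y : Fin 2 → ℕ) (κ : Fin 2 → Finset ℕ) (y' : ℕ) (κ' : Finset ℕ)
    (hf : f ∈ κw) (hκw : κw.card ≤ 2) (hy : ∀ i, y i ∈ κ i) (hκ : ∀ i, (κ i).card ≤ 2)
    (hκ' : κ'.card ≤ 2)
    (hfail : ∀ c ∈ Lx \ (κw ∪ {y 0, y 1}), ∀ g₀ ∈ (Lz 0 \ κ 0).erase c,
          ∀ g₁ ∈ (Lz 1 \ κ 1).erase c, ∀ e ∈ (La \ {y'}).erase c,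
          (∃ e' ∈ Lb \ κ', e' ≠ c ∧ e' ≠ e) → NU4 f g₀ g₁ e) :
    ∃ c c', (c ∈ Lx ∧ c ∈ Lz 0 ∧ c ∈ Lz 1 ∧ c ∈ La ∧ c ∈ Lb) ∧
      (c' ∈ Lx ∧ c' ∈ Lz 0 ∧ c' ∈ Lz 1 ∧ c' ∈ La ∧ c' ∈ Lb) ∧
      (∀ x ∈ La, x = c ∨ x = c' ∨ x = f ∨ x = y') ∧
      (∀ i, y i ∈ Lz i ∧ y i ≠ f ∧ y i ≠ c ∧ y i ≠ c') ∧ y 0 ≠ y 1 := by
  set P := Lx \ (κw ∪ {y 0, y 1}) with hPdef
  have hU : (κw ∪ {y 0, y 1}).card ≤ 4 := by
    have h1 := Finset.card_union_le κw {y 0, y 1}
    have h2 : ({y 0, y 1} : Finset ℕ).card ≤ 2 := Finset.card_le_two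
    omega
  have hP : 2 ≤ P.card := by
    have := Finset.le_card_sdiff (κw ∪ {y 0, y 1}) Lx
    rw [← hPdef] at this
    omega
  have hA : ∀ i, 2 ≤ (Lz i \ κ i).card := by
    intro i
    have h1 := Finset.le_card_sdiff (κ i) (Lz i)
    have h2 := hz i
    have h3 := hκ i
    omega
  have hA' : 2 ≤ (Lb \ κ').card := by
    have := Finset.le_card_sdiff κ' Lb
    omega
  have hAa : 3 ≤ (La \ {y'}).card := by
    have := Finset.le_card_sdiff {y'} La
    rw [Finset.card_singleton] at this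
    omega
  -- nonempty set of usable colours
  have hSe : ∀ c, ∃ e ∈ (La \ {y'}).erase c, ∃ e' ∈ Lb \ κ', e' ≠ c ∧ e' ≠ e := by
    intro c
    obtain ⟨e', he'⟩ := F09b_ne (c := c) hA'
    rw [Finset.mem_erase] at he'
    have h2 : 2 ≤ ((La \ {y'}).erase c).card := by
      have := Finset.pred_card_le_card_erase (s := La \ {y'}) (a := c)
      omega
    obtain ⟨e, he⟩ := F09b_ne (c := e') h2
    rw [Finset.mem_erase] at he
    exact ⟨e, he.2, e', he'.2, he'.1, fun h => he.1 h.symm⟩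
  have hmain : ∀ c ∈ P, (c ∈ Lz 0 \ κ 0 ∧ (Lz 0 \ κ 0).card = 2) ∧
      (c ∈ Lz 1 \ κ 1 ∧ (Lz 1 \ κ 1).card = 2) ∧ (c ∈ Lb \ κ' ∧ (Lb \ κ').card = 2) := by
    intro c hc
    obtain ⟨e, he, he2⟩ := hSe c
    obtain ⟨g₀, hg₀⟩ := F09b_ne (c := c) (hA 0)
    obtain ⟨g₁, hg₁⟩ := F09b_ne (c := c) (hA 1)
    refine ⟨F09b_er (hA 0) fun h => ?_, F09b_er (hA 1) fun h => ?_, F09b_er hA' fun h => ?_⟩
    · obtain ⟨a, ha, b, hb, hab⟩ := F09b_two h
      exact F09b_nu1 hab (hfail c hc a ha g₁ hg₁ e he he2) (hfail c hc b hb g₁ hg₁ e he he2)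
    · obtain ⟨a, ha, b, hb, hab⟩ := F09b_two h
      exact F09b_nu2 hab (hfail c hc g₀ hg₀ a ha e he he2) (hfail c hc g₀ hg₀ b hb e he he2)
    · have h2 : 2 ≤ ((La \ {y'}).erase c).card := by
        have := Finset.pred_card_le_card_erase (s := La \ {y'}) (a := c)
        omega
      obtain ⟨a, ha, b, hb, hab⟩ := F09b_two h2
      have hx : ∀ a, ∃ e' ∈ Lb \ κ', e' ≠ c ∧ e' ≠ a := by
        intro a
        obtain ⟨e', he'⟩ := F09b_ne (c := a) h
        rw [Finset.mem_erase, Finset.mem_erase] at he'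
        exact ⟨e', he'.2.2, he'.2.1, he'.1⟩
      exact F09b_nu3 hab (hfail c hc g₀ hg₀ g₁ hg₁ a ha (hx a))
        (hfail c hc g₀ hg₀ g₁ hg₁ b hb (hx b))
  obtain ⟨c, hc, c', hc', hcc⟩ := F09b_two hP
  obtain ⟨⟨m1, n1⟩, ⟨m2, n2⟩, ⟨m3, n3⟩⟩ := hmain c hc
  obtain ⟨⟨m1', _⟩, ⟨m2', _⟩, ⟨m3', _⟩⟩ := hmain c' hc'
  have hP2 : P.card ≤ 2 := by
    have : P ⊆ Lz 0 \ κ 0 := fun x hx => (hmain x hx).1.1
    have := Finset.card_le_card this
    omega
  -- the set La \ {y'}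
  have hrest : 1 ≤ (((La \ {y'}).erase c).erase c').card := by
    have h1 := Finset.pred_card_le_card_erase (s := La \ {y'}) (a := c)
    have h2 := Finset.pred_card_le_card_erase (s := (La \ {y'}).erase c) (a := c')
    omega
  have hNU : ∀ e ∈ ((La \ {y'}).erase c).erase c', NU4 f c' c' e := by
    intro e he
    have he' := Finset.mem_erase.mp he
    exact hfail c hc c' (Finset.mem_erase.mpr ⟨hcc.symm, m1'⟩) c'
      (Finset.mem_erase.mpr ⟨hcc.symm, m2'⟩) e he'.2 ⟨c', m3', hcc.symm, fun h => he'.1 h.symm⟩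
  have hef : ∀ e ∈ ((La \ {y'}).erase c).erase c', e = f := by
    intro e he
    have h1 := (hNU e he).2.2.2
    have he' := Finset.mem_erase.mp he
    rcases h1 with h | h | h
    · exact h
    · exact absurd h he'.1
    · exact absurd h he'.1
  have hrest1 : (((La \ {y'}).erase c).erase c').card ≤ 1 := by
    rw [Finset.card_le_one]
    intro a ha b hb
    rw [hef a ha, hef b hb]
  have hcA : c ∈ La \ {y'} ∧ c' ∈ La \ {y'} := by
    by_contra hcon
    have h3 : 2 ≤ (((La \ {y'}).erase c).erase c').card := by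
      by_cases hcm : c ∈ La \ {y'}
      · have hcm' : c' ∉ La \ {y'} := fun h => hcon ⟨hcm, h⟩
        have h4 : c' ∉ (La \ {y'}).erase c := fun h => hcm' (Finset.mem_of_mem_erase h)
        rw [Finset.erase_eq_of_notMem h4, Finset.card_erase_of_mem hcm]
        omega
      · rw [Finset.erase_eq_of_notMem hcm]
        have h2 := Finset.pred_card_le_card_erase (s := La \ {y'}) (a := c')
        omega
    omega
  rw [Finset.mem_sdiff] at m1 m2 m3 m1' m2' m3'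
  have hcx := (Finset.mem_sdiff.mp hc).1
  have hcx' := (Finset.mem_sdiff.mp hc').1
  have hyL : ∀ i, (Lz i \ κ i).card = 2 → y i ∈ Lz i := by
    intro i hi
    by_contra hcon
    have h1 : (Lz i ∩ κ i).card + (Lz i \ κ i).card = (Lz i).card :=
      Finset.card_inter_add_card_sdiff _ _
    have h2 : Lz i ∩ κ i ⊆ (κ i).erase (y i) := by
      intro x hx
      rw [Finset.mem_inter] at hx
      rw [Finset.mem_erase]
      refine ⟨fun h => hcon (h ▸ hx.1), hx.2⟩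
    have h3 := Finset.card_le_card h2
    rw [Finset.card_erase_of_mem (hy i)] at h3
    have h4 := hz i
    have h5 := hκ i
    omega
  have hUc : 4 ≤ (κw ∪ {y 0, y 1}).card := by
    have := Finset.le_card_sdiff (κw ∪ {y 0, y 1}) Lx
    rw [← hPdef] at this
    omega
  have hy01 : y 0 ≠ y 1 := by
    intro h
    rw [← h] at hUc
    have h1 := Finset.card_union_le κw {y 0, y 0}
    simp only [Finset.pair_eq_singleton, Finset.card_singleton] at h1 hUc
    omega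
  have hy0 : y 0 ∉ κw := by
    intro h
    have h1 : κw ∪ {y 0, y 1} ⊆ κw ∪ {y 1} := by
      intro x hx
      simp only [Finset.mem_union, Finset.mem_insert, Finset.mem_singleton] at hx ⊢
      rcases hx with h2 | h2 | h2
      · exact Or.inl h2
      · exact Or.inl (h2 ▸ h)
      · exact Or.inr h2
    have h2 := Finset.card_le_card h1
    have h3 := Finset.card_union_le κw {y 1}
    rw [Finset.card_singleton] at h3
    omega
  have hy1 : y 1 ∉ κw := by
    intro h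
    have h1 : κw ∪ {y 0, y 1} ⊆ κw ∪ {y 0} := by
      intro x hx
      simp only [Finset.mem_union, Finset.mem_insert, Finset.mem_singleton] at hx ⊢
      rcases hx with h2 | h2 | h2
      · exact Or.inl h2
      · exact Or.inr h2
      · exact Or.inl (h2 ▸ h)
    have h2 := Finset.card_le_card h1
    have h3 := Finset.card_union_le κw {y 0}
    rw [Finset.card_singleton] at h3
    omega
  refine ⟨c, c', ⟨hcx, m1.1, m2.1, (Finset.mem_sdiff.mp hcA.1).1, m3.1⟩,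
    ⟨hcx', m1'.1, m2'.1, (Finset.mem_sdiff.mp hcA.2).1, m3'.1⟩, ?_, ?_, hy01⟩
  · intro x hx
    by_cases h1 : x = y'
    · exact Or.inr (Or.inr (Or.inr h1))
    by_cases h2 : x = c
    · exact Or.inl h2
    by_cases h3 : x = c'
    · exact Or.inr (Or.inl h3)
    refine Or.inr (Or.inr (Or.inl (hef x ?_)))
    rw [Finset.mem_erase, Finset.mem_erase, Finset.mem_sdiff, Finset.mem_singleton]
    exact ⟨h3, h2, hx, h1⟩
  · intro i
    fin_cases i
    · refine ⟨hyL 0 n1, fun h => hy0 (h ▸ hf), fun h => m1.2 (h ▸ hy 0), fun h => m1'.2 (h ▸ hy 0)⟩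
    · refine ⟨hyL 1 n2, fun h => hy1 (h ▸ hf), fun h => m2.2 (h ▸ hy 1), fun h => m2'.2 (h ▸ hy 1)⟩

/-- Type Q with a 2-thread `zz, zz'` (lists `La, Lb`, end `y'` with colour `y'`), 1-threads with
lists `Lz i`, ends coloured `y i`, Y-neighbour `w` coloured `f`. One colour forbidden at `w` (`aw`)
and one at `y'` (`ay`).
If `hfail` holds for all `c`: put `P = Lx \ (κw ∪ {y 0, y 1})` (at least two elements),
`A i = Lz i \ κ i` and `A' = Lb \ κ'` (at least two), `A = La \ {y'}` (at least three). For `c ∈ P`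
at least one of the three sets of choices would have two elements, then some choice has a unique
colour (first choose the other two, see `cfc`), contradiction; so all three are singletons:
`A i = {c, c'}` for all `c ∈ P`, hence `P = A 0 = A 1 = {c, c'}`, `A' = {c, c'}`,
`A = {c, c', e}`, and `NU4 f c' c' e` gives `f = e`. Therefore
`Lx = {c, c', f, u, y 0, y 1}` (six different, `κw = {f, u}`), `Lz i = {c, c', y i, u i}`,
`La = {c, c', f, y'}`, `Lb = {c, c', y', u'}`. Choice of the forbidden colours: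
`D = Lx ∩ Lz 0 ∩ Lz 1 ∩ La ∩ Lb` contains `c, c'`. If there is `ε ∈ La \ D` forbid `ε` at `w` and at
`y'`: but `ε ∈ {c, c', f, y'}`. Otherwise `La ⊆ D`, all four lists are equal to `La`
(`= {c, c', f, y'}`) and `y 0, y 1 ∈ La \ {c, c', f}`, so `y 0 = y 1 = y'`: contradiction. -/
theorem q_forbid_thread (Lx La Lb : Finset ℕ) (Lz : Fin 2 → Finset ℕ) (hx : Lx.card = 6)
    (ha : La.card = 4) (hb : Lb.card = 4) (hz : ∀ i, (Lz i).card = 4) :
    ∃ aw ay : Finset ℕ, aw.card ≤ 1 ∧ ay.card ≤ 1 ∧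
      ∀ (f : ℕ) (κw : Finset ℕ) (y : Fin 2 → ℕ) (κ : Fin 2 → Finset ℕ) (y' : ℕ) (κ' : Finset ℕ),
        f ∉ aw → y' ∉ ay → f ∈ κw → κw.card ≤ 2 → (∀ i, y i ∈ κ i) → (∀ i, (κ i).card ≤ 2) →
        y' ∈ κ' → κ'.card ≤ 2 →
        (∀ c ∈ Lx \ (κw ∪ {y 0, y 1}), ∀ g₀ ∈ (Lz 0 \ κ 0).erase c,
          ∀ g₁ ∈ (Lz 1 \ κ 1).erase c, ∀ e ∈ (La \ {y'}).erase c,
          (∃ e' ∈ Lb \ κ', e' ≠ c ∧ e' ≠ e) → NU4 f g₀ g₁ e) → False := by
  by_cases hD : ∃ t ∈ La, ¬ (t ∈ Lx ∧ t ∈ Lz 0 ∧ t ∈ Lz 1 ∧ t ∈ La ∧ t ∈ Lb)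
  · obtain ⟨t, ht, htD⟩ := hD
    refine ⟨{t}, {t}, by simp, by simp, ?_⟩
    intro f κw y κ y' κ' hfw hyy hf hκw hy hκ hy' hκ' hfail
    obtain ⟨c, c', h1, h2, h3, -, -⟩ :=
      F09b_core Lx La Lb Lz hx ha hb hz f κw y κ y' κ' hf hκw hy hκ hκ' hfail
    rcases h3 t ht with h | h | h | h
    · exact htD (h ▸ h1)
    · exact htD (h ▸ h2)
    · exact hfw (by rw [h]; simp)
    · exact hyy (by rw [h]; simp)
  · push Not at hD
    refine ⟨∅, ∅, by simp, by simp, ?_⟩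
    intro f κw y κ y' κ' _ _ hf hκw hy hκ hy' hκ' hfail
    obtain ⟨c, c', h1, h2, h3, h4, h5⟩ :=
      F09b_core Lx La Lb Lz hx ha hb hz f κw y κ y' κ' hf hκw hy hκ hκ' hfail
    have e0 : La = Lz 0 := Finset.eq_of_subset_of_card_le (fun x hx => (hD x hx).2.1)
      (by rw [hz 0, ha])
    have e1 : La = Lz 1 := Finset.eq_of_subset_of_card_le (fun x hx => (hD x hx).2.2.1)
      (by rw [hz 1, ha])
    have k : ∀ i, y i ∈ La → y i = y' := by
      intro i hi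
      obtain ⟨_, k1, k2, k3⟩ := h4 i
      rcases h3 _ hi with h | h | h | h
      · exact absurd h k2
      · exact absurd h k3
      · exact absurd h k1
      · exact h
    apply h5
    rw [k 0 (by rw [e0]; exact (h4 0).1), k 1 (by rw [e1]; exact (h4 1).1)]

end Pool.Agent.Lib.MP_03175e_co
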