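import Pool.Agent.Lib.MP_03175e_co.F09b

/-!
Row F09c: type Q with a `T2`-neighbour (paper section 5, (Q)).
-/

namespace Pool.Agent.Lib.MP_03175e_co

open Finset

private theorem F09c_nu_b {a b b' c d : ℕ} (h : NU4 a b c d) (h' : NU4 a b' c d) : b = b' := by
  unfold NU4 at h h'
  omega

private theorem F09c_nu_c {a b c c' d : ℕ} (h : NU4 a b c d) (h' : NU4 a b c' d) : c = c' := by
  unfold NU4 at h h'
  omega

private theorem F09c_nu_d {a b c d d' : ℕ} (h : NU4 a b c d) (h' : NU4 a b c d') : d = d' := by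
  unfold NU4 at h h'
  omega

/-- a set of size at least `m + 1` which has at most `m` elements without `c` -/
private theorem F09c_erase {A : Finset ℕ} {c m : ℕ} (h1 : m + 1 ≤ A.card)
    (h2 : (A.erase c).card ≤ m) : c ∈ A ∧ A.card = m + 1 := by
  have hc : c ∈ A := by
    by_contra hc
    rw [Finset.erase_eq_of_notMem hc] at h2
    omega
  rw [Finset.card_erase_of_mem hc] at h2
  exact ⟨hc, by omega⟩

private theorem F09c_bad {A₂ A₃ : Finset ℕ} {c e : ℕ} (h2 : 2 ≤ A₂.card) (h3 : 2 ≤ A₃.card)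
    (hce : e ≠ c)
    (hb : ¬ ∃ g₂ ∈ A₂.erase e, ∃ g₃ ∈ A₃.erase e, ¬ (g₂ = c ∧ g₃ = c)) :
    A₂ = {c, e} ∧ A₃ = {c, e} := by
  push Not at hb
  have hn2 : (A₂.erase e).Nonempty := by
    rw [← Finset.card_pos]
    have := Finset.pred_card_le_card_erase (s := A₂) (a := e)
    omega
  have hn3 : (A₃.erase e).Nonempty := by
    rw [← Finset.card_pos]
    have := Finset.pred_card_le_card_erase (s := A₃) (a := e)
    omega
  obtain ⟨g2, hg2⟩ := hn2
  obtain ⟨g3, hg3⟩ := hn3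
  have hcard : ({c, e} : Finset ℕ).card = 2 := Finset.card_pair hce.symm
  constructor
  · apply Finset.eq_of_subset_of_card_le
    · intro g hg
      by_cases hge : g = e
      · simp [hge]
      · have := (hb g (Finset.mem_erase.2 ⟨hge, hg⟩) g3 hg3).1
        simp [this]
    · rw [hcard]; exact h2
  · apply Finset.eq_of_subset_of_card_le
    · intro g hg
      by_cases hge : g = e
      · simp [hge]
      · have := (hb g2 hg2 g (Finset.mem_erase.2 ⟨hge, hg⟩)).2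
        simp [this]
    · rw [hcard]; exact h3

private theorem F09c_step {A₀ A₁ A₂ A₃ At : Finset ℕ} {c f : ℕ} (h0 : 2 ≤ A₀.card)
    (h1 : 2 ≤ A₁.card) (h2 : 2 ≤ A₂.card) (h3 : 2 ≤ A₃.card) (ht : 3 ≤ At.card)
    (hfail : ∀ g₀ ∈ A₀.erase c, ∀ g₁ ∈ A₁.erase c, ∀ e ∈ At.erase c,
      (∃ g₂ ∈ A₂.erase e, ∃ g₃ ∈ A₃.erase e, ¬ (g₂ = c ∧ g₃ = c)) → NU4 f g₀ g₁ e) :
    (c ∈ A₀ ∧ A₀.card = 2) ∧ (c ∈ A₁ ∧ A₁.card = 2) ∧ (c ∈ At ∧ At.card = 3) ∧
      ∃ e, e ≠ c ∧ A₂ = {c, e} ∧ A₃ = {c, e} := by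
  classical
  set p : ℕ → Prop := fun e => ∃ g₂ ∈ A₂.erase e, ∃ g₃ ∈ A₃.erase e, ¬ (g₂ = c ∧ g₃ = c) with hp
  have hE : 2 ≤ (At.erase c).card := by
    have := Finset.pred_card_le_card_erase (s := At) (a := c)
    omega
  have hbad1 : ((At.erase c).filter fun e => ¬ p e).card ≤ 1 := by
    rw [Finset.card_le_one]
    intro e he e' he'
    rw [Finset.mem_filter, Finset.mem_erase] at he he'
    have ha := (F09c_bad h2 h3 he.1.1 he.2).1
    have hb := (F09c_bad h2 h3 he'.1.1 he'.2).1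
    have hm : e' ∈ ({c, e} : Finset ℕ) := by
      rw [← ha, hb]; simp
    simp only [Finset.mem_insert, Finset.mem_singleton] at hm
    rcases hm with hm | hm
    · exact absurd hm he'.1.1
    · exact hm.symm
  have hn0 : (A₀.erase c).Nonempty := by
    rw [← Finset.card_pos]
    have := Finset.pred_card_le_card_erase (s := A₀) (a := c)
    omega
  have hn1 : (A₁.erase c).Nonempty := by
    rw [← Finset.card_pos]
    have := Finset.pred_card_le_card_erase (s := A₁) (a := c)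
    omega
  obtain ⟨g0, hg0⟩ := hn0
  obtain ⟨g1, hg1⟩ := hn1
  have hgood1 : ((At.erase c).filter p).card ≤ 1 := by
    rw [Finset.card_le_one]
    intro e he e' he'
    rw [Finset.mem_filter] at he he'
    exact F09c_nu_d (hfail g0 hg0 g1 hg1 e he.1 he.2) (hfail g0 hg0 g1 hg1 e' he'.1 he'.2)
  have hsum := Finset.card_filter_add_card_filter_not (s := At.erase c) p
  have hgood : 0 < ((At.erase c).filter p).card := by omega
  have hbad : 0 < ((At.erase c).filter fun e => ¬ p e).card := by omega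
  obtain ⟨e0, he0⟩ := Finset.card_pos.1 hgood
  obtain ⟨e1, he1⟩ := Finset.card_pos.1 hbad
  rw [Finset.mem_filter] at he0 he1
  refine ⟨F09c_erase h0 ?_, F09c_erase h1 ?_, F09c_erase ht (by omega), e1,
    (Finset.mem_erase.1 he1.1).1, F09c_bad h2 h3 (Finset.mem_erase.1 he1.1).1 he1.2⟩
  · rw [Finset.card_le_one]
    intro g hg g' hg'
    exact F09c_nu_b (hfail g hg g1 hg1 e0 he0.1 he0.2) (hfail g' hg' g1 hg1 e0 he0.1 he0.2)
  · rw [Finset.card_le_one]
    intro g hg g' hg'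
    exact F09c_nu_c (hfail g0 hg0 g hg e0 he0.1 he0.2) (hfail g0 hg0 g' hg' e0 he0.1 he0.2)

private theorem F09c_mem {D κ : Finset ℕ} {y : ℕ} (hD : D.card = 4) (hκ : κ.card ≤ 2)
    (hy : y ∈ κ) (h : (D \ κ).card = 2) : y ∈ D := by
  by_contra hyD
  have h1 : D \ κ = D \ κ.erase y := by
    ext a
    simp only [Finset.mem_sdiff, Finset.mem_erase, not_and]
    constructor
    · rintro ⟨ha, hb⟩
      exact ⟨ha, fun _ => hb⟩
    · rintro ⟨ha, hb⟩
      refine ⟨ha, hb ?_⟩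
      rintro rfl
      exact hyD ha
  have h2 := Finset.le_card_sdiff (κ.erase y) D
  rw [Finset.card_erase_of_mem hy, ← h1] at h2
  omega

/-- Type Q with a `T2`-neighbour `t` (list `Lt = D ∪ {g}`, degree-two neighbours of `t` with lists
`D` and ends coloured `y 2, y 3`). Forbid `g` at `w` (`aw = Lt \ D`).
As in `q_forbid_thread`: `P = A 0 = A 1 = {c, c'}`; `t` has only one choice for `c` and for `c'`,
where `e ∈ (Lt \ {y 2, y 3}).erase c` is allowed unless `A 2 = A 3 = {c, e}`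
(`A i = Lz i \ κ i`). So `Lt \ {y 2, y 3} = {c, c', e}` has three elements, `A 2 = A 3 = {c, c'}`,
`y 2 ≠ y 3` are in `D = {c, c', y 2, y 3}`, so `e = g`; and `NU4 f c' c' e` gives `f = g`. -/
theorem q_forbid_T (Lx Lt D : Finset ℕ) (Lz : Fin 2 → Finset ℕ) (hx : Lx.card = 6)
    (ht : Lt.card = 5) (hD : D.card = 4) (hDt : D ⊆ Lt) (hz : ∀ i, (Lz i).card = 4) :
    ∀ (f : ℕ) (κw : Finset ℕ) (y : Fin 4 → ℕ) (κ : Fin 4 → Finset ℕ),
        f ∉ Lt \ D → f ∈ κw → κw.card ≤ 2 → (∀ i, y i ∈ κ i) → (∀ i, (κ i).card ≤ 2) →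
        (∀ c ∈ Lx \ (κw ∪ {y 0, y 1}), ∀ g₀ ∈ (Lz 0 \ κ 0).erase c,
          ∀ g₁ ∈ (Lz 1 \ κ 1).erase c, ∀ e ∈ (Lt \ {y 2, y 3}).erase c,
          (∃ g₂ ∈ (D \ κ 2).erase e, ∃ g₃ ∈ (D \ κ 3).erase e, ¬ (g₂ = c ∧ g₃ = c)) →
          NU4 f g₀ g₁ e) → False := by
  intro f κw y κ hf hfκ hκw hy hκ hfail
  have hPc : 2 ≤ (Lx \ (κw ∪ {y 0, y 1})).card := by
    have h1 := Finset.le_card_sdiff (κw ∪ {y 0, y 1}) Lx
    have h2 := Finset.card_union_le κw {y 0, y 1}
    have h3 : ({y 0, y 1} : Finset ℕ).card ≤ 2 := Finset.card_le_two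
    omega
  have hA0 : 2 ≤ (Lz 0 \ κ 0).card := by
    have h1 := Finset.le_card_sdiff (κ 0) (Lz 0)
    have := hz 0
    have := hκ 0
    omega
  have hA1 : 2 ≤ (Lz 1 \ κ 1).card := by
    have h1 := Finset.le_card_sdiff (κ 1) (Lz 1)
    have := hz 1
    have := hκ 1
    omega
  have hA2 : 2 ≤ (D \ κ 2).card := by
    have h1 := Finset.le_card_sdiff (κ 2) D
    have := hκ 2
    omega
  have hA3 : 2 ≤ (D \ κ 3).card := by
    have h1 := Finset.le_card_sdiff (κ 3) D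
    have := hκ 3
    omega
  have hAt : 3 ≤ (Lt \ {y 2, y 3}).card := by
    have h1 := Finset.le_card_sdiff {y 2, y 3} Lt
    have h3 : ({y 2, y 3} : Finset ℕ).card ≤ 2 := Finset.card_le_two
    omega
  set P := Lx \ (κw ∪ {y 0, y 1}) with hP
  set A₀ := Lz 0 \ κ 0 with hA₀
  set A₁ := Lz 1 \ κ 1 with hA₁
  set A₂ := D \ κ 2 with hA₂
  set A₃ := D \ κ 3 with hA₃
  set At := Lt \ {y 2, y 3} with hAt'
  have hstep : ∀ c ∈ P, (c ∈ A₀ ∧ A₀.card = 2) ∧ (c ∈ A₁ ∧ A₁.card = 2) ∧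
      (c ∈ At ∧ At.card = 3) ∧ ∃ e, e ≠ c ∧ A₂ = {c, e} ∧ A₃ = {c, e} := fun c hc =>
    F09c_step hA0 hA1 hA2 hA3 hAt (hfail c hc)
  obtain ⟨c, hc⟩ := Finset.card_pos.1 (by omega : 0 < P.card)
  have hs := hstep c hc
  have hPA0 : P = A₀ := Finset.eq_of_subset_of_card_le (fun a ha => (hstep a ha).1.1)
    (by rw [hs.1.2]; exact hPc)
  have hPA1 : P = A₁ := Finset.eq_of_subset_of_card_le (fun a ha => (hstep a ha).2.1.1)
    (by rw [hs.2.1.2]; exact hPc)
  obtain ⟨e, hec, h2e, h3e⟩ := hs.2.2.2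
  -- the second element
  have hP2 : P.card = 2 := by rw [hPA0]; exact hs.1.2
  have hPe : 0 < (P.erase c).card := by rw [Finset.card_erase_of_mem hc]; omega
  obtain ⟨c', hc'⟩ := Finset.card_pos.1 hPe
  rw [Finset.mem_erase] at hc'
  obtain ⟨hcc, hc'P⟩ := hc'
  have hs' := hstep c' hc'P
  obtain ⟨e', hec', h2e', h3e'⟩ := hs'.2.2.2
  have hce : c' = e := by
    have : c' ∈ ({c, e} : Finset ℕ) := by rw [← h2e, h2e']; simp
    simp only [Finset.mem_insert, Finset.mem_singleton] at this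
    rcases this with h | h
    · exact absurd h hcc
    · exact h
  subst hce
  -- the third element of `At`
  have hsub : ({c, c'} : Finset ℕ) ⊆ At := by
    intro a ha
    simp only [Finset.mem_insert, Finset.mem_singleton] at ha
    rcases ha with rfl | rfl
    · exact hs.2.2.1.1
    · exact hs'.2.2.1.1
  have hthird : 0 < (At \ {c, c'}).card := by
    have h1 := Finset.le_card_sdiff ({c, c'} : Finset ℕ) At
    have h3 : ({c, c'} : Finset ℕ).card ≤ 2 := Finset.card_le_two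
    omega
  obtain ⟨s, hsm⟩ := Finset.card_pos.1 hthird
  simp only [Finset.mem_sdiff, Finset.mem_insert, Finset.mem_singleton, not_or] at hsm
  obtain ⟨hsAt, hsc, hsc'⟩ := hsm
  have hnu : NU4 f c' c' s := by
    refine hfail c hc c' ?_ c' ?_ s (Finset.mem_erase.2 ⟨hsc, hsAt⟩) ?_
    · rw [← hPA0]; exact Finset.mem_erase.2 ⟨hcc, hc'P⟩
    · rw [← hPA1]; exact Finset.mem_erase.2 ⟨hcc, hc'P⟩
    · refine ⟨c', ?_, c', ?_, fun h => hcc h.1⟩
      · rw [h2e]
        exact Finset.mem_erase.2 ⟨fun h => hsc' h.symm, by simp⟩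
      · rw [h3e]
        exact Finset.mem_erase.2 ⟨fun h => hsc' h.symm, by simp⟩
  have hfs : f = s := by
    unfold NU4 at hnu
    omega
  -- `D = {c, c', y 2, y 3}`
  have hcard2 : ({c, c'} : Finset ℕ).card = 2 := Finset.card_pair (fun h => hcc h.symm)
  have hy2 : y 2 ∈ D := F09c_mem hD (hκ 2) (hy 2) (by rw [← hA₂, h2e, hcard2])
  have hy3 : y 3 ∈ D := F09c_mem hD (hκ 3) (hy 3) (by rw [← hA₃, h3e, hcard2])
  have hy23 : y 2 ≠ y 3 := by
    intro h
    have h1 := Finset.le_card_sdiff {y 2, y 3} Lt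
    have h3 : ({y 2, y 3} : Finset ℕ).card = 1 := by rw [h]; simp
    rw [h3, ← hAt', hs.2.2.1.2] at h1
    omega
  have hcD : c ∈ A₂ := by rw [h2e]; simp
  have hcD' : c' ∈ A₂ := by rw [h2e]; simp
  have hcD3 : c ∈ A₃ := by rw [h3e]; simp
  have hcD3' : c' ∈ A₃ := by rw [h3e]; simp
  rw [hA₂, Finset.mem_sdiff] at hcD hcD'
  rw [hA₃, Finset.mem_sdiff] at hcD3 hcD3'
  have n1 : c ≠ y 2 := fun h => hcD.2 (h ▸ hy 2)
  have n2 : c' ≠ y 2 := fun h => hcD'.2 (h ▸ hy 2)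
  have n3 : c ≠ y 3 := fun h => hcD3.2 (h ▸ hy 3)
  have n4 : c' ≠ y 3 := fun h => hcD3'.2 (h ▸ hy 3)
  have hDeq : ({c, c', y 2, y 3} : Finset ℕ) = D := by
    apply Finset.eq_of_subset_of_card_le
    · intro a ha
      simp only [Finset.mem_insert, Finset.mem_singleton] at ha
      rcases ha with rfl | rfl | rfl | rfl
      · exact hcD.1
      · exact hcD'.1
      · exact hy2
      · exact hy3
    · rw [hD]
      have : ({c, c', y 2, y 3} : Finset ℕ).card = 4 := by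
        rw [Finset.card_insert_of_notMem, Finset.card_insert_of_notMem,
          Finset.card_pair hy23]
        · simp only [Finset.mem_insert, Finset.mem_singleton, not_or]
          exact ⟨n2, n4⟩
        · simp only [Finset.mem_insert, Finset.mem_singleton, not_or]
          exact ⟨fun h => hcc h.symm, n1, n3⟩
      rw [this]
  rw [hAt', Finset.mem_sdiff] at hsAt
  simp only [Finset.mem_insert, Finset.mem_singleton, not_or] at hsAt
  apply hf
  rw [hfs, Finset.mem_sdiff, ← hDeq]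
  refine ⟨hsAt.1, ?_⟩
  simp only [Finset.mem_insert, Finset.mem_singleton, not_or]
  exact ⟨hsc, hsc', hsAt.2.1, hsAt.2.2⟩

end Pool.Agent.Lib.MP_03175e_co
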