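import Pool.Agent.Lib.MP_03175e_co.G03

/-!
Row G04b: `T2` and `T1` neighbours as objects (paper section 2).
-/

namespace Pool.Agent.Lib.MP_03175e_co

open Finset Classical

variable {V : Type} [Fintype V] {G : SimpleGraph V} {L : V → Finset ℕ} {X : Finset V}
  {φ : V → ℕ} {κ : V → Finset ℕ}

/-- a set with at least two elements all whose elements different from `e` are equal to `c` -/
private lemma g04b_two {A : Finset ℕ} (hA : 2 ≤ A.card) {e c : ℕ}
    (h : ∀ g ∈ A, g ≠ e → g = c) : A.card = 2 ∧ c ∈ A ∧ e ∈ A ∧ e ≠ c := by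
  have hsub : A.erase e ⊆ {c} := by
    intro g hg
    rw [Finset.mem_erase] at hg
    rw [Finset.mem_singleton]
    exact h g hg.2 hg.1
  have h1 : (A.erase e).card ≤ 1 := by
    have := Finset.card_le_card hsub
    simpa using this
  have heA : e ∈ A := by
    by_contra hne
    rw [Finset.erase_eq_of_notMem hne] at h1
    omega
  have hc := Finset.card_erase_of_mem heA
  have hpos : 0 < (A.erase e).card := by omega
  obtain ⟨g, hg⟩ := Finset.card_pos.mp hpos
  have hg' := Finset.mem_erase.mp hg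
  have hgc : g = c := h g hg'.2 hg'.1
  refine ⟨by omega, hgc ▸ hg'.2, heA, ?_⟩
  rw [← hgc]
  exact fun h' => hg'.1 h'.symm

private lemma g04b_card (A : Finset ℕ) (B : Finset ℕ) : A.card ≤ (A \ B).card + B.card :=
  Finset.card_le_card_sdiff_add_card

/-- `T2` objects. `P = L t \ {φ y₁, φ y₂}` (at least 3), `A_i = L z_i \ κ y_i` (at least 2). By
`opt_T2`, `e ∈ P.erase c` is possible unless `A₁ = A₂ = {e, c}`. So at most one `e ∈ P.erase c` is
impossible, and then `c ∈ A₁`, `A₁.card = 2`. Nonempty: `(P.erase c).card ≥ 2`. Take `T = A₁` if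
`A₁.card = 2`, `T = ∅` otherwise. -/
theorem obj_T2 (he : Ext G L X φ κ) {x t z₁ z₂ y₁ y₂ : V} (hx : x ∈ X) (ht : t ∈ X)
    (h1 : z₁ ∈ X) (h2 : z₂ ∈ X) (hy1 : y₁ ∉ X) (hy2 : y₂ ∉ X) (hxt : x ≠ t) (hx1 : x ≠ z₁)
    (hx2 : x ≠ z₂) (ht1 : t ≠ z₁) (ht2 : t ≠ z₂) (h12 : z₁ ≠ z₂) (hn : nb G t = {x, z₁, z₂})
    (hn1 : nb G z₁ = {t, y₁}) (hn2 : nb G z₂ = {t, y₂}) (hLt : (L t).card = 5)
    (hL1 : (L z₁).card = 4) (hL2 : (L z₂).card = 4) :
    LamLike (Opt G L X φ κ {t, z₁, z₂} x t) := by
  set P : Finset ℕ := L t \ {φ y₁, φ y₂} with hP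
  set A₁ : Finset ℕ := L z₁ \ κ y₁ with hA1
  set A₂ : Finset ℕ := L z₂ \ κ y₂ with hA2
  have hPc : 3 ≤ P.card := by
    have h := g04b_card (L t) {φ y₁, φ y₂}
    have h' : ({φ y₁, φ y₂} : Finset ℕ).card ≤ 2 := Finset.card_le_two
    rw [← hP] at h
    omega
  have hA1c : 2 ≤ A₁.card := by
    have h := g04b_card (L z₁) (κ y₁)
    have h' := he.κcard y₁ hy1
    rw [← hA1] at h
    omega
  have hA2c : 2 ≤ A₂.card := by
    have h := g04b_card (L z₂) (κ y₂)
    have h' := he.κcard y₂ hy2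
    rw [← hA2] at h
    omega
  -- the failing colours
  have key : ∀ c e : ℕ, e ∈ P → e ≠ c → e ∉ Opt G L X φ κ {t, z₁, z₂} x t c →
      A₁.card = 2 ∧ c ∈ A₁ ∧ e ∈ A₁ := by
    intro c e heP hec hnot
    have heP' : e ∈ L t ∧ e ≠ φ y₁ ∧ e ≠ φ y₂ := by
      rw [hP, Finset.mem_sdiff] at heP
      refine ⟨heP.1, fun h => heP.2 ?_, fun h => heP.2 ?_⟩ <;> simp [h]
    have hall : ∀ g₁ ∈ A₁, ∀ g₂ ∈ A₂, g₁ ≠ e → g₂ ≠ e → g₁ = c ∧ g₂ = c := by
      intro g₁ hg₁ g₂ hg₂ hne1 hne2
      by_contra hcf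
      exact hnot (opt_T2 he hx ht h1 h2 hy1 hy2 hxt hx1 hx2 ht1 ht2 h12 hn hn1 hn2 heP'.1 hec
        heP'.2.1 heP'.2.2 hg₁ hne1 hg₂ hne2 hcf)
    have hex2 : ∃ g₂ ∈ A₂, g₂ ≠ e := Finset.exists_mem_ne (by omega) e
    obtain ⟨g₂, hg₂, hne2⟩ := hex2
    have h := g04b_two hA1c (fun g hg hne => (hall g hg g₂ hg₂ hne hne2).1)
    exact ⟨h.1, h.2.1, h.2.2.1⟩
  constructor
  · intro c
    by_contra hemp
    rw [Finset.not_nonempty_iff_eq_empty] at hemp
    have hsub : P.erase c ⊆ A₁.erase c := by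
      intro e he'
      rw [Finset.mem_erase] at he'
      have h := key c e he'.2 he'.1 (by rw [hemp]; exact Finset.notMem_empty e)
      exact Finset.mem_erase.mpr ⟨he'.1, h.2.2⟩
    have hcard : 2 ≤ (P.erase c).card := by
      have := Finset.pred_card_le_card_erase (s := P) (a := c)
      omega
    have hpos : (P.erase c).Nonempty := Finset.card_pos.mp (by omega)
    obtain ⟨e, he'⟩ := hpos
    rw [Finset.mem_erase] at he'
    have h := key c e he'.2 he'.1 (by rw [hemp]; exact Finset.notMem_empty e)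
    have h3 := Finset.card_le_card hsub
    rw [Finset.card_erase_of_mem h.2.1] at h3
    omega
  · refine ⟨if A₁.card = 2 then A₁ else ∅, ?_, ?_⟩
    · split_ifs with h
      · omega
      · simp
    · intro c hc
      have hsub : P.erase c ⊆ Opt G L X φ κ {t, z₁, z₂} x t c := by
        intro e he'
        rw [Finset.mem_erase] at he'
        by_contra hnot
        have h := key c e he'.2 he'.1 hnot
        rw [if_pos h.1] at hc
        exact hc h.2.1
      have hcard : 2 ≤ (P.erase c).card := by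
        have := Finset.pred_card_le_card_erase (s := P) (a := c)
        omega
      exact hcard.trans (Finset.card_le_card hsub)

/-- `T1` objects. `P = L t \ (κ w ∪ {φ y})` (at least 2), `A = L z \ κ y` (at least 2). By
`opt_T1`, `e ∈ P.erase c` is possible unless `c = φ w` and `A = {e, c}`. If `c = φ w` then `c ∉ P`
(`φ w ∈ κ w`), so at least one of the elements of `P` remains. Fewer than two choices only if
`c ∈ P` and `P.card = 2`, or `c = φ w`, `P.card = 2`: take `T = insert (φ w) P` if `P.card = 2` and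
`T = ∅` otherwise. -/
theorem obj_T1 (he : Ext G L X φ κ) {x t w z y : V} (hx : x ∈ X) (ht : t ∈ X) (hz : z ∈ X)
    (hw : w ∉ X) (hy : y ∉ X) (hxt : x ≠ t) (hxz : x ≠ z) (htz : t ≠ z)
    (hn : nb G t = {x, w, z}) (hn1 : nb G z = {t, y}) (hLt : (L t).card = 5)
    (hLz : (L z).card = 4) :
    (∀ c, (Opt G L X φ κ {t, z} x t c).Nonempty) ∧
      ∃ T : Finset ℕ, T.card ≤ 3 ∧ ∀ c, c ∉ T → 2 ≤ (Opt G L X φ κ {t, z} x t c).card := by
  set P : Finset ℕ := L t \ insert (φ y) (κ w) with hP
  set A : Finset ℕ := L z \ κ y with hA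
  have hPc : 2 ≤ P.card := by
    have h := g04b_card (L t) (insert (φ y) (κ w))
    have h' : (insert (φ y) (κ w)).card ≤ (κ w).card + 1 := Finset.card_insert_le _ _
    have h'' := he.κcard w hw
    rw [← hP] at h
    omega
  have hAc : 2 ≤ A.card := by
    have h := g04b_card (L z) (κ y)
    have h' := he.κcard y hy
    rw [← hA] at h
    omega
  have hwP : φ w ∉ P := by
    intro h
    rw [hP, Finset.mem_sdiff] at h
    exact h.2 (Finset.mem_insert_of_mem (he.κmem w hw))
  have key : ∀ c e : ℕ, e ∈ P → e ≠ c → e ∉ Opt G L X φ κ {t, z} x t c →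
      c = φ w ∧ A.card = 2 ∧ c ∈ A ∧ e ∈ A := by
    intro c e heP hec hnot
    have heP' : e ∈ L t \ κ w ∧ e ≠ φ y := by
      rw [hP, Finset.mem_sdiff] at heP
      refine ⟨Finset.mem_sdiff.mpr ⟨heP.1, fun h => heP.2 (Finset.mem_insert_of_mem h)⟩,
        fun h => heP.2 ?_⟩
      rw [h]
      exact Finset.mem_insert_self _ _
    have hall : ∀ g ∈ A, g ≠ e → c = φ w ∧ g = c := by
      intro g hg hne
      by_contra hcf
      exact hnot (opt_T1 he hx ht hz hw hy hxt hxz htz hn hn1 heP'.1 hec heP'.2 hg hne hcf)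
    have hex : ∃ g ∈ A, g ≠ e := Finset.exists_mem_ne (by omega) e
    obtain ⟨g, hg, hne⟩ := hex
    have h := g04b_two hAc (fun g hg hne => (hall g hg hne).2)
    exact ⟨(hall g hg hne).1, h.1, h.2.1, h.2.2.1⟩
  have hsub1 : ∀ c, c ≠ φ w → P.erase c ⊆ Opt G L X φ κ {t, z} x t c := by
    intro c hc e he'
    rw [Finset.mem_erase] at he'
    by_contra hnot
    exact hc (key c e he'.2 he'.1 hnot).1
  have hcardw : P.card ≤ (Opt G L X φ κ {t, z} x t (φ w)).card + 1 := by
    by_cases hall : P ⊆ Opt G L X φ κ {t, z} x t (φ w)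
    · exact (Finset.card_le_card hall).trans (Nat.le_succ _)
    · rw [Finset.not_subset] at hall
      obtain ⟨e₀, he₀, hn0⟩ := hall
      have h0 := key (φ w) e₀ he₀ (fun h => hwP (h ▸ he₀)) hn0
      have hsub : P \ Opt G L X φ κ {t, z} x t (φ w) ⊆ A.erase (φ w) := by
        intro e he'
        rw [Finset.mem_sdiff] at he'
        have hne : e ≠ φ w := fun h => hwP (h ▸ he'.1)
        exact Finset.mem_erase.mpr ⟨hne, (key (φ w) e he'.1 hne he'.2).2.2.2⟩
      have h3 := Finset.card_le_card hsub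
      rw [Finset.card_erase_of_mem h0.2.2.1] at h3
      have h4 := g04b_card P (Opt G L X φ κ {t, z} x t (φ w))
      omega
  constructor
  · intro c
    rw [← Finset.card_pos]
    by_cases hc : c = φ w
    · subst hc
      omega
    · have h := Finset.card_le_card (hsub1 c hc)
      have := Finset.pred_card_le_card_erase (s := P) (a := c)
      omega
  · refine ⟨if P.card = 2 then insert (φ w) P else ∅, ?_, ?_⟩
    · split_ifs with h
      · have := Finset.card_insert_le (φ w) P
        omega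
      · simp
    · intro c hc
      by_cases hP2 : P.card = 2
      · rw [if_pos hP2, Finset.mem_insert, not_or] at hc
        have h := Finset.card_le_card (hsub1 c hc.1)
        rw [Finset.erase_eq_of_notMem hc.2] at h
        omega
      · by_cases hcw : c = φ w
        · subst hcw
          omega
        · have h := Finset.card_le_card (hsub1 c hcw)
          have := Finset.pred_card_le_card_erase (s := P) (a := c)
          omega

end Pool.Agent.Lib.MP_03175e_co
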