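import Pool.Agent.Lib.MP_6a62cd_co.FourF

/-!
MP_03175e_co: plane graphs without cycles of length 3, 4, 5 span at most `3 (n - 1) / 2` edges.
-/

namespace Pool.Agent.Lib.MP_03175e_co.Planar6

open Pool.Agent.Lib.MP_6a62cd_co.Four Pool.Agent.Lib.MP_6a62cd_co.Four.CountE

variable {V : Type} {T : SimpleGraph V} {pos : V → ℝ × ℝ}

open Classical in
theorem local_bound1 [Fintype V] (hT : IsPlaneDrawing T pos)
    (hx : Function.Injective fun v => (pos v).1) (s : ℝ) (v : V) :
    (Finset.univ.filter fun q : V × V => Mid T pos s v q.1 q.2).card +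
      (Finset.univ.filter fun u : V => Hs T pos s v u).card ≤ 1 := by
  have h1 : (Finset.univ.filter fun q : V × V => Mid T pos s v q.1 q.2).card ≤ 1 := by
    rw [Finset.card_le_one]
    rintro ⟨u, w⟩ h ⟨u', w'⟩ h'
    simp only [Finset.mem_filter, Finset.mem_univ, true_and] at h h'
    obtain ⟨rfl, rfl⟩ := h.unique hT hx h'
    rfl
  have h2 : (Finset.univ.filter fun u : V => Hs T pos s v u).card ≤ 1 := by
    rw [Finset.card_le_one]
    intro u h u' h'
    simp only [Finset.mem_filter, Finset.mem_univ, true_and] at h h'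
    exact h.unique hT hx h'
  by_cases h : (Finset.univ.filter fun q : V × V => Mid T pos s v q.1 q.2) = ∅
  · rw [h, Finset.card_empty]
    omega
  · obtain ⟨q, hq⟩ := Finset.nonempty_iff_ne_empty.2 h
    simp only [Finset.mem_filter, Finset.mem_univ, true_and] at hq
    have h3 : (Finset.univ.filter fun u : V => Hs T pos s v u) = ∅ := by
      rw [Finset.filter_eq_empty_iff]
      intro z _ hz
      exact hq.not_Hs hz
    rw [h3, Finset.card_empty]
    omega

open Classical in
/-- the local weight of a vertex -/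
noncomputable def wt1 [Fintype V] (T : SimpleGraph V) (pos : V → ℝ × ℝ) (v : V) : ℕ :=
  ((Finset.univ.filter fun q : V × V => Mid T pos 1 v q.1 q.2).card +
      (Finset.univ.filter fun u : V => Hs T pos 1 v u).card) +
  ((Finset.univ.filter fun q : V × V => Mid T pos (-1) v q.1 q.2).card +
      (Finset.univ.filter fun u : V => Hs T pos (-1) v u).card)

theorem wt1_le [Fintype V] (hT : IsPlaneDrawing T pos)
    (hx : Function.Injective fun v => (pos v).1) (v : V) : wt1 T pos v ≤ 2 := by
  classical
  have h1 := local_bound1 hT hx 1 v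
  have h2 := local_bound1 hT hx (-1) v
  unfold wt1
  convert Nat.add_le_add h1 h2

open Classical in
theorem wt1_le_wt [Fintype V] (v : V) : wt1 T pos v ≤ wt T pos v := by
  unfold wt1 wt
  omega

open Classical in
theorem sum_wt1 [Fintype V] (hT : IsPlaneDrawing T pos)
    (hx : Function.Injective fun v => (pos v).1) (hV : 2 ≤ Fintype.card V) :
    ∑ v, wt1 T pos v + 2 ≤ 2 * Fintype.card V := by
  have hne : Nonempty V := Fintype.card_pos_iff.1 (by omega)
  obtain ⟨a, ha⟩ := Finite.exists_min fun v => (pos v).1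
  obtain ⟨b, hb⟩ := Finite.exists_max fun v => (pos v).1
  have hab : a ≠ b := by
    rintro rfl
    have : ∀ u v : V, u = v := by
      intro u v
      apply hx
      have e1 := ha u
      have e2 := hb u
      have e3 := ha v
      have e4 := hb v
      simp only
      linarith
    have : Fintype.card V ≤ 1 := Fintype.card_le_one_iff.2 this
    omega
  have wa := (wt1_le_wt a).trans (wt_ext hT hx a (Or.inl ha))
  have wb := (wt1_le_wt b).trans (wt_ext hT hx b (Or.inr hb))
  have hsub : ({a, b} : Finset V) ⊆ Finset.univ := Finset.subset_univ _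
  rw [← Finset.sum_sdiff hsub, Finset.sum_pair hab]
  have h1 : ∑ v ∈ Finset.univ \ ({a, b} : Finset V), wt1 T pos v ≤
      (Finset.univ \ ({a, b} : Finset V)).card * 2 :=
    Finset.sum_le_card_nsmul _ _ _ fun v _ => wt1_le hT hx v
  have h2 : (Finset.univ \ ({a, b} : Finset V)).card + 2 = Fintype.card V := by
    rw [← Finset.card_pair hab, Finset.card_sdiff_add_card_eq_card hsub]
    exact Finset.card_univ
  omega

open Classical in
theorem sum_rho [Fintype V] (C : Finset (V × V × V)) (hC : ∀ c ∈ C, rho c ∈ C)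
    (g : V × V × V → ℕ) : ∑ c ∈ C, g (rho c) = ∑ c ∈ C, g c := by
  have h3 : ∀ c : V × V × V, rho (rho (rho c)) = c := fun c => rfl
  refine Finset.sum_nbij' rho (fun c => rho (rho c)) hC (fun c hc => hC _ (hC _ hc)) ?_ ?_ ?_
  · intro c _; exact h3 c
  · intro c _; exact h3 c
  · intro c _; rfl

open Classical in
theorem darts_le_of_corner6 {V : Type} [Fintype V] {T G : SimpleGraph V} {pos : V → ℝ × ℝ}
    (hT : IsPlaneDrawing T pos) (hx : Function.Injective fun v => (pos v).1)
    (hcc : ∀ v u w, T.Adj v u → T.Adj v w → 0 < cr (pos v) (pos u) (pos w) →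
      (∀ z, T.Adj v z →
        ¬ (0 < cr (pos v) (pos u) (pos z) ∧ 0 < cr (pos v) (pos z) (pos w))) →
      T.Adj u w ∧ ∀ z, T.Adj u z →
        ¬ (0 < cr (pos u) (pos w) (pos z) ∧ 0 < cr (pos u) (pos z) (pos v)))
    (hGT : G ≤ T)
    (h3 : ∀ a b c, G.Adj a b → G.Adj b c → G.Adj c a → False)
    (h4 : ∀ a b c d, a ≠ c → b ≠ d → G.Adj a b → G.Adj b c → G.Adj c d → G.Adj d a → False)
    (h5 : ∀ a b c d e, G.Adj a b → G.Adj b c → G.Adj c d → G.Adj d e → G.Adj e a → False)
    (hV : 2 ≤ Fintype.card V) :
    dartsOn G Finset.univ + 3 ≤ 3 * Fintype.card V := by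
  let C : Finset (V × V × V) := Finset.univ.filter fun c => Cor T pos c.1 c.2.1 c.2.2
  have hC : ∀ c, c ∈ C ↔ Cor T pos c.1 c.2.1 c.2.2 := fun c => by simp [C]
  have hrho : ∀ c ∈ C, rho c ∈ C := by
    rintro ⟨v, u, w⟩ hc
    rw [hC] at hc ⊢
    obtain ⟨h1, h2, h3, h4⟩ := hc
    obtain ⟨h5, h6⟩ := hcc v u w h1 h2 h3 h4
    refine ⟨h5, h1.symm, ?_, h6⟩
    change 0 < cr (pos u) (pos w) (pos v)
    rw [cr_cyc]
    exact h3
  have htriC : ∀ c ∈ C, T.Adj c.2.1 c.2.2 := by
    rintro ⟨v, u, w⟩ hc
    exact ((hC _).1 (hrho _ hc)).1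
  let M : Finset (V × V × V) := C.filter fun c =>
    Mid T pos 1 c.1 c.2.1 c.2.2 ∨ Mid T pos (-1) c.1 c.2.1 c.2.2
  -- number of corners = 3 * middle corners
  have hCM : C.card = 3 * M.card := by
    let f : V × V × V → ℕ := fun c =>
      if Mid T pos 1 c.1 c.2.1 c.2.2 ∨ Mid T pos (-1) c.1 c.2.1 c.2.2 then 1 else 0
    have h1 : M.card = ∑ c ∈ C, f c := by
      rw [Finset.card_filter]
    have h2 : ∀ c ∈ C, f c + f (rho c) + f (rho (rho c)) = 1 := by
      rintro ⟨v, u, w⟩ hc
      have hc1 := hrho _ hc
      have hc2 := hrho _ hc1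
      have huw := htriC _ hc
      rw [hC] at hc hc1 hc2
      have k1 : (Mid T pos 1 v u w ∨ Mid T pos (-1) v u w) ↔
          ((pos w).1 < (pos v).1 ∧ (pos v).1 < (pos u).1) ∨
            ((pos u).1 < (pos v).1 ∧ (pos v).1 < (pos w).1) := by
        constructor
        · rintro (h | h)
          · left
            have a1 := h.2.1
            have a2 := h.2.2
            constructor <;> linarith
          · right
            have a1 := h.2.1
            have a2 := h.2.2
            constructor <;> linarith
        · rintro (h | h)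
          · left
            exact ⟨hc, by linarith [h.2], by linarith [h.1]⟩
          · right
            exact ⟨hc, by linarith [h.1], by linarith [h.2]⟩
      have k2 : (Mid T pos 1 u w v ∨ Mid T pos (-1) u w v) ↔
          ((pos v).1 < (pos u).1 ∧ (pos u).1 < (pos w).1) ∨
            ((pos w).1 < (pos u).1 ∧ (pos u).1 < (pos v).1) := by
        constructor
        · rintro (h | h)
          · left
            have a1 := h.2.1
            have a2 := h.2.2
            constructor <;> linarith
          · right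
            have a1 := h.2.1
            have a2 := h.2.2
            constructor <;> linarith
        · rintro (h | h)
          · left
            exact ⟨hc1, by linarith [h.2], by linarith [h.1]⟩
          · right
            exact ⟨hc1, by linarith [h.1], by linarith [h.2]⟩
      have k3 : (Mid T pos 1 w v u ∨ Mid T pos (-1) w v u) ↔
          ((pos u).1 < (pos w).1 ∧ (pos w).1 < (pos v).1) ∨
            ((pos v).1 < (pos w).1 ∧ (pos w).1 < (pos u).1) := by
        constructor
        · rintro (h | h)
          · left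
            have a1 := h.2.1
            have a2 := h.2.2
            constructor <;> linarith
          · right
            have a1 := h.2.1
            have a2 := h.2.2
            constructor <;> linarith
        · rintro (h | h)
          · left
            exact ⟨hc2, by linarith [h.2], by linarith [h.1]⟩
          · right
            exact ⟨hc2, by linarith [h.1], by linarith [h.2]⟩
      change (if Mid T pos 1 v u w ∨ Mid T pos (-1) v u w then 1 else 0) +
        (if Mid T pos 1 u w v ∨ Mid T pos (-1) u w v then 1 else 0) +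
        (if Mid T pos 1 w v u ∨ Mid T pos (-1) w v u then 1 else 0) = 1
      rw [if_congr k1 rfl rfl, if_congr k2 rfl rfl, if_congr k3 rfl rfl]
      have n1 : (pos v).1 ≠ (pos u).1 := fun h => hc.1.ne (hx h)
      have n2 : (pos v).1 ≠ (pos w).1 := fun h => hc.2.1.ne (hx h)
      have n3 : (pos u).1 ≠ (pos w).1 := fun h => huw.ne (hx h)
      rcases lt_or_gt_of_ne n1 with l1 | l1 <;> rcases lt_or_gt_of_ne n2 with l2 | l2 <;>
        rcases lt_or_gt_of_ne n3 with l3 | l3 <;>
        simp only [l1, l2, l3, l1.not_gt, l2.not_gt, l3.not_gt, and_true, and_false, or_true,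
          or_false, if_true, if_false, and_self] <;> linarith
    rw [h1, ← three C hrho f, Finset.sum_congr rfl h2]
    simp
  -- darts
  let DT : Finset (V × V) := Finset.univ.filter fun p => T.Adj p.1 p.2
  let DG : Finset (V × V) := Finset.univ.filter fun p => G.Adj p.1 p.2
  let HH : Finset (V × V) := Finset.univ.filter fun p =>
    T.Adj p.1 p.2 ∧ ∀ z, T.Adj p.1 z → cr (pos p.1) (pos p.2) (pos z) ≤ 0
  have hinj : Set.InjOn (fun c : V × V × V => (c.1, c.2.1)) (C : Set (V × V × V)) := by
    rintro ⟨v, u, w⟩ h ⟨v', u', w'⟩ h' heq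
    rw [Finset.mem_coe, hC] at h h'
    simp only [Prod.mk.injEq] at heq
    obtain ⟨rfl, rfl⟩ := heq
    have h2 : w = w' := Cor.unique hT hx h h'
    rw [h2]
  have hcor : ∀ v u, T.Adj v u → (v, u) ∈ HH ∨ ∃ w, (v, u, w) ∈ C := by
    intro v u h
    by_cases h' : ∀ z, T.Adj v z → cr (pos v) (pos u) (pos z) ≤ 0
    · left
      simp only [HH, Finset.mem_filter, Finset.mem_univ, true_and]
      exact ⟨h, h'⟩
    · right
      push Not at h'
      obtain ⟨z, hz, hz'⟩ := h'
      obtain ⟨w, hw⟩ := exists_cor h hz (fun h0 => h.ne (hT.1 h0).symm) hz'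
      exact ⟨w, (hC _).2 hw⟩
  have hDT : DT.card ≤ HH.card + C.card := by
    have : DT ⊆ HH ∪ C.image fun c => (c.1, c.2.1) := by
      rintro ⟨v, u⟩ h
      simp only [DT, Finset.mem_filter, Finset.mem_univ, true_and] at h
      rw [Finset.mem_union]
      rcases hcor v u h with h' | ⟨w, h'⟩
      · exact Or.inl h'
      · exact Or.inr (Finset.mem_image.2 ⟨(v, u, w), h', rfl⟩)
    refine (Finset.card_le_card this).trans ((Finset.card_union_le _ _).trans ?_)
    exact Nat.add_le_add_left Finset.card_image_le _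
  have hCDT : C.card ≤ DT.card := by
    refine Finset.card_le_card_of_injOn (fun c : V × V × V => (c.1, c.2.1)) ?_ hinj
    rintro ⟨v, u, w⟩ h
    rw [Finset.mem_coe, hC] at h
    simp only [DT, Finset.mem_coe, Finset.mem_filter, Finset.mem_univ, true_and]
    exact h.1
  -- types of triangles
  let P1 : V × V × V → Prop := fun c => ¬ G.Adj c.1 c.2.1 ∧ G.Adj c.2.1 c.2.2 ∧ G.Adj c.2.2 c.1
  let P2 : V × V × V → Prop := fun c => G.Adj c.1 c.2.1 ∧ ¬ G.Adj c.2.1 c.2.2 ∧ ¬ G.Adj c.2.2 c.1
  let P3 : V × V × V → Prop := fun c => ¬ G.Adj c.1 c.2.1 ∧ ¬ G.Adj c.2.1 c.2.2 ∧ ¬ G.Adj c.2.2 c.1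
  let C1 := C.filter P1
  let C2 := C.filter P2
  let C3 := C.filter P3
  let f1 : V × V × V → ℕ := fun c => if P1 c then 1 else 0
  let f2 : V × V × V → ℕ := fun c => if P2 c then 1 else 0
  let f3 : V × V × V → ℕ := fun c => if P3 c then 1 else 0
  have e1 : C1.card = ∑ c ∈ C, f1 c := by rw [Finset.card_filter]
  have e2 : C2.card = ∑ c ∈ C, f2 c := by rw [Finset.card_filter]
  have e3 : C3.card = ∑ c ∈ C, f3 c := by rw [Finset.card_filter]
  have hcnt : C.card = 3 * C1.card + 3 * C2.card + C3.card := by
    have hp : ∀ c ∈ C, (f1 c + f1 (rho c) + f1 (rho (rho c))) + (f2 c + f2 (rho c) + f2 (rho (rho c)))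
        + f3 c = 1 := by
      rintro ⟨v, u, w⟩ hc
      simp only [f1, f2, f3, P1, P2, P3, rho]
      by_cases a1 : G.Adj v u <;> by_cases a2 : G.Adj u w <;> by_cases a3 : G.Adj w v <;>
        simp [a1, a2, a3]
      exact (h3 _ _ _ a1 a2 a3).elim
    have hs := Finset.sum_congr rfl hp
    rw [Finset.sum_add_distrib, Finset.sum_add_distrib, three C hrho f1, three C hrho f2, ← e1, ← e2,
      ← e3] at hs
    simp only [Finset.sum_const, smul_eq_mul, mul_one] at hs
    exact hs.symm
  let fm : V × V × V → ℕ := fun c => if ¬ G.Adj c.1 c.2.1 then 1 else 0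
  have hmiss : ∑ c ∈ C, fm c = C1.card + 2 * C2.card + C3.card := by
    have hp : ∀ c ∈ C, fm c = f1 c + f2 (rho c) + f2 (rho (rho c)) + f3 c := by
      rintro ⟨v, u, w⟩ hc
      simp only [fm, f1, f2, f3, P1, P2, P3, rho]
      by_cases a1 : G.Adj v u <;> by_cases a2 : G.Adj u w <;> by_cases a3 : G.Adj w v <;>
        simp [a1, a2, a3]
    rw [Finset.sum_congr rfl hp, Finset.sum_add_distrib, Finset.sum_add_distrib,
      Finset.sum_add_distrib, sum_rho C hrho (fun c => f2 (rho c)), sum_rho C hrho f2, ← e1, ← e2,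
      ← e3]
    ring
  let HM := HH.filter fun p => ¬ G.Adj p.1 p.2
  -- missing darts
  have hDG : DG.card + (∑ c ∈ C, fm c + HM.card) ≤ DT.card := by
    have h4 : DG ⊆ DT := by
      intro p hp
      simp only [DT, DG, Finset.mem_filter, Finset.mem_univ, true_and] at hp ⊢
      exact hGT hp
    have h5 := Finset.card_sdiff_add_card_eq_card h4
    have h6 : ∑ c ∈ C, fm c = (C.filter fun c => ¬ G.Adj c.1 c.2.1).card := by
      rw [Finset.card_filter]
    have h7 : ((C.filter fun c => ¬ G.Adj c.1 c.2.1).image fun c : V × V × V => (c.1, c.2.1)).card =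
        (C.filter fun c => ¬ G.Adj c.1 c.2.1).card := by
      refine Finset.card_image_of_injOn (hinj.mono ?_)
      intro c hc; exact (Finset.mem_filter.1 hc).1
    have h8 : Disjoint ((C.filter fun c => ¬ G.Adj c.1 c.2.1).image fun c : V × V × V => (c.1, c.2.1))
        HM := by
      rw [Finset.disjoint_left]
      rintro ⟨v, u⟩ ha hb
      obtain ⟨⟨v', u', w⟩, hc, heq⟩ := Finset.mem_image.1 ha
      simp only [Prod.mk.injEq] at heq
      obtain ⟨rfl, rfl⟩ := heq
      have hc1 := (hC _).1 (Finset.mem_filter.1 hc).1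
      have hb1 := (Finset.mem_filter.1 hb).1
      simp only [HH, Finset.mem_filter, Finset.mem_univ, true_and] at hb1
      have := hb1.2 w hc1.2.1
      have := hc1.2.2.1
      simp only at *
      linarith
    have h9 : ((C.filter fun c => ¬ G.Adj c.1 c.2.1).image fun c : V × V × V => (c.1, c.2.1)) ∪ HM ⊆
        DT \ DG := by
      rintro ⟨v, u⟩ hp
      simp only [DT, DG, Finset.mem_sdiff, Finset.mem_filter, Finset.mem_univ, true_and]
      rcases Finset.mem_union.1 hp with hp | hp
      · obtain ⟨⟨v', u', w⟩, hc, heq⟩ := Finset.mem_image.1 hp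
        simp only [Prod.mk.injEq] at heq
        obtain ⟨rfl, rfl⟩ := heq
        have hc1 := (hC _).1 (Finset.mem_filter.1 hc).1
        exact ⟨hc1.1, (Finset.mem_filter.1 hc).2⟩
      · have hb := (Finset.mem_filter.1 hp).1
        simp only [HH, Finset.mem_filter, Finset.mem_univ, true_and] at hb
        exact ⟨hb.1, (Finset.mem_filter.1 hp).2⟩
    have h10 := Finset.card_le_card h9
    rw [Finset.card_union_of_disjoint h8, h7, ← h6] at h10
    omega
  -- key inequality
  have hside : ∀ v u w w', (v, u, w) ∈ C → (u, v, w') ∈ C → w ≠ w' := by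
    rintro v u w w' h h' rfl
    have a1 := ((hC _).1 h).2.2.1
    have a2 := ((hC _).1 h').2.2.1
    simp only at a1 a2
    have a3 : cr (pos u) (pos v) (pos w) = - cr (pos v) (pos u) (pos w) := by unfold cr; ring
    linarith
  have hkey : C1.card ≤ C2.card + C3.card + HM.card := by
    let A := C1.filter fun c => (c.2.1, c.1) ∈ HH
    let B := C1.filter fun c => ¬ ((c.2.1, c.1) ∈ HH)
    have hAB : A.card + B.card = C1.card := Finset.card_filter_add_card_filter_not _
    have hA : A.card ≤ HM.card := by
      refine Finset.card_le_card_of_injOn (fun c : V × V × V => (c.2.1, c.1)) ?_ ?_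
      · rintro ⟨v, u, w⟩ h
        rw [Finset.mem_coe] at h ⊢
        obtain ⟨h1, h2⟩ := Finset.mem_filter.1 h
        have h1' := (Finset.mem_filter.1 h1).2
        exact Finset.mem_filter.2 ⟨h2, fun h0 => h1'.1 h0.symm⟩
      · rintro ⟨v, u, w⟩ h ⟨v', u', w'⟩ h' heq
        rw [Finset.mem_coe] at h h'
        have a1 := (Finset.mem_filter.1 (Finset.mem_filter.1 h).1).1
        have a2 := (Finset.mem_filter.1 (Finset.mem_filter.1 h').1).1
        simp only [Prod.mk.injEq] at heq
        exact hinj (Finset.mem_coe.2 a1) (Finset.mem_coe.2 a2) (by simp [heq.1, heq.2])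
    have hBex : ∀ c ∈ B, ∃ w, (c.2.1, c.1, w) ∈ C := by
      rintro ⟨v, u, w⟩ h
      obtain ⟨h1, h2⟩ := Finset.mem_filter.1 h
      have a1 := (hC _).1 (Finset.mem_filter.1 h1).1
      rcases hcor u v a1.1.symm with h3 | h3
      · exact absurd h3 h2
      · exact h3
    have hneV : Nonempty V := Fintype.card_pos_iff.1 (by omega)
    choose! g hg using hBex
    -- the corner on the other side
    have hB1 : ∀ c ∈ B, c ∈ C ∧ P1 c := by
      intro c hc
      exact Finset.mem_filter.1 (Finset.mem_filter.1 hc).1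
    have hnot1 : ∀ c ∈ B, ¬ (G.Adj c.1 (g c) ∧ G.Adj (g c) c.2.1) := by
      rintro ⟨v, u, w⟩ hc ⟨b1, b2⟩
      obtain ⟨c1, c2⟩ := hB1 _ hc
      have c3 := hg _ hc
      simp only [P1] at c2
      refine h4 v w u (g (v, u, w)) ?_ (hside v u w _ c1 c3) c2.2.2.symm c2.2.1.symm b2.symm b1.symm
      exact ((hC _).1 c1).1.ne
    let B3 := B.filter fun c => ¬ G.Adj c.1 (g c) ∧ ¬ G.Adj (g c) c.2.1
    let B2 := B.filter fun c => ¬ (¬ G.Adj c.1 (g c) ∧ ¬ G.Adj (g c) c.2.1)
    have hB23 : B3.card + B2.card = B.card := Finset.card_filter_add_card_filter_not _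
    have hB3 : B3.card ≤ C3.card := by
      refine Finset.card_le_card_of_injOn (fun c : V × V × V => (c.2.1, c.1, g c)) ?_ ?_
      · rintro ⟨v, u, w⟩ h
        rw [Finset.mem_coe] at h ⊢
        obtain ⟨h1, h2⟩ := Finset.mem_filter.1 h
        refine Finset.mem_filter.2 ⟨hg _ h1, ?_, h2.1, h2.2⟩
        exact fun h0 => (hB1 _ h1).2.1 h0.symm
      · rintro ⟨v, u, w⟩ h ⟨v', u', w'⟩ h' heq
        rw [Finset.mem_coe] at h h'
        have a1 := (hB1 _ (Finset.mem_filter.1 h).1).1
        have a2 := (hB1 _ (Finset.mem_filter.1 h').1).1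
        simp only [Prod.mk.injEq] at heq
        exact hinj (Finset.mem_coe.2 a1) (Finset.mem_coe.2 a2) (by simp [heq.1, heq.2.1])
    have hB2 : B2.card ≤ C2.card := by
      refine Finset.card_le_card_of_injOn (fun c : V × V × V =>
        if G.Adj c.1 (g c) then (c.1, g c, c.2.1) else (g c, c.2.1, c.1)) ?_ ?_
      · rintro ⟨v, u, w⟩ h
        rw [Finset.mem_coe] at h ⊢
        obtain ⟨h1, h2⟩ := Finset.mem_filter.1 h
        have c3 := hg _ h1
        have c4 := hnot1 _ h1
        have c5 : ¬ G.Adj u v := fun h0 => (hB1 _ h1).2.1 h0.symm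
        simp only at c3 c4 h2 ⊢
        split_ifs with hif
        · refine Finset.mem_filter.2 ⟨hrho _ c3, hif, fun h0 => c4 ⟨hif, h0⟩, c5⟩
        · have h6 : G.Adj (g (v, u, w)) u := by
            by_contra h0
            exact h2 ⟨hif, h0⟩
          refine Finset.mem_filter.2 ⟨hrho _ (hrho _ c3), h6, c5, hif⟩
      · rintro ⟨v, u, w⟩ h ⟨v', u', w'⟩ h' heq
        rw [Finset.mem_coe] at h h'
        have hb := (Finset.mem_filter.1 h).1
        have hb' := (Finset.mem_filter.1 h').1
        obtain ⟨a1, p1⟩ := hB1 _ hb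
        obtain ⟨a2, p2⟩ := hB1 _ hb'
        have q1 := (Finset.mem_filter.1 h).2
        have q2 := (Finset.mem_filter.1 h').2
        simp only [P1] at p1 p2
        simp only at heq q1 q2
        split_ifs at heq with i1 i2 i2
        · simp only [Prod.mk.injEq] at heq
          exact hinj (Finset.mem_coe.2 a1) (Finset.mem_coe.2 a2) (by simp [heq.1, heq.2.2])
        · exfalso
          simp only [Prod.mk.injEq] at heq
          obtain ⟨k1, k2, k3⟩ := heq
          -- v = g', g = u', u = v'
          have r2 : G.Adj (g (v', u', w')) u' := by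
            by_contra h0
            exact q2 ⟨i2, h0⟩
          -- closed walk v , g , w' , u , w
          refine h5 v (g (v, u, w)) w' u w i1 ?_ ?_ p1.2.1 p1.2.2
          · rw [k2]; exact p2.2.1
          · rw [k3]; exact p2.2.2
        · exfalso
          simp only [Prod.mk.injEq] at heq
          obtain ⟨k1, k2, k3⟩ := heq
          -- g = v', u = g', v = u'
          have r1 : G.Adj (g (v, u, w)) u := by
            by_contra h0
            exact q1 ⟨i1, h0⟩
          refine h5 v' (g (v', u', w')) w u' w' i2 ?_ ?_ p2.2.1 p2.2.2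
          · rw [← k2]; exact p1.2.1
          · rw [← k3]; exact p1.2.2
        · simp only [Prod.mk.injEq] at heq
          exact hinj (Finset.mem_coe.2 a1) (Finset.mem_coe.2 a2) (by simp [heq.2.1, heq.2.2])
    omega
  have hsum : M.card + HH.card ≤ ∑ v, wt1 T pos v := by
    have m1 : M.card ≤ ∑ v, ((Finset.univ.filter fun q : V × V => Mid T pos 1 v q.1 q.2).card +
        (Finset.univ.filter fun q : V × V => Mid T pos (-1) v q.1 q.2).card) := by
      have : M.card = ∑ v, (M.filter fun c => c.1 = v).card :=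
        Finset.card_eq_sum_card_fiberwise fun c _ => Finset.mem_coe.2 (Finset.mem_univ _)
      rw [this]
      refine Finset.sum_le_sum fun v _ => ?_
      refine le_trans ?_ (Finset.card_union_le _ _)
      refine Finset.card_le_card_of_injOn (fun c : V × V × V => c.2) ?_ ?_
      · rintro ⟨v', u, w⟩ h
        rw [Finset.mem_coe, Finset.mem_filter] at h
        obtain ⟨h, h0⟩ := h
        simp only at h0
        subst h0
        rw [Finset.mem_filter] at h
        rw [Finset.mem_coe, Finset.mem_union]
        simpa using h.2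
      · rintro ⟨v', u, w⟩ h ⟨v'', u', w'⟩ h' heq
        rw [Finset.mem_coe, Finset.mem_filter] at h h'
        have e1 := h.2
        have e2 := h'.2
        simp only at e1 e2 heq
        subst e1
        subst e2
        rw [heq]
    have m2 : HH.card ≤ ∑ v, ((Finset.univ.filter fun u : V => Hs T pos 1 v u).card +
        (Finset.univ.filter fun u : V => Hs T pos (-1) v u).card) := by
      have : HH.card = ∑ v, (HH.filter fun c => c.1 = v).card :=
        Finset.card_eq_sum_card_fiberwise fun c _ => Finset.mem_coe.2 (Finset.mem_univ _)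
      rw [this]
      refine Finset.sum_le_sum fun v _ => ?_
      refine le_trans ?_ (Finset.card_union_le _ _)
      refine Finset.card_le_card_of_injOn (fun c : V × V => c.2) ?_ ?_
      · rintro ⟨v', u⟩ h
        rw [Finset.mem_coe, Finset.mem_filter] at h
        obtain ⟨h, h0⟩ := h
        simp only at h0
        subst h0
        simp only [HH, Finset.mem_filter, Finset.mem_univ, true_and] at h
        rw [Finset.mem_coe, Finset.mem_union]
        simp only [Finset.mem_filter, Finset.mem_univ, true_and]
        rcases lt_or_gt_of_ne (x_ne hx h.1.ne') with h1 | h1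
        · right
          exact ⟨h.1, h.2, by linarith⟩
        · left
          exact ⟨h.1, h.2, by linarith⟩
      · rintro ⟨v', u⟩ h ⟨v'', u'⟩ h' heq
        rw [Finset.mem_coe, Finset.mem_filter] at h h'
        have e1 := h.2
        have e2 := h'.2
        simp only at e1 e2 heq
        subst e1
        subst e2
        rw [heq]
    have m3 : ∑ v, wt1 T pos v = ∑ v, ((Finset.univ.filter fun q : V × V =>
        Mid T pos 1 v q.1 q.2).card +
        (Finset.univ.filter fun q : V × V => Mid T pos (-1) v q.1 q.2).card) +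
        ∑ v, ((Finset.univ.filter fun u : V => Hs T pos 1 v u).card +
        (Finset.univ.filter fun u : V => Hs T pos (-1) v u).card) := by
      rw [← Finset.sum_add_distrib]
      refine Finset.sum_congr rfl fun v _ => ?_
      unfold wt1
      ring
    rw [m3]
    omega
  have hfin := sum_wt1 hT hx hV
  have hD : dartsOn G Finset.univ = DG.card := by
    unfold dartsOn
    simp only [DG]
    congr 1
  rw [hD]
  omega

open Classical in
/-- A planar graph without cycles of length 3, 4, 5 is sparse: every nonempty set `S` of vertices spans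
at most `3 (|S| - 1) / 2` edges. -/
theorem plane_sparse6 {V : Type} [Finite V] {G : SimpleGraph V} (h : IsPlanar G)
    (h3 : ∀ a b c, G.Adj a b → G.Adj b c → G.Adj c a → False)
    (h4 : ∀ a b c d, a ≠ c → b ≠ d → G.Adj a b → G.Adj b c → G.Adj c d → G.Adj d a → False)
    (h5 : ∀ a b c d e, G.Adj a b → G.Adj b c → G.Adj c d → G.Adj d e → G.Adj e a → False)
    (S : Finset V) (hS : S.Nonempty) : dartsOn G S + 3 ≤ 3 * S.card := by
  rcases Nat.lt_or_ge S.card 2 with hc | hc
  · have h1 : S.card = 1 := by
      have := hS.card_pos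
      omega
    obtain ⟨v, rfl⟩ := Finset.card_eq_one.1 h1
    have : dartsOn G ({v} : Finset V) = 0 := by
      unfold dartsOn
      rw [Finset.card_eq_zero, Finset.filter_eq_empty_iff]
      rintro ⟨a, b⟩ hab h0
      simp only [Finset.mem_product, Finset.mem_singleton] at hab
      obtain ⟨rfl, rfl⟩ := hab
      exact h0.ne rfl
    rw [this]
    simp
  · have h1 := h.comap (Subtype.val : S → V) Subtype.val_injective
    obtain ⟨pos, hpos⟩ := h1
    obtain ⟨pos', hpos', hx⟩ := exists_shear hpos
    obtain ⟨T, hGT, hT, hmax⟩ := exists_maximal hpos'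
    have h6 := darts_le_of_corner6 hT hx
      (fun v u w hu hw hc hcons => corner_closed hT hmax hu hw hc hcons) hGT
      (fun a b c h1 h2 h7 => h3 a b c h1 h2 h7)
      (fun a b c d hac hbd h1 h2 h7 h8 => h4 a b c d (fun h0 => hac (Subtype.ext h0))
        (fun h0 => hbd (Subtype.ext h0)) h1 h2 h7 h8)
      (fun a b c d e h1 h2 h7 h8 h9 => h5 a b c d e h1 h2 h7 h8 h9)
      (by simpa using hc)
    rw [dartsOn_eq_comap]
    simpa using h6

end Pool.Agent.Lib.MP_03175e_co.Planar6
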