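import Pool.Agent.Lib.MP_03175e_co.Defs
import Pool.Agent.Lib.MP_03175e_co.Planar6

/-! Planar graphs of girth at least six are sparse. -/

namespace Pool.Agent.Lib.MP_03175e_co

open Pool.Agent.Lib.MP_6a62cd_co.Four

theorem plane_sparse6 {V : Type} [Fintype V] {G : SimpleGraph V} (h : IsPlanar G)
    (hs : NoShort G) (S : Finset V) (hS : S.Nonempty) : dartsOn G S + 3 ≤ 3 * S.card :=
  Planar6.plane_sparse6 h hs.c3 (fun a b c d hac hbd h1 h2 h3 h4 => hs.c4 a b c d h1 h2 h3 h4 hac hbd)
    hs.c5 S hS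

open Classical in
theorem plane_sparse6_sum {V : Type} [Fintype V] {G : SimpleGraph V} (h : IsPlanar G)
    (hs : NoShort G) (S : Finset V) (hS : S.Nonempty) :
    ∑ v ∈ S, (nb G v ∩ S).card + 3 ≤ 3 * S.card := by
  have h1 := plane_sparse6 h hs S hS
  have h2 : dartsOn G S = ∑ v ∈ S, (nb G v ∩ S).card := by
    unfold dartsOn
    rw [Finset.card_filter, Finset.sum_product]
    refine Finset.sum_congr rfl fun v _ => ?_
    rw [← Finset.card_filter]
    congr 1
    ext w
    simp only [Finset.mem_filter, Finset.mem_inter, nb, Finset.mem_univ, true_and]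
    tauto
  omega

end Pool.Agent.Lib.MP_03175e_co
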