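import Pool.Agent.Lib.MP_03175e_co.S01

/-!
Row S02b. The ends are outside the star (paper section 4, (S1)).
In all proofs: suppose the end is in the star, use `star_cases`, and in every case there is a
closed walk of length 3, 4 or 5 (`F.short`). Adjacency `p x` for `x ∈ Λ` is `hS.sub`.
-/

namespace Pool.Agent.Lib.MP_03175e_co

open Finset Classical

variable {V : Type} [Fintype V] {G : SimpleGraph V} {L : V → Finset ℕ} {p : V} {Λ : Finset V}

private theorem star_big (hS : StarOK G p Λ) {v : V} (hv : v ∈ star G p Λ) (h4 : 4 ≤ dg G v) :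
    v = p ∨ v ∈ Λ := by
  rcases star_cases hS hv with h | h | h | ⟨-, h | h⟩ | ⟨x, -, -, h⟩
  · omega
  · exact Or.inl h
  · exact Or.inr h
  · have := h.1
    omega
  · have := h.1
    omega
  · have := h.1
    omega

/-- Ends of the degree-two neighbours `z` of a `T2` object `t` at `x`. `x = p`: c3 `p t z`, c4
`p t z y`. `x ∈ Λ`: `y = p`: c4 `p x t z`; `y = x`: c3; `y ∈ Λ`: c5 `p x t z y`. -/
theorem end_T2 (F : Facts G L) (hS : StarOK G p Λ) {x t z y : V} (hx : x ∈ insert p Λ)
    (hxt : G.Adj x t) (htz : G.Adj t z) (hz : dg G z = 2) (hzy : G.Adj z y) (hyt : y ≠ t)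
    (hzx : z ≠ x) (hy : 4 ≤ dg G y) : y ∉ star G p Λ := by
  intro hs
  rw [Finset.mem_insert] at hx
  rcases star_big hS hs hy with h | h
  · subst h
    rcases hx with rfl | hx
    · exact F.short.c3 x t z hxt htz hzy
    · exact F.short.c4 y x t z (hS.sub x hx).1 hxt htz hzy hyt (fun e => hzx e.symm)
  · have hpy := (hS.sub y h).1
    rcases hx with rfl | hx
    · exact F.short.c4 x t z y hxt htz hzy hpy.symm (fun e => hzx e.symm) (fun e => hyt e.symm)
    · exact F.short.c5 p x t z y (hS.sub x hx).1 hxt htz hzy hpy.symm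

/-- End of the degree-two neighbour `z` of a `T1` object `t` at `p`. `y = p`: c3 `p t z`; `y ∈ Λ` or
`y` adjacent to `p`: c4 `p t z y`; `y` adjacent to `x' ∈ Λ`: c5 `p t z y x'`. -/
theorem end_T1 (F : Facts G L) (hS : StarOK G p Λ) {t z y : V} (hpt : G.Adj p t)
    (htz : G.Adj t z) (hz : dg G z = 2) (hzy : G.Adj z y) (hyt : y ≠ t) (hzp : z ≠ p)
    (hy : 3 ≤ dg G y) : y ∉ star G p Λ := by
  intro hs
  have key : G.Adj p y → False := fun hpy =>
    F.short.c4 p t z y hpt htz hzy hpy.symm (fun e => hzp e.symm) (fun e => hyt e.symm)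
  rcases star_cases hS hs with h | h | h | ⟨h, -⟩ | ⟨x, hx, h, -⟩
  · omega
  · subst h
    exact F.short.c3 y t z hpt htz hzy
  · exact key (hS.sub y h).1
  · exact key h
  · exact F.short.c5 p t z y x hpt htz hzy h.symm (hS.sub x hx).1.symm

/-- Second Y-neighbour of a `T1` object at `p`: `w ∈ Λ` gives c3 `p t w`. -/
theorem end_T1Y (F : Facts G L) (hS : StarOK G p Λ) {t w : V} (hpt : G.Adj p t)
    (htw : G.Adj t w) (hwp : w ≠ p) (hw : 4 ≤ dg G w) : w ∉ star G p Λ := by
  intro hs
  rcases star_big hS hs hw with h | h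
  · exact hwp h
  · exact F.short.c3 p t w hpt htw (hS.sub w h).1.symm

/-- Fixed Y-neighbours of a centre. `x = p`: `n ∈ star` means `n ∈ Λ` (`4 ≤ dg G n`). `x ∈ Λ`:
`n ∈ Λ` gives c3 `p x n`. -/
theorem out_Y (F : Facts G L) (hS : StarOK G p Λ) {x n : V} (hx : x ∈ insert p Λ)
    (hn : n ∈ nb G x) (h4 : 4 ≤ dg G n) (hnp : n ≠ p) (hnΛ : x = p → n ∉ Λ) :
    n ∉ star G p Λ := by
  intro hs
  rw [Finset.mem_insert] at hx
  rw [mem_nb] at hn
  rcases star_big hS hs h4 with h | h
  · exact hnp h
  · rcases hx with hx | hx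
    · exact hnΛ hx h
    · exact F.short.c3 p x n (hS.sub x hx).1 hn (hS.sub n h).1.symm

private theorem full_nb {v n : V} (hd : dg G v = 3) (hs : (YN G v).card + (ZN G v).card = 3)
    (hvn : G.Adj v n) (hn : dg G n = 3) : False := by
  have hdis : Disjoint (YN G v) (ZN G v) := by
    rw [Finset.disjoint_left]
    intro a ha hb
    rw [YN, Finset.mem_filter] at ha
    rw [ZN, Finset.mem_filter] at hb
    omega
  have hcard : (YN G v ∪ ZN G v).card = 3 := by
    rw [Finset.card_union_of_disjoint hdis, hs]
  have hsub : YN G v ∪ ZN G v ⊆ nb G v := by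
    refine Finset.union_subset ?_ ?_
    · rw [YN]; exact Finset.filter_subset _ _
    · rw [ZN]; exact Finset.filter_subset _ _
  have hd' : (nb G v).card = 3 := hd
  have heq : YN G v ∪ ZN G v = nb G v := Finset.eq_of_subset_of_card_le hsub (by omega)
  have hmem : n ∈ YN G v ∪ ZN G v := by
    rw [heq]
    exact mem_nb.2 hvn
  rw [Finset.mem_union, YN, ZN, Finset.mem_filter, Finset.mem_filter] at hmem
  omega

/-- `T0` neighbours of a centre are outside and have exactly one neighbour in the star: their
neighbours have degree at least 3 (`IsT0`); `T1` and `T2` vertices have no neighbours of degree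
3 (`F.t1`, `F.t2`); so the neighbours in the star are in `insert p Λ`, and two of them give c3 or
c4. -/
theorem out_T0 (F : Facts G L) (hS : StarOK G p Λ) {x n : V} (hx : x ∈ insert p Λ)
    (hn : n ∈ nb G x) (h0 : IsT0 G n) (hnp : n ≠ p) :
    n ∉ star G p Λ ∧ (nb G n ∩ star G p Λ).card = 1 := by
  obtain ⟨hd, hz⟩ := h0
  rw [mem_nb] at hn
  refine ⟨?_, ?_⟩
  · intro hs
    rcases star_cases hS hs with h | h | h | ⟨-, h | h⟩ | ⟨x', -, -, h⟩
    · omega
    · exact hnp h
    · have := (hS.sub n h).2
      omega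
    · have := h.2
      omega
    · have := h.2
      omega
    · have := h.2
      omega
  · rw [Finset.card_eq_one]
    refine ⟨x, ?_⟩
    have hxs : x ∈ star G p Λ := by
      rcases Finset.mem_insert.1 hx with h | h
      · rw [h]; exact p_mem_star
      · exact Λ_sub_star h
    ext v
    rw [Finset.mem_inter, Finset.mem_singleton, mem_nb]
    constructor
    · rintro ⟨hnv, hvs⟩
      by_contra hne
      have key : v = p ∨ v ∈ Λ := by
        rcases star_cases hS hvs with h | h | h | ⟨-, h | h⟩ | ⟨x', -, -, h⟩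
        · exfalso
          have : v ∈ ZN G n := by
            rw [ZN, Finset.mem_filter]
            exact ⟨mem_nb.2 hnv, h⟩
          rw [Finset.card_eq_zero.1 hz] at this
          exact absurd this (Finset.notMem_empty v)
        · exact Or.inl h
        · exact Or.inr h
        · exact (full_nb h.1 (by rw [F.t1 v h, h.2]) hnv.symm hd).elim
        · exact (full_nb h.1 (by rw [F.t2 v h, h.2]) hnv.symm hd).elim
        · exact (full_nb h.1 (by rw [F.t2 v h, h.2]) hnv.symm hd).elim
      rcases Finset.mem_insert.1 hx with h | h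
      · subst h
        rcases key with h' | h'
        · exact hne h'
        · exact F.short.c3 x n v hn hnv (hS.sub v h').1.symm
      · rcases key with h' | h'
        · subst h'
          exact F.short.c3 v x n (hS.sub x h).1 hn hnv
        · exact F.short.c4 p x n v (hS.sub x h).1 hn hnv (hS.sub v h').1.symm
            (fun e => hnp e.symm) (fun e => hne e.symm)
    · rintro rfl
      exact ⟨hn.symm, hxs⟩

end Pool.Agent.Lib.MP_03175e_co
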