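import Pool.Agent.Lib.MP_03175e_co.S02a
import Pool.Agent.Lib.MP_03175e_co.S02b
import Pool.Agent.Lib.MP_03175e_co.G04a
import Pool.Agent.Lib.MP_03175e_co.G04b

/-!
Row R01: the sets `KK`, `OO` for the neighbours of the centres of a star (paper section 5).
`KK` and `OO` are unfolded; membership of the vertices in the star: `br_sub_star`, `Λ_sub_star`,
`p_mem_star`; ends outside the star: `end_M1`, ... . List sizes: `F.card`.
-/

namespace Pool.Agent.Lib.MP_03175e_co

open Finset Classical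

variable {V : Type} [Fintype V] {G : SimpleGraph V} {L : V → Finset ℕ} {p : V} {Λ : Finset V}
  {φ : V → ℕ} {κ : V → Finset ℕ}

private theorem r01_star {x : V} (hx : x ∈ insert p Λ) : x ∈ star G p Λ := by
  rcases mem_insert.1 hx with rfl | hx
  · exact p_mem_star
  · exact Λ_sub_star hx

private theorem r01_dg (hS : StarOK G p Λ) {x : V} (hx : x ∈ insert p Λ) : 3 ≤ dg G x := by
  rcases mem_insert.1 hx with rfl | hx
  · exact hS.dgp
  · have := (hS.sub x hx).2
    omega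

/-- fixed Y-neighbours (`out_Y`) -/
theorem KO_Y (F : Facts G L) (hS : StarOK G p Λ) (he : Ext G L (star G p Λ) φ κ) {x n : V}
    (hx : x ∈ insert p Λ) (hn : n ∈ YN G x) (hnp : n ≠ p) (hnΛ : x = p → n ∉ Λ) :
    n ∉ star G p Λ ∧ (KK G (star G p Λ) φ κ n).card ≤ 2 ∧ φ n ∈ KK G (star G p Λ) φ κ n ∧
      ∀ α, OO G L (star G p Λ) φ κ p x n α = {φ n} := by
  have h1 := mem_filter.1 hn
  have ho := out_Y F hS hx h1.1 h1.2 hnp hnΛ
  refine ⟨ho, ?_, ?_, fun α => ?_⟩
  · rw [KK, if_pos ho]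
    exact he.κcard n ho
  · rw [KK, if_pos ho]
    exact he.κmem n ho
  · rw [OO, if_pos ho]

/-- `T0` neighbours (`out_T0`, `he.κcard1`) -/
theorem KO_T0 (F : Facts G L) (hS : StarOK G p Λ) (he : Ext G L (star G p Λ) φ κ) {x n : V}
    (hx : x ∈ insert p Λ) (hn : n ∈ T0N G x) (hnp : n ≠ p) :
    n ∉ star G p Λ ∧ (KK G (star G p Λ) φ κ n).card ≤ 1 ∧ φ n ∈ KK G (star G p Λ) φ κ n ∧
      ∀ α, OO G L (star G p Λ) φ κ p x n α = {φ n} := by
  have h1 := mem_filter.1 hn
  obtain ⟨ho, hc⟩ := out_T0 F hS hx h1.1 h1.2 hnp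
  refine ⟨ho, ?_, ?_, fun α => ?_⟩
  · rw [KK, if_pos ho, he.κcard1 n ho h1.2.1 hc]
  · rw [KK, if_pos ho]
    exact he.κmem n ho
  · rw [OO, if_pos ho]

/-- 1-threads (`desc_M1`, `end_M1`, `opt_M1`, `he.κcard`): `br G x n = {n}`. -/
theorem KO_M1 (F : Facts G L) (hS : StarOK G p Λ) (he : Ext G L (star G p Λ) φ κ) {x n : V}
    (hx : x ∈ insert p Λ) (hn : n ∈ M1 G x) :
    ∃ y, nb G n = {x, y} ∧ y ≠ x ∧ y ∉ star G p Λ ∧ KK G (star G p Λ) φ κ n = {φ y} ∧
      φ y ∈ κ y ∧ (κ y).card ≤ 2 ∧ 2 ≤ (L n \ κ y).card ∧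
      ∀ α, α ∉ KK G (star G p Λ) φ κ n →
        (L n \ κ y).erase α ⊆ OO G L (star G p Λ) φ κ p x n α := by
  have hdx := r01_dg hS hx
  obtain ⟨y, hnb, hxy, hxn, hyn, hd, hdy, hthr⟩ := desc_M1 F.toFacts0 hdx hn
  have h1 := mem_filter.1 hn
  have hadj : G.Adj x n := mem_nb.1 h1.1
  have hny : G.Adj n y := mem_nb.1 (by rw [hnb]; simp)
  have hy : y ∉ star G p Λ := end_M1 F hS hx hadj hd hny hxy.symm hdy
  have hnp : n ≠ p := by
    rintro rfl
    have := hS.dgp
    omega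
  have hob : n ∈ ob G p x := S01_mem_ob.2 ⟨hnp, hadj, Or.inl hd⟩
  have hns : n ∈ star G p Λ := br_sub_star hx hob S01_root_mem_br
  have hxs := r01_star (G := G) hx
  have hKK : KK G (star G p Λ) φ κ n = {φ y} := by
    rw [KK, if_neg (not_not.2 hns), if_pos hd]
    have : nb G n \ star G p Λ = {y} := by
      ext v
      rw [hnb]
      simp only [mem_sdiff, mem_insert, mem_singleton]
      constructor
      · rintro ⟨rfl | rfl, h⟩
        · exact (h hxs).elim
        · rfl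
      · rintro rfl
        exact ⟨Or.inr rfl, hy⟩
    rw [this, image_singleton]
  have hbr : br G x n = {n} := by
    rw [br, if_pos hd, hthr]
  refine ⟨y, hnb, hxy.symm, hy, hKK, he.κmem y hy, he.κcard y hy, ?_, fun α hα => ?_⟩
  · have h2 := le_card_sdiff (κ y) (L n)
    have h3 := F.card n
    have h4 := he.κcard y hy
    omega
  · rw [hKK, mem_singleton] at hα
    rw [OO, if_neg (not_not.2 hns), if_neg (by omega), hbr]
    exact opt_M1 he hxs hns hy hxn hnb hα

/-- 2-threads and `T2` neighbours (`desc_M2`, `end_M2`, `obj_M2`; `desc_T2`, `end_T2`, `obj_T2`).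
`KK = ∅`: for a 2-thread both neighbours of `n` are in the star; a `T2` vertex has degree 3. -/
theorem KO_mu (F : Facts G L) (hS : StarOK G p Λ) (he : Ext G L (star G p Λ) φ κ) {x n : V}
    (hx : x ∈ insert p Λ) (hn : n ∈ M2 G x ∨ n ∈ T2N G x) (hnp : n ≠ p) :
    KK G (star G p Λ) φ κ n = ∅ ∧ LamLike (OO G L (star G p Λ) φ κ p x n) := by
  have hdx := r01_dg hS hx
  have hxs := r01_star (G := G) hx
  rcases hn with hn | hn
  · obtain ⟨m, y, hnb, hmb, hxn, hxm, hnm, hyn, hym, hyx, hd, hdm, hdy, hthr⟩ :=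
      desc_M2 F.toFacts0 hdx hn
    have h1 := mem_filter.1 hn
    have hadj : G.Adj x n := mem_nb.1 h1.1
    have hnm' : G.Adj n m := mem_nb.1 (by rw [hnb]; simp)
    have hmy : G.Adj m y := mem_nb.1 (by rw [hmb]; simp)
    have hy : y ∉ star G p Λ := end_M2 F hS hx hadj hd hnm' hxm.symm hdm hmy hyn hdy
    have hob : n ∈ ob G p x := S01_mem_ob.2 ⟨hnp, hadj, Or.inl hd⟩
    have hbr : br G x n = {n, m} := by
      rw [br, if_pos hd, hthr]
    have hns : n ∈ star G p Λ := br_sub_star hx hob S01_root_mem_br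
    have hms : m ∈ star G p Λ := br_sub_star hx hob (by rw [hbr]; simp)
    refine ⟨?_, ?_⟩
    · rw [KK, if_neg (not_not.2 hns), if_pos hd]
      have : nb G n \ star G p Λ = ∅ := by
        rw [hnb, sdiff_eq_empty_iff_subset]
        intro v hv
        simp only [mem_insert, mem_singleton] at hv
        rcases hv with rfl | rfl
        · exact hxs
        · exact hms
      rw [this, image_empty]
    · have hO : OO G L (star G p Λ) φ κ p x n = Opt G L (star G p Λ) φ κ {n, m} x n := by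
        funext α
        rw [OO, if_neg (not_not.2 hns), if_neg (by omega), hbr]
      rw [hO]
      exact obj_M2 he hxs hns hms hy hxn hxm hnm hnb hmb (by rw [F.card, hd]) (by rw [F.card, hdm])
  · obtain ⟨h1, h2⟩ := mem_filter.1 hn
    have hadj : G.Adj x n := mem_nb.1 h1
    obtain ⟨z₁, z₂, y₁, y₂, hnb, hnb1, hnb2, hZ, hx1, hx2, h12, hxn, h1n, h2n, hy1n, hy2n, hy12,
      hdx4, hd1, hd2, hdy1, hdy2, hbr⟩ := desc_T2 F hdx hadj h2
    have hd : dg G n = 3 := h2.1
    have hn1 : G.Adj n z₁ := mem_nb.1 (by rw [hnb]; simp)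
    have hn2 : G.Adj n z₂ := mem_nb.1 (by rw [hnb]; simp)
    have hzy1 : G.Adj z₁ y₁ := mem_nb.1 (by rw [hnb1]; simp)
    have hzy2 : G.Adj z₂ y₂ := mem_nb.1 (by rw [hnb2]; simp)
    have hy1 : y₁ ∉ star G p Λ := end_T2 F hS hx hadj hn1 hd1 hzy1 hy1n hx1.symm hdy1
    have hy2 : y₂ ∉ star G p Λ := end_T2 F hS hx hadj hn2 hd2 hzy2 hy2n hx2.symm hdy2
    have hob : n ∈ ob G p x := S01_mem_ob.2 ⟨hnp, hadj, Or.inr (Or.inr h2)⟩
    have hns : n ∈ star G p Λ := br_sub_star hx hob S01_root_mem_br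
    have h1s : z₁ ∈ star G p Λ := br_sub_star hx hob (by rw [hbr]; simp)
    have h2s : z₂ ∈ star G p Λ := br_sub_star hx hob (by rw [hbr]; simp)
    refine ⟨?_, ?_⟩
    · rw [KK, if_neg (not_not.2 hns), if_neg (by omega)]
    · have hO : OO G L (star G p Λ) φ κ p x n = Opt G L (star G p Λ) φ κ {n, z₁, z₂} x n := by
        funext α
        rw [OO, if_neg (not_not.2 hns), if_neg (by omega), hbr]
      rw [hO]
      exact obj_T2 he hxs hns h1s h2s hy1 hy2 hxn hx1 hx2 h1n.symm h2n.symm h12 hnb hnb1 hnb2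
        (by rw [F.card, hd]) (by rw [F.card, hd1]) (by rw [F.card, hd2])

/-- 3-threads (`desc_M3`, `end_M3`, `obj_M3`) -/
theorem KO_M3 (F : Facts G L) (hS : StarOK G p Λ) (he : Ext G L (star G p Λ) φ κ) {x n : V}
    (hx : x ∈ insert p Λ) (hn : n ∈ M3 G x) :
    KK G (star G p Λ) φ κ n = ∅ ∧ (∀ α, (OO G L (star G p Λ) φ κ p x n α).Nonempty) ∧
      ∃ α₀, ∀ α, α ≠ α₀ → 3 ≤ (OO G L (star G p Λ) φ κ p x n α).card := by
  have hdx := r01_dg hS hx
  have hxs := r01_star (G := G) hx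
  obtain ⟨m, m', y, hnb, hmb, hmb', hxn, hxm, hxm', hnm, hnm', hmm, hyx, hd, hdm, hdm', hdy, hthr,
    hT⟩ := desc_M3 F.toFacts0 hdx hn
  have hadj : G.Adj x n := hT.1
  have hy : y ∉ star G p Λ := end_M3 F hS hx hT hdy
  have hnp : n ≠ p := by
    rintro rfl
    have := hS.dgp
    omega
  have hob : n ∈ ob G p x := S01_mem_ob.2 ⟨hnp, hadj, Or.inl hd⟩
  have hbr : br G x n = {n, m, m'} := by
    rw [br, if_pos hd, hthr]
  have hns : n ∈ star G p Λ := br_sub_star hx hob S01_root_mem_br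
  have hms : m ∈ star G p Λ := br_sub_star hx hob (by rw [hbr]; simp)
  have hms' : m' ∈ star G p Λ := br_sub_star hx hob (by rw [hbr]; simp)
  refine ⟨?_, ?_⟩
  · rw [KK, if_neg (not_not.2 hns), if_pos hd]
    have : nb G n \ star G p Λ = ∅ := by
      rw [hnb, sdiff_eq_empty_iff_subset]
      intro v hv
      simp only [mem_insert, mem_singleton] at hv
      rcases hv with rfl | rfl
      · exact hxs
      · exact hms
    rw [this, image_empty]
  · have hO : OO G L (star G p Λ) φ κ p x n = Opt G L (star G p Λ) φ κ {n, m, m'} x n := by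
      funext α
      rw [OO, if_neg (not_not.2 hns), if_neg (by omega), hbr]
    rw [hO]
    exact obj_M3 he hxs hns hms hms' hy hxn hxm hxm' hnm hnm' hmm hnb hmb hmb'
      (by rw [F.card, hd]) (by rw [F.card, hdm]) (by rw [F.card, hdm'])

/-- `T1` neighbours of the centre `p` (`desc_T1`, `end_T1`, `end_T1Y`, `obj_T1`) -/
theorem KO_T1 (F : Facts G L) (hS : StarOK G p Λ) (he : Ext G L (star G p Λ) φ κ) {n : V}
    (hn : n ∈ T1N G p) :
    KK G (star G p Λ) φ κ n = ∅ ∧ (∀ α, (OO G L (star G p Λ) φ κ p p n α).Nonempty) ∧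
      ∃ T : Finset ℕ, T.card ≤ 3 ∧ ∀ α, α ∉ T → 2 ≤ (OO G L (star G p Λ) φ κ p p n α).card := by
  have hx : p ∈ insert p Λ := mem_insert_self _ _
  have hdx := hS.dgp
  have hxs := r01_star (G := G) hx
  obtain ⟨h1, h2⟩ := mem_filter.1 hn
  have hadj : G.Adj p n := mem_nb.1 h1
  obtain ⟨w, z, y, hnb, hnbz, hZ, hpw, hpz, hwz, hpn, hwn, hzn, hyn, hyz, hdp4, hdw, hdz, hdy,
    hbr⟩ := desc_T1 F hdx hadj h2
  have hd : dg G n = 3 := h2.1
  have hnw : G.Adj n w := mem_nb.1 (by rw [hnb]; simp)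
  have hnz : G.Adj n z := mem_nb.1 (by rw [hnb]; simp)
  have hzy : G.Adj z y := mem_nb.1 (by rw [hnbz]; simp)
  have hy : y ∉ star G p Λ := end_T1 F hS hadj hnz hdz hzy hyn hpz.symm hdy
  have hw : w ∉ star G p Λ := end_T1Y F hS hadj hnw hpw.symm hdw
  have hob : n ∈ ob G p p := S01_mem_ob.2 ⟨hpn.symm, hadj, Or.inr (Or.inl h2)⟩
  have hns : n ∈ star G p Λ := br_sub_star hx hob S01_root_mem_br
  have hzs : z ∈ star G p Λ := br_sub_star hx hob (by rw [hbr]; simp)
  refine ⟨?_, ?_⟩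
  · rw [KK, if_neg (not_not.2 hns), if_neg (by omega)]
  · have hO : OO G L (star G p Λ) φ κ p p n = Opt G L (star G p Λ) φ κ {n, z} p n := by
      funext α
      rw [OO, if_neg (not_not.2 hns), if_neg (by omega), hbr]
    rw [hO]
    exact obj_T1 he hxs hns hzs hw hy hpn hpz hzn.symm hnb hnbz (by rw [F.card, hd])
      (by rw [F.card, hdz])

/-- second centres: `KK = ∅` (in the star, degree at least 4) -/
theorem KO_L (hS : StarOK G p Λ) {n : V} (hn : n ∈ Λ) : KK G (star G p Λ) φ κ n = ∅ := by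
  have h4 := (hS.sub n hn).2
  rw [KK, if_neg (not_not.2 (Λ_sub_star hn)), if_neg (by omega)]

end Pool.Agent.Lib.MP_03175e_co
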