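import Pool.Agent.Lib.MP_03175e_co.S04
import Pool.Agent.Lib.MP_03175e_co.G02

/-!
Row R02: gluing in the star (paper sections 0.2, 4).
-/

namespace Pool.Agent.Lib.MP_03175e_co

open Finset Classical

variable {V : Type} [Fintype V] {G : SimpleGraph V} {L : V → Finset ℕ} {p : V} {Λ : Finset V}
  {φ : V → ℕ} {κ : V → Finset ℕ}

/-- neighbours of a centre which are not objects, not `p` and not second centres are outside -/
theorem R02_out (F : Facts G L) (hS : StarOK G p Λ) {x n : V} (hx : x ∈ insert p Λ)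
    (hn : n ∈ nb G x) (hnp : n ≠ p) (hno : n ∉ ob G p x) (hnΛ : x = p → n ∉ Λ) :
    n ∉ star G p Λ := by
  have hdx : 3 ≤ dg G x := by
    rcases Finset.mem_insert.mp hx with h | h
    · rw [h]; exact hS.dgp
    · have := (hS.sub x h).2
      omega
  have hob : (dg G n = 2 ∨ IsT1 G n ∨ IsT2 G n) → False := by
    intro h
    refine hno ?_
    rw [ob, mem_filter, mem_erase]
    exact ⟨⟨hnp, hn⟩, h⟩
  rcases nb_cases F hdx hn with h | h | h | h | h | h | h
  · rw [YN, mem_filter] at h
    exact out_Y F hS hx hn h.2 hnp hnΛ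
  · rw [T0N, mem_filter] at h
    exact (out_T0 F hS hx hn h.2 hnp).1
  · rw [T1N, mem_filter] at h
    exact (hob (Or.inr (Or.inl h.2))).elim
  · rw [T2N, mem_filter] at h
    exact (hob (Or.inr (Or.inr h.2))).elim
  · rw [M1, mem_filter] at h
    exact (hob (Or.inl h.2.1)).elim
  · rw [M2, mem_filter] at h
    exact (hob (Or.inl h.2.1)).elim
  · rw [M3, mem_filter] at h
    exact (hob (Or.inl h.2.1)).elim

/-- A choice for the centre `p` and its neighbours gives a contradiction. `glue` with `x = p`,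
`I = ob G p p ∪ Λ`, `B = brTop G p` (`branch_top`); a neighbour `n` of `p` not in `I` is outside the
star (`nb_cases`: `n ∈ YN`, `n ∉ Λ`: `out_Y`; `T0`: `out_T0`), `e n = φ n` there because
`OO = {φ n}`, and `α ∉ κ n ∋ φ n` by `hK`. For `n ∈ I` the definition of `OO` is
`Opt … (brTop G p n) p n α`. Then `he.fin` with the last part of `branch_top`. -/
theorem star_top (F : Facts G L) (hS : StarOK G p Λ) (he : Ext G L (star G p Λ) φ κ) {α : ℕ}
    (hα : α ∈ L p) (hK : ∀ n ∈ nb G p, α ∉ KK G (star G p Λ) φ κ n) {e : V → ℕ}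
    (hO : ∀ n ∈ nb G p, e n ∈ OO G L (star G p Λ) φ κ p p n α) (hcf : CF (nb G p) e) :
    False := by
  obtain ⟨hB, hdis, hstar⟩ := branch_top F hS
  have hself : p ∈ insert p Λ := mem_insert_self _ _
  have hout : ∀ n ∈ nb G p, n ∉ ob G p p ∪ Λ → n ∉ star G p Λ := by
    intro n hn hnI
    rw [mem_union, not_or] at hnI
    refine R02_out F hS hself hn ?_ hnI.1 fun _ => hnI.2
    rintro rfl
    exact G.loopless.irrefl _ (mem_nb.1 hn)
  have hout2 : ∀ n ∈ nb G p, n ∉ star G p Λ → e n = φ n := by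
    intro n hn hnX
    have := hO n hn
    rw [OO, if_pos hnX, mem_singleton] at this
    exact this
  obtain ⟨ψ, h1, -, -, h4⟩ := glue (G := G) (L := L) (X := star G p Λ) (φ := φ) (κ := κ) p
    p_mem_star (ob G p p ∪ Λ) (brTop G p) hB hdis
    (fun n hn hnI r hr hnr => hout n hn hnI ((hB r hr).sub hnr)) hα (f := e) hout2
    (fun n hn hnI => by
      have hnX := hout n hn hnI
      have hk := hK n hn
      rw [KK, if_pos hnX] at hk
      refine ⟨?_, fun _ => hk⟩
      rw [hout2 n hn hnX]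
      rintro rfl
      exact hk (he.κmem n hnX))
    (fun r hr => by
      have hr1 := hO r (mem_nb.2 (hB r hr).adj)
      rw [OO, if_neg (fun h => h ((hB r hr).sub (hB r hr).root))] at hr1
      unfold brTop
      split_ifs at hr1 ⊢ <;> exact hr1) hcf
  rw [← hstar] at h4
  exact he.fin ψ h1 h4

/-- Completions of a second centre are possible colours. `glue` with `I = ob G p x`,
`B = br G x` (`branch_ob`, `disjoint_ob`), `f = e` from `Comp`; the neighbours of `x` not in `I` are
`p` (colour `cw`, `α ≠ cw`; `p ∉ br G x r`) and vertices outside the star. The set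
`insert x (I.biUnion B)` is `brL G p x`. -/
theorem star_in (F : Facts G L) (hS : StarOK G p Λ) (he : Ext G L (star G p Λ) φ κ) {x : V}
    (hx : x ∈ Λ) (cw : ℕ) :
    Comp (nb G x) p (PP G L (star G p Λ) φ κ p x) (OO G L (star G p Λ) φ κ p x) cw ⊆
      OO G L (star G p Λ) φ κ p p x cw := by
  intro α hα
  rw [Comp, mem_filter, mem_erase] at hα
  obtain ⟨⟨hαcw, hαP⟩, e, hep, hO, hcf⟩ := hα
  rw [PP, mem_filter] at hαP
  obtain ⟨hαL, hαK⟩ := hαP
  have hx' : x ∈ insert p Λ := mem_insert_of_mem hx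
  have hpx : G.Adj p x := (hS.sub x hx).1
  have hxX : x ∈ star G p Λ := Λ_sub_star hx
  have hx4 : 4 ≤ dg G x := (hS.sub x hx).2
  have hout : ∀ n ∈ nb G x, n ∉ ob G p x → n ≠ p → n ∉ star G p Λ := by
    intro n hn hnI hnp
    exact R02_out F hS hx' hn hnp hnI fun h => absurd h hpx.ne'
  have hout2 : ∀ n ∈ nb G x, n ∉ star G p Λ → e n = φ n := by
    intro n hn hnX
    have := hO n (mem_erase.2 ⟨fun h => hnX (h ▸ p_mem_star), hn⟩)
    rw [OO, if_pos hnX, mem_singleton] at this
    exact this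
  obtain ⟨ψ, h1, h2, h3, h4⟩ := glue (G := G) (L := L) (X := star G p Λ) (φ := φ) (κ := κ) x
    hxX (ob G p x) (br G x) (fun r hr => (branch_ob F hS hx' hr).1)
    (fun r hr s hs hrs => disjoint_ob F hS hx' hr hs hrs)
    (fun n hn hnI r hr hnr => by
      by_cases hnp : n = p
      · exact (br_adj F hS hx' hr hnr).1 hnp
      · exact hout n hn hnI hnp ((branch_ob F hS hx' hr).1.sub hnr)) hαL (f := e) hout2
    (fun n hn hnI => by
      by_cases hnp : n = p
      · rw [hnp, hep]
        exact ⟨hαcw, fun h => absurd p_mem_star h⟩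
      · have hnX := hout n hn hnI hnp
        have hk := hαK n (mem_erase.2 ⟨hnp, hn⟩)
        rw [KK, if_pos hnX] at hk
        refine ⟨?_, fun _ => hk⟩
        rw [hout2 n hn hnX]
        rintro rfl
        exact hk (he.κmem n hnX))
    (fun r hr => by
      have hr0 := hr
      rw [ob, mem_filter] at hr0
      have hr1 := hO r hr0.1
      rw [OO, if_neg (fun h => h ((branch_ob F hS hx' hr).1.sub (branch_ob F hS hx' hr).1.root)),
        if_neg (S04_adj_ob hr).2] at hr1
      exact hr1) hcf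
  rw [OO, if_neg (fun h => h hxX), if_pos hx4, Opt, mem_filter]
  refine ⟨hαL, ψ, h1, ?_, h2, h4⟩
  rw [h3 p (mem_nb.2 hpx.symm), hep]

/-- A set `S ⊆ O`: `LamLike` is monotone. -/
theorem LamLike.mono {O O' : ℕ → Finset ℕ} (h : LamLike O) (hs : ∀ c, O c ⊆ O' c) :
    LamLike O' := by
  obtain ⟨h1, T, hT, h2⟩ := h
  exact ⟨fun c => (h1 c).mono (hs c), T, hT, fun c hc => (h2 c hc).trans (card_le_card (hs c))⟩

end Pool.Agent.Lib.MP_03175e_co
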