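import Pool.Agent.Lib.MP_03175e_co.S02b

/-!
Row S05: vertices outside the star are not isolated (paper section 4, (S3)).
-/

namespace Pool.Agent.Lib.MP_03175e_co

open Finset Classical

variable {V : Type} [Fintype V] {G : SimpleGraph V} {L : V → Finset ℕ} {p : V} {Λ : Finset V}

private theorem s05_big (hS : StarOK G p Λ) {v : V} (hv : v ∈ star G p Λ) (h4 : 4 ≤ dg G v) :
    v = p ∨ v ∈ Λ := by
  rcases star_cases hS hv with h | h | h | ⟨-, h | h⟩ | ⟨x, -, -, h⟩
  · omega
  · exact Or.inl h
  · exact Or.inr h
  · have := h.1
    omega
  · have := h.1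
    omega
  · have := h.1
    omega

private theorem s05_full {v n : V} (hd : dg G v = 3) (hs : (YN G v).card + (ZN G v).card = 3)
    (hvn : G.Adj v n) (hn : dg G n = 3) : False := by
  have hdis : Disjoint (YN G v) (ZN G v) := by
    rw [Finset.disjoint_left]
    intro a ha hb
    rw [YN, Finset.mem_filter] at ha
    rw [ZN, Finset.mem_filter] at hb
    omega
  have hcard : (YN G v ∪ ZN G v).card = 3 := by
    rw [Finset.card_union_of_disjoint hdis, hs]
  have hsub : YN G v ∪ ZN G v ⊆ nb G v := by
    refine Finset.union_subset ?_ ?_
    · rw [YN]; exact Finset.filter_subset _ _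
    · rw [ZN]; exact Finset.filter_subset _ _
  have hd' : (nb G v).card = 3 := hd
  have heq : YN G v ∪ ZN G v = nb G v := Finset.eq_of_subset_of_card_le hsub (by omega)
  have hmem : n ∈ YN G v ∪ ZN G v := by
    rw [heq]
    exact mem_nb.2 hvn
  rw [Finset.mem_union, YN, ZN, Finset.mem_filter, Finset.mem_filter] at hmem
  omega

/-- two different neighbours of `v ≠ p` that are equal or adjacent to `p` -/
private theorem s05_two (F : Facts G L) {v a b : V} (hvp : v ≠ p) (hva : G.Adj v a)
    (hvb : G.Adj v b) (hab : a ≠ b) (ha : a = p ∨ G.Adj p a) (hb : b = p ∨ G.Adj p b) :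
    False := by
  rcases ha with ha | ha
  · subst ha
    rcases hb with hb | hb
    · exact hab hb.symm
    · exact F.short.c3 a v b hva.symm hvb hb.symm
  · rcases hb with hb | hb
    · subst hb
      exact F.short.c3 b v a hvb.symm hva ha.symm
    · exact F.short.c4 p a v b ha hva.symm hvb hb.symm (fun e => hvp e.symm) hab

private theorem s05_near (hS : StarOK G p Λ) {a : V} (ha : a = p ∨ a ∈ Λ) :
    a = p ∨ G.Adj p a := by
  rcases ha with h | h
  · exact Or.inl h
  · exact Or.inr (hS.sub a h).1

/-- the neighbours of degree at least 3 in the star of a vertex of degree at least 4 outside -/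
private theorem s05_nb (F : Facts G L) (hS : StarOK G p Λ) {v n : V} (hv : v ∉ star G p Λ)
    (h4 : 4 ≤ dg G v) (hvn : G.Adj v n) (hn : n ∈ star G p Λ) (h3 : 3 ≤ dg G n) :
    n = p ∨ G.Adj p n := by
  rcases star_cases hS hn with h | h | h | ⟨h, -⟩ | ⟨x, hx, hxn, h⟩
  · omega
  · exact Or.inl h
  · exact Or.inr (hS.sub n h).1
  · exact Or.inr h
  · exfalso
    have hc := F.t2 n h
    have h1 : v ∈ YN G n := by
      rw [YN, Finset.mem_filter]
      exact ⟨mem_nb.2 hvn.symm, h4⟩
    have h2 : x ∈ YN G n := by
      rw [YN, Finset.mem_filter]
      exact ⟨mem_nb.2 hxn.symm, (hS.sub x hx).2⟩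
    have : v = x := Finset.card_le_one.1 hc.le v h1 x h2
    exact hv (this ▸ Λ_sub_star hx)

/-- Suppose `v ∉ star`, `v` has a neighbour in the star and `nb G v ⊆ star`.
`dg G v = 2`: `star_Z`.
`dg G v = 3`: by `F.t3` it is of type `T0`, `T1` or `T2`. The Y-neighbours of `v` are in the star,
so in `insert p Λ` (`star_cases`), at most one of them (c3, c4; `p` may have degree 3). `T1`: two
Y-neighbours (`F.t1`), contradiction. `T2`: one Y-neighbour `c` (`F.t2`), `c = p` or `c ∈ Λ`, then
`v ∈ ob G p c` (`v ≠ p` if `c ∈ Λ`: otherwise `v = p` is in the star) and `v` is in the star.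
`T0`: the neighbours have degree at least 3 and are in the star, so by `star_cases` in
`insert p Λ` or of type `T1`, `T2`; the latter have no neighbour of degree 3 (`F.t1`, `F.t2`); so
all three neighbours are in `insert p Λ`: c3 or c4.
`4 ≤ dg G v`: neighbours of degree at least 3 are in the star: `p`, elements of `Λ`, `T1`
neighbours of `p`, or `T2` vertices adjacent to `p` or to some `x ∈ Λ`; the last ones have only one
Y-neighbour (`F.t2`) which is in the star (`p` if `4 ≤ dg G p`; a `T2` vertex adjacent to `p` of
degree 3 is impossible by `F.t2`), so they are not adjacent to `v`. Two different ones give c3 or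
c4. If there is none: `F.pre` with `YN G v = ∅`, `ZN G v = nb G v`. If there is exactly one, `b`:
apply `F.li`; let `n ∈ M1 G v`, `m` its other neighbour, `3 ≤ dg G m`; `n` is in the star, so
`m` is in the star: `n` is in `thr G c k` with a centre `c`, and as its two neighbours `v`, `m` are
not of degree 2, `n = k` and `c = m` (`v` is not in the star), or `n ∈ ZN G t` for an object `t` and
`t = m`. If `dg G m ≠ 3` then `m = p` or `m ∈ Λ` (`star_cases`), and with `b` there is a closed walk
of length at most 5: `v b .. m n` (`b, m` are both equal or adjacent to `p`). -/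
theorem star_iso (F : Facts G L) (hS : StarOK G p Λ) (v : V) (hv : v ∉ star G p Λ)
    (h : (nb G v ∩ star G p Λ).Nonempty) : (nb G v \ star G p Λ).Nonempty := by
  by_contra hne
  have hsub : ∀ n, G.Adj v n → n ∈ star G p Λ := by
    intro n hn
    by_contra hns
    exact hne ⟨n, Finset.mem_sdiff.2 ⟨mem_nb.2 hn, hns⟩⟩
  have hvp : v ≠ p := by
    rintro rfl
    exact hv p_mem_star
  obtain ⟨u, hu⟩ := h
  rw [Finset.mem_inter, mem_nb] at hu
  have h2 := F.deg2 v
  rcases Nat.lt_or_ge (dg G v) 3 with hlt | hge
  · exact hv (star_Z F hS hu.2 hu.1.symm (by omega))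
  rcases Nat.lt_or_ge (dg G v) 4 with hlt | h4
  · have h3 : dg G v = 3 := by omega
    have hZ := F.t3 v h3
    have hcase : (ZN G v).card = 0 ∨ (ZN G v).card = 1 ∨ (ZN G v).card = 2 := by omega
    rcases hcase with h0 | h1 | h2'
    · have key : ∀ n, G.Adj v n → n = p ∨ G.Adj p n := by
        intro n hn
        have hns := hsub n hn
        rcases star_cases hS hns with h | h | h | ⟨h', -⟩ | ⟨x', -, -, h⟩
        · exfalso
          have : n ∈ ZN G v := by
            rw [ZN, Finset.mem_filter]
            exact ⟨mem_nb.2 hn, h⟩
          rw [Finset.card_eq_zero.1 h0] at this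
          exact absurd this (Finset.notMem_empty n)
        · exact Or.inl h
        · exact Or.inr (hS.sub n h).1
        · exact Or.inr h'
        · exact (s05_full h.1 (by rw [F.t2 n h, h.2]) hn.symm h3).elim
      have hc : 1 < (nb G v).card := by
        have : (nb G v).card = 3 := h3
        omega
      obtain ⟨a, ha, b, hb, hab⟩ := Finset.one_lt_card.1 hc
      rw [mem_nb] at ha hb
      exact s05_two F hvp ha hb hab (key a ha) (key b hb)
    · have hY := F.t1 v ⟨h3, h1⟩
      obtain ⟨a, ha, b, hb, hab⟩ := Finset.one_lt_card.1 (by omega : 1 < (YN G v).card)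
      rw [YN, Finset.mem_filter, mem_nb] at ha hb
      exact s05_two F hvp ha.1 hb.1 hab (s05_near hS (s05_big hS (hsub a ha.1) ha.2))
        (s05_near hS (s05_big hS (hsub b hb.1) hb.2))
    · have hY := F.t2 v ⟨h3, h2'⟩
      obtain ⟨c, hc⟩ := Finset.card_pos.1 (by omega : 0 < (YN G v).card)
      rw [YN, Finset.mem_filter, mem_nb] at hc
      have hci : c ∈ insert p Λ := by
        rw [Finset.mem_insert]
        exact s05_big hS (hsub c hc.1) hc.2
      exact hv (br_sub_star hci (S01_mem_ob.2 ⟨hvp, hc.1.symm, Or.inr (Or.inr ⟨h3, h2'⟩)⟩)
        S01_root_mem_br)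
  · -- degree at least 4
    have hB : ∀ a b, G.Adj v a → 3 ≤ dg G a → G.Adj v b → 3 ≤ dg G b → a = b := by
      intro a b ha ha3 hb hb3
      by_contra hab
      exact s05_two F hvp ha hb hab (s05_nb F hS hv h4 ha (hsub a ha) ha3)
        (s05_nb F hS hv h4 hb (hsub b hb) hb3)
    by_cases hex : ∃ b, G.Adj v b ∧ 3 ≤ dg G b
    · obtain ⟨b, hvb, hb3⟩ := hex
      have hbp := s05_nb F hS hv h4 hvb (hsub b hvb) hb3
      refine F.li v h4 ?_ ?_
      · rw [Finset.card_eq_one]
        refine ⟨b, ?_⟩
        ext n
        rw [Finset.mem_filter, Finset.mem_singleton, mem_nb]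
        constructor
        · rintro ⟨h5, h6⟩
          exact hB n b h5 h6 hvb hb3
        · rintro rfl
          exact ⟨hvb, hb3⟩
      · intro n hn m hm hmv
        rw [M1, Finset.mem_filter, mem_nb] at hn
        obtain ⟨hvn, hn2, hn3⟩ := hn
        have hm3 := hn3 m hm hmv
        rw [mem_nb] at hm
        have hns := hsub n hvn
        obtain ⟨y, hy, hyv⟩ := exists_other hvn hn2
        have hmy : m = y := by
          have : m ∈ nb G n := mem_nb.2 hm
          rw [hy, Finset.mem_insert, Finset.mem_singleton] at this
          rcases this with h | h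
          · exact (hmv h).elim
          · exact h
        subst hmy
        have hnbr : ∀ c, G.Adj n c → c = v ∨ c = m := by
          intro c hc
          have : c ∈ nb G n := mem_nb.2 hc
          rw [hy, Finset.mem_insert, Finset.mem_singleton] at this
          exact this
        -- the claim for a branch
        have hbr : ∀ c n0, c ∈ insert p Λ → n0 ∈ ob G p c → n ∈ br G c n0 →
            dg G m = 3 ∨ m ∈ insert p Λ := by
          intro c n0 hc hn0 hnb
          obtain ⟨hn0p, hcn0, ht⟩ := S01_mem_ob.1 hn0
          have hcs : c ∈ star G p Λ := by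
            rcases Finset.mem_insert.1 hc with h | h
            · rw [h]; exact p_mem_star
            · exact Λ_sub_star h
          by_cases hd : dg G n0 = 2
          · have hb : br G c n0 = thr G c n0 := by simp only [br, hd, if_true]
            rw [hb] at hnb
            rcases S01_mem_thr.1 hnb with h | h | ⟨-, m', hm', -, -, hadj, -⟩
            · subst h
              rcases hnbr c hcn0.symm with h | h
              · exact (hv (h ▸ hcs)).elim
              · right
                rw [← h]
                exact hc
            · rcases hnbr n0 h.2.1.symm with h' | h'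
              · rw [h'] at hd
                omega
              · rw [h'] at hd
                omega
            · rcases hnbr m' hadj.symm with h' | h'
              · rw [h'] at hm'
                omega
              · rw [h'] at hm'
                omega
          · have hb : br G c n0 = insert n0 (ZN G n0) := by simp only [br, hd, if_false]
            have hn0s : n0 ∈ star G p Λ := br_sub_star hc hn0 S01_root_mem_br
            rw [hb] at hnb
            rcases Finset.mem_insert.1 hnb with h | h
            · rw [← h] at hd
              exact (hd hn2).elim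
            · rcases hnbr n0 (S01_mem_ZN.1 h).1.symm with h' | h'
              · exact (hv (h' ▸ hn0s)).elim
              · left
                rw [← h']
                rcases ht with ht | ht | ht
                · exact (hd ht).elim
                · exact ht.1
                · exact ht.1
        have hmc : dg G m = 3 ∨ m ∈ insert p Λ := by
          rcases S01_mem_star.1 hns with h | ⟨n0, hn0, h⟩ | ⟨x, hx, h | ⟨n0, hn0, h⟩⟩
          · have := hS.dgp
            rw [← h] at this
            omega
          · exact hbr p n0 (Finset.mem_insert_self _ _) hn0 h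
          · have := (hS.sub x hx).2
            rw [← h] at this
            omega
          · exact hbr x n0 (Finset.mem_insert_of_mem hx) hn0 h
        rcases hmc with h | h
        · exact h
        · exfalso
          rcases Finset.mem_insert.1 h with h | h
          · subst h
            rcases hbp with h | h
            · subst h
              exact F.short.c3 b v n hvb.symm hvn hm
            · refine F.short.c4 m b v n h hvb.symm hvn hm hmv ?_
              rintro rfl
              omega
          · have hpm := (hS.sub m h).1
            rcases hbp with h' | h'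
            · subst h'
              refine F.short.c4 b v n m hvb.symm hvn hm hpm.symm ?_ ?_
              · rintro rfl
                omega
              · exact fun e => hmv e.symm
            · exact F.short.c5 p b v n m h' hvb.symm hvn hm hpm.symm
    · have hall : ∀ n, G.Adj v n → dg G n = 2 := by
        intro n hn
        have := F.deg2 n
        by_contra hne'
        exact hex ⟨n, hn, by omega⟩
      have hY : YN G v = ∅ := by
        rw [Finset.eq_empty_iff_forall_notMem]
        intro n hn
        rw [YN, Finset.mem_filter, mem_nb] at hn
        have := hall n hn.1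
        omega
      have hZ : ZN G v = nb G v := by
        rw [ZN, Finset.filter_eq_self]
        intro n hn
        exact hall n (mem_nb.1 hn)
      refine F.pre v h4 hY ?_
      have hc : (ZN G v).card = dg G v := by rw [hZ]; rfl
      rw [hc, Nat.sub_self, Nat.zero_mul]
      omega

end Pool.Agent.Lib.MP_03175e_co
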