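import Pool.Agent.Lib.MP_03175e_co.R01
import Pool.Agent.Lib.MP_03175e_co.R02
import Pool.Agent.Lib.MP_03175e_co.S05
import Pool.Agent.Lib.MP_03175e_co.F02b
import Pool.Agent.Lib.MP_03175e_co.A10

/-!
Row R03: the counting reductions COUNT and COUNT3 for a centre `w` (paper section 5).
-/

namespace Pool.Agent.Lib.MP_03175e_co

open Finset Classical

variable {V : Type} [Fintype V] {G : SimpleGraph V} {L : V → Finset ℕ} {w : V} {Λ : Finset V}

/-- All second centres are objects of cost 0 that are tight for at most two colours. -/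
def LamOK (G : SimpleGraph V) (L : V → Finset ℕ) (w : V) (Λ : Finset V) : Prop :=
  ∀ (φ : V → ℕ) (κ : V → Finset ℕ), Ext G L (star G w Λ) φ κ →
    ∀ x ∈ Λ, LamLike (OO G L (star G w Λ) φ κ w w x)

/-- number of killed colours -/
private noncomputable def R03_k (G : SimpleGraph V) (w : V) (Λ : Finset V) (n : V) : ℕ :=
  2 * (if n ∈ YN G w \ Λ then 1 else 0) + (if n ∈ T0N G w then 1 else 0) +
    (if n ∈ M1 G w then 1 else 0)

/-- number of tight colours -/
private noncomputable def R03_t (G : SimpleGraph V) (w : V) (Λ : Finset V) (n : V) : ℕ :=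
  2 * (if n ∈ M1 G w then 1 else 0) + 2 * (if n ∈ M2 G w then 1 else 0) +
    2 * (if n ∈ T2N G w then 1 else 0) + (if n ∈ M3 G w then 1 else 0) +
    2 * (if n ∈ Λ then 1 else 0) + 3 * (if n ∈ T1N G w then 1 else 0)

private theorem R03_sum {A N : Finset V} (h : A ⊆ N) :
    ∑ n ∈ N, (if n ∈ A then 1 else 0) = A.card := by
  rw [Finset.sum_ite_mem, Finset.inter_eq_right.2 h]
  simp

private theorem R03_sub (hS : StarOK G w Λ) : Λ ⊆ YN G w := by
  intro x hx
  have := hS.sub x hx
  unfold YN nb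
  simp only [Finset.mem_filter, Finset.mem_univ, true_and]
  exact this

private theorem R03_sum_k (hS : StarOK G w Λ) :
    ∑ n ∈ nb G w, R03_k G w Λ n =
      2 * (YN G w \ Λ).card + (T0N G w).card + (M1 G w).card := by
  unfold R03_k
  rw [Finset.sum_add_distrib, Finset.sum_add_distrib, ← Finset.mul_sum,
    R03_sum (A := YN G w \ Λ) (Finset.sdiff_subset.trans (Finset.filter_subset _ _)),
    R03_sum (A := T0N G w) (Finset.filter_subset _ _),
    R03_sum (A := M1 G w) (Finset.filter_subset _ _)]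

private theorem R03_sum_t (hS : StarOK G w Λ) :
    ∑ n ∈ nb G w, R03_t G w Λ n =
      2 * (M1 G w).card + 2 * (M2 G w).card + 2 * (T2N G w).card + (M3 G w).card +
        2 * Λ.card + 3 * (T1N G w).card := by
  unfold R03_t
  rw [Finset.sum_add_distrib, Finset.sum_add_distrib, Finset.sum_add_distrib,
    Finset.sum_add_distrib, Finset.sum_add_distrib, ← Finset.mul_sum, ← Finset.mul_sum,
    ← Finset.mul_sum, ← Finset.mul_sum, ← Finset.mul_sum,
    R03_sum (A := M1 G w) (Finset.filter_subset _ _),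
    R03_sum (A := M2 G w) (Finset.filter_subset _ _),
    R03_sum (A := T2N G w) (Finset.filter_subset _ _),
    R03_sum (A := M3 G w) (Finset.filter_subset _ _),
    R03_sum (A := Λ) ((R03_sub hS).trans (Finset.filter_subset _ _)),
    R03_sum (A := T1N G w) (Finset.filter_subset _ _)]

private theorem R03_cardR (hS : StarOK G w Λ) :
    ((YN G w \ Λ) ∪ T0N G w).card = (YN G w \ Λ).card + (T0N G w).card := by
  apply Finset.card_union_of_disjoint
  rw [Finset.disjoint_left]
  intro n hn hn'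
  have h1 : 4 ≤ dg G n := (Finset.mem_filter.1 (Finset.mem_sdiff.1 hn).1).2
  have h2 : dg G n = 3 := (Finset.mem_filter.1 hn').2.1
  omega

private theorem R03_cardN (F : Facts G L) (hw : 4 ≤ dg G w) (hS : StarOK G w Λ) :
    (nb G w).card = (YN G w \ Λ).card + Λ.card + (T0N G w).card + (T1N G w).card +
      (T2N G w).card + (M1 G w).card + (M2 G w).card + (M3 G w).card := by
  have h1 := dg_eq F (x := w) (by omega)
  have h2 : (YN G w \ Λ).card + Λ.card = (YN G w).card :=
    Finset.card_sdiff_add_card_eq_card (R03_sub hS)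
  unfold dg at h1
  omega

/-- the data for the counting lemmas -/
private theorem R03_data (F : Facts G L) (hw : 4 ≤ dg G w) (hS : StarOK G w Λ)
    (hΛ : LamOK G L w Λ) {φ : V → ℕ} {κ : V → Finset ℕ} (he : Ext G L (star G w Λ) φ κ)
    {n : V} (hn : n ∈ nb G w) :
    (KK G (star G w Λ) φ κ n).card ≤ R03_k G w Λ n ∧
    (∀ α, α ∉ KK G (star G w Λ) φ κ n → (OO G L (star G w Λ) φ κ w w n α).Nonempty) ∧
    (n ∉ (YN G w \ Λ) ∪ T0N G w → ∃ T : Finset ℕ, T.card ≤ R03_t G w Λ n ∧
      ∀ α, α ∉ KK G (star G w Λ) φ κ n → α ∉ T →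
        2 ≤ (OO G L (star G w Λ) φ κ w w n α).card) := by
  have hnw : n ≠ w := by
    rintro rfl
    simp [nb] at hn
  have hlam : ∀ {n : V}, 2 ≤ R03_t G w Λ n →
      LamLike (OO G L (star G w Λ) φ κ w w n) →
      (∀ α, α ∉ KK G (star G w Λ) φ κ n → (OO G L (star G w Λ) φ κ w w n α).Nonempty) ∧
      (n ∉ (YN G w \ Λ) ∪ T0N G w → ∃ T : Finset ℕ, T.card ≤ R03_t G w Λ n ∧
      ∀ α, α ∉ KK G (star G w Λ) φ κ n → α ∉ T →
        2 ≤ (OO G L (star G w Λ) φ κ w w n α).card) := by
    intro n ht hl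
    obtain ⟨T, hT, hT2⟩ := hl.2
    exact ⟨fun α _ => hl.1 α, fun _ => ⟨T, hT.trans ht, fun α _ h => hT2 α h⟩⟩
  have hw' : w ∈ insert w Λ := Finset.mem_insert_self _ _
  by_cases hL : n ∈ Λ
  · refine ⟨by rw [KO_L hS hL]; simp, hlam ?_ (hΛ φ κ he n hL)⟩
    unfold R03_t
    rw [if_pos hL]
    omega
  rcases nb_cases F (x := w) (by omega) hn with h | h | h | h | h | h | h
  · obtain ⟨-, h1, -, h3⟩ := KO_Y F hS he hw' h hnw (fun _ => hL)
    have hmem : n ∈ YN G w \ Λ := Finset.mem_sdiff.2 ⟨h, hL⟩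
    refine ⟨?_, fun α _ => by rw [h3 α]; simp, fun hcon => (hcon (Finset.mem_union_left _ hmem)).elim⟩
    unfold R03_k
    rw [if_pos hmem]
    omega
  · obtain ⟨-, h1, -, h3⟩ := KO_T0 F hS he hw' h hnw
    refine ⟨?_, fun α _ => by rw [h3 α]; simp, fun hcon => (hcon (Finset.mem_union_right _ h)).elim⟩
    unfold R03_k
    rw [if_pos h]
    omega
  · obtain ⟨h1, h2, T, hT, hT2⟩ := KO_T1 F hS he h
    refine ⟨by rw [h1]; simp, fun α _ => h2 α, fun _ => ⟨T, ?_, fun α _ h => hT2 α h⟩⟩
    unfold R03_t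
    rw [if_pos h]
    omega
  · obtain ⟨h1, h2⟩ := KO_mu F hS he hw' (Or.inr h) hnw
    refine ⟨by rw [h1]; simp, hlam ?_ h2⟩
    unfold R03_t
    rw [if_pos h]
    omega
  · obtain ⟨y, -, -, -, hK, -, -, h2, hO⟩ := KO_M1 F hS he hw' h
    refine ⟨?_, ?_, ?_⟩
    · rw [hK]
      unfold R03_k
      rw [if_pos h]
      simp
    · intro α hα
      refine Finset.Nonempty.mono (hO α hα) ?_
      rw [← Finset.card_pos]
      have := Finset.pred_card_le_card_erase (s := L n \ κ y) (a := α)
      omega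
    · intro _
      have ht : 2 ≤ R03_t G w Λ n := by
        unfold R03_t
        rw [if_pos h]
        omega
      by_cases hc : (L n \ κ y).card = 2
      · refine ⟨L n \ κ y, by omega, fun α hα hT => ?_⟩
        have := Finset.card_le_card (hO α hα)
        rw [Finset.erase_eq_of_notMem hT] at this
        omega
      · refine ⟨∅, by simp, fun α hα _ => ?_⟩
        have h3 := Finset.card_le_card (hO α hα)
        have := Finset.pred_card_le_card_erase (s := L n \ κ y) (a := α)
        omega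
  · obtain ⟨h1, h2⟩ := KO_mu F hS he hw' (Or.inl h) hnw
    refine ⟨by rw [h1]; simp, hlam ?_ h2⟩
    unfold R03_t
    rw [if_pos h]
    omega
  · obtain ⟨h1, h2, α₀, h3⟩ := KO_M3 F hS he hw' h
    refine ⟨by rw [h1]; simp, fun α _ => h2 α, fun _ => ⟨{α₀}, ?_, fun α _ hα => ?_⟩⟩
    · unfold R03_t
      rw [if_pos h]
      simp only [Finset.card_singleton]
      omega
    · exact le_trans (by norm_num) (h3 α (by simpa using hα))

/-- COUNT. `h.delete` with `X = star G w Λ` (`star_iso`), `a = fun _ => ∅`. Then `count_choice` with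
`N = nb G w`, `R = (YN G w \ Λ) ∪ T0N G w`, `K = KK`, `O = OO`, and `k = 2, 1, 1, 0` on
`YN \ Λ`, `T0N`, `M1`, the rest; `t = 2` on `M1, M2, T2N, Λ`, `t = 1` on `M3` (`T n = {α₀}`), `t = 3` on
`T1N` (R01; for `M1` the set `T n` is `L n \ κ y` if it has two elements and `∅` otherwise). The sums
over `nb G w` are computed with `sum_part` (for `N \ R` use `t = 0` on `R`), `dg_eq` gives
`(nb G w).card`. Contradiction by `star_top`. -/
theorem count_false (h : MinCE G L) (hw : 4 ≤ dg G w) (hS : StarOK G w Λ)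
    (hΛ : LamOK G L w Λ) (has : (YN G w \ Λ).card + (T0N G w).card ≤ 3)
    (hc : 2 * (M1 G w).card + 2 * ((M2 G w).card + (T2N G w).card) + (M3 G w).card +
        2 * Λ.card + 3 * (T1N G w).card +
        (4 - (YN G w \ Λ).card - (T0N G w).card) * (YN G w \ Λ).card <
      (4 - (YN G w \ Λ).card - (T0N G w).card) *
        ((M2 G w).card + (T2N G w).card + (M3 G w).card + Λ.card + (T1N G w).card + 2)) :
    False := by
  have F := h.facts
  obtain ⟨φ, κ, he, -⟩ := h.delete (X := star G w Λ) ⟨w, p_mem_star⟩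
    (fun v hv hn => star_iso F hS v hv hn) (fun _ => ∅) (by simp)
  set R : Finset V := (YN G w \ Λ) ∪ T0N G w with hR
  have hRc : R.card = (YN G w \ Λ).card + (T0N G w).card := R03_cardR hS
  have hN := R03_cardN F hw hS
  have hRN : R ⊆ nb G w := Finset.union_subset
    (Finset.sdiff_subset.trans (Finset.filter_subset _ _)) (Finset.filter_subset _ _)
  have hT' : ∀ n ∈ nb G w \ R, ∃ T : Finset ℕ, T.card ≤ R03_t G w Λ n ∧
      ∀ α, α ∉ KK G (star G w Λ) φ κ n → α ∉ T →
        2 ≤ (OO G L (star G w Λ) φ κ w w n α).card := by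
    intro n hn
    rw [Finset.mem_sdiff] at hn
    exact (R03_data F hw hS hΛ he hn.1).2.2 hn.2
  choose! T hT using hT'
  obtain ⟨α, hα, hK, e, hO, hcf⟩ := count_choice (N := nb G w) (R := R) (L := L w)
    (K := KK G (star G w Λ) φ κ) (O := OO G L (star G w Λ) φ κ w w) (k := R03_k G w Λ)
    (t := R03_t G w Λ) (T := T) hw hRN (by omega) (h.card w).ge
    (fun n hn => (R03_data F hw hS hΛ he hn).1)
    (fun n hn => (R03_data F hw hS hΛ he hn).2.1) hT (by
      have h1 : ∑ n ∈ nb G w \ R, R03_t G w Λ n ≤ ∑ n ∈ nb G w, R03_t G w Λ n :=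
        Finset.sum_le_sum_of_subset Finset.sdiff_subset
      rw [R03_sum_t hS] at h1
      rw [R03_sum_k hS, hN, hRc, ← Nat.sub_sub]
      set b := 4 - (YN G w \ Λ).card - (T0N G w).card
      have e1 : b * (2 * (YN G w \ Λ).card + (T0N G w).card + (M1 G w).card) =
        b * (YN G w \ Λ).card + b * ((YN G w \ Λ).card + (T0N G w).card + (M1 G w).card) := by
        ring
      have e2 : b * ((YN G w \ Λ).card + Λ.card + (T0N G w).card + (T1N G w).card +
          (T2N G w).card + (M1 G w).card + (M2 G w).card + (M3 G w).card + 2) =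
        b * ((M2 G w).card + (T2N G w).card + (M3 G w).card + Λ.card + (T1N G w).card + 2) +
          b * ((YN G w \ Λ).card + (T0N G w).card + (M1 G w).card) := by
        ring
      rw [e1, e2]
      omega)
  exact star_top F hS he hα hK hO hcf

/-- COUNT3. The same with `count3_choice`, `j ∈ M3 G w`, `α₀` from `KO_M3`. -/
theorem count3_false (h : MinCE G L) (hw : 4 ≤ dg G w) (hS : StarOK G w Λ)
    (hΛ : LamOK G L w Λ) (has : (YN G w \ Λ).card + (T0N G w).card ≤ 5)
    (h3 : 1 ≤ (M3 G w).card)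
    (hc : (2 * (M1 G w).card + 2 * ((M2 G w).card + (T2N G w).card) + ((M3 G w).card - 1) +
          2 * Λ.card + 3 * (T1N G w).card +
          (6 - (YN G w \ Λ).card - (T0N G w).card) * (YN G w \ Λ).card <
        (6 - (YN G w \ Λ).card - (T0N G w).card) *
          ((M2 G w).card + (T2N G w).card + (M3 G w).card + Λ.card + (T1N G w).card + 1)) ∨
      ((M1 G w).card + (M2 G w).card + (T2N G w).card + ((M3 G w).card - 1) + Λ.card +
          (T1N G w).card < 6 - (YN G w \ Λ).card - (T0N G w).card ∧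
        (YN G w \ Λ).card < (M2 G w).card + (T2N G w).card + (M3 G w).card + Λ.card +
          (T1N G w).card + 1)) :
    False := by
  have F := h.facts
  obtain ⟨φ, κ, he, -⟩ := h.delete (X := star G w Λ) ⟨w, p_mem_star⟩
    (fun v hv hn => star_iso F hS v hv hn) (fun _ => ∅) (by simp)
  set R : Finset V := (YN G w \ Λ) ∪ T0N G w with hR
  have hRc : R.card = (YN G w \ Λ).card + (T0N G w).card := R03_cardR hS
  have hN := R03_cardN F hw hS
  have hRN : R ⊆ nb G w := Finset.union_subset
    (Finset.sdiff_subset.trans (Finset.filter_subset _ _)) (Finset.filter_subset _ _)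
  obtain ⟨j, hj⟩ := Finset.card_pos.1 h3
  have hjN : j ∈ nb G w := Finset.filter_subset _ _ hj
  have hjd : dg G j = 2 := (Finset.mem_filter.1 hj).2.1
  have hjR : j ∈ nb G w \ R := by
    rw [Finset.mem_sdiff, hR, Finset.mem_union, Finset.mem_sdiff]
    refine ⟨hjN, ?_⟩
    rintro (hc | hc)
    · have : 4 ≤ dg G j := (Finset.mem_filter.1 hc.1).2
      omega
    · have : dg G j = 3 := (Finset.mem_filter.1 hc).2.1
      omega
  obtain ⟨hKj, -, α₀, hj3⟩ := KO_M3 F hS he (Finset.mem_insert_self _ _) hj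
  have hT' : ∀ n ∈ nb G w \ R, ∃ T : Finset ℕ, T.card ≤ R03_t G w Λ n ∧
      ∀ α, α ∉ KK G (star G w Λ) φ κ n → α ∉ T →
        2 ≤ (OO G L (star G w Λ) φ κ w w n α).card := by
    intro n hn
    rw [Finset.mem_sdiff] at hn
    exact (R03_data F hw hS hΛ he hn.1).2.2 hn.2
  choose! T hT using hT'
  obtain ⟨α, hα, hK, e, hO, hcf⟩ := count3_choice (N := nb G w) (R := R) (L := L w)
    (K := KK G (star G w Λ) φ κ) (O := OO G L (star G w Λ) φ κ w w) (k := R03_k G w Λ)
    (t := R03_t G w Λ) (T := T) (j := j) (α₀ := α₀) hRN (by omega) hjR hKj hj3 (h.card w).ge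
    (fun n hn => (R03_data F hw hS hΛ he hn).1)
    (fun n hn => (R03_data F hw hS hΛ he hn).2.1)
    (fun n hn => hT n (Finset.mem_of_mem_erase hn)) (by
      have h1 : ∑ n ∈ nb G w \ R, R03_t G w Λ n ≤ ∑ n ∈ nb G w, R03_t G w Λ n :=
        Finset.sum_le_sum_of_subset Finset.sdiff_subset
      rw [R03_sum_t hS] at h1
      have h2 : ∑ n ∈ (nb G w \ R).erase j, R03_t G w Λ n + R03_t G w Λ j =
          ∑ n ∈ nb G w \ R, R03_t G w Λ n := Finset.sum_erase_add _ _ hjR
      have h4 : 1 ≤ R03_t G w Λ j := by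
        unfold R03_t
        rw [if_pos hj]
        omega
      have h5 : (nb G w \ R).card = (nb G w).card - R.card := Finset.card_sdiff_of_subset hRN
      have h6 : ((nb G w \ R).erase j).card = (nb G w \ R).card - 1 :=
        Finset.card_erase_of_mem hjR
      rcases hc with hc | ⟨hc1, hc2⟩
      · left
        rw [R03_sum_k hS, hN, hRc, ← Nat.sub_sub]
        set b := 6 - (YN G w \ Λ).card - (T0N G w).card
        have e1 : b * (2 * (YN G w \ Λ).card + (T0N G w).card + (M1 G w).card) =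
          b * (YN G w \ Λ).card + b * ((YN G w \ Λ).card + (T0N G w).card + (M1 G w).card) := by
          ring
        have e2 : b * ((YN G w \ Λ).card + Λ.card + (T0N G w).card + (T1N G w).card +
            (T2N G w).card + (M1 G w).card + (M2 G w).card + (M3 G w).card + 1) =
          b * ((M2 G w).card + (T2N G w).card + (M3 G w).card + Λ.card + (T1N G w).card + 1) +
            b * ((YN G w \ Λ).card + (T0N G w).card + (M1 G w).card) := by
          ring
        rw [e1, e2]
        omega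
      · right
        rw [R03_sum_k hS, h6, h5, hN, hRc]
        omega)
  exact star_top F hS he hα hK hO hcf

end Pool.Agent.Lib.MP_03175e_co
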