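import Pool.Agent.Lib.MP_03175e_co.R01
import Pool.Agent.Lib.MP_03175e_co.F02a

/-!
Row R04: colours of a centre that are not killed (paper sections 5, 6).
`x` is a centre of the star and `q` a neighbour of `x` such that all other neighbours of `x` are
objects or outside the star: `x ∈ Λ`, `q = p`, or `x = p`, `Λ = {q}`.
-/

namespace Pool.Agent.Lib.MP_03175e_co

open Finset Classical

variable {V : Type} [Fintype V] {G : SimpleGraph V} {L : V → Finset ℕ} {p : V} {Λ : Finset V}
  {φ : V → ℕ} {κ : V → Finset ℕ}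

/-- `q` is a neighbour of the centre `x`, the other neighbours are different from `p` and not in
`Λ`. -/
def Spec (G : SimpleGraph V) (p : V) (Λ : Finset V) (x q : V) : Prop :=
  x ∈ insert p Λ ∧ q ∈ nb G x ∧ ∀ n ∈ nb G x, n ≠ q → n ≠ p ∧ (x = p → n ∉ Λ)

theorem Spec.of_mem (hS : StarOK G p Λ) {x : V} (hx : x ∈ Λ) : Spec G p Λ x p := by
  have h := (hS.sub x hx).1
  refine ⟨Finset.mem_insert_of_mem hx, mem_nb.2 h.symm, fun n _ hne => ⟨hne, fun hxp => ?_⟩⟩
  subst hxp
  exact absurd h (G.loopless.irrefl _)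

theorem Spec.top {q : V} (hS : StarOK G p {q}) : Spec G p {q} p q := by
  have h := (hS.sub q (Finset.mem_singleton_self q)).1
  refine ⟨Finset.mem_insert_self _ _, mem_nb.2 h, fun n hn hne => ⟨?_, fun _ => ?_⟩⟩
  · rintro rfl
    exact G.loopless.irrefl _ (mem_nb.1 hn)
  · rw [Finset.mem_singleton]
    exact hne

theorem R04_dg (hS : StarOK G p Λ) {x : V} (hx : x ∈ insert p Λ) : 3 ≤ dg G x := by
  rcases Finset.mem_insert.1 hx with h | h
  · rw [h]
    exact hS.dgp
  · have := (hS.sub x h).2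
    omega

theorem R04_T1 (hS : StarOK G p Λ) {x q n : V} (hx : Spec G p Λ x q) (hn : n ∈ T1N G x)
    (hne : n ≠ q) : x = p := by
  rw [T1N, Finset.mem_filter] at hn
  by_contra hxp
  have hxΛ : x ∈ Λ := by
    rcases Finset.mem_insert.1 hx.1 with h | h
    · exact absurd h hxp
    · exact h
  exact (hx.2.2 n hn.1 hne).1 (hS.noT1 x hxΛ n hn.1 hn.2)

/-- number of colours killed by the neighbour `n` -/
theorem R04_one (F : Facts G L) (hS : StarOK G p Λ) (he : Ext G L (star G p Λ) φ κ) {x q n : V}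
    (hx : Spec G p Λ x q) (hn : n ∈ nb G x) (hne : n ≠ q) :
    (KK G (star G p Λ) φ κ n).card ≤ (if n ∈ (YN G x).erase q then 2 else 0) +
      (if n ∈ T0N G x then 1 else 0) + (if n ∈ M1 G x then 1 else 0) := by
  have hd := R04_dg hS hx.1
  have hnp := (hx.2.2 n hn hne).1
  have hnΛ := (hx.2.2 n hn hne).2
  rcases nb_cases F hd hn with h | h | h | h | h | h | h
  · have h2 := (KO_Y F hS he hx.1 h hnp hnΛ).2.1
    rw [if_pos (Finset.mem_erase.2 ⟨hne, h⟩)]
    omega
  · have h2 := (KO_T0 F hS he hx.1 h hnp).2.1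
    rw [if_pos h]
    omega
  · have hxp := R04_T1 hS hx h hne
    subst hxp
    have h2 := (KO_T1 F hS he h).1
    rw [h2, Finset.card_empty]
    exact Nat.zero_le _
  · have h2 := (KO_mu F hS he hx.1 (Or.inr h) hnp).1
    rw [h2, Finset.card_empty]
    exact Nat.zero_le _
  · obtain ⟨y, -, -, -, h2, -⟩ := KO_M1 F hS he hx.1 h
    rw [h2, Finset.card_singleton, if_pos h]
    omega
  · have h2 := (KO_mu F hS he hx.1 (Or.inl h) hnp).1
    rw [h2, Finset.card_empty]
    exact Nat.zero_le _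
  · have h2 := (KO_M3 F hS he hx.1 h).1
    rw [h2, Finset.card_empty]
    exact Nat.zero_le _

theorem R04_sum (F : Facts G L) (hS : StarOK G p Λ) (he : Ext G L (star G p Λ) φ κ) {x q : V}
    (hx : Spec G p Λ x q) {N : Finset V} (hN : N ⊆ (nb G x).erase q) :
    ∑ n ∈ N, (KK G (star G p Λ) φ κ n).card ≤ 2 * (N ∩ (YN G x).erase q).card +
      (T0N G x).card + (M1 G x).card := by
  calc ∑ n ∈ N, (KK G (star G p Λ) φ κ n).card
      ≤ ∑ n ∈ N, ((if n ∈ (YN G x).erase q then 2 else 0) +
        (if n ∈ T0N G x then 1 else 0) + (if n ∈ M1 G x then 1 else 0)) :=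
        Finset.sum_le_sum fun n hn => R04_one F hS he hx (Finset.mem_of_mem_erase (hN hn))
          (Finset.ne_of_mem_erase (hN hn))
    _ = (N ∩ (YN G x).erase q).card * 2 + (N ∩ T0N G x).card + (N ∩ M1 G x).card := by
        rw [Finset.sum_add_distrib, Finset.sum_add_distrib, Finset.sum_ite_mem,
          Finset.sum_ite_mem, Finset.sum_ite_mem]
        simp
    _ ≤ _ := by
        have h1 : (N ∩ T0N G x).card ≤ (T0N G x).card :=
          Finset.card_le_card Finset.inter_subset_right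
        have h2 : (N ∩ M1 G x).card ≤ (M1 G x).card :=
          Finset.card_le_card Finset.inter_subset_right
        omega

/-- Killed are at most 2 colours by every Y-neighbour except `q`, one by every `T0` neighbour and by
every 1-thread (`unkilled_card` with `N = (nb G x).erase q`, R01, `sum_part`). A `T1` neighbour `n ≠ q`
of `x ∈ Λ` does not exist (`hS.noT1`); for `x = p` it is `KO_T1`. -/
theorem PP_card (F : Facts G L) (hS : StarOK G p Λ) (he : Ext G L (star G p Λ) φ κ) {x q : V}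
    (hx : Spec G p Λ x q) :
    dg G x + 2 ≤ (PP G L (star G p Λ) φ κ q x).card + 2 * ((YN G x).erase q).card +
      (T0N G x).card + (M1 G x).card := by
  have h1 : (L x).card ≤ (PP G L (star G p Λ) φ κ q x).card +
      ∑ n ∈ (nb G x).erase q, (KK G (star G p Λ) φ κ n).card := by
    refine (unkilled_card ((nb G x).erase q) (L x) (KK G (star G p Λ) φ κ)
      (fun n => (KK G (star G p Λ) φ κ n).card) (fun n _ => le_refl _)).trans
      (Nat.add_le_add_right (Finset.card_le_card ?_) _)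
    intro α hα
    obtain ⟨hα1, hα2⟩ := (@Finset.mem_filter _ _ (_) _ _).1 hα
    unfold PP
    rw [Finset.mem_filter]
    exact ⟨hα1, hα2⟩
  have h2 := R04_sum F hS he hx (Finset.Subset.refl _)
  have h3 : ((nb G x).erase q ∩ (YN G x).erase q).card ≤ ((YN G x).erase q).card :=
    Finset.card_le_card Finset.inter_subset_right
  rw [F.card x] at h1
  omega

/-- If two fixed Y-neighbours have the same colour, one colour more survives: the sets `KK b₁`
and `KK b₂` both contain `φ b₁ = φ b₂`, so together they kill at most three colours. -/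
theorem PP_card' (F : Facts G L) (hS : StarOK G p Λ) (he : Ext G L (star G p Λ) φ κ) {x q : V}
    (hx : Spec G p Λ x q) {b₁ b₂ : V} (h1 : b₁ ∈ (YN G x).erase q) (h2 : b₂ ∈ (YN G x).erase q)
    (h12 : b₁ ≠ b₂) (hφ : φ b₁ = φ b₂) :
    dg G x + 3 ≤ (PP G L (star G p Λ) φ κ q x).card + 2 * ((YN G x).erase q).card +
      (T0N G x).card + (M1 G x).card := by
  have hY1 := KO_Y F hS he hx.1 (Finset.mem_of_mem_erase h1)
  have hb1 : b₁ ∈ nb G x := (Finset.mem_filter.1 (Finset.mem_of_mem_erase h1)).1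
  have hb2 : b₂ ∈ nb G x := (Finset.mem_filter.1 (Finset.mem_of_mem_erase h2)).1
  have hq1 := Finset.ne_of_mem_erase h1
  have hq2 := Finset.ne_of_mem_erase h2
  have hk1 := KO_Y F hS he hx.1 (Finset.mem_of_mem_erase h1) (hx.2.2 b₁ hb1 hq1).1
    (hx.2.2 b₁ hb1 hq1).2
  have hk2 := KO_Y F hS he hx.1 (Finset.mem_of_mem_erase h2) (hx.2.2 b₂ hb2 hq2).1
    (hx.2.2 b₂ hb2 hq2).2
  have hU : (KK G (star G p Λ) φ κ b₁ ∪ KK G (star G p Λ) φ κ b₂).card ≤ 3 := by
    have hi : 1 ≤ (KK G (star G p Λ) φ κ b₁ ∩ KK G (star G p Λ) φ κ b₂).card := by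
      apply Finset.card_pos.2
      refine ⟨φ b₁, Finset.mem_inter.2 ⟨hk1.2.2.1, ?_⟩⟩
      rw [hφ]
      exact hk2.2.2.1
    have hui := Finset.card_union_add_card_inter (KK G (star G p Λ) φ κ b₁)
      (KK G (star G p Λ) φ κ b₂)
    have := hk1.2.1
    have := hk2.2.1
    omega
  have hb1' : b₁ ∈ ((nb G x).erase q).erase b₂ :=
    Finset.mem_erase.2 ⟨h12, Finset.mem_erase.2 ⟨hq1, hb1⟩⟩
  have h3 : (L x).card ≤ (PP G L (star G p Λ) φ κ q x).card +
      ∑ n ∈ ((nb G x).erase q).erase b₂,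
        (if n = b₁ then 3 else (KK G (star G p Λ) φ κ n).card) := by
    refine (unkilled_card (((nb G x).erase q).erase b₂) (L x)
      (fun n => if n = b₁ then KK G (star G p Λ) φ κ b₁ ∪ KK G (star G p Λ) φ κ b₂ else
        KK G (star G p Λ) φ κ n)
      (fun n => if n = b₁ then 3 else (KK G (star G p Λ) φ κ n).card) (by
        intro n _
        by_cases hnb : n = b₁
        · simp only [if_pos hnb]
          exact hU
        · simp only [if_neg hnb]
          exact le_refl _)).trans (Nat.add_le_add_right (Finset.card_le_card ?_) _)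
    intro α hα
    obtain ⟨hαL, hα2⟩ := (@Finset.mem_filter _ _ (_) _ _).1 hα
    unfold PP
    rw [Finset.mem_filter]
    refine ⟨hαL, fun n hn => ?_⟩
    have hα3 := hα2 b₁ hb1'
    rw [if_pos rfl, Finset.mem_union, not_or] at hα3
    by_cases hnb2 : n = b₂
    · rw [hnb2]
      exact hα3.2
    · by_cases hnb1 : n = b₁
      · rw [hnb1]
        exact hα3.1
      · have := hα2 n (Finset.mem_erase.2 ⟨hnb2, hn⟩)
        rwa [if_neg hnb1] at this
  have hsum : ∑ n ∈ ((nb G x).erase q).erase b₂,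
      (if n = b₁ then 3 else (KK G (star G p Λ) φ κ n).card) =
      3 + ∑ n ∈ (((nb G x).erase q).erase b₂).erase b₁, (KK G (star G p Λ) φ κ n).card := by
    rw [← Finset.add_sum_erase _ _ hb1', if_pos rfl]
    congr 1
    refine Finset.sum_congr rfl fun n hn => ?_
    rw [if_neg (Finset.ne_of_mem_erase hn)]
  have h4 := R04_sum F hS he hx (N := (((nb G x).erase q).erase b₂).erase b₁)
    ((Finset.erase_subset _ _).trans (Finset.erase_subset _ _))
  have h5 : ((((nb G x).erase q).erase b₂).erase b₁ ∩ (YN G x).erase q).card + 2 ≤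
      ((YN G x).erase q).card := by
    have h6 : (((nb G x).erase q).erase b₂).erase b₁ ∩ (YN G x).erase q ⊆
        (((YN G x).erase q).erase b₂).erase b₁ := by
      intro n hn
      obtain ⟨hn1, hn2⟩ := Finset.mem_inter.1 hn
      obtain ⟨hn3, hn4⟩ := Finset.mem_erase.1 hn1
      obtain ⟨hn5, -⟩ := Finset.mem_erase.1 hn4
      exact Finset.mem_erase.2 ⟨hn3, Finset.mem_erase.2 ⟨hn5, hn2⟩⟩
    have h7 := Finset.card_le_card h6
    have h8 := Finset.card_erase_add_one (s := ((YN G x).erase q).erase b₂) (a := b₁)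
      (Finset.mem_erase.2 ⟨h12, h1⟩)
    have h9 := Finset.card_erase_add_one h2
    omega
  rw [F.card x, hsum] at h3
  omega

/-- All neighbours of `x` other than `q` have a nonempty set of choices for every colour in
`PP`. -/
theorem OO_nonempty (F : Facts G L) (hS : StarOK G p Λ) (he : Ext G L (star G p Λ) φ κ) {x q : V}
    (hx : Spec G p Λ x q) {α : ℕ} (hα : α ∈ PP G L (star G p Λ) φ κ q x) {n : V}
    (hn : n ∈ nb G x) (hnp : n ≠ q) : (OO G L (star G p Λ) φ κ p x n α).Nonempty := by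
  have hd := R04_dg hS hx.1
  have hnp' := (hx.2.2 n hn hnp).1
  have hnΛ := (hx.2.2 n hn hnp).2
  rcases nb_cases F hd hn with h | h | h | h | h | h | h
  · rw [(KO_Y F hS he hx.1 h hnp' hnΛ).2.2.2 α]
    exact Finset.singleton_nonempty _
  · rw [(KO_T0 F hS he hx.1 h hnp').2.2.2 α]
    exact Finset.singleton_nonempty _
  · have hxp := R04_T1 hS hx h hnp
    subst hxp
    exact (KO_T1 F hS he h).2.1 α
  · exact (KO_mu F hS he hx.1 (Or.inr h) hnp').2.1 α
  · obtain ⟨y, -, -, -, -, -, -, h2, h3⟩ := KO_M1 F hS he hx.1 h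
    have hα2 : α ∉ KK G (star G p Λ) φ κ n := by
      unfold PP at hα
      exact (Finset.mem_filter.1 hα).2 n (Finset.mem_erase.2 ⟨hnp, hn⟩)
    have h4 : 0 < ((L n \ κ y).erase α).card := by
      have := Finset.pred_card_le_card_erase (s := L n \ κ y) (a := α)
      omega
    exact (Finset.card_pos.1 h4).mono (h3 α hα2)
  · exact (KO_mu F hS he hx.1 (Or.inl h) hnp').2.1 α
  · exact (KO_M3 F hS he hx.1 h).2.1 α

end Pool.Agent.Lib.MP_03175e_co
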