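import Pool.Agent.Lib.MP_03175e_co.R04
import Pool.Agent.Lib.MP_03175e_co.F03

/-!
Row R04b: light centres, swap types (paper section 6).
-/

namespace Pool.Agent.Lib.MP_03175e_co

open Finset Classical

variable {V : Type} [Fintype V] {G : SimpleGraph V} {L : V → Finset ℕ} {p : V} {Λ : Finset V}
  {φ : V → ℕ} {κ : V → Finset ℕ}

private theorem r04b_sum (F : Facts G L) {x q : V} (hx3 : 3 ≤ dg G x)
    (h0 : (T1N G x).card = 0) :
    ∑ n ∈ ((nb G x).erase q) \ (((YN G x).erase q) ∪ T0N G x), (if n ∈ M3 G x then 1 else 2) ≤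
      2 * (M1 G x).card + 2 * (M2 G x).card + 2 * (T2N G x).card + (M3 G x).card := by
  obtain ⟨S, hS⟩ : ∃ S, S = ((nb G x).erase q) \ (((YN G x).erase q) ∪ T0N G x) := ⟨_, rfl⟩
  rw [← hS]
  have hSn : S ⊆ nb G x := by
    rw [hS]
    exact sdiff_subset.trans (erase_subset _ _)
  have h1 : ∑ n ∈ S, (if n ∈ M3 G x then 1 else 2) =
      ∑ n ∈ nb G x, (if n ∈ S then (if n ∈ M3 G x then 1 else 2) else 0) := by
    rw [Finset.sum_ite_mem, Finset.inter_eq_right.2 hSn]
  rw [h1, sum_part F hx3]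
  have hY : ∑ n ∈ YN G x, (if n ∈ S then (if n ∈ M3 G x then 1 else 2) else 0) = 0 := by
    refine Finset.sum_eq_zero fun n hn => ?_
    rw [if_neg]
    intro h
    rw [hS, mem_sdiff, mem_erase, mem_union, not_or, mem_erase] at h
    exact h.2.1 ⟨h.1.1, hn⟩
  have hT0 : ∑ n ∈ T0N G x, (if n ∈ S then (if n ∈ M3 G x then 1 else 2) else 0) = 0 := by
    refine Finset.sum_eq_zero fun n hn => ?_
    rw [if_neg]
    intro h
    rw [hS, mem_sdiff, mem_union, not_or] at h
    exact h.2.2 hn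
  have hT1 : ∑ n ∈ T1N G x, (if n ∈ S then (if n ∈ M3 G x then 1 else 2) else 0) = 0 := by
    rw [Finset.card_eq_zero.1 h0, Finset.sum_empty]
  have hle : ∀ A : Finset V, ∑ n ∈ A, (if n ∈ S then (if n ∈ M3 G x then 1 else 2) else 0) ≤
      2 * A.card := by
    intro A
    have := Finset.sum_le_card_nsmul A
      (fun n => (if n ∈ S then (if n ∈ M3 G x then 1 else 2) else 0)) 2 (fun n _ => by
        split_ifs <;> omega)
    rw [smul_eq_mul, mul_comm] at this
    exact this
  have hM3 : ∑ n ∈ M3 G x, (if n ∈ S then (if n ∈ M3 G x then 1 else 2) else 0) ≤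
      (M3 G x).card := by
    have := Finset.sum_le_card_nsmul (M3 G x)
      (fun n => (if n ∈ S then (if n ∈ M3 G x then 1 else 2) else 0)) 1 (fun n hn => by
        rw [if_pos hn]
        split_ifs <;> omega)
    rw [smul_eq_mul, mul_one] at this
    exact this
  have e1 := hle (M1 G x)
  have e2 := hle (M2 G x)
  have e3 := hle (T2N G x)
  omega

private theorem r04b_T (F : Facts G L) (hS : StarOK G p Λ) (he : Ext G L (star G p Λ) φ κ)
    {x q : V} (hx : Spec G p Λ x q) (hx3 : 3 ≤ dg G x) (h0 : (T1N G x).card = 0) (n : V)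
    (hn : n ∈ ((nb G x).erase q) \ (((YN G x).erase q) ∪ T0N G x)) :
    ∃ T : Finset ℕ, T.card ≤ (if n ∈ M3 G x then 1 else 2) ∧
      ∀ α ∈ PP G L (star G p Λ) φ κ q x, α ∉ T →
        2 ≤ (OO G L (star G p Λ) φ κ p x n α).card := by
  rw [mem_sdiff, mem_erase, mem_union, not_or, mem_erase] at hn
  obtain ⟨⟨hnq, hnb⟩, hnY, hnT0⟩ := hn
  have hnp := (hx.2.2 n hnb hnq).1
  have hmu : n ∈ M2 G x ∨ n ∈ T2N G x →
      ∃ T : Finset ℕ, T.card ≤ (if n ∈ M3 G x then 1 else 2) ∧
      ∀ α ∈ PP G L (star G p Λ) φ κ q x, α ∉ T →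
        2 ≤ (OO G L (star G p Λ) φ κ p x n α).card := by
    intro h
    obtain ⟨-, -, T, hT, hT2⟩ := KO_mu F hS he hx.1 h hnp
    by_cases h3 : n ∈ M3 G x
    · exfalso
      obtain ⟨-, -, -, d23⟩ := ZN_eq F.toFacts0 hx3
      rcases h with h | h
      · exact Finset.disjoint_left.1 d23 h h3
      · have a := (Finset.mem_filter.1 h).2.1
        have b := (Finset.mem_filter.1 h3).2.1
        omega
    · rw [if_neg h3]
      exact ⟨T, hT, fun α _ hα => hT2 α hα⟩
  rcases nb_cases F hx3 hnb with h | h | h | h | h | h | h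
  · exact absurd ⟨hnq, h⟩ hnY
  · exact absurd h hnT0
  · rw [Finset.card_eq_zero.1 h0] at h
    exact absurd h (Finset.notMem_empty _)
  · exact hmu (Or.inr h)
  · obtain ⟨y, -, -, -, -, -, -, hc, hO⟩ := KO_M1 F hS he hx.1 h
    have h3 : n ∉ M3 G x := by
      obtain ⟨-, -, d13, -⟩ := ZN_eq F.toFacts0 hx3
      exact Finset.disjoint_left.1 d13 h
    rw [if_neg h3]
    have hα : ∀ α ∈ PP G L (star G p Λ) φ κ q x, α ∉ KK G (star G p Λ) φ κ n := by
      intro α hα
      unfold PP at hα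
      rw [Finset.mem_filter] at hα
      exact hα.2 n (mem_erase.2 ⟨hnq, hnb⟩)
    by_cases hc2 : (L n \ κ y).card = 2
    · refine ⟨L n \ κ y, hc2.le, fun α hαP hαT => ?_⟩
      have := Finset.card_le_card (hO α (hα α hαP))
      rw [Finset.erase_eq_of_notMem hαT, hc2] at this
      exact this
    · refine ⟨∅, by simp, fun α hαP _ => ?_⟩
      have := Finset.card_le_card (hO α (hα α hαP))
      have h5 : (L n \ κ y).card - 1 ≤ ((L n \ κ y).erase α).card :=
        Finset.pred_card_le_card_erase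
      omega
  · exact hmu (Or.inl h)
  · obtain ⟨-, -, α₀, hα₀⟩ := KO_M3 F hS he hx.1 h
    rw [if_pos h]
    refine ⟨{α₀}, by simp, fun α _ hα => ?_⟩
    have := hα₀ α (fun e => hα (by rw [e]; exact mem_singleton_self _))
    omega

/-- Types L2 (at least one mu-object), L3, L5, L6: `comp_swap` with `N = nb G x`, `q`,
`R` = `((YN G x).erase q) ∪ T0N G x`, `t = 2` on `M1, M2, T2N`, `t = 1` on `M3` (for `n ∈ M1` take
`T n = L n \ κ y` if it has two elements, else `∅`). `q` is in `YN G x`; `(T1N G x).card = 0`.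
The sizes of `P` by `PP_card` and `dg_eq`. The counts:
L2: `3 * P.card > 6 + 2 mu + 3` with `P.card ≥ mu + 3`, `mu = 1, 2, 3`;
L3: `2 * P.card > 2 + 2 mu + 2`, `P.card ≥ mu + 3`; L5: `2 * P.card > 2 mu + 2`, `P.card ≥ mu + 2`;
L6: `2 * P.card > 3 + 2`, `P.card ≥ 3`. -/
theorem lightA_swap (F : Facts G L) (hS : StarOK G p Λ) (he : Ext G L (star G p Λ) φ κ) {x q : V}
    (hx : Spec G p Λ x q) (hq : 4 ≤ dg G q) (hl : LightA G x)
    (h1 : (YN G x).card = 1 → (M1 G x).card = 3 → 1 ≤ (M2 G x).card + (T2N G x).card) :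
    ∃ S ⊆ PP G L (star G p Λ) φ κ q x, 2 ≤ S.card ∧
      ∀ cw, S.erase cw ⊆ Comp (nb G x) q (PP G L (star G p Λ) φ κ q x)
        (OO G L (star G p Λ) φ κ p x) cw := by
  have hx3 : 3 ≤ dg G x := le_trans (by norm_num) hl.1
  have h0 := hl.2.1
  have hqY : q ∈ YN G x := Finset.mem_filter.2 ⟨hx.2.1, hq⟩
  have hYe : ((YN G x).erase q).card + 1 = (YN G x).card := Finset.card_erase_add_one hqY
  have hdisj : Disjoint ((YN G x).erase q) (T0N G x) := by
    rw [Finset.disjoint_left]
    intro n h2 h3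
    have a := (Finset.mem_filter.1 (Finset.mem_of_mem_erase h2)).2
    have b : dg G n = 3 := (Finset.mem_filter.1 h3).2.1
    omega
  have hRc : (((YN G x).erase q) ∪ T0N G x).card = ((YN G x).erase q).card + (T0N G x).card :=
    Finset.card_union_of_disjoint hdisj
  have hR : ((YN G x).erase q) ∪ T0N G x ⊆ (nb G x).erase q := by
    refine Finset.union_subset (Finset.erase_subset_erase _ (Finset.filter_subset _ _)) ?_
    intro n hn
    refine mem_erase.2 ⟨?_, (Finset.mem_filter.1 hn).1⟩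
    rintro rfl
    have b : dg G n = 3 := (Finset.mem_filter.1 hn).2.1
    omega
  have hsum := r04b_sum F (q := q) hx3 h0
  have hP := PP_card F hS he hx
  have hd := dg_eq F hx3
  have hcase : (((YN G x).erase q) ∪ T0N G x).card ≤ 2 ∧
      ∑ n ∈ ((nb G x).erase q) \ (((YN G x).erase q) ∪ T0N G x),
        (if n ∈ M3 G x then 1 else 2) + (3 - (((YN G x).erase q) ∪ T0N G x).card) <
      (3 - (((YN G x).erase q) ∪ T0N G x).card) * (PP G L (star G p Λ) φ κ q x).card := by
    obtain ⟨s, hs⟩ : ∃ s, s = ∑ n ∈ ((nb G x).erase q) \ (((YN G x).erase q) ∪ T0N G x),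
        (if n ∈ M3 G x then 1 else 2) := ⟨_, rfl⟩
    rw [← hs] at hsum ⊢
    rw [hRc]
    rcases hl.2.2 with ⟨a1, a2, a3, a4, a5⟩ | ⟨a1, a2, a3, a4⟩ | ⟨a1, a2, a3, a4⟩ |
      ⟨a1, a2, a3, a4, a5⟩
    · have h6 := h1 a1 a3
      have e : ((YN G x).erase q).card + (T0N G x).card = 0 := by omega
      rw [e]
      constructor
      · omega
      · omega
    · have e : ((YN G x).erase q).card + (T0N G x).card = 1 := by omega
      rw [e]
      constructor
      · omega
      · omega
    · have e : ((YN G x).erase q).card + (T0N G x).card = 1 := by omega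
      rw [e]
      constructor
      · omega
      · omega
    · have e : ((YN G x).erase q).card + (T0N G x).card = 1 := by omega
      rw [e]
      constructor
      · omega
      · omega
  have hTe := fun n hn => r04b_T F hS he hx hx3 h0 n hn
  choose! T hT using hTe
  exact comp_swap (N := nb G x) (R := ((YN G x).erase q) ∪ T0N G x) (q := q)
    (P := PP G L (star G p Λ) φ κ q x) (O := OO G L (star G p Λ) φ κ p x)
    (t := fun n => if n ∈ M3 G x then 1 else 2) (T := T) hl.1 hx.2.1 hR hcase.1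
    (fun α hα n hn => OO_nonempty F hS he hx hα (Finset.mem_of_mem_erase hn)
      (Finset.ne_of_mem_erase hn))
    hT hcase.2

end Pool.Agent.Lib.MP_03175e_co
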