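import Pool.Agent.Lib.MP_03175e_co.R04
import Pool.Agent.Lib.MP_03175e_co.F04

/-!
Row R04c: light centres of type L1 (paper section 6).
-/

namespace Pool.Agent.Lib.MP_03175e_co

open Finset Classical

variable {V : Type} [Fintype V] {G : SimpleGraph V} {L : V → Finset ℕ} {p : V} {Λ : Finset V}
  {φ : V → ℕ} {κ : V → Finset ℕ}

/-- the numbers of a light vertex of type L1 -/
private theorem r04c_zero {x : V} (hl : LightA G x) (hY : (YN G x).card = 1)
    (hM : (M1 G x).card = 3) :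
    (T1N G x).card = 0 ∧ (T0N G x).card = 0 ∧ (M3 G x).card = 0 := by
  obtain ⟨-, h1, h | h | h | h⟩ := hl
  · exact ⟨h1, h.2.1, h.2.2.2.1⟩
  · omega
  · omega
  · omega

private theorem r04c_nb (F : Facts G L) {x q : V} (hqx : q ∈ nb G x) (hq : 4 ≤ dg G q)
    (hl : LightA G x) (hY : (YN G x).card = 1)
    (hM : (M1 G x).card = 3) (h0 : (M2 G x).card + (T2N G x).card = 0) :
    (∀ n, n ∈ nb G x ↔ n = q ∨ n ∈ M1 G x) ∧ q ∉ M1 G x ∧ YN G x = {q} := by
  obtain ⟨h1, h2, h3⟩ := r04c_zero hl hY hM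
  have hx3 : 3 ≤ dg G x := le_trans (by norm_num) hl.1
  have hqY : q ∈ YN G x := Finset.mem_filter.2 ⟨hqx, hq⟩
  have hYq : YN G x = {q} := by
    obtain ⟨a, ha⟩ := Finset.card_eq_one.1 hY
    rw [ha, Finset.mem_singleton] at hqY
    rw [ha, hqY]
  have e1 : T1N G x = ∅ := Finset.card_eq_zero.1 h1
  have e2 : T0N G x = ∅ := Finset.card_eq_zero.1 h2
  have e3 : M3 G x = ∅ := Finset.card_eq_zero.1 h3
  have e4 : M2 G x = ∅ := Finset.card_eq_zero.1 (by omega)
  have e5 : T2N G x = ∅ := Finset.card_eq_zero.1 (by omega)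
  refine ⟨fun n => ⟨fun hn => ?_, ?_⟩, ?_, hYq⟩
  · rcases nb_cases F hx3 hn with h | h | h | h | h | h | h
    · left
      rwa [hYq, Finset.mem_singleton] at h
    · rw [e2] at h; exact absurd h (Finset.notMem_empty _)
    · rw [e1] at h; exact absurd h (Finset.notMem_empty _)
    · rw [e5] at h; exact absurd h (Finset.notMem_empty _)
    · exact Or.inr h
    · rw [e4] at h; exact absurd h (Finset.notMem_empty _)
    · rw [e3] at h; exact absurd h (Finset.notMem_empty _)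
  · rintro (rfl | h)
    · exact hqx
    · exact (Finset.mem_filter.1 h).1
  · intro h
    have := (Finset.mem_filter.1 h).2.1
    omega

private theorem r04c_card (F : Facts G L) (hS : StarOK G p Λ)
    (he : Ext G L (star G p Λ) φ κ) {x q : V}
    (hx : Spec G p Λ x q) (hq : 4 ≤ dg G q) (hl : LightA G x) (hY : (YN G x).card = 1)
    (hM : (M1 G x).card = 3) (h0 : (M2 G x).card + (T2N G x).card = 0) :
    3 ≤ (PP G L (star G p Λ) φ κ q x).card := by
  obtain ⟨h1, h2, h3⟩ := r04c_zero hl hY hM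
  obtain ⟨-, -, hYq⟩ := r04c_nb F hx.2.1 hq hl hY hM h0
  have hx3 : 3 ≤ dg G x := le_trans (by norm_num) hl.1
  have hd := dg_eq F hx3
  have hP := PP_card F hS he hx
  have hYe : ((YN G x).erase q).card = 0 := by
    rw [hYq]
    simp
  omega

/-- Type L1 (`YN = {q}`, three 1-threads and nothing else) is `LamLike`: `comp_L1` with
`Z₃ = M1 G x` and `A z = L z \ κ y` (`KO_M1`), `3 ≤ P.card` by `PP_card`. -/
theorem lightL1_lam (F : Facts G L) (hS : StarOK G p Λ) (he : Ext G L (star G p Λ) φ κ) {x q : V}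
    (hx : Spec G p Λ x q) (hq : 4 ≤ dg G q) (hl : LightA G x) (hY : (YN G x).card = 1)
    (hM : (M1 G x).card = 3) (h0 : (M2 G x).card + (T2N G x).card = 0) :
    LamLike (Comp (nb G x) q (PP G L (star G p Λ) φ κ q x) (OO G L (star G p Λ) φ κ p x)) := by
  obtain ⟨hN, hqM, -⟩ := r04c_nb F hx.2.1 hq hl hY hM h0
  have hP := r04c_card F hS he hx hq hl hY hM h0
  have hex : ∀ z : V, ∃ A : Finset ℕ, z ∈ M1 G x → 2 ≤ A.card ∧
      ∀ α, α ∉ KK G (star G p Λ) φ κ z → A.erase α ⊆ OO G L (star G p Λ) φ κ p x z α := by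
    intro z
    by_cases hz : z ∈ M1 G x
    · obtain ⟨y, -, -, -, -, -, -, h2, h3⟩ := KO_M1 F hS he hx.1 hz
      exact ⟨L z \ κ y, fun _ => ⟨h2, h3⟩⟩
    · exact ⟨∅, fun h => absurd h hz⟩
  choose A hA using hex
  refine comp_L1 (A := A) hN hqM hM hP (fun z hz => (hA z hz).1) fun z hz α hα => ?_
  refine (hA z hz).2 α ?_
  have hα' := (Finset.mem_filter.1 hα).2
  exact hα' z (Finset.mem_erase.2 ⟨fun e => hqM (e ▸ hz), (Finset.mem_filter.1 hz).1⟩)

/-- Type L1, swap, if the exceptional case is excluded (`comp_L1_swap`). `y z` is the end of the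
1-thread `z`; `PP = L x \ (M1 G x).image (fun z => φ (y z))`. -/
theorem lightL1_swap (F : Facts G L) (hS : StarOK G p Λ) (he : Ext G L (star G p Λ) φ κ) {x q : V}
    (hx : Spec G p Λ x q) (hq : 4 ≤ dg G q) (hl : LightA G x) (hY : (YN G x).card = 1)
    (hM : (M1 G x).card = 3) (h0 : (M2 G x).card + (T2N G x).card = 0) (y : V → V)
    (hy : ∀ z ∈ M1 G x, nb G z = {x, y z} ∧ y z ≠ x)
    (hex : ¬ ((L x \ (M1 G x).image (fun z => φ (y z))).card = 3 ∧
      ∃ S ⊆ L x \ (M1 G x).image (fun z => φ (y z)), S.card = 2 ∧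
        ∀ z ∈ M1 G x, L z \ κ (y z) = S)) :
    ∃ S ⊆ PP G L (star G p Λ) φ κ q x, 2 ≤ S.card ∧
      ∀ cw, S.erase cw ⊆ Comp (nb G x) q (PP G L (star G p Λ) φ κ q x)
        (OO G L (star G p Λ) φ κ p x) cw := by
  obtain ⟨hN, hqM, -⟩ := r04c_nb F hx.2.1 hq hl hY hM h0
  have hP := r04c_card F hS he hx hq hl hY hM h0
  have hz : ∀ z ∈ M1 G x, KK G (star G p Λ) φ κ z = {φ (y z)} ∧ 2 ≤ (L z \ κ (y z)).card ∧
      ∀ α, α ∉ KK G (star G p Λ) φ κ z →
        (L z \ κ (y z)).erase α ⊆ OO G L (star G p Λ) φ κ p x z α := by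
    intro z hz
    obtain ⟨y', h1, h2, -, h4, -, -, h7, h8⟩ := KO_M1 F hS he hx.1 hz
    obtain ⟨g1, g2⟩ := hy z hz
    have hyy : y z = y' := by
      have : y z ∈ nb G z := by rw [g1]; simp
      rw [h1, Finset.mem_insert, Finset.mem_singleton] at this
      rcases this with e | e
      · exact absurd e g2
      · exact e
    rw [hyy]
    exact ⟨h4, h7, h8⟩
  have hPP : PP G L (star G p Λ) φ κ q x = L x \ (M1 G x).image (fun z => φ (y z)) := by
    ext α
    rw [PP, Finset.mem_filter, Finset.mem_sdiff, Finset.mem_image]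
    constructor
    · rintro ⟨h1, h2⟩
      refine ⟨h1, ?_⟩
      rintro ⟨z, hzM, hzα⟩
      have := h2 z (Finset.mem_erase.2 ⟨fun e => hqM (e ▸ hzM), (Finset.mem_filter.1 hzM).1⟩)
      rw [(hz z hzM).1, Finset.mem_singleton] at this
      exact this hzα.symm
    · rintro ⟨h1, h2⟩
      refine ⟨h1, fun n hn => ?_⟩
      obtain ⟨hnq, hn⟩ := Finset.mem_erase.1 hn
      rcases (hN n).1 hn with e | hnM
      · exact absurd e hnq
      · rw [(hz n hnM).1, Finset.mem_singleton]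
        intro e
        exact h2 ⟨n, hnM, e.symm⟩
  refine comp_L1_swap (A := fun z => L z \ κ (y z)) hN hqM hM hP (fun z hzM => (hz z hzM).2.1)
    (fun z hzM α hα => ?_) ?_
  · refine (hz z hzM).2.2 α ?_
    have hα' := (Finset.mem_filter.1 hα).2
    exact hα' z (Finset.mem_erase.2 ⟨fun e => hqM (e ▸ hzM), (Finset.mem_filter.1 hzM).1⟩)
  · rw [hPP]
    exact hex

end Pool.Agent.Lib.MP_03175e_co
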