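import Pool.Agent.Lib.MP_03175e_co.R04
import Pool.Agent.Lib.MP_03175e_co.F05

/-!
Row R05: light second centres of type L4 (paper section 6).
-/

namespace Pool.Agent.Lib.MP_03175e_co

open Finset Classical

variable {V : Type} [Fintype V] {G : SimpleGraph V} {L : V → Finset ℕ} {p : V} {Λ : Finset V}
  {φ : V → ℕ} {κ : V → Finset ℕ}

/-- Type L4: `YN G x = {p, b}`, `M1 G x = {z}`, `Mu = M2 G x ∪ T2N G x` (nonempty because
`4 ≤ dg G x`). `comp_L4` with `q = p`, `P = PP` (`PP_card`: at least `Mu.card + 2` colours), `f = φ b`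
(killed: `f ∈ KK b`, so `f ∉ P`), `A = L z \ κ y` (`KO_M1`), `KO_mu` for `Mu`. -/
theorem light4_lam (F : Facts G L) (hS : StarOK G p Λ) (he : Ext G L (star G p Λ) φ κ) {x : V}
    (hx : x ∈ Λ) (hp : 4 ≤ dg G p) (hl : Light4 G x) :
    LamLike (Comp (nb G x) p (PP G L (star G p Λ) φ κ p x) (OO G L (star G p Λ) φ κ p x)) := by
  obtain ⟨hdx, hT1, hY, hT0, hM1, hM3⟩ := hl
  obtain ⟨hpx, _⟩ := hS.sub x hx
  have hxi : x ∈ insert p Λ := Finset.mem_insert_of_mem hx
  have hxp : x ≠ p := hpx.ne.symm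
  have h3x : 3 ≤ dg G x := by omega
  have hpN : p ∈ nb G x := mem_nb.2 hpx.symm
  have hpY : p ∈ YN G x := by
    rw [YN, Finset.mem_filter]
    exact ⟨hpN, hp⟩
  have hYe : ((YN G x).erase p).card = 1 := by
    rw [Finset.card_erase_of_mem hpY, hY]
  obtain ⟨b, hb⟩ := Finset.card_eq_one.1 hYe
  have hbe : b ∈ (YN G x).erase p := by rw [hb]; exact Finset.mem_singleton_self _
  obtain ⟨hbp, hbY⟩ := Finset.mem_erase.1 hbe
  obtain ⟨z, hz⟩ := Finset.card_eq_one.1 hM1
  have hzM1 : z ∈ M1 G x := by rw [hz]; exact Finset.mem_singleton_self _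
  have hzd : z ∈ nb G x ∧ dg G z = 2 := by
    have h := hzM1
    rw [M1, Finset.mem_filter] at h
    exact ⟨h.1, h.2.1⟩
  have hbd : b ∈ nb G x ∧ 4 ≤ dg G b := by
    have h := hbY
    rw [YN, Finset.mem_filter] at h
    exact h
  have hMd : ∀ m ∈ M2 G x ∪ T2N G x, m ∈ nb G x ∧ dg G m ≤ 3 := by
    intro m hm
    rcases Finset.mem_union.1 hm with h | h
    · rw [M2, Finset.mem_filter] at h
      exact ⟨h.1, by omega⟩
    · rw [T2N, Finset.mem_filter] at h
      have h' := h.2.1
      exact ⟨h.1, by omega⟩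
  have hdis : Disjoint (M2 G x) (T2N G x) := by
    rw [Finset.disjoint_left]
    intro m h1 h2
    rw [M2, Finset.mem_filter] at h1
    rw [T2N, Finset.mem_filter] at h2
    have h3 := h2.2.1
    have h4 := h1.2.1
    omega
  have hMc : (M2 G x ∪ T2N G x).card = (M2 G x).card + (T2N G x).card :=
    Finset.card_union_of_disjoint hdis
  have hzM : z ∉ M2 G x ∪ T2N G x := by
    intro h
    obtain ⟨_, d12, _, _⟩ := ZN_eq F.toFacts0 h3x
    rcases Finset.mem_union.1 h with h | h
    · exact Finset.disjoint_left.1 d12 hzM1 h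
    · rw [T2N, Finset.mem_filter] at h
      have h' := h.2.1
      omega
  have hdg := dg_eq F h3x
  have hPc := PP_card F hS he (Spec.of_mem hS hx)
  rw [hYe, hT0, hM1] at hPc
  rw [hY, hT0, hT1, hM1, hM3] at hdg
  obtain ⟨y, _, _, _, _, _, _, hA2, hAO⟩ := KO_M1 F hS he hxi hzM1
  obtain ⟨_, _, hbK, hbO⟩ := KO_Y F hS he hxi hbY hbp (fun h => absurd h hxp)
  have hMneq : ∀ m ∈ M2 G x ∪ T2N G x, m ≠ p := by
    intro m hm h
    have := (hMd m hm).2
    rw [h] at this
    omega
  have hmu : ∀ m ∈ M2 G x ∪ T2N G x, LamLike (OO G L (star G p Λ) φ κ p x m) := fun m hm =>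
    (KO_mu F hS he hxi (Finset.mem_union.1 hm) (hMneq m hm)).2
  have hTex : ∀ m, ∃ T : Finset ℕ, m ∈ M2 G x ∪ T2N G x →
      T.card ≤ 2 ∧ ∀ α, α ∉ T → 2 ≤ (OO G L (star G p Λ) φ κ p x m α).card := by
    intro m
    by_cases hm : m ∈ M2 G x ∪ T2N G x
    · obtain ⟨T, h1, h2⟩ := (hmu m hm).2
      exact ⟨T, fun _ => ⟨h1, h2⟩⟩
    · exact ⟨∅, fun h => absurd h hm⟩
  choose T hT using hTex
  have hkill : ∀ α ∈ PP G L (star G p Λ) φ κ p x, ∀ n ∈ nb G x, n ≠ p →
      α ∉ KK G (star G p Λ) φ κ n := by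
    intro α hα n hn hnp
    rw [PP, Finset.mem_filter] at hα
    exact hα.2 n (Finset.mem_erase.2 ⟨hnp, hn⟩)
  refine comp_L4 (N := nb G x) (Mu := M2 G x ∪ T2N G x) (q := p) (b := b) (z := z) (f := φ b)
    (A := L z \ κ y) (T := T) ?_ hbp.symm ?_ ?_ ?_ ?_ hzM ?_ ?_ ?_ ?_ hA2 ?_ ?_ ?_
  · intro n
    constructor
    · intro hn
      rcases nb_cases F h3x hn with h | h | h | h | h | h | h
      · by_cases hnp : n = p
        · exact Or.inl hnp
        · have : n ∈ (YN G x).erase p := Finset.mem_erase.2 ⟨hnp, h⟩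
          rw [hb, Finset.mem_singleton] at this
          exact Or.inr (Or.inl this)
      · rw [Finset.card_eq_zero.1 hT0] at h
        exact absurd h (Finset.notMem_empty _)
      · rw [Finset.card_eq_zero.1 hT1] at h
        exact absurd h (Finset.notMem_empty _)
      · exact Or.inr (Or.inr (Or.inr (Finset.mem_union_right _ h)))
      · rw [hz, Finset.mem_singleton] at h
        exact Or.inr (Or.inr (Or.inl h))
      · exact Or.inr (Or.inr (Or.inr (Finset.mem_union_left _ h)))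
      · rw [Finset.card_eq_zero.1 hM3] at h
        exact absurd h (Finset.notMem_empty _)
    · rintro (rfl | rfl | rfl | h)
      · exact hpN
      · exact hbd.1
      · exact hzd.1
      · exact (hMd n h).1
  · intro h
    rw [h] at hp
    omega
  · intro h
    have := hbd.2
    rw [h] at this
    omega
  · intro h
    exact hMneq p h rfl
  · intro h
    have h1 := (hMd b h).2
    have h2 := hbd.2
    omega
  · omega
  · omega
  · intro h
    exact hkill _ h b hbd.1 hbp hbK
  · intro α _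
    rw [hbO α]
    exact Finset.mem_singleton_self _
  · intro α hα
    refine hAO α (hkill α hα z hzd.1 ?_)
    intro h
    rw [← h] at hp
    omega
  · intro m hm α _
    exact (hmu m hm).1 α
  · intro m hm
    exact ⟨(hT m hm).1, fun α _ h => (hT m hm).2 α h⟩

end Pool.Agent.Lib.MP_03175e_co
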