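import Pool.Agent.Lib.MP_03175e_co.R05
import Pool.Agent.Lib.MP_03175e_co.R04b
import Pool.Agent.Lib.MP_03175e_co.R04c
import Pool.Agent.Lib.MP_03175e_co.R03

/-!
R06: all light second centres are `LamLike` (assembly of R04, R05, R02).
-/

namespace Pool.Agent.Lib.MP_03175e_co

open Finset Classical

variable {V : Type} [Fintype V] {G : SimpleGraph V} {L : V → Finset ℕ} {p : V} {Λ : Finset V}

theorem lamOK_of_light (F : Facts G L) (hS : StarOK G p Λ) (hp : 4 ≤ dg G p)
    (hl : ∀ x ∈ Λ, Light G x) : LamOK G L p Λ := by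
  intro φ κ he x hx
  refine LamLike.mono ?_ (star_in F hS he hx)
  rcases hl x hx with h | h
  · by_cases h1 : (YN G x).card = 1 ∧ (M1 G x).card = 3 ∧ (M2 G x).card + (T2N G x).card = 0
    · exact lightL1_lam F hS he (Spec.of_mem hS hx) hp h h1.1 h1.2.1 h1.2.2
    · obtain ⟨S, -, hS2, hS3⟩ := lightA_swap F hS he (Spec.of_mem hS hx) hp h (fun a b => by
        by_contra hc
        exact h1 ⟨a, b, by omega⟩)
      exact lamLike_of_swap hS2 hS3
  · exact light4_lam F hS he hx hp h

end Pool.Agent.Lib.MP_03175e_co
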