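import Pool.Agent.Lib.MP_03175e_co.R04
import Pool.Agent.Lib.MP_03175e_co.F06a
import Pool.Agent.Lib.MP_03175e_co.F06b
import Pool.Agent.Lib.MP_03175e_co.F07a
import Pool.Agent.Lib.MP_03175e_co.F07b

/-!
Row R07: problem vertices as second centres (paper section 7, (R1), (R2)).
`s` = the centre of the star, `w ∈ Λ` a problem vertex with special neighbour `s`.
-/

namespace Pool.Agent.Lib.MP_03175e_co

open Finset Classical

variable {V : Type} [Fintype V] {G : SimpleGraph V} {L : V → Finset ℕ} {s : V} {Λ : Finset V}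
  {φ : V → ℕ} {κ : V → Finset ℕ}

/-- The reverse lemma in the star, `N = nb G w`, `q = s`, `P = PP`. Cases of `Prob`: one fixed
Y-neighbour `b` (`f = φ b`, killed by `KK b`), `M1 G w = {z₁, z₂}`, `M2 ∪ T2N` empty (`rev_RA0`) or one
element (`rev_RA1`); or two fixed Y-neighbours `b₁, b₂` and `Mu = M2 ∪ T2N` (nonempty because
`4 ≤ dg G w`; `rev_RB1` if `φ b₁ ≠ φ b₂`, `rev_RB2` if equal). Sizes of `PP`: `PP_card`, `PP_card'` and
`dg_eq` (`s` is in `YN G w`, `T1N G w`, `T0N G w` or `T2N G w`; if `s` is of type `T2` it is in `T2N G w`: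
excluded by `hs`, and `T0` by `(T0N G w).card = 0`). -/
theorem rev_comp (F : Facts G L) (hS : StarOK G s Λ) (he : Ext G L (star G s Λ) φ κ) {w : V}
    (hw : w ∈ Λ) (hP : Prob G w s) (hs : ¬ IsT2 G s) :
    (∀ al al', Comp (nb G w) s (PP G L (star G s Λ) φ κ s w)
        (OO G L (star G s Λ) φ κ s w) al = ∅ →
      Comp (nb G w) s (PP G L (star G s Λ) φ κ s w)
        (OO G L (star G s Λ) φ κ s w) al' = ∅ → al = al') ∧
    (∀ al al' ε, al ≠ al' →
      (Comp (nb G w) s (PP G L (star G s Λ) φ κ s w)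
        (OO G L (star G s Λ) φ κ s w) al).Nonempty →
      (Comp (nb G w) s (PP G L (star G s Λ) φ κ s w)
        (OO G L (star G s Λ) φ κ s w) al').Nonempty →
      Comp (nb G w) s (PP G L (star G s Λ) φ κ s w)
        (OO G L (star G s Λ) φ κ s w) al ⊆ {al'} →
      Comp (nb G w) s (PP G L (star G s Λ) φ κ s w)
        (OO G L (star G s Λ) φ κ s w) al' ⊆ {al} →
      Comp (nb G w) s (PP G L (star G s Λ) φ κ s w)
        (OO G L (star G s Λ) φ κ s w) ε = ∅ →
      ∃ b ∈ YN G w, b ≠ s ∧ b ∉ star G s Λ ∧ φ b = ε) := by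
  obtain ⟨hdw, hadj, hT0, hT1, hM3, hcase⟩ := hP
  have hds : 3 ≤ dg G s := hS.dgp
  have hwi : w ∈ insert s Λ := Finset.mem_insert_of_mem hw
  have hws : w ≠ s := hadj.ne
  have h3w : 3 ≤ dg G w := by omega
  have hsN : s ∈ nb G w := mem_nb.2 hadj
  have hT0e : T0N G w = ∅ := Finset.card_eq_zero.1 hT0
  have hM3e : M3 G w = ∅ := Finset.card_eq_zero.1 hM3
  have hT1e : (T1N G w).erase s = ∅ := Finset.card_eq_zero.1 hT1
  -- the class of `s`
  have hYT : (YN G w).card + (T1N G w).card = ((YN G w).erase s).card + 1 := by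
    rcases nb_cases F h3w hsN with h | h | h | h | h | h | h
    · have h1 : s ∉ T1N G w := by
        intro h2
        rw [YN, Finset.mem_filter] at h
        rw [T1N, Finset.mem_filter] at h2
        have := h2.2.1
        omega
      rw [Finset.erase_eq_of_notMem h1] at hT1e
      have := Finset.card_pos.2 ⟨s, h⟩
      rw [hT1e, Finset.card_empty, Finset.card_erase_of_mem h]
      omega
    · rw [hT0e] at h
      exact absurd h (Finset.notMem_empty _)
    · have h1 : s ∉ YN G w := by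
        intro h2
        rw [YN, Finset.mem_filter] at h2
        rw [T1N, Finset.mem_filter] at h
        have := h.2.1
        omega
      have h2 : (T1N G w).card = 1 := by
        have h3 := Finset.card_erase_of_mem h
        rw [hT1] at h3
        have := Finset.card_pos.2 ⟨s, h⟩
        omega
      rw [Finset.erase_eq_of_notMem h1, h2]
    · rw [T2N, Finset.mem_filter] at h
      exact absurd h.2 hs
    · rw [M1, Finset.mem_filter] at h
      have := h.2.1
      omega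
    · rw [M2, Finset.mem_filter] at h
      have := h.2.1
      omega
    · rw [M3, Finset.mem_filter] at h
      have := h.2.1
      omega
  have hMd : ∀ m ∈ M2 G w ∪ T2N G w, m ∈ nb G w ∧ dg G m ≤ 3 ∧ m ≠ s := by
    intro m hm
    rcases Finset.mem_union.1 hm with h | h
    · rw [M2, Finset.mem_filter] at h
      refine ⟨h.1, by omega, ?_⟩
      rintro rfl
      omega
    · rw [T2N, Finset.mem_filter] at h
      have h' := h.2.1
      refine ⟨h.1, by omega, ?_⟩
      rintro rfl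
      exact hs h.2
  have hM1d : ∀ m ∈ M1 G w, m ∈ nb G w ∧ dg G m = 2 := by
    intro m hm
    rw [M1, Finset.mem_filter] at hm
    exact ⟨hm.1, hm.2.1⟩
  have hYd : ∀ b ∈ (YN G w).erase s, b ∈ nb G w ∧ 4 ≤ dg G b ∧ b ≠ s ∧ b ∈ YN G w := by
    intro b hb
    obtain ⟨h1, h2⟩ := Finset.mem_erase.1 hb
    have h3 := h2
    rw [YN, Finset.mem_filter] at h3
    exact ⟨h3.1, h3.2, h1, h2⟩
  have hdis : Disjoint (M2 G w) (T2N G w) := by
    rw [Finset.disjoint_left]
    intro m h1 h2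
    rw [M2, Finset.mem_filter] at h1
    rw [T2N, Finset.mem_filter] at h2
    have h3 := h2.2.1
    have h4 := h1.2.1
    omega
  have hMc : (M2 G w ∪ T2N G w).card = (M2 G w).card + (T2N G w).card :=
    Finset.card_union_of_disjoint hdis
  have hM1M : ∀ z ∈ M1 G w, z ∉ M2 G w ∪ T2N G w := by
    intro z hz h
    obtain ⟨_, d12, _, _⟩ := ZN_eq F.toFacts0 h3w
    rcases Finset.mem_union.1 h with h | h
    · exact Finset.disjoint_left.1 d12 hz h
    · rw [T2N, Finset.mem_filter] at h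
      have h' := h.2.1
      have := (hM1d z hz).2
      omega
  have hdg := dg_eq F h3w
  rw [hT0, hM3] at hdg
  have hPc := PP_card F hS he (Spec.of_mem hS hw)
  rw [hT0] at hPc
  have hcl : ∀ n, n ∈ nb G w ↔ n = s ∨ n ∈ (YN G w).erase s ∨ n ∈ M1 G w ∨
      n ∈ M2 G w ∪ T2N G w := by
    intro n
    constructor
    · intro hn
      by_cases hns : n = s
      · exact Or.inl hns
      rcases nb_cases F h3w hn with h | h | h | h | h | h | h
      · exact Or.inr (Or.inl (Finset.mem_erase.2 ⟨hns, h⟩))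
      · rw [hT0e] at h
        exact absurd h (Finset.notMem_empty _)
      · have : n ∈ (T1N G w).erase s := Finset.mem_erase.2 ⟨hns, h⟩
        rw [hT1e] at this
        exact absurd this (Finset.notMem_empty _)
      · exact Or.inr (Or.inr (Or.inr (Finset.mem_union_right _ h)))
      · exact Or.inr (Or.inr (Or.inl h))
      · exact Or.inr (Or.inr (Or.inr (Finset.mem_union_left _ h)))
      · rw [hM3e] at h
        exact absurd h (Finset.notMem_empty _)
    · rintro (rfl | h | h | h)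
      · exact hsN
      · exact (hYd n h).1
      · exact (hM1d n h).1
      · exact (hMd n h).1
  have hmu : ∀ m ∈ M2 G w ∪ T2N G w, LamLike (OO G L (star G s Λ) φ κ s w m) := fun m hm =>
    (KO_mu F hS he hwi (Finset.mem_union.1 hm) (hMd m hm).2.2).2
  have hYO : ∀ b ∈ (YN G w).erase s, b ∉ star G s Λ ∧ φ b ∈ KK G (star G s Λ) φ κ b ∧
      ∀ α, OO G L (star G s Λ) φ κ s w b α = {φ b} := by
    intro b hb
    obtain ⟨h1, _, h2, h3⟩ := KO_Y F hS he hwi (hYd b hb).2.2.2 (hYd b hb).2.2.1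
      (fun h => absurd h hws)
    exact ⟨h1, h2, h3⟩
  have hkill : ∀ α ∈ PP G L (star G s Λ) φ κ s w, ∀ n ∈ nb G w, n ≠ s →
      α ∉ KK G (star G s Λ) φ κ n := by
    intro α hα n hn hnp
    rw [PP, Finset.mem_filter] at hα
    exact hα.2 n (Finset.mem_erase.2 ⟨hnp, hn⟩)
  have hfP : ∀ b ∈ (YN G w).erase s, φ b ∉ PP G L (star G s Λ) φ κ s w := by
    intro b hb h
    exact hkill _ h b (hYd b hb).1 (hYd b hb).2.2.1 (hYO b hb).2.1
  have hbO : ∀ b ∈ (YN G w).erase s, ∀ α ∈ PP G L (star G s Λ) φ κ s w,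
      φ b ∈ OO G L (star G s Λ) φ κ s w b α := by
    intro b hb α _
    rw [(hYO b hb).2.2 α]
    exact Finset.mem_singleton_self _
  have hz : ∀ z ∈ M1 G w, ∃ A : Finset ℕ, 2 ≤ A.card ∧
      ∀ α ∈ PP G L (star G s Λ) φ κ s w, A.erase α ⊆ OO G L (star G s Λ) φ κ s w z α := by
    intro z hz
    obtain ⟨y, _, _, _, _, _, _, hA2, hAO⟩ := KO_M1 F hS he hwi hz
    refine ⟨L z \ κ y, hA2, fun α hα => hAO α (hkill α hα z (hM1d z hz).1 ?_)⟩
    rintro rfl
    have := (hM1d z hz).2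
    omega
  rcases hcase with ⟨hY1, hM12, hmu1⟩ | ⟨hY2, hM10⟩
  · -- RA
    obtain ⟨b, hb⟩ := Finset.card_eq_one.1 hY1
    have hbe : b ∈ (YN G w).erase s := by rw [hb]; exact Finset.mem_singleton_self _
    obtain ⟨z₁, z₂, h12, hzz⟩ := Finset.card_eq_two.1 hM12
    have hz1 : z₁ ∈ M1 G w := by rw [hzz]; simp
    have hz2 : z₂ ∈ M1 G w := by rw [hzz]; simp
    obtain ⟨A₁, hA1, hA1'⟩ := hz z₁ hz1
    obtain ⟨A₂, hA2, hA2'⟩ := hz z₂ hz2
    have hbd := hYd b hbe
    have hz1d := hM1d z₁ hz1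
    have hz2d := hM1d z₂ hz2
    have n1 : s ≠ z₁ := by rintro rfl; omega
    have n2 : s ≠ z₂ := by rintro rfl; omega
    have n3 : b ≠ z₁ := by rintro rfl; omega
    have n4 : b ≠ z₂ := by rintro rfl; omega
    rcases Nat.eq_zero_or_pos (M2 G w ∪ T2N G w).card with h0 | h0
    · have hMe : M2 G w ∪ T2N G w = ∅ := Finset.card_eq_zero.1 h0
      have hN : ∀ n, n ∈ nb G w ↔ n = s ∨ n = b ∨ n = z₁ ∨ n = z₂ := by
        intro n
        rw [hcl n, hb, hzz, hMe]
        simp only [Finset.mem_singleton, Finset.mem_insert, Finset.notMem_empty, or_false]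
      obtain ⟨r1, r2⟩ := rev_RA0 hN hbd.2.2.1.symm n1 n2 n3 n4 h12 (by omega) (hfP b hbe)
        (hbO b hbe) hA1 hA2 hA1' hA2'
      exact ⟨r1, fun al al' ε h1 h2 h3 h4 h5 h6 =>
        ⟨b, hbd.2.2.2, hbd.2.2.1, (hYO b hbe).1, (r2 al al' ε h1 h2 h3 h4 h5 h6).symm⟩⟩
    · have h01 : (M2 G w ∪ T2N G w).card = 1 := by omega
      obtain ⟨o, ho⟩ := Finset.card_eq_one.1 h01
      have hoM : o ∈ M2 G w ∪ T2N G w := by rw [ho]; exact Finset.mem_singleton_self _
      have hod := hMd o hoM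
      obtain ⟨hne, T, hT1', hT2'⟩ := hmu o hoM
      have hN : ∀ n, n ∈ nb G w ↔ n = s ∨ n = b ∨ n = z₁ ∨ n = z₂ ∨ n = o := by
        intro n
        rw [hcl n, hb, hzz, ho]
        simp only [Finset.mem_singleton, Finset.mem_insert, or_assoc]
      have n5 : b ≠ o := by rintro rfl; omega
      have n6 : z₁ ≠ o := by rintro rfl; exact hM1M _ hz1 hoM
      have n7 : z₂ ≠ o := by rintro rfl; exact hM1M _ hz2 hoM
      obtain ⟨r1, r2⟩ := rev_RA1 hN hbd.2.2.1.symm n1 n2 hod.2.2.symm n3 n4 n5 h12 n6 n7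
        (by omega) (hfP b hbe) (hbO b hbe) hA1 hA2 hA1' hA2' (fun α _ => hne α) hT1'
        (fun α _ h => hT2' α h)
      exact ⟨r1, fun al al' ε h1 h2 h3 h4 h5 h6 =>
        ⟨b, hbd.2.2.2, hbd.2.2.1, (hYO b hbe).1, (r2 al al' ε h1 h2 h3 h4 h5 h6).symm⟩⟩
  · -- RB
    obtain ⟨b₁, b₂, h12, hb⟩ := Finset.card_eq_two.1 hY2
    have hb1 : b₁ ∈ (YN G w).erase s := by rw [hb]; simp
    have hb2 : b₂ ∈ (YN G w).erase s := by rw [hb]; simp
    have hb1d := hYd b₁ hb1
    have hb2d := hYd b₂ hb2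
    have hM1e : M1 G w = ∅ := Finset.card_eq_zero.1 hM10
    have hTex : ∀ m, ∃ T : Finset ℕ, m ∈ M2 G w ∪ T2N G w →
        T.card ≤ 2 ∧ ∀ α, α ∉ T → 2 ≤ (OO G L (star G s Λ) φ κ s w m α).card := by
      intro m
      by_cases hm : m ∈ M2 G w ∪ T2N G w
      · obtain ⟨T, h1, h2⟩ := (hmu m hm).2
        exact ⟨T, fun _ => ⟨h1, h2⟩⟩
      · exact ⟨∅, fun h => absurd h hm⟩
    choose T hT using hTex
    have hN : ∀ n, n ∈ nb G w ↔ n = s ∨ n = b₁ ∨ n = b₂ ∨ n ∈ M2 G w ∪ T2N G w := by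
      intro n
      rw [hcl n, hb, hM1e]
      simp only [Finset.mem_singleton, Finset.mem_insert, Finset.notMem_empty, false_or, or_assoc]
    have m1 : s ∉ M2 G w ∪ T2N G w := fun h => (hMd s h).2.2 rfl
    have m2 : b₁ ∉ M2 G w ∪ T2N G w := by
      intro h
      have := (hMd b₁ h).2.1
      omega
    have m3 : b₂ ∉ M2 G w ∪ T2N G w := by
      intro h
      have := (hMd b₂ h).2.1
      omega
    have hM : 1 ≤ (M2 G w ∪ T2N G w).card := by omega
    have hTT : ∀ m ∈ M2 G w ∪ T2N G w, (T m).card ≤ 2 ∧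
        ∀ α ∈ PP G L (star G s Λ) φ κ s w, α ∉ T m →
          2 ≤ (OO G L (star G s Λ) φ κ s w m α).card := fun m hm =>
      ⟨(hT m hm).1, fun α _ h => (hT m hm).2 α h⟩
    by_cases hφ : φ b₁ = φ b₂
    · have hPc' := PP_card' F hS he (Spec.of_mem hS hw) hb1 hb2 h12 hφ
      obtain ⟨r1, r2⟩ := rev_RB2 (f := φ b₁) hN hb1d.2.2.1.symm hb2d.2.2.1.symm h12 m1 m2 m3 hM
        (by omega) (hfP b₁ hb1) (hbO b₁ hb1) (by rw [hφ]; exact hbO b₂ hb2)
        (fun m hm α _ => (hmu m hm).1 α) hTT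
      exact ⟨r1, fun al al' ε h1 h2 h3 h4 h5 h6 =>
        ⟨b₁, hb1d.2.2.2, hb1d.2.2.1, (hYO b₁ hb1).1, (r2 al al' ε h1 h2 h3 h4 h5 h6).symm⟩⟩
    · obtain ⟨r1, r2⟩ := rev_RB1 hN hb1d.2.2.1.symm hb2d.2.2.1.symm h12 m1 m2 m3 hM
        (by omega) (hfP b₁ hb1) (hfP b₂ hb2) hφ (hbO b₁ hb1) (hbO b₂ hb2)
        (fun m hm α _ => (hmu m hm).1 α) hTT
      refine ⟨r1, fun al al' ε h1 h2 h3 h4 h5 h6 => ?_⟩
      rcases r2 ε h6 with h | h
      · exact ⟨b₁, hb1d.2.2.2, hb1d.2.2.1, (hYO b₁ hb1).1, h.symm⟩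
      · exact ⟨b₂, hb2d.2.2.2, hb2d.2.2.1, (hYO b₂ hb2).1, h.symm⟩

end Pool.Agent.Lib.MP_03175e_co
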