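import Pool.Agent.Lib.MP_03175e_co.R01
import Pool.Agent.Lib.MP_03175e_co.R02
import Pool.Agent.Lib.MP_03175e_co.S05
import Pool.Agent.Lib.MP_03175e_co.A10
import Pool.Agent.Lib.MP_03175e_co.F09b

/-!
Row R08a: type Q with a 2-thread is reducible (paper section 5, (Q)).
-/

namespace Pool.Agent.Lib.MP_03175e_co

open Finset Classical

variable {V : Type} [Fintype V] {G : SimpleGraph V} {L : V → Finset ℕ}

/-- If four different vertices form `N` and `e` has no unique colour on `N` then `NU4`. -/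
theorem NU4_of_not_CF {N : Finset V} {a b c d : V} (hN : N = {a, b, c, d}) (hab : a ≠ b)
    (hac : a ≠ c) (had : a ≠ d) (hbc : b ≠ c) (hbd : b ≠ d) (hcd : c ≠ d) {e : V → ℕ}
    (h : ¬ CF N e) : NU4 (e a) (e b) (e c) (e d) := by
  have key : ∀ u ∈ N, ∃ v ∈ N, e v = e u ∧ v ≠ u := by
    intro u hu
    by_contra hcon
    apply h
    refine ⟨u, hu, fun v hv hvu => ?_⟩
    by_contra hne
    exact hcon ⟨v, hv, hvu, hne⟩
  subst hN
  refine ⟨?_, ?_, ?_, ?_⟩
  · obtain ⟨v, hv, h1, h2⟩ := key a (by simp)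
    simp only [mem_insert, mem_singleton] at hv
    rcases hv with rfl | rfl | rfl | rfl
    · exact absurd rfl h2
    · exact Or.inl h1.symm
    · exact Or.inr (Or.inl h1.symm)
    · exact Or.inr (Or.inr h1.symm)
  · obtain ⟨v, hv, h1, h2⟩ := key b (by simp)
    simp only [mem_insert, mem_singleton] at hv
    rcases hv with rfl | rfl | rfl | rfl
    · exact Or.inl h1.symm
    · exact absurd rfl h2
    · exact Or.inr (Or.inl h1.symm)
    · exact Or.inr (Or.inr h1.symm)
  · obtain ⟨v, hv, h1, h2⟩ := key c (by simp)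
    simp only [mem_insert, mem_singleton] at hv
    rcases hv with rfl | rfl | rfl | rfl
    · exact Or.inl h1.symm
    · exact Or.inr (Or.inl h1.symm)
    · exact absurd rfl h2
    · exact Or.inr (Or.inr h1.symm)
  · obtain ⟨v, hv, h1, h2⟩ := key d (by simp)
    simp only [mem_insert, mem_singleton] at hv
    rcases hv with rfl | rfl | rfl | rfl
    · exact Or.inl h1.symm
    · exact Or.inr (Or.inl h1.symm)
    · exact Or.inr (Or.inr h1.symm)
    · exact absurd rfl h2

theorem starOK_empty {p : V} (hp : 3 ≤ dg G p) : StarOK G p ∅ where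
  dgp := hp
  sub := by simp
  noT1 := by simp
  thr3 := by simp

/-- `nb G x = {w, z₀, z₁, zz}`, `M1 G x = {z₀, z₁}` with ends `y₀, y₁`, `M2 G x = {zz}`, second thread
vertex `zz'`, end `y'`; `w` and `y'` are outside the star and different (c4 `x zz zz' y'`).
`q_forbid_thread` with `Lx = L x`, `La = L zz`, `Lb = L zz'`, `Lz = ![L z₀, L z₁]` gives `aw, ay`;
`h.delete` with `X = star G x ∅` (`star_iso`), `a w = aw`, `a y' = ay`, `a v = ∅` otherwise. For
`c ∈ L x \ (κ w ∪ {φ y₀, φ y₁})` and admissible choices `star_top` shows that CF fails: for `zz` use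
`opt_M2` directly (`OO = Opt … {zz, zz'} …`, `desc_M2`), for `z_i` `KO_M1`. -/
theorem Q_thread (h : MinCE G L) {x : V} (hY : (YN G x).card = 1) (h0 : (T0N G x).card = 0)
    (h1 : (T1N G x).card = 0) (hT2 : (T2N G x).card = 0) (hM1 : (M1 G x).card = 2)
    (hM2 : (M2 G x).card = 1) (hM3 : (M3 G x).card = 0) (hx : dg G x = 4) : False := by
  have F : Facts G L := h.facts
  have hx3 : 3 ≤ dg G x := by omega
  have hS : StarOK G x ∅ := starOK_empty hx3
  have hxx : x ∈ insert x (∅ : Finset V) := mem_insert_self _ _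
  obtain ⟨w, hw⟩ := card_eq_one.1 hY
  obtain ⟨z₀, z₁, hz01, hz⟩ := card_eq_two.1 hM1
  obtain ⟨zz, hzz⟩ := card_eq_one.1 hM2
  have hwY : w ∈ YN G x := by rw [hw]; simp
  have hz0M : z₀ ∈ M1 G x := by rw [hz]; simp
  have hz1M : z₁ ∈ M1 G x := by rw [hz]; simp
  have hzzM : zz ∈ M2 G x := by rw [hzz]; simp
  have hwY' : w ∈ nb G x ∧ 4 ≤ dg G w := by simpa [YN] using hwY
  have hz0' : z₀ ∈ nb G x ∧ dg G z₀ = 2 := ⟨(mem_filter.1 hz0M).1, (mem_filter.1 hz0M).2.1⟩
  have hz1' : z₁ ∈ nb G x ∧ dg G z₁ = 2 := ⟨(mem_filter.1 hz1M).1, (mem_filter.1 hz1M).2.1⟩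
  have hzz' : zz ∈ nb G x ∧ dg G zz = 2 := ⟨(mem_filter.1 hzzM).1, (mem_filter.1 hzzM).2.1⟩
  have hdis := (ZN_eq F.toFacts0 hx3).2.1
  have n1 : w ≠ z₀ := by rintro rfl; omega
  have n2 : w ≠ z₁ := by rintro rfl; omega
  have n3 : w ≠ zz := by rintro rfl; omega
  have n4 : z₀ ≠ zz := by
    rintro rfl
    exact (Finset.disjoint_left.1 hdis hz0M) hzzM
  have n5 : z₁ ≠ zz := by
    rintro rfl
    exact (Finset.disjoint_left.1 hdis hz1M) hzzM
  have hnb : nb G x = {w, z₀, z₁, zz} := by
    ext n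
    constructor
    · intro hn
      rw [card_eq_zero] at h0 h1 hT2 hM3
      rcases nb_cases F hx3 hn with h' | h' | h' | h' | h' | h' | h'
      · rw [hw, mem_singleton] at h'
        simp [h']
      · rw [h0] at h'; simp at h'
      · rw [h1] at h'; simp at h'
      · rw [hT2] at h'; simp at h'
      · rw [hz, mem_insert, mem_singleton] at h'
        rcases h' with rfl | rfl <;> simp
      · rw [hzz, mem_singleton] at h'
        simp [h']
      · rw [hM3] at h'; simp at h'
    · intro hn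
      simp only [mem_insert, mem_singleton] at hn
      rcases hn with rfl | rfl | rfl | rfl
      · exact hwY'.1
      · exact hz0'.1
      · exact hz1'.1
      · exact hzz'.1
  obtain ⟨m, y', hnzz, hnm, a1, a2, a3, a4, a5, a6, a7, a8, a9, a10⟩ :=
    desc_M2 F.toFacts0 hx3 hzzM
  have hxzz : G.Adj x zz := mem_nb.1 hzz'.1
  have hxw : G.Adj x w := mem_nb.1 hwY'.1
  have hzzm : G.Adj zz m := mem_nb.1 (by rw [hnzz]; simp)
  have hmy : G.Adj m y' := mem_nb.1 (by rw [hnm]; simp)
  have hzzX : zz ∈ star G x ∅ := star_Z F hS p_mem_star hxzz a7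
  have hmX : m ∈ star G x ∅ := star_Z F hS hzzX hzzm a8
  have hy'X : y' ∉ star G x ∅ := end_M2 F hS hxx hxzz a7 hzzm (Ne.symm a2) a8 hmy a4 a9
  have hwx : w ≠ x := hxw.ne'
  have hwX : w ∉ star G x ∅ :=
    out_Y F hS hxx hwY'.1 hwY'.2 hwx (fun _ => by simp)
  have hwy : w ≠ y' := by
    rintro rfl
    exact F.short.c4 x zz m w hxzz hzzm hmy hxw.symm a2 (Ne.symm a4)
  obtain ⟨aw, ay, haw, hay, hmain⟩ := q_forbid_thread (L x) (L zz) (L m) ![L z₀, L z₁]
    (by rw [F.card]; omega) (by rw [F.card]; omega) (by rw [F.card]; omega)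
    (fun i => by
      fin_cases i
      · change (L z₀).card = 4
        rw [F.card]; omega
      · change (L z₁).card = 4
        rw [F.card]; omega)
  obtain ⟨φ, κ, he, hφ⟩ := h.delete (X := star G x ∅) ⟨x, p_mem_star⟩ (star_iso F hS)
    (fun v => if v = w then aw else if v = y' then ay else ∅) (by
      intro v hv
      split_ifs with e1 e2
      · subst e1
        refine haw.trans (Finset.card_pos.2 ⟨x, ?_⟩)
        rw [mem_inter]
        exact ⟨mem_nb.2 hxw.symm, p_mem_star⟩
      · subst e2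
        refine hay.trans (Finset.card_pos.2 ⟨m, ?_⟩)
        rw [mem_inter]
        exact ⟨mem_nb.2 hmy.symm, hmX⟩
      · simp)
  have hφw : φ w ∉ aw := by
    have := hφ w hwX
    simpa using this
  have hφy : φ y' ∉ ay := by
    have := hφ y' hy'X
    simpa [Ne.symm hwy] using this
  obtain ⟨y₀, b1, b2, b3, b4, b5, b6, b7, b8⟩ := KO_M1 F hS he hxx hz0M
  obtain ⟨y₁, c1, c2, c3, c4, c5, c6, c7, c8⟩ := KO_M1 F hS he hxx hz1M
  obtain ⟨d1, d2, d3, d4⟩ := KO_Y F hS he hxx hwY hwx (fun _ => by simp)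
  obtain ⟨e1, -⟩ := KO_mu F hS he hxx (Or.inl hzzM) hxzz.ne'
  have hKw : KK G (star G x ∅) φ κ w = κ w := by
    unfold KK
    rw [if_pos hwX]
  refine hmain (φ w) (κ w) ![φ y₀, φ y₁] ![κ y₀, κ y₁] (φ y') (κ y') hφw hφy
    (he.κmem w hwX) (he.κcard w hwX) ?_ ?_ (he.κmem y' hy'X) (he.κcard y' hy'X) ?_
  · intro i
    fin_cases i
    · exact b5
    · exact c5
  · intro i
    fin_cases i
    · exact b6
    · exact c6
  · intro c hc g₀ hg₀ g₁ hg₁ e hee hex
    change g₀ ∈ (L z₀ \ κ y₀).erase c at hg₀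
    change g₁ ∈ (L z₁ \ κ y₁).erase c at hg₁
    change c ∈ L x \ (κ w ∪ {φ y₀, φ y₁}) at hc
    obtain ⟨hcL, hcn⟩ := mem_sdiff.1 hc
    simp only [mem_union, mem_insert, mem_singleton, not_or] at hcn
    obtain ⟨hcw, hc0, hc1⟩ := hcn
    let f : V → ℕ := fun v => if v = w then φ w else if v = z₀ then g₀ else if v = z₁ then g₁
      else e
    have fw : f w = φ w := by simp [f]
    have f0 : f z₀ = g₀ := by simp [f, Ne.symm n1]
    have f1 : f z₁ = g₁ := by simp [f, Ne.symm n2, Ne.symm hz01]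
    have fz : f zz = e := by simp [f, Ne.symm n3, Ne.symm n4, Ne.symm n5]
    have hNU := NU4_of_not_CF hnb n1 n2 n3 hz01 n4 n5 (e := f) (fun hcf => ?_)
    · rwa [fw, f0, f1, fz] at hNU
    · refine star_top F hS he hcL ?_ ?_ hcf
      · intro n hn
        rw [hnb] at hn
        simp only [mem_insert, mem_singleton] at hn
        rcases hn with rfl | rfl | rfl | rfl
        · rw [hKw]
          exact hcw
        · rw [b4, mem_singleton]
          exact hc0
        · rw [c4, mem_singleton]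
          exact hc1
        · rw [e1]
          simp
      · intro n hn
        rw [hnb] at hn
        simp only [mem_insert, mem_singleton] at hn
        rcases hn with rfl | rfl | rfl | rfl
        · rw [fw, d4, mem_singleton]
        · rw [f0]
          exact b8 c (by rw [b4, mem_singleton]; exact hc0) hg₀
        · rw [f1]
          exact c8 c (by rw [c4, mem_singleton]; exact hc1) hg₁
        · rw [fz]
          obtain ⟨e', he', he1, he2⟩ := hex
          obtain ⟨hec, he3⟩ := mem_erase.1 hee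
          obtain ⟨heL, hey⟩ := mem_sdiff.1 he3
          rw [mem_singleton] at hey
          have hbr : br G x n = {n, m} := by
            unfold br
            rw [if_pos a7, a10]
          have hOO : OO G L (star G x ∅) φ κ x x n c = Opt G L (star G x ∅) φ κ {n, m} x n c := by
            unfold OO
            rw [if_neg (not_not.2 hzzX), if_neg (by omega), hbr]
          rw [hOO]
          exact opt_M2 he p_mem_star hzzX hmX hy'X a1 a2 a3 hnzz hnm heL hec hey he' he1 he2

end Pool.Agent.Lib.MP_03175e_co
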