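import Pool.Agent.Lib.MP_03175e_co.R08a
import Pool.Agent.Lib.MP_03175e_co.F09c

/-!
Row R08b: type Q with a `T2` neighbour is reducible (paper section 5, (Q)).
-/

namespace Pool.Agent.Lib.MP_03175e_co

open Finset Classical

variable {V : Type} [Fintype V] {G : SimpleGraph V} {L : V → Finset ℕ}

/-- `nb G x = {w, z₀, z₁, t}`, `T2N G x = {t}`; `desc_T2` gives `z₂, z₃, y₂, y₃`, `F.t2list` gives `D`.
`h.delete` with `X = star G x ∅`, `a w = L t \ D` (one element), `a v = ∅` otherwise. For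
`c ∈ L x \ (κ w ∪ {φ y₀, φ y₁})` and admissible choices `star_top` shows that CF fails
(`opt_T2` for `t`, `KO_M1` for `z₀, z₁`); contradiction by `q_forbid_T`. -/
theorem Q_T (h : MinCE G L) {x : V} (hY : (YN G x).card = 1) (h0 : (T0N G x).card = 0)
    (h1 : (T1N G x).card = 0) (hT2 : (T2N G x).card = 1) (hM1 : (M1 G x).card = 2)
    (hM2 : (M2 G x).card = 0) (hM3 : (M3 G x).card = 0) (hx : dg G x = 4) : False := by
  have F : Facts G L := h.facts
  have hx3 : 3 ≤ dg G x := by omega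
  have hS : StarOK G x ∅ := starOK_empty hx3
  obtain ⟨w, hw⟩ := card_eq_one.1 hY
  obtain ⟨t, ht⟩ := card_eq_one.1 hT2
  obtain ⟨z₀, z₁, hz01, hz⟩ := card_eq_two.1 hM1
  have hwY : w ∈ YN G x := by rw [hw]; simp
  have htT : t ∈ T2N G x := by rw [ht]; simp
  have hz0M : z₀ ∈ M1 G x := by rw [hz]; simp
  have hz1M : z₁ ∈ M1 G x := by rw [hz]; simp
  have hwn : w ∈ nb G x := (mem_filter.1 hwY).1
  have hw4 : 4 ≤ dg G w := (mem_filter.1 hwY).2
  have htn : t ∈ nb G x := (mem_filter.1 htT).1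
  have ht2 : IsT2 G t := (mem_filter.1 htT).2
  have ht3 : dg G t = 3 := ht2.1
  have hz0n : z₀ ∈ nb G x := (mem_filter.1 hz0M).1
  have hz02 : dg G z₀ = 2 := (mem_filter.1 hz0M).2.1
  have hz1n : z₁ ∈ nb G x := (mem_filter.1 hz1M).1
  have hz12 : dg G z₁ = 2 := (mem_filter.1 hz1M).2.1
  have n1 : w ≠ z₀ := by rintro rfl; omega
  have n2 : w ≠ z₁ := by rintro rfl; omega
  have n3 : w ≠ t := by rintro rfl; omega
  have n4 : z₀ ≠ t := by rintro rfl; omega
  have n5 : z₁ ≠ t := by rintro rfl; omega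
  have hxw : G.Adj x w := mem_nb.1 hwn
  have hxt : G.Adj x t := mem_nb.1 htn
  have hnb : nb G x = {w, z₀, z₁, t} := by
    symm
    apply eq_of_subset_of_card_le
    · intro v hv
      simp only [mem_insert, mem_singleton] at hv
      rcases hv with rfl | rfl | rfl | rfl
      · exact hwn
      · exact hz0n
      · exact hz1n
      · exact htn
    · have : ({w, z₀, z₁, t} : Finset V).card = 4 := by
        rw [card_insert_of_notMem, card_insert_of_notMem, card_pair n5]
        · simp only [mem_insert, mem_singleton, not_or]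
          exact ⟨hz01, n4⟩
        · simp only [mem_insert, mem_singleton, not_or]
          exact ⟨n1, n2, n3⟩
      rw [this]
      exact le_of_eq hx
  obtain ⟨z₂, z₃, y₂, y₃, hnt, hnz2, hnz3, hZt, hxz2, hxz3, hz23, hxt', hz2t, hz3t, hy2t, hy3t,
    hy23, -, hz2d, hz3d, hy2d, hy3d, hbr⟩ := desc_T2 F hx3 hxt ht2
  obtain ⟨D, hD4, hDt, hDz⟩ := F.t2list t ht2
  have hLz2 : L z₂ = D := hDz z₂ (by rw [hZt]; simp)
  have hLz3 : L z₃ = D := hDz z₃ (by rw [hZt]; simp)
  have htz2 : G.Adj t z₂ := mem_nb.1 (by rw [hnt]; simp)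
  have htz3 : G.Adj t z₃ := mem_nb.1 (by rw [hnt]; simp)
  have hzy2 : G.Adj z₂ y₂ := mem_nb.1 (by rw [hnz2]; simp)
  have hzy3 : G.Adj z₃ y₃ := mem_nb.1 (by rw [hnz3]; simp)
  have hxi : x ∈ insert x (∅ : Finset V) := mem_insert_self _ _
  have hxX : x ∈ star G x ∅ := p_mem_star
  have hy2X : y₂ ∉ star G x ∅ := end_T2 F hS hxi hxt htz2 hz2d hzy2 hy2t (Ne.symm hxz2) hy2d
  have hy3X : y₃ ∉ star G x ∅ := end_T2 F hS hxi hxt htz3 hz3d hzy3 hy3t (Ne.symm hxz3) hy3d
  have hto : t ∈ ob G x x := by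
    simp only [ob, mem_filter, mem_erase]
    exact ⟨⟨Ne.symm hxt', htn⟩, Or.inr (Or.inr ht2)⟩
  have hsub : br G x t ⊆ star G x ∅ := br_sub_star hxi hto
  have htX : t ∈ star G x ∅ := hsub (by rw [hbr]; simp)
  have hz2X : z₂ ∈ star G x ∅ := hsub (by rw [hbr]; simp)
  have hz3X : z₃ ∈ star G x ∅ := hsub (by rw [hbr]; simp)
  have hLt : (L t).card = 5 := by rw [F.card t, ht3]
  have hLtD : (L t \ D).card = 1 := by
    rw [card_sdiff_of_subset hDt, hLt, hD4]
  -- delete the star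
  obtain ⟨φ, κ, he, hφ⟩ := h.delete (X := star G x ∅) ⟨x, hxX⟩ (star_iso F hS)
    (fun v => if v = w then L t \ D else ∅) (by
      intro v _
      by_cases hvw : v = w
      · subst hvw
        simp only [if_true]
        rw [hLtD]
        exact card_pos.2 ⟨x, mem_inter.2 ⟨mem_nb.2 hxw.symm, hxX⟩⟩
      · simp only [if_neg hvw]
        simp)
  obtain ⟨hwX, hKw, hφw, hOw⟩ := KO_Y F hS he hxi hwY hxw.ne' (fun _ => notMem_empty _)
  have hKKw : KK G (star G x ∅) φ κ w = κ w := by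
    unfold KK
    rw [if_pos hwX]
  rw [hKKw] at hKw hφw
  have hfw : φ w ∉ L t \ D := by
    have := hφ w hwX
    simpa using this
  obtain ⟨y₀, -, -, hy0X, hK0, hφ0, hκ0, -, hO0⟩ := KO_M1 F hS he hxi hz0M
  obtain ⟨y₁, -, -, hy1X, hK1, hφ1, hκ1, -, hO1⟩ := KO_M1 F hS he hxi hz1M
  have hKt : KK G (star G x ∅) φ κ t = ∅ := by
    unfold KK
    rw [if_neg (not_not.2 htX), if_neg (by omega)]
  refine q_forbid_T (L x) (L t) D ![L z₀, L z₁] (by rw [F.card x, hx]) hLt hD4 hDt ?_ (φ w) (κ w)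
    ![φ y₀, φ y₁, φ y₂, φ y₃] ![κ y₀, κ y₁, κ y₂, κ y₃] hfw hφw hKw ?_ ?_ ?_
  · intro i
    fin_cases i
    · show (L z₀).card = 4
      rw [F.card z₀, hz02]
    · show (L z₁).card = 4
      rw [F.card z₁, hz12]
  · intro i
    fin_cases i
    · exact hφ0
    · exact hφ1
    · exact he.κmem y₂ hy2X
    · exact he.κmem y₃ hy3X
  · intro i
    fin_cases i
    · exact hκ0
    · exact hκ1
    · exact he.κcard y₂ hy2X
    · exact he.κcard y₃ hy3X
  · intro c hc g₀ hg₀ g₁ hg₁ e he' hex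
    obtain ⟨g₂, hg₂, g₃, hg₃, hcc⟩ := hex
    change c ∈ L x \ (κ w ∪ {φ y₀, φ y₁}) at hc
    change g₀ ∈ (L z₀ \ κ y₀).erase c at hg₀
    change g₁ ∈ (L z₁ \ κ y₁).erase c at hg₁
    change e ∈ (L t \ {φ y₂, φ y₃}).erase c at he'
    change g₂ ∈ (D \ κ y₂).erase e at hg₂
    change g₃ ∈ (D \ κ y₃).erase e at hg₃
    simp only [mem_sdiff, mem_union, mem_insert, mem_singleton, not_or] at hc
    obtain ⟨hcL, hcκ, hc0, hc1⟩ := hc
    simp only [mem_erase, mem_sdiff, mem_insert, mem_singleton, not_or] at he' hg₂ hg₃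
    obtain ⟨hec, heL, hey2, hey3⟩ := he'
    set col : V → ℕ := fun v => if v = w then φ w else if v = z₀ then g₀ else
      if v = z₁ then g₁ else e with hcol
    have c1 : col w = φ w := by simp [hcol]
    have c2 : col z₀ = g₀ := by simp [hcol, n1.symm]
    have c3 : col z₁ = g₁ := by simp [hcol, n2.symm, hz01.symm]
    have c4 : col t = e := by simp [hcol, n3.symm, n4.symm, n5.symm]
    have hnot : ¬ CF (nb G x) col := by
      intro hcf
      refine star_top F hS he (α := c) hcL ?_ ?_ hcf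
      · intro n hn
        rw [hnb] at hn
        simp only [mem_insert, mem_singleton] at hn
        rcases hn with rfl | rfl | rfl | rfl
        · rw [hKKw]; exact hcκ
        · rw [hK0, mem_singleton]; exact hc0
        · rw [hK1, mem_singleton]; exact hc1
        · rw [hKt]; exact notMem_empty _
      · intro n hn
        rw [hnb] at hn
        simp only [mem_insert, mem_singleton] at hn
        rcases hn with rfl | rfl | rfl | rfl
        · rw [c1, hOw]; exact mem_singleton_self _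
        · rw [c2]
          exact hO0 c (by rw [hK0, mem_singleton]; exact hc0) hg₀
        · rw [c3]
          exact hO1 c (by rw [hK1, mem_singleton]; exact hc1) hg₁
        · rw [c4]
          unfold OO
          rw [if_neg (not_not.2 htX), if_neg (by omega), hbr]
          exact opt_T2 he hxX htX hz2X hz3X hy2X hy3X hxt' hxz2 hxz3 (Ne.symm hz2t)
            (Ne.symm hz3t) hz23 hnt hnz2 hnz3 heL hec hey2 hey3
            (by rw [hLz2, mem_sdiff]; exact hg₂.2) hg₂.1
            (by rw [hLz3, mem_sdiff]; exact hg₃.2) hg₃.1 hcc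
    have := NU4_of_not_CF hnb n1 n2 n3 hz01 n4 n5 hnot
    rwa [c1, c2, c3, c4] at this

end Pool.Agent.Lib.MP_03175e_co
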