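import Pool.Agent.Lib.MP_03175e_co.R06

/-!
Row R09: two light vertices are not adjacent (paper section 6, (P1)).
-/

namespace Pool.Agent.Lib.MP_03175e_co

open Finset Classical

variable {V : Type} [Fintype V] {G : SimpleGraph V} {L : V → Finset ℕ}

private theorem R09_deg {x : V} (hx : Light G x) : 4 ≤ dg G x := by
  rcases hx with h | h
  · exact h.1
  · exact h.1

private theorem R09_T1 {x : V} (hx : Light G x) : (T1N G x).card = 0 := by
  rcases hx with h | h
  · exact h.2.1
  · exact h.2.1

/-- `count_false` with centre `x'` and `Λ = {x}`. `StarOK G x' {x}`: `T1N G x = ∅`; a 3-thread from `x`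
does not end in `x` (c4). `LamOK` by `lamOK_of_light`. `(YN G x' \ {x}).card = (YN G x').card - 1`. The
inequality is checked for every type of `x'` (`LightA`, `Light4`). -/
theorem light_not_adj (h : MinCE G L) {x x' : V} (hx : Light G x) (hx' : Light G x')
    (hadj : G.Adj x x') : False := by
  have F : Facts G L := h.facts
  have hdx := R09_deg hx
  have hdx' := R09_deg hx'
  have hS : StarOK G x' {x} := by
    refine ⟨by omega, ?_, ?_, ?_⟩
    · intro z hz
      rw [mem_singleton] at hz
      subst hz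
      exact ⟨hadj.symm, hdx⟩
    · intro z hz n hn hT
      rw [mem_singleton] at hz
      subst hz
      have hmem : n ∈ T1N G z := by
        unfold T1N
        exact mem_filter.2 ⟨hn, hT⟩
      rw [card_eq_zero.1 (R09_T1 hx)] at hmem
      exact absurd hmem (notMem_empty n)
    · intro z hz v₁ v₂ v₃ y ht hy
      rw [mem_singleton] at hz hy
      subst hz
      subst hy
      obtain ⟨h1, h2, h3, h4, -, -, -, h5, h6, -⟩ := ht
      exact h.short.c4 _ _ _ _ h1 h2 h3 h4 (Ne.symm h5) (Ne.symm h6)
  have hΛ : LamOK G L x' {x} := lamOK_of_light F hS hdx' (fun z hz => by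
    rw [mem_singleton] at hz
    subst hz
    exact hx)
  have hxY : x ∈ YN G x' := by
    unfold YN nb
    exact mem_filter.2 ⟨mem_filter.2 ⟨mem_univ _, hadj.symm⟩, hdx⟩
  have hY : (YN G x' \ {x}).card = (YN G x').card - 1 := by
    rw [sdiff_singleton_eq_erase, card_erase_of_mem hxY]
  have hT1 := R09_T1 hx'
  refine count_false h hdx' hS hΛ ?_ ?_
  · rcases hx' with ⟨-, -, ha | ha | ha | ha⟩ | ha
    · rw [hY, ha.1, ha.2.1]
      omega
    · rw [hY, ha.1, ha.2.1]
      omega
    · rw [hY, ha.1, ha.2.1]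
      omega
    · rw [hY, ha.1, ha.2.1]
      omega
    · rw [hY, ha.2.2.1, ha.2.2.2.1]
      omega
  · rw [hY, card_singleton, hT1]
    rcases hx' with ⟨-, -, ha | ha | ha | ha⟩ | ha
    · obtain ⟨h1, h2, h3, h4, h5⟩ := ha
      rw [h1, h2, h3, h4]
      omega
    · obtain ⟨h1, h2, h3, h4⟩ := ha
      rw [h1, h2, h3, h4]
      omega
    · obtain ⟨h1, h2, h3, h4⟩ := ha
      rw [h1, h2, h3, h4]
      omega
    · obtain ⟨h1, h2, h3, h4, h5⟩ := ha
      rw [h1, h2, h3, h4]
      omega
    · obtain ⟨-, -, h1, h2, h3, h4⟩ := ha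
      rw [h1, h2, h3, h4]
      omega

end Pool.Agent.Lib.MP_03175e_co
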