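import Pool.Agent.Lib.MP_03175e_co.R04b
import Pool.Agent.Lib.MP_03175e_co.R04c
import Pool.Agent.Lib.MP_03175e_co.R07
import Pool.Agent.Lib.MP_03175e_co.R02
import Pool.Agent.Lib.MP_03175e_co.S05
import Pool.Agent.Lib.MP_03175e_co.A10
import Pool.Agent.Lib.MP_03175e_co.F08a

/-!
Row R10: a light vertex (not L4) next to a problem vertex is reducible (paper section 7, (P2)).
-/

namespace Pool.Agent.Lib.MP_03175e_co

open Finset Classical

variable {V : Type} [Fintype V] {G : SimpleGraph V} {L : V → Finset ℕ}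

/-- `w` problem vertex with special neighbour `s`: the star with centre `s` and `w ∈ Λ` is fine:
`T1` neighbours of `w` other than `s` do not exist, `M3 G w = ∅` (a `Thr3` starting at `w` gives an
element of `M3 G w`). -/
theorem starOK_prob {s : V} {Λ : Finset V} (hs : 3 ≤ dg G s)
    (hP : ∀ w ∈ Λ, Prob G w s) : StarOK G s Λ := by
  refine ⟨hs, fun x hx => ⟨(hP x hx).2.1.symm, (hP x hx).1⟩, fun x hx n hn hT => ?_,
    fun x hx v₁ v₂ v₃ y ht => ?_⟩
  · by_contra hne
    have h0 := (hP x hx).2.2.2.1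
    rw [Finset.card_eq_zero] at h0
    have hmem : n ∈ (T1N G x).erase s :=
      Finset.mem_erase.2 ⟨hne, Finset.mem_filter.2 ⟨hn, hT⟩⟩
    rw [h0] at hmem
    exact Finset.notMem_empty _ hmem
  · exfalso
    have h0 := (hP x hx).2.2.2.2.1
    rw [Finset.card_eq_zero] at h0
    obtain ⟨h1, h2, h3, -, h5, h6, h7, h8, h9, -⟩ := ht
    have hmem : v₁ ∈ M3 G x :=
      Finset.mem_filter.2 ⟨mem_nb.2 h1, h5, v₂, mem_nb.2 h2, h8, h6, v₃, mem_nb.2 h3, h9, h7⟩
    rw [h0] at hmem
    exact Finset.notMem_empty _ hmem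

/-- the conclusion from two colours of the centre -/
private theorem R10_fin (F : Facts G L) {x w : V} {φ : V → ℕ} {κ : V → Finset ℕ}
    (hS : StarOK G x {w}) (he : Ext G L (star G x {w}) φ κ) (h4 : 4 ≤ dg G x)
    (hP : Prob G w x) {S : Finset ℕ} (hS2 : 2 ≤ S.card)
    (hSc : ∀ cw, S.erase cw ⊆ Comp (nb G x) w (PP G L (star G x {w}) φ κ w x)
      (OO G L (star G x {w}) φ κ x x) cw) : False := by
  have hw : w ∈ ({w} : Finset V) := Finset.mem_singleton_self w
  have hT : ¬ IsT2 G x := fun h => by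
    have := h.1
    omega
  have hrev := (rev_comp F hS he hw hP hT).1
  obtain ⟨al, hal, hne⟩ : ∃ al ∈ S, (Comp (nb G w) x (PP G L (star G x {w}) φ κ x w)
      (OO G L (star G x {w}) φ κ x w) al).Nonempty := by
    obtain ⟨a1, h1, a2, h2, h12⟩ := Finset.one_lt_card.1 hS2
    by_contra hcon
    push Not at hcon
    exact h12 (hrev a1 a2 (hcon a1 h1) (hcon a2 h2))
  obtain ⟨cw, hcw⟩ := hne
  have hcw1 : cw ≠ al := by
    have := (Finset.mem_filter.1 hcw).1
    exact (Finset.mem_erase.1 this).1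
  have hO1 := star_in F hS he hw al hcw
  have hal1 := hSc cw (Finset.mem_erase.2 ⟨hcw1.symm, hal⟩)
  obtain ⟨hm, e, hew, heO, hcf⟩ := Finset.mem_filter.1 hal1
  have hPP := (Finset.mem_erase.1 hm).2
  obtain ⟨hL, hKK⟩ := Finset.mem_filter.1 hPP
  refine star_top F hS he (α := al) (e := e) hL (fun n hn => ?_) (fun n hn => ?_) hcf
  · by_cases hnw : n = w
    · rw [hnw, KO_L hS hw]
      exact Finset.notMem_empty _
    · exact hKK n (Finset.mem_erase.2 ⟨hnw, hn⟩)
  · by_cases hnw : n = w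
    · rw [hnw, hew]
      exact hO1
    · exact heO n (Finset.mem_erase.2 ⟨hnw, hn⟩)

private theorem R10_L1 (h : MinCE G L) {x w : V} (hx : LightA G x) (hP : Prob G w x)
    (hY : (YN G x).card = 1) (hM : (M1 G x).card = 3)
    (h0 : (M2 G x).card + (T2N G x).card = 0) : False := by
  have F := h.facts
  have h4 : 4 ≤ dg G x := hx.1
  have h3 : 3 ≤ dg G x := by omega
  have hS : StarOK G x {w} := starOK_prob h3 fun v hv => by
    rw [Finset.mem_singleton.1 hv]
    exact hP
  have hxi : x ∈ insert x ({w} : Finset V) := Finset.mem_insert_self _ _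
  -- degree of `x`
  have hdx : dg G x = 4 := by
    have hd := dg_eq F h3
    have h1 := hx.2.1
    rcases hx.2.2 with h2 | h2 | h2 | h2 <;> omega
  -- the ends
  have hdesc : ∀ z : V, ∃ y, z ∈ M1 G x → nb G z = {x, y} ∧ y ≠ x ∧ 3 ≤ dg G y ∧ dg G z = 2 := by
    intro z
    by_cases hz : z ∈ M1 G x
    · obtain ⟨y, h1, h2, -, -, h5, h6, -⟩ := desc_M1 F.toFacts0 h3 hz
      exact ⟨y, fun _ => ⟨h1, h2.symm, h6, h5⟩⟩
    · exact ⟨x, fun hz' => absurd hz' hz⟩
  choose y hy using hdesc
  obtain ⟨z0, z1, z2, h01, h02, h12, hM1⟩ := Finset.card_eq_three.1 hM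
  have hz0 : z0 ∈ M1 G x := by rw [hM1]; simp
  have hz1 : z1 ∈ M1 G x := by rw [hM1]; simp
  have hz2 : z2 ∈ M1 G x := by rw [hM1]; simp
  have hadj : ∀ z ∈ M1 G x, G.Adj x z := fun z hz => mem_nb.1 (Finset.mem_filter.1 hz).1
  have hady : ∀ z ∈ M1 G x, G.Adj z (y z) := fun z hz => by
    rw [← mem_nb, (hy z hz).1]
    simp
  have hinj : ∀ z ∈ M1 G x, ∀ z' ∈ M1 G x, z ≠ z' → y z ≠ y z' := by
    intro z hz z' hz' hne heq
    refine F.short.c4 x z (y z) z' (hadj z hz) (hady z hz) ?_ (hadj z' hz').symm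
      (hy z hz).2.1.symm hne
    rw [heq]
    exact (hady z' hz').symm
  have hout : ∀ z ∈ M1 G x, y z ∉ star G x {w} := fun z hz =>
    end_M1 F hS hxi (hadj z hz) (hy z hz).2.2.2 (hady z hz) (hy z hz).2.1 (hy z hz).2.2.1
  have hin : ∀ z ∈ M1 G x, z ∈ star G x {w} := by
    intro z hz
    have hzo : z ∈ ob G x x := by
      refine Finset.mem_filter.2 ⟨Finset.mem_erase.2 ⟨(hadj z hz).ne', mem_nb.2 (hadj z hz)⟩, ?_⟩
      exact Or.inl (hy z hz).2.2.2
    exact br_sub_star hxi hzo S01_root_mem_br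
  obtain ⟨a, ha, hforb⟩ := l1_forbid (L x) (by rw [h.card, hdx])
    (fun i => ![L z0, L z1, L z2] i) (by
      intro i
      fin_cases i
      · show (L z0).card = 4
        rw [h.card, (hy z0 hz0).2.2.2]
      · show (L z1).card = 4
        rw [h.card, (hy z1 hz1).2.2.2]
      · show (L z2).card = 4
        rw [h.card, (hy z2 hz2).2.2.2])
  obtain ⟨a', ha'⟩ : ∃ a' : V → Finset ℕ, a' = fun v => if v = y z0 then a 0 else
      if v = y z1 then a 1 else if v = y z2 then a 2 else ∅ := ⟨_, rfl⟩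
  have ha0 : a' (y z0) = a 0 := by rw [ha']; simp
  have ha1 : a' (y z1) = a 1 := by
    rw [ha']
    simp only
    rw [if_neg (hinj z1 hz1 z0 hz0 h01.symm), if_true]
  have ha2 : a' (y z2) = a 2 := by
    rw [ha']
    simp only
    rw [if_neg (hinj z2 hz2 z0 hz0 h02.symm), if_neg (hinj z2 hz2 z1 hz1 h12.symm), if_true]
  have hone : ∀ z ∈ M1 G x, 1 ≤ (nb G (y z) ∩ star G x {w}).card := by
    intro z hz
    rw [Nat.one_le_iff_ne_zero, ← Nat.pos_iff_ne_zero, Finset.card_pos]
    exact ⟨z, Finset.mem_inter.2 ⟨mem_nb.2 (hady z hz).symm, hin z hz⟩⟩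
  obtain ⟨φ, κ, he, hφ⟩ := h.delete (X := star G x {w}) ⟨x, p_mem_star⟩
    (fun v hv hne => star_iso F hS v hv hne) a' (by
      intro v _
      by_cases hv0 : v = y z0
      · rw [hv0, ha0]
        exact (ha 0).trans (hone z0 hz0)
      by_cases hv1 : v = y z1
      · rw [hv1, ha1]
        exact (ha 1).trans (hone z1 hz1)
      by_cases hv2 : v = y z2
      · rw [hv2, ha2]
        exact (ha 2).trans (hone z2 hz2)
      rw [ha']
      simp only
      rw [if_neg hv0, if_neg hv1, if_neg hv2]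
      simp)
  have himg : (M1 G x).image (fun z => φ (y z)) = {φ (y z0), φ (y z1), φ (y z2)} := by
    rw [hM1, Finset.image_insert, Finset.image_insert, Finset.image_singleton]
  obtain ⟨S, -, hS2, hSc⟩ := lightL1_swap F hS he (Spec.top hS) hP.1 hx hY hM h0 y
    (fun z hz => ⟨(hy z hz).1, (hy z hz).2.1⟩) (by
      rintro ⟨hc3, S, hSs, hS2, hSz⟩
      rw [himg] at hc3 hSs
      refine hforb ![φ (y z0), φ (y z1), φ (y z2)] ![κ (y z0), κ (y z1), κ (y z2)] S ?_ ?_ ?_ hS2
        ?_ hc3 hSs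
      · intro i
        fin_cases i
        · have := hφ _ (hout z0 hz0)
          rw [ha0] at this
          exact this
        · have := hφ _ (hout z1 hz1)
          rw [ha1] at this
          exact this
        · have := hφ _ (hout z2 hz2)
          rw [ha2] at this
          exact this
      · intro i
        fin_cases i
        · exact he.κmem _ (hout z0 hz0)
        · exact he.κmem _ (hout z1 hz1)
        · exact he.κmem _ (hout z2 hz2)
      · intro i
        fin_cases i
        · exact he.κcard _ (hout z0 hz0)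
        · exact he.κcard _ (hout z1 hz1)
        · exact he.κcard _ (hout z2 hz2)
      · intro i
        fin_cases i
        · exact hSz z0 hz0
        · exact hSz z1 hz1
        · exact hSz z2 hz2)
  exact R10_fin F hS he h4 hP hS2 hSc

/-- Centre `x`, `Λ = {w}` (`starOK_prob`), `X = star G x {w}`, `h.delete` (`star_iso`) with `a = ∅` except
for type L1 (`YN` 1, `M1` 3, nothing else): there `a (y z_i) = a i` with `l1_forbid` (`Lx = L x`, `Lz`
the lists of the three 1-thread vertices `z_i`, `y z_i` their ends, pairwise different by c4), and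
`hex` of `lightL1_swap` follows. So by `lightA_swap` or `lightL1_swap` with `q = w` (`Spec.top`) there
is `S ⊆ PP … w x` with two elements and `S.erase cw ⊆ Comp (nb G x) w …  cw` for all `cw`. By
`rev_comp` (for `w`, centre `x`; `x` has degree at least 4, so is not `T2`) there is `al ∈ S` with
`Comp (nb G w) x …  al ≠ ∅`; take `cw` in it (`cw ≠ al`). `cw ∈ OO … x x w al` by `star_in`, and
`al ∈ Comp (nb G x) w … cw` gives a choice `e` with `e w = cw`; `star_top` (with `KK w = ∅`, `KO_L`)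
gives the contradiction. -/
theorem lightA_prob (h : MinCE G L) {x w : V} (hx : LightA G x) (hP : Prob G w x) : False := by
  by_cases hL1 : (YN G x).card = 1 ∧ (M1 G x).card = 3 ∧ (M2 G x).card + (T2N G x).card = 0
  · exact R10_L1 h hx hP hL1.1 hL1.2.1 hL1.2.2
  have F := h.facts
  have h4 : 4 ≤ dg G x := hx.1
  have h3 : 3 ≤ dg G x := by omega
  have hS : StarOK G x {w} := starOK_prob h3 fun v hv => by
    rw [Finset.mem_singleton.1 hv]
    exact hP
  obtain ⟨φ, κ, he, -⟩ := h.delete (X := star G x {w}) ⟨x, p_mem_star⟩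
    (fun v hv hne => star_iso F hS v hv hne) (fun _ => ∅) (fun v _ => by simp)
  obtain ⟨S, -, hS2, hSc⟩ := lightA_swap F hS he (Spec.top hS) hP.1 hx (fun h1 h2 => by
    by_contra hcon
    exact hL1 ⟨h1, h2, by omega⟩)
  exact R10_fin F hS he h4 hP hS2 hSc

end Pool.Agent.Lib.MP_03175e_co
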