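import Pool.Agent.Lib.MP_03175e_co.R09
import Pool.Agent.Lib.MP_03175e_co.R08a
import Pool.Agent.Lib.MP_03175e_co.R08b

/-!
Row R13: classification of the vertices of degree at least 4 (paper sections 5, 8).
-/

namespace Pool.Agent.Lib.MP_03175e_co

open Finset Classical

variable {V : Type} [Fintype V] {G : SimpleGraph V} {L : V → Finset ℕ}

set_option linter.unusedSimpArgs false in
set_option maxHeartbeats 4000000 in
private theorem R13_arith (a l s T m1 m2 sg t : ℕ) (hH : 2 * a + 2 * s + l + T + m1 ≤ 5)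
    (hd : 4 ≤ a + l + s + T + sg + m1 + m2 + t)
    (c1 : 3 < a + s ∨ (4 - a - s) * (m2 + sg + t + l + T + 2) ≤
      2 * m1 + 2 * (m2 + sg) + t + 2 * l + 3 * T + (4 - a - s) * a)
    (c3 : 5 < a + s ∨ t = 0 ∨ ((6 - a - s) * (m2 + sg + t + l + T + 1) ≤
      2 * m1 + 2 * (m2 + sg) + (t - 1) + 2 * l + 3 * T + (6 - a - s) * a ∧
      (6 - a - s ≤ m1 + m2 + sg + (t - 1) + l + T ∨ m2 + sg + t + l + T + 1 ≤ a)))
    (p0 : a + l ≠ 0 ∨ s + T + sg ≠ 0)
    (p1 : a + l ≠ 0 ∨ s + T + sg ≠ 1 ∨ 9 ≤ m1 + m2 + t)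
    (q1 : ¬ (a + l = 1 ∧ s = 0 ∧ T = 0 ∧ sg = 0 ∧ m1 = 2 ∧ m2 = 1 ∧ t = 0))
    (q2 : ¬ (a + l = 1 ∧ s = 0 ∧ T = 0 ∧ sg = 1 ∧ m1 = 2 ∧ m2 = 0 ∧ t = 0)) :
    (l = 0 ∧ T = 0 ∧ ((a = 1 ∧ s = 0 ∧ m1 = 3 ∧ t = 0 ∧ m2 + sg ≤ 3) ∨
      (a = 1 ∧ s = 1 ∧ m1 = 1 ∧ t = 0) ∨ (a = 2 ∧ s = 0 ∧ m1 = 0 ∧ t = 0) ∨
      (a = 2 ∧ s = 0 ∧ m1 = 1 ∧ t = 1 ∧ m2 + sg = 0) ∨ (a = 2 ∧ s = 0 ∧ m1 = 1 ∧ t = 0))) ∨
    (((l = 1 ∧ T = 0) ∨ (l = 0 ∧ T = 1)) ∧ s = 0 ∧ t = 0 ∧
      ((a = 1 ∧ m1 = 2 ∧ m2 + sg ≤ 1) ∨ (a = 2 ∧ m1 = 0))) := by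
  have ha : a ≤ 2 := by omega
  have hs : s ≤ 2 := by omega
  have hl : l ≤ 5 - 2 * a - 2 * s := by omega
  have hT : T ≤ 5 - 2 * a - 2 * s - l := by omega
  have hm : m1 ≤ 5 - 2 * a - 2 * s - l - T := by omega
  interval_cases a <;> interval_cases s <;>
    simp only [Nat.reduceSub, Nat.reduceAdd, Nat.reduceMul, Nat.zero_mul, Nat.mul_zero,
      Nat.sub_zero, Nat.zero_add, Nat.add_zero] at hl hT hm c1 c3 p0 p1 q1 q2 ⊢ <;>
    interval_cases l <;>
    simp only [Nat.reduceSub, Nat.reduceAdd, Nat.reduceMul, Nat.zero_mul, Nat.mul_zero,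
      Nat.sub_zero, Nat.zero_add, Nat.add_zero] at hT hm <;>
    interval_cases T <;>
    simp only [Nat.reduceSub, Nat.reduceAdd, Nat.reduceMul, Nat.zero_mul, Nat.mul_zero,
      Nat.sub_zero, Nat.zero_add, Nat.add_zero] at hm <;>
    interval_cases m1 <;> norm_num at c1 c3 p0 p1 q1 q2 ⊢ <;> omega

/-- `Lam G w` satisfies the conditions of a star: light vertices have no `T1` neighbours; a 3-thread
from `x ∈ Lam G w` ends in a vertex not adjacent to `w`. -/
theorem starOK_Lam (F : Facts G L) {w : V} (hw : 4 ≤ dg G w) : StarOK G w (Lam G w) where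
  dgp := by omega
  sub := by
    intro x hx
    have h1 : x ∈ YN G w := (mem_filter.1 hx).1
    have h2 := mem_filter.1 h1
    refine ⟨?_, h2.2⟩
    have h3 := h2.1
    simpa [nb] using h3
  noT1 := by
    intro x hx n hn hT
    have h1 : Light G x := (mem_filter.1 hx).2.1
    have h2 : (T1N G x).card = 0 := by
      rcases h1 with h1 | h1
      · exact h1.2.1
      · exact h1.2.1
    rw [card_eq_zero] at h2
    have h3 : n ∈ T1N G x := mem_filter.2 ⟨hn, hT⟩
    rw [h2] at h3
    simp at h3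
  thr3 := by
    intro x hx v₁ v₂ v₃ y h3 hy
    have h1 := (mem_filter.1 hx).2.2 v₁ v₂ v₃ y h3
    have h2 : y ∈ YN G w := (mem_filter.1 hy).1
    have h4 := (mem_filter.1 h2).1
    exact h1 (by simpa [nb] using h4)

/-- The numbers: `a = (YN \ Lam).card`, `l = Lam.card`, `s = T0N`, `T = T1N`, `sg = T2N`; see
`R13_arith`. -/
theorem classify (h : MinCE G L) {w : V} (hw : 4 ≤ dg G w) (hH : ¬ Heavy G w) :
    Light G w ∨ ∃ s, Prob G w s ∧
      ((Lam G w = {s} ∧ T1N G w = ∅) ∨ (Lam G w = ∅ ∧ T1N G w = {s})) := by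
  have F : Facts G L := h.facts
  have hS := starOK_Lam F hw
  have hΛ : LamOK G L w (Lam G w) := lamOK_of_light F hS hw fun x hx => (mem_filter.1 hx).2.1
  have hsub : Lam G w ⊆ YN G w := filter_subset _ _
  have hY : (YN G w \ Lam G w).card + (Lam G w).card = (YN G w).card :=
    card_sdiff_add_card_eq_card hsub
  have hd := dg_eq F (x := w) (by omega)
  have hZ := ZN_eq F.toFacts0 (x := w) (by omega)
  have hZc : (ZN G w).card = (M1 G w).card + (M2 G w).card + (M3 G w).card := by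
    rw [hZ.1, card_union_of_disjoint, card_union_of_disjoint hZ.2.1]
    rw [disjoint_union_left]
    exact ⟨hZ.2.2.1, hZ.2.2.2⟩
  unfold Heavy at hH
  have key := R13_arith (YN G w \ Lam G w).card (Lam G w).card (T0N G w).card (T1N G w).card
    (M1 G w).card (M2 G w).card (T2N G w).card (M3 G w).card (by omega) (by omega)
    (by
      by_contra hc
      push Not at hc
      exact count_false h hw hS hΛ hc.1 (by
        have e : (M2 G w).card + (T2N G w).card + (M3 G w).card + (Lam G w).card +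
          (T1N G w).card + 2 = (M2 G w).card + (T2N G w).card + (M3 G w).card + (Lam G w).card +
          (T1N G w).card + 2 := rfl
        have := hc.2
        omega))
    (by
      by_contra hc
      push Not at hc
      obtain ⟨hc1, hc2, hc3⟩ := hc
      refine count3_false h hw hS hΛ hc1 (by omega) ?_
      by_cases hc4 : (6 - (YN G w \ Lam G w).card - (T0N G w).card) *
        ((M2 G w).card + (T2N G w).card + (M3 G w).card + (Lam G w).card + (T1N G w).card + 1) ≤
        2 * (M1 G w).card + 2 * ((M2 G w).card + (T2N G w).card) + ((M3 G w).card - 1) +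
          2 * (Lam G w).card + 3 * (T1N G w).card +
          (6 - (YN G w \ Lam G w).card - (T0N G w).card) * (YN G w \ Lam G w).card
      · right
        have := hc3 hc4
        omega
      · left
        omega)
    (by
      by_contra hc
      push Not at hc
      have hY0 : YN G w = ∅ := by
        rw [← card_eq_zero]
        omega
      have e1 : dg G w = (ZN G w).card := by omega
      apply F.pre w hw hY0
      rw [← e1]
      simp only [Nat.sub_self, Nat.zero_mul]
      omega)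
    (by
      by_contra hc
      push Not at hc
      have hY0 : YN G w = ∅ := by
        rw [← card_eq_zero]
        omega
      have e1 : dg G w = (ZN G w).card + 1 := by omega
      apply F.pre w hw hY0
      have e2 : dg G w - (ZN G w).card = 1 := by omega
      rw [e2]
      omega)
    (fun hc => Q_thread h (x := w) (by omega) (by omega) (by omega) (by omega) (by omega) (by omega)
      (by omega) (by omega))
    (fun hc => Q_T h (x := w) (by omega) (by omega) (by omega) (by omega) (by omega) (by omega)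
      (by omega) (by omega))
  rcases key with ⟨hl, hT, hk⟩ | ⟨hlT, hs, ht, hk⟩
  · left
    have hYa : (YN G w).card = (YN G w \ Lam G w).card := by omega
    rcases hk with hk | hk | hk | hk | hk
    · exact Or.inl ⟨hw, hT, Or.inl ⟨by omega, by omega, by omega, by omega, by omega⟩⟩
    · exact Or.inl ⟨hw, hT, Or.inr (Or.inl ⟨by omega, by omega, by omega, by omega⟩)⟩
    · exact Or.inl ⟨hw, hT, Or.inr (Or.inr (Or.inl ⟨by omega, by omega, by omega, by omega⟩))⟩
    · exact Or.inl ⟨hw, hT, Or.inr (Or.inr (Or.inr ⟨by omega, by omega, by omega, by omega,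
        by omega⟩))⟩
    · exact Or.inr ⟨hw, hT, by omega, by omega, by omega, by omega⟩
  · right
    rcases hlT with ⟨hl, hT⟩ | ⟨hl, hT⟩
    · obtain ⟨s, hs1⟩ := card_eq_one.1 hl
      have hsL : s ∈ Lam G w := by rw [hs1]; simp
      have hsY := hsub hsL
      have hadj : G.Adj w s := by
        have := (mem_filter.1 hsY).1
        simpa [nb] using this
      have hT0 : T1N G w = ∅ := card_eq_zero.1 hT
      have he : (YN G w).erase s = YN G w \ Lam G w := by
        rw [hs1, sdiff_singleton_eq_erase]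
      refine ⟨s, ⟨hw, hadj, hs, by rw [hT0]; simp, ht, ?_⟩, Or.inl ⟨hs1, hT0⟩⟩
      rw [he]
      rcases hk with hk | hk
      · exact Or.inl ⟨hk.1, hk.2.1, hk.2.2⟩
      · exact Or.inr ⟨hk.1, hk.2⟩
    · obtain ⟨s, hs1⟩ := card_eq_one.1 hT
      have hsT : s ∈ T1N G w := by rw [hs1]; simp
      have hsT' := mem_filter.1 hsT
      have hadj : G.Adj w s := by
        have := hsT'.1
        simpa [nb] using this
      have hL0 : Lam G w = ∅ := card_eq_zero.1 hl
      have hsY : s ∉ YN G w := by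
        intro hc
        have h1 := (mem_filter.1 hc).2
        have h2 := hsT'.2.1
        omega
      have he : (YN G w).erase s = YN G w \ Lam G w := by
        rw [hL0, sdiff_empty, erase_eq_of_notMem hsY]
      refine ⟨s, ⟨hw, hadj, hs, by rw [hs1]; simp, ht, ?_⟩, Or.inr ⟨hL0, hs1⟩⟩
      rw [he]
      rcases hk with hk | hk
      · exact Or.inl ⟨hk.1, hk.2.1, hk.2.2⟩
      · exact Or.inr ⟨hk.1, hk.2⟩

end Pool.Agent.Lib.MP_03175e_co
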