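import Pool.Agent.Lib.MP_03175e_co.B02
import Pool.Agent.Lib.MP_03175e_co.S00

/-!
Row S01: the vertices of the star (paper section 4).
-/

namespace Pool.Agent.Lib.MP_03175e_co

open Finset Classical

variable {V : Type} [Fintype V] {G : SimpleGraph V} {L : V → Finset ℕ} {p : V} {Λ : Finset V}

theorem S01_mem_ob {p c n : V} :
    n ∈ ob G p c ↔ n ≠ p ∧ G.Adj c n ∧ (dg G n = 2 ∨ IsT1 G n ∨ IsT2 G n) := by
  simp only [ob, mem_filter, mem_erase, mem_nb]
  tauto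

theorem S01_mem_thr {c n v : V} :
    v ∈ thr G c n ↔ (v = n ∨ (dg G v = 2 ∧ G.Adj n v ∧ v ≠ c) ∨
      (dg G v = 2 ∧ ∃ m, dg G m = 2 ∧ G.Adj n m ∧ m ≠ c ∧ G.Adj m v ∧ v ≠ n)) := by
  simp only [thr, mem_filter, mem_univ, true_and]

theorem S01_mem_ZN {n v : V} : v ∈ ZN G n ↔ G.Adj n v ∧ dg G v = 2 := by
  simp only [ZN, mem_filter, mem_nb]

theorem S01_br_cases {c n v : V} (hv : v ∈ br G c n) : dg G v = 2 ∨ (v = n ∧ dg G n ≠ 2) := by
  unfold br at hv
  split_ifs at hv with h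
  · rcases S01_mem_thr.1 hv with rfl | h' | h'
    · exact Or.inl h
    · exact Or.inl h'.1
    · exact Or.inl h'.1
  · rcases mem_insert.1 hv with rfl | h'
    · exact Or.inr ⟨rfl, h⟩
    · exact Or.inl (S01_mem_ZN.1 h').2

theorem S01_root_mem_br {c n : V} : n ∈ br G c n := by
  unfold br
  split_ifs with h
  · exact S01_mem_thr.2 (Or.inl rfl)
  · exact mem_insert_self _ _

/-- Vertices of degree 2 adjacent to a branch belong to the branch. -/
theorem S01_br_Z (F : Facts G L) {p c n u v : V} (hc : 3 ≤ dg G c) (hn : n ∈ ob G p c)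
    (hu : u ∈ br G c n) (huv : G.Adj u v) (hv : dg G v = 2) : v ∈ br G c n := by
  have hvc : v ≠ c := by rintro rfl; omega
  obtain ⟨-, hcn, hn'⟩ := S01_mem_ob.1 hn
  by_cases h : dg G n = 2
  · have hb : br G c n = thr G c n := by simp only [br, h, if_true]
    rw [hb] at hu ⊢
    rcases S01_mem_thr.1 hu with rfl | h' | h'
    · exact S01_mem_thr.2 (Or.inr (Or.inl ⟨hv, huv, hvc⟩))
    · by_cases hvn : v = n
      · exact S01_mem_thr.2 (Or.inl hvn)
      · exact S01_mem_thr.2 (Or.inr (Or.inr ⟨hv, u, h'.1, h'.2.1, h'.2.2, huv, hvn⟩))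
    · obtain ⟨hu2, m, hm2, hnm, hmc, hmu, hun⟩ := h'
      by_cases hvm : v = m
      · subst hvm
        exact S01_mem_thr.2 (Or.inr (Or.inl ⟨hv, hnm, hmc⟩))
      · exact (F.four n m u v hnm hmu huv (Ne.symm hun) (Ne.symm hvm) h hm2 hu2 hv).elim
  · have hb : br G c n = insert n (ZN G n) := by simp only [br, h, if_false]
    rw [hb] at hu ⊢
    have hn3 : dg G n = 3 := by
      rcases hn' with h' | h' | h'
      · exact (h h').elim
      · exact h'.1
      · exact h'.1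
    rcases mem_insert.1 hu with rfl | h'
    · exact mem_insert_of_mem (S01_mem_ZN.2 ⟨huv, hv⟩)
    · obtain ⟨hnu, hu2⟩ := S01_mem_ZN.1 h'
      by_cases hvn : v = n
      · exact (h (hvn ▸ hv)).elim
      · have := F.thr v u n huv.symm hv hu2 hnu.symm (Ne.symm hvn) h
        omega

theorem S01_mem_star {v : V} : v ∈ star G p Λ ↔ v = p ∨ (∃ n ∈ ob G p p, v ∈ br G p n) ∨
    ∃ x ∈ Λ, v = x ∨ ∃ n ∈ ob G p x, v ∈ br G x n := by
  simp only [star, mem_insert, mem_union, mem_biUnion, brL]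

/-- The vertices of degree at least 3 of the star: `p`, `Λ`, the `T1`, `T2` neighbours of `p` and
the `T2` neighbours of the elements of `Λ`. Unfold `star`, `brL`, `ob`, `br`, `thr`; the elements of
`thr G c n` with `dg G n = 2` have degree 2. For `x ∈ Λ`, `n ∈ ob G p x`, `IsT1 G n` is excluded by
`hS.noT1`. -/
theorem star_cases (hS : StarOK G p Λ) {v : V} (hv : v ∈ star G p Λ) :
    dg G v = 2 ∨ v = p ∨ v ∈ Λ ∨ (G.Adj p v ∧ (IsT1 G v ∨ IsT2 G v)) ∨
      ∃ x ∈ Λ, G.Adj x v ∧ IsT2 G v := by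
  rcases S01_mem_star.1 hv with rfl | ⟨n, hn, hvn⟩ | ⟨x, hx, rfl | ⟨n, hn, hvn⟩⟩
  · exact Or.inr (Or.inl rfl)
  · rcases S01_br_cases hvn with h | ⟨rfl, h⟩
    · exact Or.inl h
    · obtain ⟨-, ha, h1 | h1⟩ := S01_mem_ob.1 hn
      · exact Or.inl h1
      · exact Or.inr (Or.inr (Or.inr (Or.inl ⟨ha, h1⟩)))
  · exact Or.inr (Or.inr (Or.inl hx))
  · rcases S01_br_cases hvn with h | ⟨rfl, h⟩
    · exact Or.inl h
    · obtain ⟨hp, ha, h1 | h1 | h1⟩ := S01_mem_ob.1 hn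
      · exact Or.inl h1
      · exact (hp (hS.noT1 x hx v (mem_nb.2 ha) h1)).elim
      · exact Or.inr (Or.inr (Or.inr (Or.inr ⟨x, hx, ha, h1⟩)))

/-- Vertices of degree 2 adjacent to the star belong to the star. If `u = p` or `u ∈ Λ`: `v` is in
`ob G p u` (`dg G v = 2`, so `v ≠ p`) and `v ∈ thr G u v`. If `u` is a `T1` or `T2` object:
`v ∈ ZN G u`. If `u` is in `thr G c n` with `c = p` or `c ∈ Λ`, `n` of degree 2: `u = n` or the
second vertex: `v = c` is impossible (degree) and otherwise `v ∈ thr G c n`; `u` the third vertex: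
`v` is the second vertex or `F.four`. If `u ∈ ZN G t` for a `T1` or `T2` object `t`: `v ≠ t`, and
`F.thr v u t` gives `4 ≤ dg G t`: contradiction. -/
theorem star_Z (F : Facts G L) (hS : StarOK G p Λ) {u v : V} (hu : u ∈ star G p Λ)
    (huv : G.Adj u v) (hv : dg G v = 2) : v ∈ star G p Λ := by
  have hvp : v ≠ p := by
    rintro rfl
    have := hS.dgp
    omega
  rcases S01_mem_star.1 hu with rfl | ⟨n, hn, hvn⟩ | ⟨x, hx, rfl | ⟨n, hn, hvn⟩⟩
  · exact S01_mem_star.2 (Or.inr (Or.inl ⟨v, S01_mem_ob.2 ⟨hvp, huv, Or.inl hv⟩,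
      S01_root_mem_br⟩))
  · exact S01_mem_star.2 (Or.inr (Or.inl ⟨n, hn, S01_br_Z F hS.dgp hn hvn huv hv⟩))
  · exact S01_mem_star.2 (Or.inr (Or.inr ⟨u, hx, Or.inr ⟨v, S01_mem_ob.2 ⟨hvp, huv, Or.inl hv⟩,
      S01_root_mem_br⟩⟩))
  · have h4 := (hS.sub x hx).2
    exact S01_mem_star.2 (Or.inr (Or.inr ⟨x, hx, Or.inr ⟨n, hn,
      S01_br_Z F (by omega) hn hvn huv hv⟩⟩))

theorem p_mem_star : p ∈ star G p Λ := by simp [star]

theorem Λ_sub_star : Λ ⊆ star G p Λ := by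
  intro x hx
  simp only [star, mem_insert, mem_union, mem_biUnion]
  exact Or.inr (Or.inr ⟨x, hx, by simp [brL]⟩)

/-- The branches are contained in the star (`ob G p p` for `x = p`, and `brL` for `x ∈ Λ`). -/
theorem br_sub_star {x n : V} (hx : x ∈ insert p Λ) (hn : n ∈ ob G p x) :
    br G x n ⊆ star G p Λ := by
  intro v hv
  rcases mem_insert.1 hx with rfl | hx
  · exact S01_mem_star.2 (Or.inr (Or.inl ⟨n, hn, hv⟩))
  · exact S01_mem_star.2 (Or.inr (Or.inr ⟨x, hx, Or.inr ⟨n, hn, hv⟩⟩))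

end Pool.Agent.Lib.MP_03175e_co
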