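import Pool.Agent.Lib.MP_03175e_co.S01

/-!
Row S02a. The ends are outside the star (paper section 4, (S1)).
In all proofs: suppose the end is in the star, use `star_cases`, and in every case there is a
closed walk of length 3, 4 or 5 (`F.short`). Adjacency `p x` for `x ∈ Λ` is `hS.sub`.
-/

namespace Pool.Agent.Lib.MP_03175e_co

open Finset Classical

variable {V : Type} [Fintype V] {G : SimpleGraph V} {L : V → Finset ℕ} {p : V} {Λ : Finset V}

/-- End `y` of a 1-thread `x n y`. `x = p`: `y = p` no; `y ∈ Λ` or `y` adjacent to `p`: c3 `p n y`;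
`y` adjacent to `x' ∈ Λ`: c4 `p n y x'`. `x ∈ Λ`: `y = p`: c3 `x n p`; `y ∈ Λ` or `y` adjacent to
`p`: c4 `p x n y`; `y` adjacent to `x' ∈ Λ`: c3 if `x' = x`, c5 `p x n y x'` otherwise. -/
theorem end_M1 (F : Facts G L) (hS : StarOK G p Λ) {x n y : V} (hx : x ∈ insert p Λ)
    (hxn : G.Adj x n) (hn : dg G n = 2) (hny : G.Adj n y) (hyx : y ≠ x) (hy : 3 ≤ dg G y) :
    y ∉ star G p Λ := by
  intro hstar
  have hpy : G.Adj p y → False := by
    intro hpy
    rcases mem_insert.mp hx with rfl | hx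
    · exact F.short.c3 x n y hxn hny hpy.symm
    · have h1 := hS.sub x hx
      refine F.short.c4 p x n y h1.1 hxn hny hpy.symm ?_ hyx.symm
      rintro rfl
      have := hS.dgp
      omega
  rcases star_cases hS hstar with h | h | h | h | ⟨x', hx', hxy, -⟩
  · omega
  · subst h
    rcases mem_insert.mp hx with rfl | hx
    · exact hyx rfl
    · exact F.short.c3 x n y hxn hny (hS.sub x hx).1
  · exact hpy (hS.sub y h).1
  · exact hpy h.1
  · have h2 := hS.sub x' hx'
    rcases mem_insert.mp hx with rfl | hx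
    · refine F.short.c4 x n y x' hxn hny hxy.symm h2.1.symm hyx.symm ?_
      rintro rfl
      omega
    · exact F.short.c5 p x n y x' (hS.sub x hx).1 hxn hny hxy.symm h2.1.symm

/-- End `y` of a 2-thread `x n m y`, `4 ≤ dg G y`, so `y = p` or `y ∈ Λ`. `x = p`: `y = p`: c3;
`y ∈ Λ`: c4 `p n m y`. `x ∈ Λ`: `y = p`: c4 `p x n m`; `y = x`: c3; `y ∈ Λ`: c5 `p x n m y`. -/
theorem end_M2 (F : Facts G L) (hS : StarOK G p Λ) {x n m y : V} (hx : x ∈ insert p Λ)
    (hxn : G.Adj x n) (hn : dg G n = 2) (hnm : G.Adj n m) (hmx : m ≠ x) (hm : dg G m = 2)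
    (hmy : G.Adj m y) (hyn : y ≠ n) (hy : 4 ≤ dg G y) : y ∉ star G p Λ := by
  intro hstar
  have h3 : y = p ∨ y ∈ Λ := by
    rcases star_cases hS hstar with h | h | h | ⟨-, h | h⟩ | ⟨x', -, -, h⟩
    · omega
    · exact Or.inl h
    · exact Or.inr h
    · have := h.1
      omega
    · have := h.1
      omega
    · have := h.1
      omega
  rcases h3 with rfl | hyL
  · rcases mem_insert.mp hx with rfl | hx
    · exact F.short.c3 x n m hxn hnm hmy
    · exact F.short.c4 y x n m (hS.sub x hx).1 hxn hnm hmy hyn hmx.symm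
  · have h4 := hS.sub y hyL
    rcases mem_insert.mp hx with rfl | hx
    · exact F.short.c4 x n m y hxn hnm hmy h4.1.symm hmx.symm hyn.symm
    · exact F.short.c5 p x n m y (hS.sub x hx).1 hxn hnm hmy h4.1.symm

/-- End `y` of a 3-thread. `x = p`: `y = p`: c4; `y ∈ Λ`: c5 `p v₁ v₂ v₃ y`. `x ∈ Λ`: `y = p`: c5
`p x v₁ v₂ v₃`; `y ∈ Λ`: `hS.thr3`. -/
theorem end_M3 (F : Facts G L) (hS : StarOK G p Λ) {x v₁ v₂ v₃ y : V} (hx : x ∈ insert p Λ)
    (h : Thr3 G x v₁ v₂ v₃ y) (hy : 4 ≤ dg G y) : y ∉ star G p Λ := by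
  intro hstar
  have h3 : y = p ∨ y ∈ Λ := by
    rcases star_cases hS hstar with h | h | h | ⟨-, h | h⟩ | ⟨x', -, -, h⟩
    · omega
    · exact Or.inl h
    · exact Or.inr h
    · have := h.1
      omega
    · have := h.1
      omega
    · have := h.1
      omega
  obtain ⟨a1, a2, a3, a4, d1, d2, d3, n1, n2, n3⟩ := id h
  rcases h3 with rfl | hyL
  · rcases mem_insert.mp hx with rfl | hx
    · exact F.short.c4 x v₁ v₂ v₃ a1 a2 a3 a4 n1.symm n2.symm
    · exact F.short.c5 y x v₁ v₂ v₃ (hS.sub x hx).1 a1 a2 a3 a4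
  · have h4 := hS.sub y hyL
    rcases mem_insert.mp hx with rfl | hx
    · exact F.short.c5 x v₁ v₂ v₃ y a1 a2 a3 a4 h4.1.symm
    · exact hS.thr3 x hx v₁ v₂ v₃ y h hyL

end Pool.Agent.Lib.MP_03175e_co
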