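import Pool.Agent.Lib.MP_03175e_co.S02a
import Pool.Agent.Lib.MP_03175e_co.S02b

/-!
Row S03a: branches of the star (paper section 4, (S2)).
-/

namespace Pool.Agent.Lib.MP_03175e_co

open Finset Classical

variable {V : Type} [Fintype V] {G : SimpleGraph V} {L : V → Finset ℕ} {p : V} {Λ : Finset V}

private theorem s03a_mem_nb {v w : V} : w ∈ nb G v ↔ G.Adj v w := by
  simp [nb]

/-- An object `n` at the centre `x` is a branch. `n ∈ ob G p x` has degree 2 (then in `M1`, `M2` or
`M3` of `x` by `nb_cases`, use `desc_M1`, `desc_M2`, `desc_M3` and `end_M1`, `end_M2`, `end_M3`) or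
is of type `T1` (then `x = p` by `hS.noT1`) or `T2` (use `desc_T1`, `desc_T2`, `end_T1`, `end_T1Y`,
`end_T2`). The sets `thr G x n` and `br G x n` are given explicitly by these lemmas, and the
neighbourhoods of all their elements too. -/
theorem branch_ob (F : Facts G L) (hS : StarOK G p Λ) {x n : V} (hx : x ∈ insert p Λ)
    (hn : n ∈ ob G p x) : Branch G (star G p Λ) (br G x n) x n ∧ Conn G (br G x n) n := by
  have hn' : (n ≠ p ∧ G.Adj x n) ∧ (dg G n = 2 ∨ IsT1 G n ∨ IsT2 G n) := by
    simpa only [ob, mem_filter, mem_erase, s03a_mem_nb] using hn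
  obtain ⟨⟨hnp, hxn⟩, hty⟩ := hn'
  have hx3 : 3 ≤ dg G x := by
    rcases mem_insert.1 hx with rfl | hx
    · exact hS.dgp
    · have := (hS.sub x hx).2
      omega
  have hxX : x ∈ star G p Λ := by
    rcases mem_insert.1 hx with rfl | hx
    · exact p_mem_star
    · exact Λ_sub_star hx
  have hsub : br G x n ⊆ star G p Λ := br_sub_star hx hn
  have key : ∀ B : Finset V, br G x n = B → n ∈ B → x ∉ B →
      (∀ b ∈ B, ∀ m ∈ nb G b, m ∈ star G p Λ → m ∈ B ∨ m = x) → Conn G B n →
      Branch G (star G p Λ) (br G x n) x n ∧ Conn G (br G x n) n := by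
    intro B hB h1 h2 h3 h4
    rw [hB] at hsub ⊢
    exact ⟨⟨h1, hxn, hsub, hxX, h2, h3⟩, h4⟩
  rcases hty with h2 | h1 | h2
  · have hbr : br G x n = thr G x n := by simp only [br, if_pos h2]
    have hZ : n ∈ ZN G x := mem_filter.2 ⟨s03a_mem_nb.2 hxn, h2⟩
    rw [(ZN_eq F.toFacts0 hx3).1, mem_union, mem_union] at hZ
    rcases hZ with (hM | hM) | hM
    · obtain ⟨y, hnn, hxy, hxn', hyn, -, hy3, hthr⟩ := desc_M1 F.toFacts0 hx3 hM
      have hny : G.Adj n y := s03a_mem_nb.1 (by rw [hnn]; simp)
      have hyX : y ∉ star G p Λ := end_M1 F hS hx hxn h2 hny (Ne.symm hxy) hy3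
      refine key {n} (hbr.trans hthr) (by simp) (by simpa using hxn') ?_ ?_
      · intro b hb m hm hmX
        rw [mem_singleton] at hb
        subst hb
        rw [hnn, mem_insert, mem_singleton] at hm
        rcases hm with rfl | rfl
        · exact Or.inr rfl
        · exact absurd hmX hyX
      · intro b hb
        exact Or.inl (mem_singleton.1 hb)
    · obtain ⟨m, y, hnn, hnm, hxn', hxm, hnm', hyn, hym, hyx, -, hm2, hy4, hthr⟩ :=
        desc_M2 F.toFacts0 hx3 hM
      have hnm_adj : G.Adj n m := s03a_mem_nb.1 (by rw [hnn]; simp)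
      have hmy : G.Adj m y := s03a_mem_nb.1 (by rw [hnm]; simp)
      have hyX : y ∉ star G p Λ :=
        end_M2 F hS hx hxn h2 hnm_adj (Ne.symm hxm) hm2 hmy hyn hy4
      refine key {n, m} (hbr.trans hthr) (by simp) (by simp [hxn', hxm]) ?_ ?_
      · intro b hb m' hm' hmX
        rw [mem_insert, mem_singleton] at hb
        rcases hb with rfl | rfl
        · rw [hnn, mem_insert, mem_singleton] at hm'
          rcases hm' with rfl | rfl
          · exact Or.inr rfl
          · exact Or.inl (by simp)
        · rw [hnm, mem_insert, mem_singleton] at hm'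
          rcases hm' with rfl | rfl
          · exact Or.inl (by simp)
          · exact absurd hmX hyX
      · intro b hb
        rw [mem_insert, mem_singleton] at hb
        rcases hb with rfl | rfl
        · exact Or.inl rfl
        · exact Or.inr (Or.inl hnm_adj.symm)
    · obtain ⟨m, m', y, hnn, hnm, hnm', hxn', hxm, hxm', hnm1, hnm2, hmm', hyx, -, hm2, hm2', hy4,
        hthr, hT⟩ := desc_M3 F.toFacts0 hx3 hM
      have hnm_adj : G.Adj n m := s03a_mem_nb.1 (by rw [hnn]; simp)
      have hmm_adj : G.Adj m m' := s03a_mem_nb.1 (by rw [hnm]; simp)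
      have hyX : y ∉ star G p Λ := end_M3 F hS hx hT hy4
      refine key {n, m, m'} (hbr.trans hthr) (by simp) (by simp [hxn', hxm, hxm']) ?_ ?_
      · intro b hb c hc hcX
        rw [mem_insert, mem_insert, mem_singleton] at hb
        rcases hb with rfl | rfl | rfl
        · rw [hnn, mem_insert, mem_singleton] at hc
          rcases hc with rfl | rfl
          · exact Or.inr rfl
          · exact Or.inl (by simp)
        · rw [hnm, mem_insert, mem_singleton] at hc
          rcases hc with rfl | rfl
          · exact Or.inl (by simp)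
          · exact Or.inl (by simp)
        · rw [hnm', mem_insert, mem_singleton] at hc
          rcases hc with rfl | rfl
          · exact Or.inl (by simp)
          · exact absurd hcX hyX
      · intro b hb
        rw [mem_insert, mem_insert, mem_singleton] at hb
        rcases hb with rfl | rfl | rfl
        · exact Or.inl rfl
        · exact Or.inr (Or.inl hnm_adj.symm)
        · exact Or.inr (Or.inr (Or.inl ⟨m, by simp, hmm_adj.symm, hnm_adj.symm⟩))
  · have hxp : x = p := by
      rcases mem_insert.1 hx with h | h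
      · exact h
      · exact absurd (hS.noT1 x h n (s03a_mem_nb.2 hxn) h1) hnp
    subst hxp
    obtain ⟨w, z, y, hnn, hnz, -, hxw, hxz, hwz, hxn', hwn, hzn, hyn, hyz, -, hw4, hz2, hy3,
      hbr⟩ := desc_T1 F hx3 hxn h1
    have hnw : G.Adj n w := s03a_mem_nb.1 (by rw [hnn]; simp)
    have hnz_adj : G.Adj n z := s03a_mem_nb.1 (by rw [hnn]; simp)
    have hzy : G.Adj z y := s03a_mem_nb.1 (by rw [hnz]; simp)
    have hwX : w ∉ star G x Λ := end_T1Y F hS hxn hnw (Ne.symm hxw) hw4
    have hyX : y ∉ star G x Λ := end_T1 F hS hxn hnz_adj hz2 hzy hyn (Ne.symm hxz) hy3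
    refine key {n, z} hbr (by simp) (by simp [hxn', hxz]) ?_ ?_
    · intro b hb c hc hcX
      rw [mem_insert, mem_singleton] at hb
      rcases hb with rfl | rfl
      · rw [hnn, mem_insert, mem_insert, mem_singleton] at hc
        rcases hc with rfl | rfl | rfl
        · exact Or.inr rfl
        · exact absurd hcX hwX
        · exact Or.inl (by simp)
      · rw [hnz, mem_insert, mem_singleton] at hc
        rcases hc with rfl | rfl
        · exact Or.inl (by simp)
        · exact absurd hcX hyX
    · intro b hb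
      rw [mem_insert, mem_singleton] at hb
      rcases hb with rfl | rfl
      · exact Or.inl rfl
      · exact Or.inr (Or.inl hnz_adj.symm)
  · obtain ⟨z₁, z₂, y₁, y₂, hnn, hnz1, hnz2, -, hxz1, hxz2, hz12, hxn', hz1n, hz2n, hy1n, hy2n,
      hy12, -, hz1d, hz2d, hy1d, hy2d, hbr⟩ := desc_T2 F hx3 hxn h2
    have hnz1_adj : G.Adj n z₁ := s03a_mem_nb.1 (by rw [hnn]; simp)
    have hnz2_adj : G.Adj n z₂ := s03a_mem_nb.1 (by rw [hnn]; simp)
    have hzy1 : G.Adj z₁ y₁ := s03a_mem_nb.1 (by rw [hnz1]; simp)
    have hzy2 : G.Adj z₂ y₂ := s03a_mem_nb.1 (by rw [hnz2]; simp)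
    have hy1X : y₁ ∉ star G p Λ :=
      end_T2 F hS hx hxn hnz1_adj hz1d hzy1 hy1n (Ne.symm hxz1) hy1d
    have hy2X : y₂ ∉ star G p Λ :=
      end_T2 F hS hx hxn hnz2_adj hz2d hzy2 hy2n (Ne.symm hxz2) hy2d
    refine key {n, z₁, z₂} hbr (by simp) (by simp [hxn', hxz1, hxz2]) ?_ ?_
    · intro b hb c hc hcX
      rw [mem_insert, mem_insert, mem_singleton] at hb
      rcases hb with rfl | rfl | rfl
      · rw [hnn, mem_insert, mem_insert, mem_singleton] at hc
        rcases hc with rfl | rfl | rfl
        · exact Or.inr rfl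
        · exact Or.inl (by simp)
        · exact Or.inl (by simp)
      · rw [hnz1, mem_insert, mem_singleton] at hc
        rcases hc with rfl | rfl
        · exact Or.inl (by simp)
        · exact absurd hcX hy1X
      · rw [hnz2, mem_insert, mem_singleton] at hc
        rcases hc with rfl | rfl
        · exact Or.inl (by simp)
        · exact absurd hcX hy2X
    · intro b hb
      rw [mem_insert, mem_insert, mem_singleton] at hb
      rcases hb with rfl | rfl | rfl
      · exact Or.inl rfl
      · exact Or.inr (Or.inl hnz1_adj.symm)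
      · exact Or.inr (Or.inl hnz2_adj.symm)

end Pool.Agent.Lib.MP_03175e_co
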