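import Pool.Agent.Lib.MP_03175e_co.S02a
import Pool.Agent.Lib.MP_03175e_co.S02b

/-!
Row S03b: adjacency of the branches of the star (paper section 4, (S2)).
-/

namespace Pool.Agent.Lib.MP_03175e_co

open Finset Classical

variable {V : Type} [Fintype V] {G : SimpleGraph V} {L : V → Finset ℕ} {p : V} {Λ : Finset V}

/-- The elements of a branch: the root, or a vertex of degree two at distance one or two of the
root. -/
theorem s03b_mem_br {x n b : V} (hb : b ∈ br G x n) (hx : 3 ≤ dg G x) :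
    b = n ∨ (dg G b = 2 ∧ G.Adj n b ∧ b ≠ x) ∨
      (dg G b = 2 ∧ ∃ m, G.Adj n m ∧ m ≠ x ∧ G.Adj m b ∧ b ≠ n) := by
  unfold br at hb
  split_ifs at hb with h
  · unfold thr at hb
    rw [Finset.mem_filter] at hb
    rcases hb.2 with h1 | ⟨h1, h2, h3⟩ | ⟨h1, m, h2, h3, h4, h5, h6⟩
    · exact Or.inl h1
    · exact Or.inr (Or.inl ⟨h1, h2, h3⟩)
    · exact Or.inr (Or.inr ⟨h1, m, h3, h4, h5, h6⟩)
  · rw [Finset.mem_insert] at hb
    rcases hb with h1 | h1
    · exact Or.inl h1
    · unfold ZN at h1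
      rw [Finset.mem_filter] at h1
      refine Or.inr (Or.inl ⟨h1.2, mem_nb.mp h1.1, ?_⟩)
      rintro rfl
      have := h1.2
      omega

/-- Elements of the branch of an object `n` at `x` that are adjacent to `x` are equal to `n`, and
no element is adjacent to `p` if `x ∈ Λ`; `p ∉ br G x n`. (Explicit description of `br`; closed
walks of length 3, 4, 5.) -/
theorem br_adj (F : Facts G L) (hS : StarOK G p Λ) {x n b : V} (hx : x ∈ insert p Λ)
    (hn : n ∈ ob G p x) (hb : b ∈ br G x n) :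
    b ≠ p ∧ (G.Adj x b → b = n) ∧ (x ≠ p → ¬ G.Adj p b) := by
  have hdx : 3 ≤ dg G x := by
    rcases Finset.mem_insert.mp hx with h | h
    · rw [h]; exact hS.dgp
    · have := (hS.sub x h).2
      omega
  have hdp : 3 ≤ dg G p := hS.dgp
  unfold ob at hn
  rw [Finset.mem_filter, Finset.mem_erase, mem_nb] at hn
  obtain ⟨⟨hnp, hxn⟩, -⟩ := hn
  have hpx : x ≠ p → G.Adj p x := by
    intro h
    rcases Finset.mem_insert.mp hx with h1 | h1
    · exact absurd h1 h
    · exact (hS.sub x h1).1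
  rcases s03b_mem_br hb hdx with h | ⟨h1, h2, h3⟩ | ⟨h1, m, h2, h3, h4, h5⟩
  · subst h
    refine ⟨hnp, fun _ => rfl, fun hne hpb => ?_⟩
    exact F.short.c3 p b x hpb hxn.symm (hpx hne).symm
  · refine ⟨?_, fun hxb => ?_, fun hne hpb => ?_⟩
    · rintro rfl
      omega
    · exact (F.short.c3 x n b hxn h2 hxb.symm).elim
    · exact F.short.c4 p b n x hpb h2.symm hxn.symm (hpx hne).symm hnp.symm h3
  · refine ⟨?_, fun hxb => ?_, fun hne hpb => ?_⟩
    · rintro rfl
      omega
    · exact (F.short.c4 x n m b hxn h2 h4 hxb.symm h3.symm h5.symm).elim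
    · exact F.short.c5 p b m n x hpb h4.symm h2.symm hxn.symm (hpx hne).symm

end Pool.Agent.Lib.MP_03175e_co
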