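import Pool.Agent.Lib.MP_03175e_co.S03a
import Pool.Agent.Lib.MP_03175e_co.S03b

/-!
Row S03c: branches of second centres (paper section 4, (S2)).
-/

namespace Pool.Agent.Lib.MP_03175e_co

open Finset Classical

variable {V : Type} [Fintype V] {G : SimpleGraph V} {L : V → Finset ℕ} {p : V} {Λ : Finset V}

/-- elements of a branch are joined to the root by a path of length at most two -/
theorem S03c_conn {x n b : V} (hb : b ∈ br G x n) :
    b = n ∨ G.Adj b n ∨ ∃ b₁ ∈ br G x n, G.Adj b b₁ ∧ G.Adj b₁ n := by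
  unfold br at hb ⊢
  split_ifs at hb ⊢ with h
  · unfold thr at hb ⊢
    rw [mem_filter] at hb
    rcases hb.2 with h1 | h1 | ⟨h1, m, hm, hnm, hmx, hmb, hbn⟩
    · exact Or.inl h1
    · exact Or.inr (Or.inl h1.2.1.symm)
    · refine Or.inr (Or.inr ⟨m, ?_, hmb.symm, hnm.symm⟩)
      rw [mem_filter]
      exact ⟨mem_univ _, Or.inr (Or.inl ⟨hm, hnm, hmx⟩)⟩
  · rw [mem_insert] at hb
    rcases hb with hb | hb
    · exact Or.inl hb
    · unfold ZN at hb
      rw [mem_filter, mem_nb] at hb
      exact Or.inr (Or.inl hb.1.symm)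

/-- membership in the branch of a second centre -/
theorem S03c_mem {x b : V} : b ∈ brL G p x ↔ b = x ∨ ∃ n ∈ ob G p x, b ∈ br G x n := by
  unfold brL
  rw [mem_insert, mem_biUnion]

/-- the elements of `ob` -/
theorem S03c_ob {x n : V} : n ∈ ob G p x ↔
    (n ≠ p ∧ G.Adj x n) ∧ (dg G n = 2 ∨ IsT1 G n ∨ IsT2 G n) := by
  unfold ob
  rw [mem_filter, mem_erase, mem_nb]

/-- The branch of a second centre. `closed`: for `b = x` the neighbours in the star are `p` and
the objects (`out_Y`, `out_T0`); for `b ∈ br G x n`: `branch_ob` (its `closed`: `n = x` is in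
`brL`). `Conn`: elements of `br G x n` are connected to `n` by a path of length at most 2 and `n`
is adjacent to `x`; use the explicit descriptions. -/
theorem branch_L (F : Facts G L) (hS : StarOK G p Λ) {x : V} (hx : x ∈ Λ) :
    Branch G (star G p Λ) (brL G p x) p x ∧ Conn G (brL G p x) x := by
  have hpx : G.Adj p x := (hS.sub x hx).1
  have hx4 : 4 ≤ dg G x := (hS.sub x hx).2
  have hxp : x ≠ p := hpx.ne'
  have hx' : x ∈ insert p Λ := mem_insert_of_mem hx
  refine ⟨⟨?_, hpx, ?_, p_mem_star, ?_, ?_⟩, ?_⟩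
  · exact S03c_mem.2 (Or.inl rfl)
  · intro b hb
    rcases S03c_mem.1 hb with rfl | ⟨n, hn, hbn⟩
    · exact Λ_sub_star hx
    · exact br_sub_star hx' hn hbn
  · intro hp
    rcases S03c_mem.1 hp with h | ⟨n, hn, hbn⟩
    · exact hxp h.symm
    · exact (br_adj F hS hx' hn hbn).1 rfl
  · intro b hb m hm hmX
    rcases S03c_mem.1 hb with rfl | ⟨n, hn, hbn⟩
    · by_cases hmp : m = p
      · exact Or.inr hmp
      · left
        have hadj : G.Adj b m := mem_nb.1 hm
        have key : (dg G m = 2 ∨ IsT1 G m ∨ IsT2 G m) → m ∈ brL G p b := by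
          intro h
          have hmo : m ∈ ob G p b := S03c_ob.2 ⟨⟨hmp, hadj⟩, h⟩
          exact S03c_mem.2 (Or.inr ⟨m, hmo, (branch_ob F hS hx' hmo).1.root⟩)
        rcases nb_cases F (by omega : 3 ≤ dg G b) hm with h | h | h | h | h | h | h
        · exact absurd hmX (out_Y F hS hx' hm (mem_filter.1 h).2 hmp fun h' => absurd h' hxp)
        · exact absurd hmX (out_T0 F hS hx' hm (mem_filter.1 h).2 hmp).1
        · exact key (Or.inr (Or.inl (mem_filter.1 h).2))
        · exact key (Or.inr (Or.inr (mem_filter.1 h).2))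
        · exact key (Or.inl (mem_filter.1 h).2.1)
        · exact key (Or.inl (mem_filter.1 h).2.1)
        · exact key (Or.inl (mem_filter.1 h).2.1)
    · left
      rcases (branch_ob F hS hx' hn).1.closed b hbn m hm hmX with h | h
      · exact S03c_mem.2 (Or.inr ⟨n, hn, h⟩)
      · exact S03c_mem.2 (Or.inl h)
  · intro b hb
    rcases S03c_mem.1 hb with rfl | ⟨n, hn, hbn⟩
    · exact Or.inl rfl
    · have hxn : G.Adj x n := (S03c_ob.1 hn).1.2
      have hnB : n ∈ brL G p x := S03c_mem.2 (Or.inr ⟨n, hn, (branch_ob F hS hx' hn).1.root⟩)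
      rcases S03c_conn hbn with rfl | h | ⟨b₁, hb1, h1, h2⟩
      · exact Or.inr (Or.inl hxn.symm)
      · exact Or.inr (Or.inr (Or.inl ⟨n, hnB, h, hxn.symm⟩))
      · exact Or.inr (Or.inr (Or.inr ⟨b₁, S03c_mem.2 (Or.inr ⟨n, hn, hb1⟩), n, hnB, h1, h2,
          hxn.symm⟩))

end Pool.Agent.Lib.MP_03175e_co
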