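import Pool.Agent.Lib.MP_03175e_co.S03c

/-!
Row S04: disjointness of the branches of the star (paper section 4, (S2)).
-/

namespace Pool.Agent.Lib.MP_03175e_co

open Finset Classical

variable {V : Type} [Fintype V] {G : SimpleGraph V} {L : V → Finset ℕ} {p : V} {Λ : Finset V}

theorem S04_adj_ob {x n : V} (hn : n ∈ ob G p x) : G.Adj x n ∧ ¬ 4 ≤ dg G n := by
  simp only [ob, mem_filter, mem_erase, mem_nb] at hn
  refine ⟨hn.1.2, ?_⟩
  rcases hn.2 with h | h | h
  · omega
  · have := h.1
    omega
  · have := h.1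
    omega

/-- By `Branch.disjoint'`: `n' ∉ br G x n` because `n'` is adjacent to `x` (`br_adj`). -/
theorem disjoint_ob (F : Facts G L) (hS : StarOK G p Λ) {x n n' : V} (hx : x ∈ insert p Λ)
    (hn : n ∈ ob G p x) (hn' : n' ∈ ob G p x) (hne : n ≠ n') :
    Disjoint (br G x n) (br G x n') := by
  have h1 := branch_ob F hS hx hn
  have h2 := branch_ob F hS hx hn'
  refine Branch.disjoint' h1.1 h2.1 h2.2 fun hmem => ?_
  exact hne ((br_adj F hS hx hn hmem).2.1 (S04_adj_ob hn').1).symm

/-- the branch of the neighbour `n` of `p` -/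
noncomputable def brTop (G : SimpleGraph V) (p n : V) : Finset V :=
  if 4 ≤ dg G n then brL G p n else br G p n

theorem S04_top_ob {n : V} (hn : n ∈ ob G p p) : brTop G p n = br G p n := by
  simp only [brTop, (S04_adj_ob hn).2, if_false]

theorem S04_top_L (hS : StarOK G p Λ) {n : V} (hn : n ∈ Λ) : brTop G p n = brL G p n := by
  simp only [brTop, (hS.sub n hn).2, if_true]

theorem S04_branch (F : Facts G L) (hS : StarOK G p Λ) {n : V} (hn : n ∈ ob G p p ∪ Λ) :
    Branch G (star G p Λ) (brTop G p n) p n ∧ Conn G (brTop G p n) n := by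
  rcases mem_union.1 hn with hn | hn
  · rw [S04_top_ob hn]
    exact branch_ob F hS (mem_insert_self _ _) hn
  · rw [S04_top_L hS hn]
    exact branch_L F hS hn

theorem S04_adj (F : Facts G L) (hS : StarOK G p Λ) {n b : V} (hn : n ∈ ob G p p ∪ Λ)
    (hb : b ∈ brTop G p n) (hpb : G.Adj p b) : b = n := by
  rcases mem_union.1 hn with hn | hn
  · rw [S04_top_ob hn] at hb
    exact (br_adj F hS (mem_insert_self _ _) hn hb).2.1 hpb
  · rw [S04_top_L hS hn] at hb
    simp only [brL, mem_insert, mem_biUnion] at hb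
    rcases hb with rfl | ⟨k, hk, hbk⟩
    · rfl
    · have hnp : n ≠ p := (hS.sub n hn).1.ne'
      exact ((br_adj F hS (mem_insert_of_mem hn) hk hbk).2.2 hnp hpb).elim

/-- The top branches are pairwise disjoint branches at `p`. `n ∈ ob G p p` has degree 2 or 3,
`n ∈ Λ` has degree at least 4. Elements of a branch adjacent to `p` are equal to the root: for
`n ∈ ob G p p` by `br_adj` with `x = p`, for `n ∈ Λ` by `br_adj` with `x = n` (third part). -/
theorem branch_top (F : Facts G L) (hS : StarOK G p Λ) :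
    (∀ n ∈ ob G p p ∪ Λ, Branch G (star G p Λ) (brTop G p n) p n) ∧
      (∀ n ∈ ob G p p ∪ Λ, ∀ n' ∈ ob G p p ∪ Λ, n ≠ n' →
        Disjoint (brTop G p n) (brTop G p n')) ∧
      star G p Λ = insert p ((ob G p p ∪ Λ).biUnion (brTop G p)) := by
  refine ⟨fun n hn => (S04_branch F hS hn).1, fun n hn n' hn' hne => ?_, ?_⟩
  · refine Branch.disjoint' (S04_branch F hS hn).1 (S04_branch F hS hn').1
      (S04_branch F hS hn').2 fun hmem => ?_
    exact hne (S04_adj F hS hn hmem (S04_branch F hS hn').1.adj).symm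
  · have e1 : (ob G p p).biUnion (br G p) = (ob G p p).biUnion (brTop G p) :=
      Finset.biUnion_congr rfl fun n hn => (S04_top_ob hn).symm
    have e2 : Λ.biUnion (brL G p) = Λ.biUnion (brTop G p) :=
      Finset.biUnion_congr rfl fun n hn => (S04_top_L hS hn).symm
    rw [star, e1, e2, Finset.union_biUnion]

end Pool.Agent.Lib.MP_03175e_co
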